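import Pool.Agent.MP_f0209c_nt.Rg.Bas

/-! The local argument. -/

namespace Pool.Agent.MP_f0209c_nt.Rg
open Complex Set Filter Topology ArithmeticFunction Ch Pp

namespace D0aux

lemma one_add (ζ : ℂ) : ‖1 + ζ‖ ≤ Real.exp (ζ.re + ‖ζ‖ ^ 2 / 2) := by
  have a : ‖1 + ζ‖ ^ 2 = 1 + (2 * ζ.re + ‖ζ‖ ^ 2) := by
    rw [Complex.sq_norm, Complex.sq_norm, normSq_apply, normSq_apply]; simp; ring
  have b : Real.exp (ζ.re + ‖ζ‖ ^ 2 / 2) ^ 2 = Real.exp (2 * ζ.re + ‖ζ‖ ^ 2) := by
    rw [← Real.exp_nat_mul]; congr 1; push_cast; ring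
  refine (sq_le_sq₀ (norm_nonneg _) (Real.exp_pos _).le).1 ?_
  rw [a, b]; linarith [Real.add_one_le_exp (2 * ζ.re + ‖ζ‖ ^ 2)]

lemma one_add_inv (ζ : ℂ) {θ : ℝ} (h0 : 0 < θ) (h1 : θ ≤ 1) (h : θ ≤ ‖1 + ζ‖) :
    1 ≤ ‖1 + ζ‖ * Real.exp (-ζ.re + 2 * ‖ζ‖ ^ 2 / θ ^ 2) := by
  have p : 0 < ‖1 + ζ‖ := h0.trans_le h
  have n : 1 + ζ ≠ 0 := norm_pos_iff.1 p
  have e : (1 + ζ) * (1 + -ζ / (1 + ζ)) = 1 := by field_simp; ring
  have e2 : -ζ / (1 + ζ) = -ζ + ζ ^ 2 / (1 + ζ) := by field_simp; ring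
  have a : ‖-ζ / (1 + ζ)‖ ≤ ‖ζ‖ / θ := by
    rw [norm_div, norm_neg]; exact div_le_div_of_nonneg_left (norm_nonneg _) h0 h
  have a2 : ‖-ζ / (1 + ζ)‖ ^ 2 ≤ ‖ζ‖ ^ 2 / θ ^ 2 := by
    rw [← div_pow]; exact pow_le_pow_left₀ (norm_nonneg _) a 2
  have b : (ζ ^ 2 / (1 + ζ)).re ≤ ‖ζ‖ ^ 2 / θ ^ 2 := by
    refine (re_le_norm _).trans ?_
    rw [norm_div, norm_pow]
    exact div_le_div_of_nonneg_left (by positivity) (by positivity) (by nlinarith)
  have c : (-ζ / (1 + ζ)).re = -ζ.re + (ζ ^ 2 / (1 + ζ)).re := by rw [e2]; simp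
  have d : 0 ≤ ‖ζ‖ ^ 2 / θ ^ 2 := by positivity
  calc (1 : ℝ) = ‖1 + ζ‖ * ‖1 + -ζ / (1 + ζ)‖ := by rw [← norm_mul, e, norm_one]
    _ ≤ _ := by
      refine mul_le_mul_of_nonneg_left ((one_add _).trans (Real.exp_le_exp.2 ?_)) p.le
      rw [c, mul_div_assoc]; linarith

lemma taylor {r μ : ℝ} {l : ℂ → ℂ} (h : Win r μ l) {z w : ℂ} (hz : z ∈ Metric.ball (0 : ℂ) r)
    (hw : w ∈ Metric.ball (0 : ℂ) r) : ‖l z - l w - (z - w) * deriv l w‖ ≤ ‖z - w‖ ^ 2 * μ := by
  have o : IsOpen (Metric.ball (0 : ℂ) r) := Metric.isOpen_ball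
  have cv : Convex ℝ (Metric.ball (0 : ℂ) r) := convex_ball _ _
  have m0 : 0 ≤ μ := (norm_nonneg _).trans (h.dd w hw)
  have a : ∀ u ∈ Metric.ball (0 : ℂ) r, ‖deriv l u - deriv l w‖ ≤ μ * ‖u - w‖ := fun u hu =>
    cv.norm_image_sub_le_of_norm_deriv_le
      (fun v hv => (h.diff.deriv o).differentiableAt (o.mem_nhds hv)) h.dd hw hu
  have sub : segment ℝ w z ⊆ Metric.ball (0 : ℂ) r := cv.segment_subset hw hz
  have b := (convex_segment (𝕜 := ℝ) w z).norm_image_sub_le_of_norm_hasDerivWithin_le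
    (f := fun u => l u - u * deriv l w) (f' := fun u => deriv l u - deriv l w) (C := μ * ‖z - w‖)
    (fun u hu => by
      have := ((h.diff.differentiableAt (o.mem_nhds (sub hu))).hasDerivAt.sub
        ((hasDerivAt_id u).mul_const (deriv l w))).hasDerivWithinAt (s := segment ℝ w z)
      rw [one_mul] at this
      exact this)
    (fun u hu => (a u (sub hu)).trans (mul_le_mul_of_nonneg_left (by
      have := dist_add_dist_of_mem_segment hu
      rw [dist_comm w u, dist_comm w z, dist_eq_norm, dist_eq_norm z w] at this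
      linarith [dist_nonneg (x := u) (y := z)]) m0))
    (left_mem_segment ℝ w z) (right_mem_segment ℝ w z)
  calc _ = ‖l z - z * deriv l w - (l w - w * deriv l w)‖ := by congr 1; ring
    _ ≤ μ * ‖z - w‖ * ‖z - w‖ := b
    _ = _ := by ring

end D0aux

open D0aux in
theorem D0 : D0_s := by
  intro r μ l A J x z w h hz hw h0
  have n : ∀ j, w - x j * I ≠ 0 := fun j e => by
    have := congrArg re e
    simp at this; linarith
  have e : ∀ j, z - x j * I = (w - x j * I) * (1 + (z - w) * (w - x j * I)⁻¹) := fun j => by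
    have := n j; field_simp; ring
  have t := taylor h hz hw
  have s1 : ∑ j ∈ J, ((z - w) * (w - x j * I)⁻¹).re + ((z - w) * deriv l w).re =
      ((z - w) * ld J x l w).re := by
    unfold ld; rw [mul_add, add_re, Finset.mul_sum, re_sum]
  have s2 : ∑ j ∈ J, ‖(z - w) * (w - x j * I)⁻¹‖ ^ 2 =
      ‖z - w‖ ^ 2 * ∑ j ∈ J, ‖w - x j * I‖⁻¹ ^ 2 := by
    rw [Finset.mul_sum]; exact Finset.sum_congr rfl fun j _ => by rw [norm_mul, norm_inv, mul_pow]
  have s3 := abs_le.1 ((abs_re_le_norm ((z - w) * ld J x l w)).trans (norm_mul _ _).le)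
  have s4 := abs_le.1 ((abs_re_le_norm _).trans t)
  rw [sub_re, sub_re] at s4
  have f : ‖fJ A J x l z‖ = ‖fJ A J x l w‖ * ((∏ j ∈ J, ‖1 + (z - w) * (w - x j * I)⁻¹‖) *
      Real.exp ((l z).re - (l w).re)) := by
    unfold fJ
    rw [Finset.prod_congr rfl fun j _ => e j, Finset.prod_mul_distrib]
    simp only [norm_mul, norm_exp, norm_prod]
    rw [show (l z).re = (l w).re + ((l z).re - (l w).re) by ring, Real.exp_add,
      add_sub_cancel_left]
    ring
  refine ⟨?_, ?_, fun θ a b c => ?_⟩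
  · have q : (ld J x l w).re = w.re * ∑ j ∈ J, ‖w - x j * I‖⁻¹ ^ 2 + (deriv l w).re := by
      unfold ld
      rw [add_re, re_sum, Finset.mul_sum]
      congr 1
      refine Finset.sum_congr rfl fun j _ => ?_
      rw [inv_re, inv_pow, Complex.sq_norm]; simp [div_eq_mul_inv]
    have a := abs_le.1 (abs_re_le_norm (ld J x l w))
    have b := abs_le.1 (h.re w hw)
    rw [abs_le]; constructor <;> linarith [a.1, a.2, b.1, b.2]
  · rw [f]
    refine mul_le_mul_of_nonneg_left ?_ (norm_nonneg _)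
    refine (mul_le_mul_of_nonneg_right (Finset.prod_le_prod (fun j _ => norm_nonneg _)
      fun j _ => one_add _) (Real.exp_pos _).le).trans ?_
    rw [← Real.exp_sum, ← Real.exp_add, Finset.sum_add_distrib, ← Finset.sum_div, s2]
    refine Real.exp_le_exp.2 ?_
    linarith [s3.2, s4.2]
  · have g : 1 ≤ (∏ j ∈ J, ‖1 + (z - w) * (w - x j * I)⁻¹‖) * Real.exp (∑ j ∈ J,
        (-((z - w) * (w - x j * I)⁻¹).re + 2 * ‖(z - w) * (w - x j * I)⁻¹‖ ^ 2 / θ ^ 2)) := by
      rw [Real.exp_sum, ← Finset.prod_mul_distrib]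
      refine (Finset.prod_const_one (s := J)).symm.le.trans
        (Finset.prod_le_prod (fun _ _ => zero_le_one) fun j hj => one_add_inv _ a b ?_)
      have := c j hj
      rw [e j, norm_mul, mul_comm θ] at this
      exact le_of_mul_le_mul_left this (norm_pos_iff.2 (n j))
    rw [f, mul_assoc, mul_assoc, ← Real.exp_add]
    refine le_mul_of_one_le_right (norm_nonneg _) (g.trans (mul_le_mul_of_nonneg_left
      (Real.exp_le_exp.2 ?_) (Finset.prod_nonneg fun j _ => norm_nonneg _)))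
    rw [Finset.sum_add_distrib, ← Finset.sum_div, ← Finset.mul_sum, s2, Finset.sum_neg_distrib]
    have : 2 * (‖z - w‖ ^ 2 * ∑ j ∈ J, ‖w - x j * I‖⁻¹ ^ 2) / θ ^ 2 =
        ‖z - w‖ ^ 2 * (2 * (∑ j ∈ J, ‖w - x j * I‖⁻¹ ^ 2) / θ ^ 2) := by ring
    rw [this, mul_add]
    linarith [s3.1, s4.1]

end Pool.Agent.MP_f0209c_nt.Rg

namespace Pool.Agent.MP_f0209c_nt.Rg
open Complex Set Filter Topology ArithmeticFunction Ch Pp

lemma D1aux.exp_le_two {t : ℝ} (h : t ≤ 1 / 2) : Real.exp t ≤ 2 := by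
  have a := Real.log_two_gt_d9
  calc Real.exp t ≤ Real.exp (Real.log 2) := Real.exp_le_exp.2 (by linarith)
    _ = 2 := Real.exp_log (by norm_num)

theorem D1 (h0 : D0_s) : D1_s := fun p A J x l R h z hz => by
  have ok := h.ok
  have xb := ok.xb
  have bx := ok.bx
  have b0 : 0 < p.b := by linarith
  have zr := abs_le.1 ((abs_re_le_norm z).trans hz)
  have m1 := (ok.ball (z := z) (by linarith)).2
  have m2 := (ok.ball (z := 0) (by rw [norm_zero]; linarith)).2
  rw [zero_add] at m2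
  obtain ⟨a1, a2, a3⟩ := h0 p.r p.μ l A J x (z + p.b) p.b h.win (mem_ball_zero_iff.2 m1)
    (mem_ball_zero_iff.2 m2) (by simpa using b0)
  have a4 := a3 (1 / 2) (by norm_num) (by norm_num) fun j _ => by
    have c1 : p.b ≤ ‖(p.b : ℂ) - x j * I‖ := by simpa using re_le_norm ((p.b : ℂ) - x j * I)
    have c2 := norm_sub_le (z + p.b - x j * I) z
    rw [show z + p.b - x j * I - z = p.b - x j * I by ring] at c2
    linarith
  rw [add_sub_cancel_right] at a2 a4
  rw [ofReal_re] at a1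
  set S := ∑ j ∈ J, ‖(p.b : ℂ) - x j * I‖⁻¹ ^ 2 with hS
  have S0 : 0 ≤ S := Finset.sum_nonneg fun _ _ => sq_nonneg _
  set d := ‖ld J x l p.b‖ with hd
  have d0 : 0 ≤ d := norm_nonneg _
  have far : d * (100 * p.X) ≤ 1 := h.far
  have d1 : d ≤ 1 / 100 := by nlinarith
  have s1 : p.b * S ≤ 1 := by linarith [(abs_le.1 a1).2, ok.μ2]
  have s2 : 1000 * p.X ^ 2 * S ≤ 1 := (mul_le_mul_of_nonneg_right ok.b1 S0).trans s1
  have z0 := norm_nonneg z
  have z2 : ‖z‖ ^ 2 ≤ 16 * p.X ^ 2 := by nlinarith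
  have e1 : ‖z‖ * d ≤ 1 / 25 := by nlinarith [mul_le_mul_of_nonneg_right hz d0]
  have e2 : ‖z‖ ^ 2 * S ≤ 16 / 1000 := by nlinarith [mul_le_mul_of_nonneg_right z2 S0]
  have e3 : ‖z‖ ^ 2 * p.μ ≤ 16 / 1000 := by
    nlinarith [mul_le_mul_of_nonneg_right z2 ok.m0, ok.m1]
  refine ⟨fJ_ne' h.a0 (by simp only [add_re, ofReal_re]; linarith [zr.1]), ?_, ?_⟩
  · rw [mul_comm 2]
    exact a2.trans (mul_le_mul_of_nonneg_left (D1aux.exp_le_two (by nlinarith)) (norm_nonneg _))
  · rw [mul_comm 2]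
    refine a4.trans (mul_le_mul_of_nonneg_left (D1aux.exp_le_two ?_) (norm_nonneg _))
    rw [show 2 * S / (1 / 2) ^ 2 = 8 * S by ring]
    nlinarith

end Pool.Agent.MP_f0209c_nt.Rg

namespace Pool.Agent.MP_f0209c_nt.Rg
open Complex Set Filter Topology ArithmeticFunction Ch Pp

namespace D2aux
variable {A : ℂ} {J : Finset ℕ} {x : ℕ → ℝ} {l R : ℂ → ℂ} {p : Par}

lemma mem (ok : p.Ok) {v : ℝ} {z : ℂ} (hv : |v| ≤ 2 * p.X) (hz : ‖z - (1 + v * I)‖ ≤ p.y + 8) :
    z ∈ Metric.ball (0 : ℂ) p.r := by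
  refine mem_ball_zero_iff.2 (ok.ball ?_).1
  have a := norm_add_le (z - (1 + v * I)) (1 + v * I)
  have b := norm_add_le (1 : ℂ) (v * I)
  rw [norm_mul, norm_I, mul_one, norm_one, norm_real, Real.norm_eq_abs] at b
  rw [sub_add_cancel] at a
  linarith [ok.xb, ok.xn, ok.y2, ok.n0]

lemma both (h0 : D0_s) (ok : p.Ok) (win : Win p.r p.μ l) {v : ℝ} {z : ℂ} (hv : |v| ≤ 2 * p.X)
    (hd : ‖ld J x l (1 + v * I)‖ ≤ p.E + 1)
    (hS : ∑ j ∈ J, ‖(1 + v * I : ℂ) - x j * I‖⁻¹ ^ 2 ≤ p.E + 1) :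
    (‖z - (1 + v * I)‖ ≤ p.y + 8 → ‖fJ A J x l z‖ ≤ p.P * ‖fJ A J x l (1 + v * I)‖) ∧
    (‖z - (1 + v * I)‖ ≤ 3 → (∀ j ∈ J, 1 / 10 ≤ ‖z - x j * I‖) →
      6 * ‖fJ A J x l (1 + v * I)‖ ≤ p.P * ‖fJ A J x l z‖) := by
  have y1 := ok.y1
  have e0 := ok.e0
  have m0 := ok.m0
  have m2 := ok.μ2
  have mw := mem ok hv (z := 1 + v * I) (by rw [sub_self, norm_zero]; linarith)
  have D := fun hz => h0 p.r p.μ l A J x z (1 + v * I) win (mem ok hv hz) mw (by simp)
  set S := ∑ j ∈ J, ‖(1 + v * I : ℂ) - x j * I‖⁻¹ ^ 2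
  have S0 : 0 ≤ S := Finset.sum_nonneg fun _ _ => sq_nonneg _
  set d := ‖ld J x l (1 + v * I)‖
  have d0 : 0 ≤ d := norm_nonneg _
  set ρ := ‖z - (1 + v * I)‖ with hρ
  have r0 : 0 ≤ ρ := norm_nonneg _
  refine ⟨fun hz => ?_, fun hz hj => ?_⟩
  · rw [mul_comm]
    refine (D hz).2.1.trans (mul_le_mul_of_nonneg_left
      ((Real.exp_le_exp.2 ?_).trans ok.p3) (norm_nonneg _))
    have a : ρ * d ≤ (p.y + 8) ^ 2 * (p.E + 1) := mul_le_mul (by nlinarith) hd d0 (by positivity)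
    have b : ρ ^ 2 * (S / 2 + p.μ) ≤ (p.y + 8) ^ 2 * (p.E + 1) :=
      mul_le_mul (pow_le_pow_left₀ r0 hz 2) (by linarith) (by positivity) (by positivity)
    have c : 0 ≤ (p.y + 8) ^ 2 * (p.E + 1) := by positivity
    linarith
  · have a := (D (by linarith)).2.2 (1 / 31) (by norm_num) (by norm_num) fun j m => by
      have c := norm_sub_le (z - x j * I) (z - (1 + v * I))
      rw [show z - x j * I - (z - (1 + v * I)) = 1 + v * I - x j * I by ring] at c
      linarith [hj j m]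
    have six : (6 : ℝ) ≤ Real.exp 5 := by linarith [Real.add_one_le_exp 5]
    have b : 6 * Real.exp (ρ * d + ρ ^ 2 * (2 * S / (1 / 31) ^ 2 + p.μ)) ≤ p.P := by
      refine (mul_le_mul_of_nonneg_right six (Real.exp_pos _).le).trans ?_
      rw [← Real.exp_add]
      refine (Real.exp_le_exp.2 ?_).trans ok.p3
      have a : ρ * d ≤ 3 * (p.E + 1) := mul_le_mul hz hd d0 (by positivity)
      have b : ρ ^ 2 * (2 * S / (1 / 31) ^ 2 + p.μ) ≤ 3 ^ 2 * (1923 * (p.E + 1)) :=
        mul_le_mul (pow_le_pow_left₀ r0 hz 2)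
          (by rw [show 2 * S / (1 / 31) ^ 2 = 1922 * S by ring]; linarith)
          (by positivity) (by positivity)
      have c : 18 ^ 2 * (p.E + 1) ≤ (p.y + 8) ^ 2 * (p.E + 1) :=
        mul_le_mul_of_nonneg_right (by nlinarith) (by positivity)
      linarith
    nlinarith [mul_le_mul_of_nonneg_left b (norm_nonneg (fJ A J x l z))]

end D2aux

theorem D2 (h0 : D0_s) : D2_s := fun p A J x l R h v z hv => by
  have ok := h.ok
  have env := h.env v hv
  rw [← ofReal_intCast] at env ⊢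
  have mw := D2aux.mem ok hv (z := 1 + (v : ℝ) * I) (by rw [sub_self, norm_zero]; linarith [ok.y1])
  have a := (h0 p.r p.μ l A J x _ _ h.win mw mw (by simp)).1
  have hS : ∑ j ∈ J, ‖(1 + (v : ℝ) * I : ℂ) - x j * I‖⁻¹ ^ 2 ≤ p.E + 1 := by
    have b := (abs_le.1 a).2
    rw [show (1 + ((v : ℝ) : ℂ) * I).re = 1 by simp, one_mul] at b
    linarith [ok.μ2]
  have one : ∀ j, 1 ≤ ‖(1 + (v : ℝ) * I : ℂ) - x j * I‖ := fun j => by
    simpa using re_le_norm ((1 + (v : ℝ) * I : ℂ) - x j * I)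
  have B := D2aux.both (A := A) (z := z) h0 ok h.win hv (env.trans (by linarith)) hS
  have B' := fun j (hj : j ∈ J) => D2aux.both (A := A) (J := J.erase j) (x := x) (z := z) h0 ok
    h.win hv (by
      have e := ld_erase (x := x) (l := l) hj (1 + (v : ℝ) * I)
      have c := norm_sub_le (ld J x l (1 + (v : ℝ) * I)) (1 + (v : ℝ) * I - x j * I)⁻¹
      rw [norm_inv] at c
      rw [eq_sub_of_add_eq' e.symm]
      linarith [inv_le_one_of_one_le₀ (one j)])
    ((Finset.sum_le_sum_of_subset_of_nonneg (Finset.erase_subset _ _)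
      fun _ _ _ => sq_nonneg _).trans hS)
  have P0 : 0 ≤ p.P := by linarith [ok.pb]
  refine ⟨fun hz => ⟨B.1 hz, fun j hj => ((B' j hj).1 hz).trans
    (mul_le_mul_of_nonneg_left ?_ P0)⟩, fun hz hj => ?_, fun j hj hz hx hi => ?_⟩
  · rw [fJ_erase hj, norm_mul]
    exact le_mul_of_one_le_left (norm_nonneg _) (one j)
  · linarith [B.2 hz hj, norm_nonneg (fJ A J x l (1 + (v : ℝ) * I))]
  · refine le_trans ?_ ((B' j hj).2 hz fun i m =>
      hi i (Finset.mem_of_mem_erase m) (Finset.ne_of_mem_erase m))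
    rw [fJ_erase hj, norm_mul]
    refine mul_le_mul_of_nonneg_right ?_ (norm_nonneg _)
    have c := norm_sub_le (1 : ℂ) ((x j - v : ℝ) * I)
    rw [norm_mul, norm_I, mul_one, norm_one, norm_real, Real.norm_eq_abs] at c
    rw [show (1 + ((v : ℝ) : ℂ) * I - x j * I) = 1 - (x j - v : ℝ) * I by push_cast; ring]
    linarith

end Pool.Agent.MP_f0209c_nt.Rg

namespace Pool.Agent.MP_f0209c_nt.Rg
open Complex Set Filter Topology ArithmeticFunction Ch Pp

lemma D3aux.norm_fJ (A : ℂ) (J : Finset ℕ) (x : ℕ → ℝ) (l : ℂ → ℂ) (z : ℂ) :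
    ‖fJ A J x l z‖ = ‖A‖ * (∏ j ∈ J, ‖z - x j * I‖) * Real.exp (l z).re := by
  unfold fJ; rw [norm_mul, norm_mul, norm_prod, norm_exp]

theorem D3 : D3_s := fun p A J x l R h s t s0 s1 ht => by
  have ok := h.ok
  have xb := ok.xb
  have key : |((l (s + t * I)).re + s / 2) - ((l ((-s : ℝ) + t * I)).re + -s / 2)| ≤
      p.μ * |s - -s| := by
    have m : ∀ σ ∈ Icc (-s) s, (σ : ℂ) + t * I ∈ Metric.ball (0 : ℂ) p.r := fun σ hσ => by
      refine mem_ball_zero_iff.2 (ok.ball ?_).1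
      have a := norm_add_le (σ : ℂ) (t * I)
      rw [norm_mul, norm_I, mul_one, norm_real, norm_real, Real.norm_eq_abs, Real.norm_eq_abs] at a
      linarith [abs_le.2 (⟨hσ.1, hσ.2⟩ : -s ≤ σ ∧ σ ≤ s)]
    exact Convex.norm_image_sub_le_of_norm_hasDerivWithin_le
      (f := fun σ : ℝ => (l (σ + t * I)).re + σ / 2)
      (f' := fun σ : ℝ => (deriv l (σ + t * I)).re + 1 / 2) (s := Icc (-s) s)
      (fun σ hσ => (((h.win.diff.differentiableAt
        (Metric.isOpen_ball.mem_nhds (m σ hσ))).hasDerivAt.comp_add_const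
          (σ : ℂ) (t * I)).real_of_complex.add ((hasDerivAt_id σ).div_const 2)).hasDerivWithinAt)
      (fun σ hσ => h.win.re _ (m σ hσ)) (convex_Icc _ _) ⟨le_rfl, by linarith⟩ ⟨by linarith, le_rfl⟩
  rw [abs_of_nonneg (show 0 ≤ s - -s by linarith), ofReal_neg] at key
  have k2 : p.μ * (s - -s) ≤ 1 / 2 := by
    nlinarith [mul_le_mul_of_nonneg_left s1 ok.m0, ok.μ1]
  have pr : ∏ j ∈ J, ‖-(s : ℂ) + t * I - x j * I‖ = ∏ j ∈ J, ‖(s : ℂ) + t * I - x j * I‖ :=
    Finset.prod_congr rfl fun j _ => by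
      rw [← norm_neg, ← norm_conj]; congr 1; simp; ring
  rw [D3aux.norm_fJ, D3aux.norm_fJ, pr]
  set B := ‖A‖ * ∏ j ∈ J, ‖(s : ℂ) + t * I - x j * I‖
  have B0 : 0 ≤ B := by positivity
  have two : Real.exp (1 / 2) ≤ 2 := by
    have a := Real.log_two_gt_d9
    calc Real.exp (1 / 2) ≤ Real.exp (Real.log 2) := Real.exp_le_exp.2 (by linarith)
      _ = 2 := Real.exp_log (by norm_num)
  obtain ⟨k3, k4⟩ := abs_le.1 (key.trans k2)
  set a := (l (s + t * I)).re
  set b := (l (-s + t * I)).re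
  have e1 : Real.exp b ≤ 2 * (Real.exp s * Real.exp a) := by
    calc Real.exp b ≤ Real.exp (1 / 2 + (s + a)) := Real.exp_le_exp.2 (by linarith)
      _ ≤ _ := by
        rw [Real.exp_add, Real.exp_add]; exact mul_le_mul_of_nonneg_right two (by positivity)
  have e2 : Real.exp s * Real.exp a ≤ 2 * Real.exp b := by
    calc Real.exp s * Real.exp a = Real.exp (s + a) := (Real.exp_add _ _).symm
      _ ≤ Real.exp (1 / 2 + b) := Real.exp_le_exp.2 (by linarith)
      _ ≤ _ := by rw [Real.exp_add]; exact mul_le_mul_of_nonneg_right two (by positivity)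
  constructor
  · nlinarith [mul_le_mul_of_nonneg_left e1 B0]
  · nlinarith [mul_le_mul_of_nonneg_left e2 B0]

end Pool.Agent.MP_f0209c_nt.Rg

namespace Pool.Agent.MP_f0209c_nt.Rg
open Complex Set Filter Topology ArithmeticFunction Ch Pp

namespace D4aux

lemma at_diff {a b : ℝ} (b0 : 0 ≤ b) (h : b ≤ a) :
    Real.arctan a - Real.arctan b ≤ 1 / (1 + b ^ 2) * (a - b) := by
  have := norm_image_sub_le_of_norm_deriv_le_segment' (f := Real.arctan) (a := b) (b := a)
    (C := 1 / (1 + b ^ 2)) (fun x _ => (Real.hasDerivAt_arctan x).hasDerivWithinAt) (fun x hx => by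
      rw [Real.norm_of_nonneg (by positivity)]
      exact one_div_le_one_div_of_le (by positivity) (by nlinarith [hx.1])) a ⟨h, le_rfl⟩
  exact (le_abs_self _).trans this

lemma at_big {y : ℝ} (h : 100 ≤ y) : Real.pi / 2 - 1 / 100 ≤ Real.arctan y := by
  have y0 : 0 < y := by linarith
  have a := at_diff (a := y⁻¹) (b := 0) le_rfl (by positivity)
  have b : y⁻¹ ≤ 1 / 100 := by rw [← one_div]; exact one_div_le_one_div_of_le (by norm_num) h
  rw [Real.arctan_inv_of_pos y0, Real.arctan_zero] at a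
  norm_num at a
  linarith

lemma aa_neg (c k u : ℝ) : aa c k u = aa c k (-(u + k)) := by
  unfold aa
  rw [show -(u + k) + k = -u by ring, neg_div, neg_div, Real.arctan_neg, Real.arctan_neg]; ring

lemma aa_near {c k u : ℝ} (c0 : 0 < c) (c1 : c ≤ 1 / 100) (k1 : 3 ≤ k) (h : |u| ≤ c) :
    Real.pi / 4 - 1 / 100 ≤ aa c k u ∧ aa c k u ≤ 3 * Real.pi / 4 := by
  obtain ⟨h1, h2⟩ := abs_le.1 h
  have a : Real.arctan (u / c) ≤ Real.pi / 4 := by
    rw [← Real.arctan_one]; exact Real.arctan_mono ((div_le_one c0).2 h2)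
  have b : -(Real.pi / 4) ≤ Real.arctan (u / c) := by
    rw [← Real.arctan_one, ← Real.arctan_neg]
    exact Real.arctan_mono ((le_div_iff₀ c0).2 (by linarith))
  have d := at_big (y := (u + k) / c) ((le_div_iff₀ c0).2 (by linarith))
  have e := Real.arctan_lt_pi_div_two ((u + k) / c)
  unfold aa
  constructor <;> linarith

lemma aa_far {c k D : ℝ} (c0 : 0 < c) (k0 : 0 ≤ k) (D0 : 0 < D) : aa c k D ≤ c * k / D ^ 2 := by
  refine (at_diff (a := (D + k) / c) (b := D / c) (by positivity)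
    (div_le_div_of_nonneg_right (by linarith) c0.le)).trans ?_
  have e : 1 / (1 + (D / c) ^ 2) * ((D + k) / c - D / c) = c * k / (c ^ 2 + D ^ 2) := by
    field_simp; ring
  rw [e]
  exact div_le_div_of_nonneg_left (by positivity) (by positivity) (by nlinarith)

lemma far2 {τ k D N : ℝ} (t0 : 0 < τ) (t1 : τ ≤ 1) (k0 : 0 ≤ k) (k1 : k ≤ 4) (hD : τ / 2 ≤ D)
    (N0 : 0 < N) (hN : N ^ 2 ≤ 1 + (D + 5) ^ 2) : aa (τ ^ 4) k D ≤ 1000 * τ ^ 2 * N⁻¹ ^ 2 := by
  have D0 : 0 < D := by linarith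
  refine (aa_far (by positivity) k0 D0).trans ?_
  rw [inv_pow, ← div_eq_mul_inv, div_le_div_iff₀ (by positivity) (by positivity)]
  have a : τ ^ 2 ≤ 4 * D ^ 2 := by nlinarith
  have b : τ ^ 2 ≤ 1 := by nlinarith
  have c : N ^ 2 ≤ 51 + 2 * D ^ 2 := by nlinarith [sq_nonneg (D - 5)]
  have d : τ ^ 2 * N ^ 2 ≤ 206 * D ^ 2 := by
    have := mul_le_mul_of_nonneg_left c (sq_nonneg τ)
    nlinarith [mul_le_mul_of_nonneg_right b (sq_nonneg D)]
  have e : k * (τ ^ 2 * N ^ 2) ≤ 4 * (206 * D ^ 2) := mul_le_mul k1 d (by positivity) (by norm_num)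
  have := mul_le_mul_of_nonneg_left e (sq_nonneg τ)
  nlinarith [mul_nonneg (sq_nonneg τ) (sq_nonneg D)]

lemma psi {r μ : ℝ} {l : ℂ → ℂ} (h : Win r μ l) {z : ℂ} {k : ℝ} (k0 : 0 ≤ k)
    (hb : ∀ s : ℝ, 0 ≤ s → s ≤ k → ‖z + s * I‖ < r) :
    |(l (z + k * I) - l z).im + k / 2| ≤ μ * k := by
  have := norm_image_sub_le_of_norm_deriv_le_segment'
    (f := fun s : ℝ => (l (z + s * I)).im + s / 2) (a := 0) (b := k)
    (f' := fun s => (deriv l (z + s * I)).re + 1 / 2) (C := μ) (fun s hs => by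
      have d := (h.diff.differentiableAt (Metric.isOpen_ball.mem_nhds
        (mem_ball_zero_iff.2 (hb s hs.1 hs.2)))).hasDerivAt
      have d1 : HasDerivAt (fun w : ℂ => z + w * I) I (s : ℂ) := by
        simpa using ((hasDerivAt_id (s : ℂ)).mul_const I).const_add z
      have d2 : HasDerivAt (fun w : ℂ => l (z + w * I)) (deriv l (z + s * I) * I) (s : ℂ) :=
        HasDerivAt.comp (s : ℂ) (h₂ := l) (h := fun w : ℂ => z + w * I) d d1
      have d3 := Complex.imCLM.hasFDerivAt.comp_hasDerivAt s d2.comp_ofReal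
      have d4 : HasDerivAt (fun s : ℝ => (l (z + s * I)).im) (deriv l (z + s * I)).re s := by
        simpa [Function.comp_def] using d3
      exact (d4.add ((hasDerivAt_id s).div_const 2)).hasDerivWithinAt)
    (fun s hs => h.re _ (mem_ball_zero_iff.2 (hb s hs.1 hs.2.le))) k ⟨k0, le_rfl⟩
  simp only [ofReal_zero, zero_mul, add_zero, zero_div, sub_zero, Real.norm_eq_abs] at this
  rw [sub_im]
  convert this using 2
  ring

lemma sin_half {a : ℝ} (h1 : Real.pi / 6 ≤ a) (h2 : a ≤ 5 * Real.pi / 6) : 1 / 2 ≤ Real.sin a := by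
  have := Real.pi_pos
  rcases le_total a (Real.pi / 2) with q | q
  · rw [← Real.sin_pi_div_six]
    exact Real.sin_le_sin_of_le_of_le_pi_div_two (by linarith) q h1
  · rw [← Real.sin_pi_div_six, ← Real.sin_pi_sub a]
    exact Real.sin_le_sin_of_le_of_le_pi_div_two (by linarith) (by linarith) (by linarith)

lemma nle {z : ℂ} {a b : ℝ} (h1 : |z.re| ≤ a) (h2 : |z.im| ≤ b) : ‖z‖ ≤ a + b :=
  (norm_le_abs_re_add_abs_im z).trans (add_le_add h1 h2)

end D4aux

open D4aux in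
theorem D4 (h0 : D0_s) : D4_s := by
  intro p A J x l R h t j hj ht hn hf
  have xb := h.ok.xb
  have c0 := h.ok.c0
  have t0 := h.ok.t0
  have t1 := h.ok.τ1
  have c1 : p.c ≤ 1 / 100 := by linarith [h.ok.c1]
  have k1 := h.ok.k1
  have k2 : p.k ≤ 4 := h.ok.k2.trans Real.pi_le_four
  have ta := abs_le.1 ht
  obtain ⟨v, hv⟩ : ∃ v : ℤ, |t - v| ≤ 1 / 2 := ⟨round t, abs_sub_round _⟩
  have va := abs_le.1 hv
  have v1 : |(v : ℝ)| ≤ 2 * p.X := by rw [abs_le]; constructor <;> linarith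
  have wb : (1 + v * I : ℂ) ∈ Metric.ball (0 : ℂ) p.r := mem_ball_zero_iff.2 (h.ok.ball
    ((nle (a := 1) (b := 2 * p.X) (by simp) (by simpa using v1)).trans (by linarith))).1
  have s1 := (h0 p.r p.μ l A J x _ _ h.win wb wb (by simp)).1
  have s2 : ∑ i ∈ J, ‖(1 + v * I : ℂ) - x i * I‖⁻¹ ^ 2 ≤ p.P := by
    have e : (1 + v * I : ℂ).re = 1 := by simp
    rw [e, one_mul] at s1
    linarith [(abs_le.1 s1).2, h.env v v1, h.ok.μ2, h.ok.ep]
  have s3 : ∀ i ∈ J.erase j, aa p.c p.k (t - x i) ≤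
      1000 * p.τ ^ 2 * ‖(1 + v * I : ℂ) - x i * I‖⁻¹ ^ 2 := by
    intro i hi
    obtain ⟨i1, i2⟩ := Finset.mem_erase.1 hi
    have N0 : 0 < ‖(1 + v * I : ℂ) - x i * I‖ := norm_pos_iff.2 fun e => by
      simpa using congrArg Complex.re e
    have N1 : ‖(1 + v * I : ℂ) - x i * I‖ ^ 2 = 1 + (v - x i) ^ 2 := by
      rw [Complex.sq_norm, normSq_apply]; simp; ring
    rcases hf i i2 i1 with q | q
    · refine far2 t0 (by linarith) (by linarith) k2 q N0 ?_
      rw [N1]
      nlinarith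
    · rw [aa_neg]
      refine far2 t0 (by linarith) (by linarith) k2 (by linarith) N0 ?_
      rw [N1]
      nlinarith
  have s4 : ∑ i ∈ J.erase j, aa p.c p.k (t - x i) ≤ 1 / 100 := by
    refine (Finset.sum_le_sum s3).trans ?_
    rw [← Finset.mul_sum]
    have a : ∑ i ∈ J.erase j, ‖(1 + v * I : ℂ) - x i * I‖⁻¹ ^ 2 ≤ Real.exp (4 * p.G) :=
      ((Finset.sum_le_sum_of_subset_of_nonneg (Finset.erase_subset _ _)
        fun i _ _ => by positivity).trans s2).trans
        (h.ok.p4.trans (Real.exp_le_exp.2 (by linarith [h.ok.g1])))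
    have b := mul_le_mul_of_nonneg_left a (show 0 ≤ 1000 * p.τ ^ 2 by positivity)
    have d := h.ok.τ4
    have e : 0 < p.τ * Real.exp (4 * p.G) := by positivity
    nlinarith [mul_le_mul_of_nonneg_right t1 e.le]
  have s5 : 0 ≤ ∑ i ∈ J.erase j, aa p.c p.k (t - x i) :=
    Finset.sum_nonneg fun i _ => aa_nonneg c0 (by linarith) _
  have s6 : Real.pi / 4 - 1 / 100 ≤ aa p.c p.k (t - x j) ∧ aa p.c p.k (t - x j) ≤ 3 * Real.pi / 4 := by
    rcases hn with q | q
    · exact aa_near c0 c1 k1 q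
    · rw [aa_neg]
      refine aa_near c0 c1 k1 ?_
      rw [abs_neg, show t - x j + p.k = t + p.k - x j by ring]; exact q
  have s7 := psi h.win (z := p.c + t * I) (k := p.k) (by linarith) fun s a b => (h.ok.ball
    ((nle (a := 1) (b := 2 * p.X) (by simp; rw [abs_of_pos c0]; linarith)
      (by simp; rw [abs_le]; constructor <;> linarith)).trans (by linarith))).1
  have s8 : p.μ * p.k ≤ 1 / 100 := by nlinarith [h.ok.μ2, h.ok.m0]
  obtain ⟨r, r0, hr⟩ := polar_prod c0 p.k (fun i => t - x i) J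
  have p1 : ∏ i ∈ J, ((p.c : ℂ) + t * I + p.k * I - x i * I) =
      ∏ i ∈ J, (p.c + (t - x i + p.k : ℝ) * I : ℂ) := Finset.prod_congr rfl fun i _ => by
    push_cast; ring
  have p2 : ∏ i ∈ J, ((p.c : ℂ) + t * I - x i * I) =
      ∏ i ∈ J, (p.c + (t - x i : ℝ) * I : ℂ) := Finset.prod_congr rfl fun i _ => by
    push_cast; ring
  rw [← Finset.add_sum_erase J _ hj] at hr
  set Φ := aa p.c p.k (t - x j) + ∑ i ∈ J.erase j, aa p.c p.k (t - x i) with hΦ
  set δ := l (p.c + t * I + p.k * I) - l (p.c + t * I) with hδ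
  have g : fJ A J x l (p.c + t * I + p.k * I) / fJ A J x l (p.c + t * I) =
      r * exp (Φ * I) * exp δ := by
    unfold fJ
    rw [p1, p2, ← hr, hδ, exp_sub, mul_div_mul_comm, mul_div_mul_left _ _ h.a0]
  have g1 : exp (I * p.k / 2) * (r * exp (Φ * I) * exp δ) =
      (r * Real.exp δ.re : ℝ) * exp ((Φ + (δ.im + p.k / 2) : ℝ) * I) := by
    have : exp (I * p.k / 2) * (r * exp (Φ * I) * exp δ) = r * exp (I * p.k / 2 + Φ * I + δ) := by
      rw [exp_add, exp_add]; ring
    rw [this, ofReal_mul, ofReal_exp, mul_assoc, ← exp_add]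
    congr 2
    apply Complex.ext <;> simp
    ring
  rw [g, g1, im_ofReal_mul, exp_ofReal_mul_I_im, norm_mul, norm_mul, norm_exp_ofReal_mul_I,
    norm_real, norm_exp, Real.norm_of_nonneg r0.le]
  have s9 := abs_le.1 s7
  have pi3 := Real.pi_gt_three
  have := sin_half (a := Φ + (δ.im + p.k / 2)) (by linarith [s6.1, s9.1]) (by linarith [s6.2, s9.2])
  have := mul_le_mul_of_nonneg_left this (show 0 ≤ r * Real.exp δ.re by positivity)
  linarith

end Pool.Agent.MP_f0209c_nt.Rg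

namespace Pool.Agent.MP_f0209c_nt.Rg
open Complex Set Filter Topology ArithmeticFunction Ch Pp

namespace D5aux

lemma lip {φ : ℂ → ℂ} {c z : ℂ} {M : ℝ} (hd : DifferentiableOn ℂ φ (Metric.ball c 1))
    (hM : ∀ w ∈ Metric.ball c 1, ‖φ w‖ ≤ M) (hz : ‖z - c‖ < 1) :
    ‖φ c‖ ≤ ‖φ z‖ + 2 * M * ‖z - c‖ := by
  have h := dist_le_div_mul_dist_of_mapsTo_ball (R₂ := 2 * M) hd (fun w hw => by
    have a := hM w hw
    have b := hM c (Metric.mem_ball_self one_pos)
    rw [Metric.mem_closedBall, dist_eq_norm]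
    linarith [norm_sub_le (φ w) (φ c)]) (mem_ball_iff_norm.2 hz)
  rw [dist_eq_norm, dist_eq_norm, div_one, norm_sub_rev] at h
  linarith [norm_sub_norm_le (φ c) (φ z)]

lemma nrm (a b : ℝ) : ‖(a : ℂ) + b * I‖ ≤ |a| + |b| := by
  simpa using norm_le_abs_re_add_abs_im ((a : ℂ) + b * I)

variable {p : Par} {A : ℂ} {J : Finset ℕ} {x : ℕ → ℝ} {l R : ℂ → ℂ} {j : ℕ} {z : ℂ}

lemma Rb (h : Dat p A J x l R) (h1 : |z.re| ≤ 1) (h2 : |z.im| ≤ 2 * p.X) :
    ‖R z‖ ≤ Real.exp (p.G + 2) := by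
  have a := abs_le.1 h1
  have b := h.crude.2 z (by linarith [h.ok.xb]) a.2 h2
  rw [norm_mul, norm_exp, ← le_div_iff₀' (Real.exp_pos _), ← Real.exp_sub] at b
  refine b.trans (Real.exp_le_exp.2 ?_)
  have := mul_le_mul h.ok.κ1 h1 (abs_nonneg _) (by norm_num)
  linarith

/-- the facts on the unit disc about `i x_j` -/
lemma disc (h2 : D2_s) (h : Dat p A J x l R) (hj : j ∈ J) (hx : |x j| ≤ 3 / 2 * p.X)
    (hz : ‖z - x j * I‖ < 1) : fJ A (J.erase j) x l z ≠ 0 ∧ ‖z‖ < p.r ∧ ‖z + p.k * I‖ < p.r ∧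
      ‖fJ A J x l (z + p.k * I) / fJ A (J.erase j) x l z‖ ≤ p.P ^ 2 ∧
      ‖R (z + p.k * I)‖ ≤ Real.exp (p.G + 2) := by
  have ok := h.ok
  have xb := ok.xb
  have pb := ok.pb
  have k1 := ok.k1
  have k2 := ok.k2.trans Real.pi_le_four
  have y1 := ok.y1
  have ax := abs_le.1 hx
  obtain ⟨s1, s2⟩ := SEP p A J x l R h j (hx.trans (by linarith))
  have q1 := (abs_re_le_norm _).trans hz.le
  have q2 := abs_le.1 ((abs_im_le_norm _).trans hz.le)
  simp only [sub_re, sub_im, mul_re, mul_im, ofReal_re, ofReal_im, I_re, I_im, mul_zero,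
    mul_one, sub_zero, add_zero] at q1 q2
  have far : ∀ i, i ≠ j → 1 / 10 ≤ ‖z - x i * I‖ := fun i hi => by
    refine le_trans ?_ (abs_im_le_norm _)
    simp only [sub_im, mul_im, ofReal_re, ofReal_im, I_re, I_im, mul_zero, mul_one, add_zero]
    rcases lt_or_gt_of_ne hi with q | q
    · exact le_abs.2 (.inl (by linarith [s1 i q]))
    · exact le_abs.2 (.inr (by linarith [s2 i q]))
  have f0 : fJ A (J.erase j) x l z ≠ 0 := fJ_ne h.a0 fun i hi e => by
    have := far i (Finset.ne_of_mem_erase hi)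
    rw [e, sub_self, norm_zero] at this
    linarith
  have rv := abs_le.1 (abs_sub_round (x j))
  have hv : |((round (x j) : ℤ) : ℝ)| ≤ 2 * p.X := abs_le.2 ⟨by linarith, by linarith⟩
  have a1 := abs_le.1 q1
  have n1 : ‖z - (1 + (round (x j) : ℤ) * I)‖ ≤ 3 := by
    have a := nrm (-1) (x j - round (x j))
    have b := norm_add_le (z - x j * I) (((-1 : ℝ) : ℂ) + (x j - round (x j) : ℝ) * I)
    rw [show z - x j * I + (((-1 : ℝ) : ℂ) + (x j - round (x j) : ℝ) * I) =
      z - (1 + (round (x j) : ℤ) * I) by push_cast; ring] at b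
    rw [abs_neg, abs_one] at a
    linarith [abs_sub_round (x j)]
  have nk : ‖(p.k : ℂ) * I‖ ≤ 4 := by
    rw [norm_mul, norm_I, mul_one, norm_real, Real.norm_of_nonneg (by linarith)]; exact k2
  have n2 : ‖z + p.k * I - (1 + (round (x j) : ℤ) * I)‖ ≤ p.y + 8 := by
    rw [add_sub_right_comm]
    linarith [norm_add_le (z - (1 + (round (x j) : ℤ) * I)) (p.k * I)]
  have b1 := ((h2 p A J x l R h _ _ hv).1 n2).1
  have b2 := (h2 p A J x l R h _ _ hv).2.2 j hj n1 (abs_le.2 ⟨by linarith, by linarith⟩)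
    fun i _ hi => far i hi
  have nz : ‖z‖ ≤ 2 * p.X := (norm_le_abs_re_add_abs_im z).trans
    (by linarith [show |z.im| ≤ 3 / 2 * p.X + 1 from abs_le.2 ⟨by linarith, by linarith⟩])
  refine ⟨f0, (ok.ball (by linarith)).1,
    (ok.ball (by linarith [norm_add_le z (p.k * I)])).1, ?_, Rb h (by simpa using q1) ?_⟩
  · rw [norm_div, div_le_iff₀ (norm_pos_iff.2 f0), sq, mul_assoc]
    exact b1.trans (mul_le_mul_of_nonneg_left b2 (by linarith))
  · simp only [add_im, mul_im, ofReal_re, ofReal_im, I_re, I_im, mul_zero, mul_one, add_zero]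
    exact abs_le.2 ⟨by linarith, by linarith⟩

lemma near (h2 : D2_s) (h : Dat p A J x l R) (hj : j ∈ J) (hx : |x j| ≤ 3 / 2 * p.X)
    (hz : ‖z - x j * I‖ ≤ p.τ) :
    ‖fJ A J x l (x j * I + p.k * I) / fJ A (J.erase j) x l (x j * I) * R (x j * I + p.k * I)‖ ≤
      ‖fJ A J x l (z + p.k * I) / fJ A (J.erase j) x l z * R (z + p.k * I)‖ + 1 := by
  have ok := h.ok
  have t1 := ok.τ1
  have t4 := ok.τ4
  have e0 := Real.exp_pos (4 * p.G)
  have b := lip (φ := fun w => fJ A J x l (w + p.k * I) / fJ A (J.erase j) x l w * R (w + p.k * I))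
    (M := Real.exp (4 * p.G) * 9) (c := x j * I) (z := z) (fun w hw => by
      obtain ⟨a, b, c, -⟩ := disc h2 h hj hx (mem_ball_iff_norm.1 hw)
      have d : DifferentiableAt ℂ (fun w : ℂ => w + p.k * I) w := by fun_prop
      exact ((((h.win.diffAt c).comp w d).div (h.win.diffAt b) a).mul
        ((h.dR _).comp w d)).differentiableWithinAt) (fun w hw => by
      obtain ⟨-, -, -, a, b⟩ := disc h2 h hj hx (mem_ball_iff_norm.1 hw)
      have c : p.P ^ 2 ≤ Real.exp p.G ^ 2 := pow_le_pow_left₀ (by linarith [ok.pb]) ok.p4 2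
      rw [norm_mul]
      refine (mul_le_mul (a.trans c) b (norm_nonneg _) (sq_nonneg _)).trans ?_
      rw [← Real.exp_nat_mul, ← Real.exp_add]
      have : Real.exp 2 ≤ 9 := by
        rw [show (2 : ℝ) = 1 + 1 by norm_num, Real.exp_add]
        nlinarith [Real.exp_one_lt_d9, Real.exp_pos 1]
      refine le_trans ?_ (mul_le_mul_of_nonneg_left this e0.le)
      rw [← Real.exp_add]
      exact Real.exp_le_exp.2 (by push_cast; linarith [ok.g1])) (by linarith)
  have c := mul_le_mul_of_nonneg_left hz (show 0 ≤ 2 * (Real.exp (4 * p.G) * 9) by linarith)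
  linarith

end D5aux
open D5aux

theorem D5 (h1 : D1_s) (h2 : D2_s) (h4 : D4_s) : D5_s := fun p A J x l R h j hj hx => by
  have ok := h.ok
  have xb := ok.xb
  have pb := ok.pb
  have c0 := ok.c0
  have c1 := ok.c1
  have t1 := ok.τ1
  have t0 := ok.t0
  have k1 := ok.k1
  have k2 := ok.k2.trans Real.pi_le_four
  have ax := abs_le.1 hx
  have p2 : 4 ≤ p.P ^ 2 := by nlinarith
  have key : ‖fJ A J x l (x j * I + p.k * I) / fJ A (J.erase j) x l (x j * I) *
      R (x j * I + p.k * I)‖ ≤ p.P ^ 2 / 2 := by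
    by_cases hc : ∃ i ∈ J, |x i - x j - p.k| < p.τ
    · obtain ⟨i, hi, q⟩ := hc
      have a := near (z := (x i - p.k : ℝ) * I) h2 h hj hx (by
        rw [← sub_mul, ← ofReal_sub, norm_mul, norm_I, mul_one, norm_real, Real.norm_eq_abs,
          sub_right_comm]
        exact q.le)
      rw [show ((x i - p.k : ℝ) : ℂ) * I + p.k * I = x i * I by push_cast; ring, fJ_zero hi,
        zero_div, zero_mul, norm_zero] at a
      linarith
    obtain ⟨t, ht, hq⟩ := h.nullp j (hx.trans (by linarith))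
    have at' := abs_le.1 ht
    obtain ⟨s1, s2⟩ := SEP p A J x l R h j (hx.trans (by linarith))
    have g4 := h4 p A J x l R h t j hj (abs_le.2 ⟨by linarith, by linarith⟩) (.inl ht)
      fun i hi hij => by
        rcases lt_or_gt_of_ne hij with q | q
        · left; linarith [s1 i q]
        · right
          have a := not_lt.1 fun e => hc ⟨i, hi, e⟩
          rw [abs_of_nonneg (by linarith [s2 i q])] at a
          linarith
    set z : ℂ := p.c + t * I with hz
    have b3 : ‖z - x j * I‖ ≤ 2 * p.c := by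
      have := nrm p.c (t - x j)
      rw [show z - x j * I = (p.c : ℂ) + (t - x j : ℝ) * I by rw [hz]; push_cast; ring]
      rw [abs_of_pos c0] at this
      linarith
    obtain ⟨f0, -, -, b4, -⟩ := disc h2 h hj hx (z := z) (by linarith)
    have z0 : z - x j * I ≠ 0 := fun e => c0.ne' (by simpa [hz] using congrArg re e)
    have e1 : fJ A J x l (z + p.k * I) / fJ A (J.erase j) x l z =
        fJ A J x l (z + p.k * I) / fJ A J x l z * (z - x j * I) := by
      rw [fJ_erase hj z, mul_comm (z - _), ← div_div, div_mul_cancel₀ _ z0]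
    have a := near (z := z) h2 h hj hx (by linarith)
    have b5 : p.c * (‖fJ A J x l (z + p.k * I) / fJ A J x l z‖ / 2 * ‖R (z + p.k * I)‖ ^ 2) ≤
        p.P := (mul_le_mul_of_nonneg_left (mul_le_mul_of_nonneg_right g4 (sq_nonneg _))
          c0.le).trans hq
    have b6 : ‖fJ A J x l (z + p.k * I) / fJ A (J.erase j) x l z‖ * ‖R (z + p.k * I)‖ ^ 2 ≤
        4 * p.P := by
      rw [e1, norm_mul]
      have := mul_le_mul_of_nonneg_right (mul_le_mul_of_nonneg_left b3
        (norm_nonneg (fJ A J x l (z + p.k * I) / fJ A J x l z))) (sq_nonneg ‖R (z + p.k * I)‖)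
      linarith
    have b7 : ‖fJ A J x l (z + p.k * I) / fJ A (J.erase j) x l z * R (z + p.k * I)‖ ≤
        p.P ^ 2 / 4 := by
      refine (pow_le_pow_iff_left₀ (norm_nonneg _) (by positivity) two_ne_zero).1 ?_
      rw [norm_mul, mul_pow, sq ‖_ / _‖, mul_assoc]
      refine (mul_le_mul b4 b6 (by positivity) (sq_nonneg _)).trans ?_
      have : 0 ≤ p.P ^ 3 := by positivity
      nlinarith
    linarith
  have nx : ‖(x j : ℂ) * I‖ ≤ 2 * p.X := by
    rw [norm_mul, norm_I, mul_one, norm_real, Real.norm_eq_abs]; linarith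
  have nk : ‖(p.k : ℂ) * I‖ ≤ 4 := by
    rw [norm_mul, norm_I, mul_one, norm_real, Real.norm_of_nonneg (by linarith)]; exact k2
  obtain ⟨-, d1, -⟩ := h1 p A J x l R h (x j * I) (by linarith)
  obtain ⟨d0, -, d2⟩ := h1 p A J x l R h (x j * I + p.k * I)
    (by linarith [norm_add_le ((x j : ℂ) * I) (p.k * I)])
  have d3 : ‖fJ A J x l (x j * I + p.b) / fJ A J x l (x j * I + p.k * I + p.b)‖ ≤ 4 := by
    rw [norm_div, div_le_iff₀ (norm_pos_iff.2 d0)]; linarith
  have e : cc A J x l R p.k p.b j = exp (x j * I) *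
      (fJ A J x l (x j * I + p.b) / fJ A J x l (x j * I + p.k * I + p.b) *
      (fJ A J x l (x j * I + p.k * I) / fJ A (J.erase j) x l (x j * I) *
        R (x j * I + p.k * I))) := by
    unfold cc NN; rw [fJ_zero hj]; ring
  rw [e, norm_mul, norm_exp_ofReal_mul_I, one_mul, norm_mul]
  linarith [mul_le_mul d3 key (norm_nonneg _) (by norm_num)]

end Pool.Agent.MP_f0209c_nt.Rg

namespace Pool.Agent.MP_f0209c_nt.Rg
open Complex Set Filter Topology ArithmeticFunction Ch Pp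

namespace D6aux

lemma lip {φ : ℂ → ℂ} {c z : ℂ} {M : ℝ} (hd : DifferentiableOn ℂ φ (Metric.ball c 1))
    (hM : ∀ w ∈ Metric.ball c 1, ‖φ w‖ ≤ M) (hz : ‖z - c‖ < 1) :
    ‖φ c‖ ≤ ‖φ z‖ + 2 * M * ‖z - c‖ := by
  have h := dist_le_div_mul_dist_of_mapsTo_ball (R₂ := 2 * M) hd (fun w hw => by
    have a := hM w hw
    have b := hM c (Metric.mem_ball_self one_pos)
    rw [Metric.mem_closedBall, dist_eq_norm]
    linarith [norm_sub_le (φ w) (φ c)]) (mem_ball_iff_norm.2 hz)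
  rw [dist_eq_norm, dist_eq_norm, div_one, norm_sub_rev] at h
  linarith [norm_sub_norm_le (φ c) (φ z)]

lemma Rb {p : Par} {A : ℂ} {J : Finset ℕ} {x : ℕ → ℝ} {l R : ℂ → ℂ} (h : Dat p A J x l R) {z : ℂ}
    (h1 : |z.re| ≤ 1) (h2 : |z.im| ≤ 2 * p.X) : ‖R z‖ ≤ Real.exp (p.G + 2) := by
  have a := abs_le.1 h1
  have b := h.crude.2 z (by linarith [h.ok.xb]) a.2 h2
  rw [norm_mul, norm_exp, ← le_div_iff₀' (Real.exp_pos _), ← Real.exp_sub] at b
  refine b.trans (Real.exp_le_exp.2 ?_)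
  have := mul_le_mul h.ok.κ1 h1 (abs_nonneg _) (by norm_num)
  linarith

lemma nrm (a b : ℝ) : |b| ≤ ‖(a : ℂ) + b * I‖ ∧ ‖(a : ℂ) + b * I‖ ≤ |a| + |b| := by
  refine ⟨?_, ?_⟩
  · simpa using abs_im_le_norm ((a : ℂ) + b * I)
  · simpa using norm_le_abs_re_add_abs_im ((a : ℂ) + b * I)

lemma invim {w : ℂ} (h0 : w ≠ 0) (h : ‖w‖ / 2 ≤ w.im) : 1 / (2 * ‖w‖) ≤ -(w⁻¹).im := by
  have n := norm_pos_iff.2 h0
  rw [Complex.inv_im, normSq_eq_norm_sq, neg_div, neg_neg, div_le_div_iff₀ (by positivity) (by positivity)]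
  nlinarith

end D6aux
open D6aux

theorem D6 (h2 : D2_s) (h4 : D4_s) : D6_s := fun p A J x l R h j hj hx hi => by
  have ok := h.ok
  have xb := ok.xb
  have pb := ok.pb
  have c0 := ok.c0
  have c1 := ok.c1
  have t1 := ok.τ1
  have t0 := ok.t0
  have k1 := ok.k1
  have k2 := ok.k2.trans Real.pi_le_four
  have y1 := ok.y1
  obtain ⟨t, ht, hq⟩ := h.nullm j (hx.trans (by linarith))
  have ax := abs_le.1 hx
  have at' := abs_le.1 ht
  obtain ⟨-, s2⟩ := SEP p A J x l R h j (hx.trans (by linarith))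
  have g4 := h4 p A J x l R h t j hj (abs_le.2 ⟨by linarith, by linarith⟩)
    (.inr (abs_le.2 ⟨by linarith, by linarith⟩)) fun i _ hij => by
      rcases lt_or_gt_of_ne hij with q | q
      · left; linarith [hi i q]
      · right; linarith [s2 i q]
  set f := fJ A J x l with hf
  set z : ℂ := p.c + t * I with hz
  have zr : z.re = p.c := by simp [hz]
  have f0 : f z ≠ 0 := fJ_ne' h.a0 (by rw [zr]; exact c0.ne')
  have f1 : f (z + p.k * I) ≠ 0 := fJ_ne' h.a0 (by simp [zr, c0.ne'])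
  have rv := abs_le.1 (abs_sub_round t)
  have hv : |((round t : ℤ) : ℝ)| ≤ 2 * p.X := abs_le.2 ⟨by linarith, by linarith⟩
  have ac : |p.c - 1| ≤ 1 := abs_le.2 ⟨by linarith, by linarith⟩
  have b1 : ‖fJ A (J.erase j) x l (z + p.k * I)‖ ≤ p.P * ‖f (1 + (round t : ℤ) * I)‖ := by
    refine ((h2 p A J x l R h _ _ hv).1 ?_).2 j hj
    have := (nrm (p.c - 1) (t + p.k - round t)).2
    rw [show z + p.k * I - (1 + (round t : ℤ) * I) = ((p.c - 1 : ℝ) : ℂ) +
      (t + p.k - round t : ℝ) * I by rw [hz]; push_cast; ring]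
    linarith [show |t + p.k - round t| ≤ 5 from abs_le.2 ⟨by linarith, by linarith⟩]
  have b2 : ‖f (1 + (round t : ℤ) * I)‖ ≤ p.P * ‖f z‖ := by
    refine (h2 p A J x l R h _ _ hv).2.1 ?_ fun i _ => ?_
    · have := (nrm (p.c - 1) (t - round t)).2
      rw [show z - (1 + (round t : ℤ) * I) = ((p.c - 1 : ℝ) : ℂ) +
        (t - round t : ℝ) * I by rw [hz]; push_cast; ring]
      linarith [abs_sub_round t]
    · have := (nrm p.c (t - x i)).1
      rw [show z - x i * I = (p.c : ℂ) + (t - x i : ℝ) * I by rw [hz]; push_cast; ring]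
      refine le_trans (le_abs.2 ?_) this
      rcases lt_trichotomy i j with q | q | q
      · left; linarith [hi i q]
      · right; rw [q]; linarith
      · right; linarith [s2 i q]
  have b3 : ‖z + p.k * I - x j * I‖ ≤ 2 * p.c := by
    have := (nrm p.c (t - (x j - p.k))).2
    rw [show z + p.k * I - x j * I = (p.c : ℂ) + (t - (x j - p.k) : ℝ) * I by
      rw [hz]; push_cast; ring]
    rw [abs_of_pos c0] at this
    linarith
  have n0 := norm_pos_iff.2 f0
  have b4 : ‖f (z + p.k * I) / f z‖ ≤ 2 * p.c * p.P ^ 2 := by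
    rw [norm_div, div_le_iff₀ n0, hf, fJ_erase hj, norm_mul]
    calc _ ≤ 2 * p.c * (p.P * (p.P * ‖f z‖)) :=
          mul_le_mul b3 (b1.trans (mul_le_mul_of_nonneg_left b2 (by linarith))) (norm_nonneg _)
            (by linarith)
      _ = _ := by rw [hf]; ring
  set g := f (z + p.k * I) / f z with hg
  have g0 : g ≠ 0 := div_ne_zero f1 f0
  have e1 : ‖exp (I * p.k / 2)‖ = 1 := by rw [norm_exp]; simp
  have b5 := invim (mul_ne_zero (exp_ne_zero (I * p.k / 2)) g0) (by rwa [norm_mul, e1, one_mul])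
  rw [norm_mul, e1, one_mul, mul_inv, ← exp_neg, hg, inv_div, ← hg] at b5
  have gp := norm_pos_iff.2 g0
  have b6 : ‖R z‖ ^ 2 ≤ 4 * p.P ^ 3 := by
    have a : p.c * (1 / (2 * ‖g‖) * ‖R z‖ ^ 2) ≤ p.P :=
      (mul_le_mul_of_nonneg_left (mul_le_mul_of_nonneg_right b5 (sq_nonneg _)) c0.le).trans hq
    rw [one_div, ← div_eq_inv_mul, ← mul_div_assoc, div_le_iff₀ (by positivity)] at a
    have b : p.c * ‖R z‖ ^ 2 ≤ p.c * (4 * p.P ^ 3) :=
      a.trans ((mul_le_mul_of_nonneg_left (mul_le_mul_of_nonneg_left b4 two_pos.le)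
        (by linarith)).trans_eq (by ring))
    exact le_of_mul_le_mul_left b c0
  have b7 : ‖R z‖ ≤ p.P ^ 2 := by
    refine (pow_le_pow_iff_left₀ (norm_nonneg _) (sq_nonneg _) two_ne_zero).1 (b6.trans ?_)
    have : 0 ≤ p.P ^ 3 := by positivity
    nlinarith
  have b8 : ‖z - (x j - p.k : ℝ) * I‖ ≤ 2 * p.c := by
    rw [show z - (x j - p.k : ℝ) * I = z + p.k * I - x j * I by push_cast; ring]; exact b3
  have b9 := lip (M := Real.exp (4 * p.G)) (c := (x j - p.k : ℝ) * I) (z := z)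
    h.dR.differentiableOn (fun w hw => by
      have q := mem_ball_iff_norm.1 hw
      have q1 := (abs_re_le_norm _).trans q.le
      have q2 := abs_le.1 ((abs_im_le_norm _).trans q.le)
      simp only [sub_re, sub_im, mul_re, mul_im, ofReal_re, ofReal_im, I_re, I_im, mul_zero,
        mul_one, sub_zero, add_zero] at q1 q2
      exact (Rb h q1 (abs_le.2 ⟨by linarith, by linarith⟩)).trans
        (Real.exp_le_exp.2 (by linarith [ok.g1]))) (by linarith)
  have e0 := Real.exp_pos (4 * p.G)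
  have t4 := ok.τ4
  have b10 := mul_le_mul_of_nonneg_left (b8.trans (show 2 * p.c ≤ p.τ by linarith))
    (show 0 ≤ 2 * Real.exp (4 * p.G) by linarith)
  have : 1 ≤ p.P ^ 2 := one_le_pow₀ (by linarith)
  linarith

end Pool.Agent.MP_f0209c_nt.Rg

/-! Every interval of length `7 n` contains a zero. -/

namespace Pool.Agent.MP_f0209c_nt.Rg
open Complex Set Filter Topology ArithmeticFunction Ch Pp

namespace D7aaux

lemma nrm (a v y : ℝ) : ‖(a : ℂ) + v * I - y * I‖⁻¹ ^ 2 = 1 / (a ^ 2 + (y - v) ^ 2) := by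
  rw [inv_pow, one_div, Complex.sq_norm, Complex.normSq_apply]
  congr 1
  simp
  ring

lemma key (h0 : D0_s) {p : Par} {A : ℂ} {J : Finset ℕ} {x : ℕ → ℝ} {l R : ℂ → ℂ}
    (h : Dat p A J x l R) {a : ℝ} (ha : 0 < a) (ha' : a ≤ p.X) (v : ℤ) (hv : |(v : ℝ)| ≤ 2 * p.X)
    (hl : ‖ld J x l (a + v * I)‖ ≤ 1 / 50) :
    |∑ j ∈ J, a / (a ^ 2 + (x j - v) ^ 2) - 1 / 2| ≤ 21 / 1000 := by
  have hb : ((a : ℂ) + v * I) ∈ Metric.ball (0 : ℂ) p.r := by
    refine mem_ball_zero_iff.2 (h.ok.ball ?_).1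
    have := norm_le_abs_re_add_abs_im ((a : ℂ) + v * I)
    simp only [add_re, ofReal_re, mul_re, intCast_re, I_re, mul_zero, intCast_im, I_im, mul_one,
      sub_self, add_zero, add_im, ofReal_im, mul_im, zero_add, abs_of_pos ha] at this
    linarith [h.ok.xb]
  have e : ((a : ℂ) + v * I).re = a := by simp
  have q := (h0 p.r p.μ l A J x _ _ h.win hb hb (by rw [e]; exact ha)).1
  rw [e, Finset.mul_sum] at q
  have s : ∑ j ∈ J, a * ‖(a : ℂ) + v * I - x j * I‖⁻¹ ^ 2 =
      ∑ j ∈ J, a / (a ^ 2 + (x j - v) ^ 2) := Finset.sum_congr rfl fun j _ => by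
    rw [← mul_one_div, ← nrm, ofReal_intCast]
  rw [s] at q
  linarith [h.ok.μ2]

end D7aaux

theorem D7a (h0 : D0_s) : D7a_s := fun p A J x l R h t ht => by
  by_contra c
  push Not at c
  have n1 := h.ok.n1
  have xn := h.ok.xn
  have r := abs_le.1 (abs_sub_round (t + 7 * p.n / 2))
  have t' := abs_le.1 ht
  generalize round (t + 7 * p.n / 2) = v at r
  have hv : |(v : ℝ)| ≤ 2 * p.X := abs_le.2 ⟨by linarith, by linarith⟩
  have a := abs_le.1 (D7aaux.key h0 h (a := p.n) (by linarith) (by linarith) v hv (h.den v hv).1)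
  have b := abs_le.1 (D7aaux.key h0 h (a := 3 * p.n) (by linarith) (by linarith) v hv
    (by rw [ofReal_mul, ofReal_ofNat]; exact (h.den v hv).2))
  have s : ∑ j ∈ J, p.n / (p.n ^ 2 + (x j - v) ^ 2) ≤
      2 / 3 * ∑ j ∈ J, 3 * p.n / ((3 * p.n) ^ 2 + (x j - v) ^ 2) := by
    rw [Finset.mul_sum]
    refine Finset.sum_le_sum fun j hj => ?_
    have d : 9 * p.n ^ 2 ≤ (x j - v) ^ 2 := by
      by_cases q : t ≤ x j
      · have := c j hj q
        nlinarith
      · nlinarith [not_le.1 q]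
    rw [← mul_div_assoc, div_le_div_iff₀ (by positivity) (by positivity)]
    nlinarith [mul_le_mul_of_nonneg_left d h.ok.n0.le, pow_pos h.ok.n0 3]
  linarith

end Pool.Agent.MP_f0209c_nt.Rg

/-! Gaps longer than `k + 3/20` are `70 n`-dense. -/

namespace Pool.Agent.MP_f0209c_nt.Rg
open Complex Set Filter Topology ArithmeticFunction Ch Pp

namespace D7baux

lemma nrm (a v y : ℝ) : ‖(a : ℂ) + v * I - y * I‖⁻¹ ^ 2 = 1 / (a ^ 2 + (y - v) ^ 2) := by
  rw [inv_pow, one_div, Complex.sq_norm, Complex.normSq_apply]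
  congr 1
  simp
  ring

lemma key (h0 : D0_s) {p : Par} {A : ℂ} {J : Finset ℕ} {x : ℕ → ℝ} {l R : ℂ → ℂ}
    (h : Dat p A J x l R) (v : ℤ) (hv : |(v : ℝ)| ≤ 2 * p.X) :
    ∑ j ∈ J, p.n / (p.n ^ 2 + (x j - v) ^ 2) ≤ 521 / 1000 := by
  have hb : ((p.n : ℂ) + v * I) ∈ Metric.ball (0 : ℂ) p.r := by
    refine mem_ball_zero_iff.2 (h.ok.ball ?_).1
    have := norm_le_abs_re_add_abs_im ((p.n : ℂ) + v * I)
    simp only [add_re, ofReal_re, mul_re, intCast_re, I_re, mul_zero, intCast_im, I_im, mul_one,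
      sub_self, add_zero, add_im, ofReal_im, mul_im, zero_add, abs_of_pos h.ok.n0] at this
    linarith [h.ok.xb, h.ok.xn]
  have e : ((p.n : ℂ) + v * I).re = p.n := by simp
  have q := (h0 p.r p.μ l A J x _ _ h.win hb hb (by rw [e]; exact h.ok.n0)).1
  rw [e, Finset.mul_sum] at q
  have s : ∑ j ∈ J, p.n * ‖(p.n : ℂ) + v * I - x j * I‖⁻¹ ^ 2 =
      ∑ j ∈ J, p.n / (p.n ^ 2 + (x j - v) ^ 2) := Finset.sum_congr rfl fun j _ => by
    rw [← mul_one_div, ← nrm, ofReal_intCast]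
  rw [s] at q
  linarith [h.ok.μ2, (h.den v hv).1, (abs_le.1 q).2]

/-- one side of the sum -/
lemma side {n : ℝ} (hn : 100 ≤ n) (S : Finset ℕ) (d : ℕ → ℝ) (φ : ℕ → ℕ) (M : ℕ)
    (hM : 10 * n ≤ M) (inj : InjOn φ (Finset.range M : Set ℕ)) (mem : ∀ m < M, φ m ∈ S)
    (hd : ∀ m < M, |d (φ m)| ≤ 33 / 10 * (m + 1) + 1 / 2) :
    28 / 100 ≤ ∑ j ∈ S, n / (n ^ 2 + d j ^ 2) := by
  have n0 : 0 < n := by linarith
  have a : ∑ m ∈ Finset.range M, n / (n ^ 2 + d (φ m) ^ 2) ≤ ∑ j ∈ S, n / (n ^ 2 + d j ^ 2) := by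
    rw [← Finset.sum_image (f := fun j => n / (n ^ 2 + d j ^ 2)) inj]
    refine Finset.sum_le_sum_of_subset_of_nonneg (fun j hj => ?_) fun j _ _ => by positivity
    obtain ⟨m, hm, rfl⟩ := Finset.mem_image.1 hj
    exact mem m (Finset.mem_range.1 hm)
  have b := Finset.sum_range_sub'
    (fun m : ℕ => 10 / 33 * n / (n + (33 / 10 * ((m : ℝ) + 1) + 1 / 2))) M
  have c : ∑ m ∈ Finset.range M, (10 / 33 * n / (n + (33 / 10 * ((m : ℝ) + 1) + 1 / 2)) -
      10 / 33 * n / (n + (33 / 10 * (((m + 1 : ℕ) : ℝ) + 1) + 1 / 2))) ≤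
      ∑ m ∈ Finset.range M, n / (n ^ 2 + d (φ m) ^ 2) := by
    refine Finset.sum_le_sum fun m hm => ?_
    have q := hd m (Finset.mem_range.1 hm)
    rw [Nat.cast_succ, show 33 / 10 * ((m : ℝ) + 1 + 1) + 1 / 2 =
      33 / 10 * ((m : ℝ) + 1) + 1 / 2 + 33 / 10 by ring]
    have y0 : (0 : ℝ) < 33 / 10 * ((m : ℝ) + 1) + 1 / 2 := by positivity
    generalize 33 / 10 * ((m : ℝ) + 1) + 1 / 2 = y at q y0
    have q2 : d (φ m) ^ 2 ≤ y ^ 2 := sq_le_sq' (abs_le.1 q).1 (abs_le.1 q).2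
    have e : 10 / 33 * n / (n + y) - 10 / 33 * n / (n + (y + 33 / 10)) =
        n / ((n + y) * (n + (y + 33 / 10))) := by field_simp; ring
    rw [e]
    exact div_le_div_of_nonneg_left n0.le (by positivity) (by nlinarith)
  have e1 : 29 / 100 ≤ 10 / 33 * n / (n + (33 / 10 * (((0 : ℕ) : ℝ) + 1) + 1 / 2)) := by
    rw [le_div_iff₀ (by positivity)]; push_cast; linarith
  have e2 : 10 / 33 * n / (n + (33 / 10 * ((M : ℝ) + 1) + 1 / 2)) ≤ 1 / 100 := by
    rw [div_le_iff₀ (by positivity)]; linarith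
  linarith

end D7baux

theorem D7b (h0 : D0_s) (ha : D7a_s) : D7b_s := fun p A J x l R h t ht => by
  by_contra c
  push Not at c
  have n1 := h.ok.n1
  have xn := h.ok.xn
  have t' := abs_le.1 ht
  have k1 := h.ok.k1
  have k2 := h.ok.k2.trans Real.pi_lt_d2.le
  obtain ⟨j0, -, l0, u0⟩ := ha p A J x l R h (t + 30 * p.n) (abs_le.2 ⟨by linarith, by linarith⟩)
  have mem : ∀ j ≤ j0, x j0 - 90 * p.n ≤ x j → j ∈ J := fun j hj q =>
    h.mem j (abs_le.2 ⟨by linarith, by linarith [h.mono hj]⟩)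
  have C : ∀ j ≤ j0, ∀ r : ℕ, x j0 - 90 * p.n + 33 / 10 * r ≤ x j →
      r ≤ j ∧ x j - 33 / 10 * r ≤ x (j - r) := fun j hj r => by
    induction r with
    | zero => intro _; simp
    | succ r ih =>
      intro q
      push_cast at q ⊢
      obtain ⟨i1, i2⟩ := ih (by linarith)
      have hj' : j - r ≤ j0 := by omega
      obtain ⟨i, hi, w⟩ := c (j - r) (mem _ hj' (by linarith))
        (abs_le.2 ⟨by linarith, by linarith [h.mono hj']⟩)
      have := h.mono (show i ≤ j - (r + 1) by omega)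
      exact ⟨by omega, by linarith⟩
  have M1 := Nat.le_ceil (10 * p.n)
  have M2 := (Nat.ceil_lt_add_one (show 0 ≤ 10 * p.n by linarith)).le
  generalize ⌈10 * p.n⌉₊ = M at M1 M2
  obtain ⟨a1, a2⟩ := C j0 le_rfl M (by linarith)
  have a3 := h.mono (Nat.sub_le j0 M)
  have r := abs_le.1 (abs_sub_round (x (j0 - M)))
  generalize round (x (j0 - M)) = v at r
  have hv : |(v : ℝ)| ≤ 2 * p.X := abs_le.2 ⟨by linarith, by linarith⟩
  have K := D7baux.key h0 h v hv
  rw [← Finset.sum_filter_add_sum_filter_not J fun j => j0 - M < j] at K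
  have cast : ∀ m < M, ((m + 1 : ℕ) : ℝ) ≤ M := fun m hm => Nat.cast_le.2 hm
  have s1 := D7baux.side n1 (J.filter fun j => j0 - M < j) (fun j => x j - v)
    (fun m => j0 - M + (m + 1)) M M1 (fun a _ b _ e => by simpa using e)
    (fun m hm => Finset.mem_filter.2 ⟨mem _ (by omega) (by
      linarith [h.mono (Nat.le_add_right (j0 - M) (m + 1))]), by omega⟩) fun m hm => by
      have m1 := h.mono (Nat.le_add_right (j0 - M) (m + 1))
      have m2 := (C (j0 - M + (m + 1)) (by omega) (m + 1) (by linarith [cast m hm])).2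
      rw [Nat.add_sub_cancel, Nat.cast_succ] at m2
      have : (0 : ℝ) ≤ m := m.cast_nonneg
      exact abs_le.2 ⟨by linarith, by linarith⟩
  have low := fun m (hm : m < M) => C (j0 - M) (Nat.sub_le _ _) (m + 1) (by linarith [cast m hm])
  have s2 := D7baux.side n1 (J.filter fun j => ¬ j0 - M < j) (fun j => x j - v)
    (fun m => j0 - M - (m + 1)) M M1 (fun a ha b hb e => by
      have := (low a (by simpa using ha)).1
      have := (low b (by simpa using hb)).1
      dsimp only at e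
      omega)
    (fun m hm => Finset.mem_filter.2 ⟨mem _ (by omega) (by
      linarith [(low m hm).2, cast m hm]), by omega⟩) fun m hm => by
      have m1 := h.mono (Nat.sub_le (j0 - M) (m + 1))
      have m2 := (low m hm).2
      rw [Nat.cast_succ] at m2
      have : (0 : ℝ) ≤ m := m.cast_nonneg
      exact abs_le.2 ⟨by linarith, by linarith⟩
  linarith

end Pool.Agent.MP_f0209c_nt.Rg

/-! Removing the poles of `U`. -/

namespace Pool.Agent.MP_f0209c_nt.Rg
open Complex Set Filter Topology ArithmeticFunction Ch Pp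

theorem D8 (h1 : D1_s) (hP : PACK_s) (hR : RES_s) : D8_s := by
  intro p A J x l R h
  have xb := h.ok.xb
  have k1 := h.ok.k1
  have k2 := h.ok.k2.trans Real.pi_le_four
  have sep : ∀ j ∈ WW J x p.X, ∀ i, i ≠ j → x i ≠ x j := fun j hj i hi e => by
    have s := SEP p A J x l R h j (by linarith [(Finset.mem_filter.1 hj).2])
    rcases lt_or_gt_of_ne hi with m | m
    · linarith [s.1 i m]
    · linarith [s.2 i m]
  have inj : ∀ {a b : ℝ}, (a * I : ℂ) = b * I → a = b := fun e => by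
    simpa using congrArg Complex.im e
  refine ⟨(hP _ x (-(3 / 2 * p.X)) (3 * p.X) 3 (by norm_num) (by linarith) (fun i _ j hj m => ?_)
    fun j hj => ?_).trans (by linarith), ?_⟩
  · linarith [(SEP p A J x l R h j (by linarith [(Finset.mem_filter.1 hj).2])).1 i m]
  · have := abs_lt.1 (Finset.mem_filter.1 hj).2
    constructor <;> linarith
  have nz : ∀ z : ℂ, |z.re| < p.X / 2 ∧ |z.im| < 3 / 2 * p.X → ‖z‖ ≤ 2 * p.X := fun z hz => by
    linarith [norm_le_abs_re_add_abs_im z, hz.1, hz.2]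
  have df : ∀ (K : Finset ℕ) (z : ℂ), ‖z‖ ≤ 4 * p.X → DifferentiableAt ℂ (fJ A K x l) z :=
    fun K z hz => h.win.diffAt (h.ok.ball (by linarith)).1
  have df' : ∀ z : ℂ, ‖z‖ ≤ 4 * p.X → DifferentiableAt ℂ (fJ A J x l) (z + p.b) :=
    fun z hz => h.win.diffAt (h.ok.ball (by linarith)).2
  obtain ⟨V, dV, hV⟩ := hR (fun z => NN (fJ A J x l) R p.k p.b z -
      ∑ j ∈ WW J x p.X, cc A J x l R p.k p.b j * fJ A (J.erase j) x l z)
    {z | |z.re| < p.X / 2 ∧ |z.im| < 3 / 2 * p.X} (WW J x p.X) (fun j => x j * I)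
    ((isOpen_lt continuous_re.abs continuous_const).and
      (isOpen_lt continuous_im.abs continuous_const))
    (fun i _ j hj e => by_contra fun m => sep j hj i m (inj e))
    (fun j hj => ⟨by simp; linarith, by simpa using (Finset.mem_filter.1 hj).2⟩)
    (fun z hz => DifferentiableAt.differentiableWithinAt (by
      have n1 := nz z hz
      have n2 : ‖z + p.k * I‖ ≤ 4 * p.X := by
        refine (norm_add_le _ _).trans ?_
        rw [norm_mul, norm_I, norm_real, Real.norm_of_nonneg (by linarith)]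
        linarith
      have a1 := df J z (by linarith)
      have a2 : DifferentiableAt ℂ (fun w => fJ A J x l (w + p.k * I)) z :=
        (df J _ n2).comp z (f := fun w => w + p.k * I) (by fun_prop)
      have a3 : DifferentiableAt ℂ (fun w => fJ A J x l (w + p.b)) z :=
        (df' z (by linarith)).comp z (f := fun w : ℂ => w + p.b) (by fun_prop)
      have a4 : DifferentiableAt ℂ (fun w => fJ A J x l (w + p.k * I + p.b)) z :=
        (df' _ n2).comp z (f := fun w => w + p.k * I + p.b) (by fun_prop)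
      have a5 : DifferentiableAt ℂ (fun w => R (w + p.k * I)) z :=
        (h.dR _).comp z (f := fun w => w + p.k * I) (by fun_prop)
      refine DifferentiableAt.sub (differentiableAt_exp.mul (((a2.mul
        (a3.div a4 (h1 p A J x l R h _ n2).1)).mul a5).sub (a1.mul (h.dR z)))) ?_
      exact DifferentiableAt.fun_sum fun j _ => (df _ z (by linarith)).const_mul _))
    (fun j hj => by
      have hj' := (Finset.mem_filter.1 hj).1
      rw [Finset.sum_eq_single_of_mem j hj fun i _ m => by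
        rw [fJ_zero (Finset.mem_erase.2 ⟨m.symm, hj'⟩), mul_zero], cc, div_mul_cancel₀, sub_self]
      exact fJ_ne h.a0 fun i hi e => sep j hj i (Finset.mem_erase.1 hi).1 (inj e).symm)
  have ne : ∀ z : ℂ, |z.im| < 3 / 2 * p.X → fJ A (J \ WW J x p.X) x l z ≠ 0 := fun z hz =>
    fJ_ne h.a0 fun j hj e => by
      obtain ⟨a, b⟩ := Finset.mem_sdiff.1 hj
      exact b (Finset.mem_filter.2 ⟨a, by simpa [e] using hz⟩)
  refine ⟨fun z => V z / fJ A (J \ WW J x p.X) x l z, dV.div (fun z hz =>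
    (df _ z (by linarith [nz z hz])).differentiableWithinAt) fun z hz => ne z hz.2,
    fun z a b => ?_⟩
  have e := ne z b
  rw [hV z ⟨a, b⟩]
  have : fJ A J x l z = (∏ j ∈ WW J x p.X, (z - x j * I)) * fJ A (J \ WW J x p.X) x l z := by
    unfold fJ
    rw [← Finset.prod_sdiff (show WW J x p.X ⊆ J from Finset.filter_subset _ _)]
    ring
  rw [this, mul_assoc, mul_div_cancel₀ _ e]

end Pool.Agent.MP_f0209c_nt.Rg

/-! The growth of `V`. -/

namespace Pool.Agent.MP_f0209c_nt.Rg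
open Complex Set Filter Topology ArithmeticFunction Ch Pp

namespace D9aux
variable {A : ℂ} {J : Finset ℕ} {x : ℕ → ℝ} {l R V : ℂ → ℂ} {p : Par}

lemma nrm {z : ℂ} {a b : ℝ} (h1 : |z.re| ≤ a) (h2 : |z.im| ≤ b) : ‖z‖ ≤ a + b :=
  (norm_le_abs_re_add_abs_im z).trans (add_le_add h1 h2)

/-- the quotient of two distant values -/
lemma hq (h1 : D1_s) (h : Dat p A J x l R) {z w : ℂ} (hz : ‖z‖ ≤ 4 * p.X) (hw : ‖w‖ ≤ 4 * p.X) :
    ‖fJ A J x l (z + p.b) / fJ A J x l (w + p.b)‖ ≤ 4 := by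
  obtain ⟨-, a, -⟩ := h1 p A J x l R h z hz
  obtain ⟨b, -, c⟩ := h1 p A J x l R h w hw
  rw [norm_div, div_le_iff₀ (norm_pos_iff.2 b)]
  linarith

/-- the size of `U` from a bound for `g`, on the left -/
lemma left (h1 : D1_s) (h : Dat p A J x l R) {z : ℂ} {M : ℝ} (r1 : -p.X ≤ z.re) (r2 : z.re ≤ 1)
    (hi : |z.im| ≤ p.X + 1) (f0 : fJ A J x l z ≠ 0)
    (hg : ‖fJ A J x l (z + p.k * I) / fJ A J x l z‖ ≤ M) :
    ‖NN (fJ A J x l) R p.k p.b z / fJ A J x l z‖ ≤
      (4 * M + 1) * Real.exp (p.G + p.κ * |z.re|) := by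
  have xb := h.ok.xb
  have k1 := h.ok.k1
  have k2 := h.ok.k2.trans Real.pi_le_four
  have ai := abs_le.1 hi
  have e1 : (z + p.k * I).re = z.re := by simp
  have e2 : (z + p.k * I).im = z.im + p.k := by simp
  have i2 : |(z + p.k * I).im| ≤ 2 * p.X := by rw [e2, abs_le]; constructor <;> linarith
  have ar : |z.re| ≤ p.X := abs_le.2 ⟨r1, by linarith⟩
  have a := h.crude.2 z r1 r2 (by linarith)
  have b := h.crude.2 (z + p.k * I) (by rwa [e1]) (by rwa [e1]) i2
  rw [e1, norm_mul, norm_exp, e1, ← norm_exp, ← norm_mul] at b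
  have c := hq h1 h (z := z) (w := z + p.k * I) ((nrm ar hi).trans (by linarith))
    ((nrm (e1 ▸ ar) i2).trans (by linarith))
  have e : NN (fJ A J x l) R p.k p.b z / fJ A J x l z =
      fJ A J x l (z + p.k * I) / fJ A J x l z *
        (fJ A J x l (z + p.b) / fJ A J x l (z + p.k * I + p.b)) * (exp z * R (z + p.k * I)) -
        exp z * R z := by
    unfold NN; field_simp
  rw [e]
  refine (norm_sub_le _ _).trans ?_
  rw [norm_mul, norm_mul]
  have M0 : 0 ≤ M := (norm_nonneg _).trans hg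
  have := mul_le_mul (mul_le_mul hg c (norm_nonneg _) M0) b (norm_nonneg _) (by positivity)
  linarith

/-- the size of `U` on the right -/
lemma right (h1 : D1_s) (h : Dat p A J x l R) {z : ℂ} (r1 : 1 ≤ z.re) (r2 : z.re ≤ p.X)
    (hi : |z.im| ≤ p.X + 1) :
    ‖NN (fJ A J x l) R p.k p.b z / fJ A J x l z‖ ≤ 2 * Real.exp (3 * p.G + 4 * p.κ * z.re) := by
  have xb := h.ok.xb
  have k1 := h.ok.k1
  have k2 := h.ok.k2.trans Real.pi_le_four
  have ai := abs_le.1 hi
  have e1 : (z + p.k * I).re = z.re := by simp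
  have e2 : (z + p.k * I).im = z.im + p.k := by simp
  have i2 : |(z + p.k * I).im| ≤ 2 * p.X := by rw [e2, abs_le]; constructor <;> linarith
  have ar : |z.re| ≤ p.X := abs_le.2 ⟨by linarith, r2⟩
  obtain ⟨a1, -, a3⟩ := h.crude.1 z r1 r2 (by linarith)
  obtain ⟨-, b2, b3⟩ := h.crude.1 (z + p.k * I) (by rwa [e1]) (by rwa [e1]) i2
  rw [e1] at b2 b3
  have f0 : fJ A J x l z ≠ 0 := fJ_ne' h.a0 (by linarith)
  have f1 : fJ A J x l (z + p.k * I) ≠ 0 := fJ_ne' h.a0 (by rw [e1]; linarith)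
  have f2 := (h1 p A J x l R h (z + p.k * I) ((nrm (e1 ▸ ar) i2).trans (by linarith))).1
  have e : NN (fJ A J x l) R p.k p.b z / fJ A J x l z =
      exp z * (fJ A J x l (z + p.b) / fJ A J x l z - R z) -
      exp z * (fJ A J x l (z + p.b) / fJ A J x l z *
        (fJ A J x l (z + p.k * I) / fJ A J x l (z + p.k * I + p.b)) *
        (fJ A J x l (z + p.k * I + p.b) / fJ A J x l (z + p.k * I) - R (z + p.k * I))) := by
    unfold NN; field_simp; ring
  rw [e]
  refine (norm_sub_le _ _).trans ?_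
  rw [norm_mul, norm_mul, norm_mul, norm_mul, norm_exp]
  have u := mul_le_mul_of_nonneg_left (mul_le_mul (mul_le_mul a1 b2 (norm_nonneg _) (by positivity))
    b3 (norm_nonneg _) (by positivity)) (Real.exp_pos z.re).le
  have v := mul_le_mul_of_nonneg_left a3 (Real.exp_pos z.re).le
  rw [← Real.exp_add, ← Real.exp_add, ← Real.exp_add] at u
  rw [← Real.exp_add] at v
  have g1 := h.ok.g1
  have q := mul_pos h.ok.κ0 (show 0 < z.re by linarith)
  have u' := u.trans (Real.exp_le_exp.2 (show _ ≤ 3 * p.G + 4 * p.κ * z.re by linarith))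
  have v' := v.trans (Real.exp_le_exp.2 (show _ ≤ 3 * p.G + 4 * p.κ * z.re by linarith))
  linarith

/-- the quotient `g` far on the left -/
lemma gl (h1 : D1_s) (h3 : D3_s) (h : Dat p A J x l R) {s t : ℝ} (r1 : 1 ≤ s) (r2 : s ≤ p.X)
    (hi : |t| ≤ p.X + 1) :
    ‖fJ A J x l (-s + t * I + p.k * I) / fJ A J x l (-s + t * I)‖ ≤
      16 * Real.exp (2 * p.G + 2 * p.κ * s) := by
  have xb := h.ok.xb
  have k1 := h.ok.k1
  have k2 := h.ok.k2.trans Real.pi_le_four
  have ai := abs_le.1 hi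
  have i2 : |t + p.k| ≤ 2 * p.X := by rw [abs_le]; constructor <;> linarith
  have a := (h3 p A J x l R h s (t + p.k) (by linarith) r2 (by linarith)).1
  have b := (h3 p A J x l R h s t (by linarith) r2 (by linarith)).2
  have e0 : (-s + t * I + p.k * I : ℂ) = -s + (t + p.k : ℝ) * I := by push_cast; ring
  set w : ℂ := s + t * I with hw
  set w' : ℂ := s + (t + p.k : ℝ) * I with hw'
  have w1 : w.re = s := by simp [hw]
  have w2 : w.im = t := by simp [hw]
  have w3 : w'.re = s := by simp [hw']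
  have w4 : w'.im = t + p.k := by simp [hw']
  have ar : |s| ≤ p.X := abs_le.2 ⟨by linarith, r2⟩
  obtain ⟨c1, -, -⟩ := h.crude.1 w (by rwa [w1]) (by rwa [w1]) (by rw [w2]; linarith)
  obtain ⟨-, c2, -⟩ := h.crude.1 w' (by rwa [w3]) (by rwa [w3]) (by rwa [w4])
  have n1 : ‖w‖ ≤ 4 * p.X := (nrm (w1 ▸ ar) (w2 ▸ hi)).trans (by linarith)
  have n2 : ‖w'‖ ≤ 4 * p.X := (nrm (w3 ▸ ar) (w4 ▸ i2)).trans (by linarith)
  have c3 := hq h1 h n2 n1
  have f0 : fJ A J x l w ≠ 0 := fJ_ne' h.a0 (by rw [w1]; linarith)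
  have f1 := (h1 p A J x l R h w n1).1
  have f2 := (h1 p A J x l R h w' n2).1
  have f3 : fJ A J x l (-s + t * I) ≠ 0 := fJ_ne' h.a0 (by simp; linarith)
  have e : fJ A J x l w' = fJ A J x l w' / fJ A J x l (w' + p.b) *
      (fJ A J x l (w' + p.b) / fJ A J x l (w + p.b)) *
      (fJ A J x l (w + p.b) / fJ A J x l w) * fJ A J x l w := by field_simp
  rw [w1] at c1
  rw [w3] at c2
  have d : ‖fJ A J x l w'‖ ≤ 4 * Real.exp (2 * p.G + 2 * p.κ * s) * ‖fJ A J x l w‖ := by
    rw [e, norm_mul, norm_mul, norm_mul]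
    refine mul_le_mul_of_nonneg_right ?_ (norm_nonneg _)
    refine (mul_le_mul (mul_le_mul c2 c3 (norm_nonneg _) (by positivity)) c1 (norm_nonneg _)
      (by positivity)).trans (le_of_eq ?_)
    rw [show 2 * p.G + 2 * p.κ * s = p.G + p.κ * s + (p.G + p.κ * s) by ring,
      Real.exp_add (p.G + p.κ * s)]
    ring
  rw [e0, norm_div, div_le_iff₀ (norm_pos_iff.2 f3)]
  have u := mul_le_mul_of_nonneg_left d (show 0 ≤ 2 * Real.exp s by positivity)
  have v := mul_le_mul_of_nonneg_left b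
    (show 0 ≤ 8 * Real.exp (2 * p.G + 2 * p.κ * s) by positivity)
  linarith

/-- the quotient `g` near the axis -/
lemma gm (h2 : D2_s) (h : Dat p A J x l R) {z : ℂ} (hr : |z.re| ≤ 1) (hi : |z.im| ≤ p.X + 1)
    (hz : ∀ j ∈ J, 1 / 10 ≤ ‖z - x j * I‖) (f0 : fJ A J x l z ≠ 0) :
    ‖fJ A J x l (z + p.k * I) / fJ A J x l z‖ ≤ p.P ^ 2 := by
  have xb := h.ok.xb
  have k1 := h.ok.k1
  have k2 := h.ok.k2.trans Real.pi_le_four
  have ai := abs_le.1 hi
  have ar := abs_le.1 hr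
  have rd := abs_sub_round z.im
  have rd' := abs_le.1 rd
  have hv : |((round z.im : ℤ) : ℝ)| ≤ 2 * p.X := by rw [abs_le]; constructor <;> linarith
  have n1 : ‖z - (1 + (round z.im : ℤ) * I)‖ ≤ 3 :=
    (nrm (a := 2) (b := 1 / 2) (by simp only [sub_re, add_re, one_re, mul_I_re, intCast_im]
                                   rw [abs_le]; constructor <;> linarith)
      (by simpa using rd)).trans (by norm_num)
  have n2 : ‖z + p.k * I - (1 + (round z.im : ℤ) * I)‖ ≤ p.y + 8 := by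
    rw [add_sub_right_comm]
    refine (norm_add_le _ _).trans ?_
    rw [norm_mul, norm_I, norm_real, Real.norm_of_nonneg (by linarith)]
    linarith [h.ok.y1]
  have a := ((h2 p A J x l R h _ _ hv).1 n2).1
  have b := (h2 p A J x l R h _ _ hv).2.1 n1 hz
  rw [norm_div, div_le_iff₀ (norm_pos_iff.2 f0)]
  have := mul_le_mul_of_nonneg_left b (show 0 ≤ p.P by linarith [h.ok.pb])
  linarith

/-- the bound away from the zeros -/
lemma off (h1 : D1_s) (h2 : D2_s) (h3 : D3_s) (h5 : D5_s) (h8 : D8_s) (h : Dat p A J x l R)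
    (hV : Reg p A J x l R V) {z : ℂ} (hr : |z.re| ≤ p.X / 4) (hi : |z.im| ≤ p.X + 1)
    (hz : ∀ j ∈ J, 1 / 10 ≤ ‖z - x j * I‖) :
    ‖V z‖ ≤ 105 * Real.exp (3 * p.G + 4 * p.κ * |z.re|) := by
  have xb := h.ok.xb
  have pb := h.ok.pb
  have g1 := h.ok.g1
  have ar := abs_le.1 hr
  have q : 0 ≤ p.κ * |z.re| := mul_nonneg h.ok.κ0.le (abs_nonneg _)
  have z0 : ∀ j ∈ J, z - x j * I ≠ 0 := fun j hj e => by
    have := hz j hj
    rw [e, norm_zero] at this
    linarith
  have f0 : fJ A J x l z ≠ 0 := fJ_ne h.a0 fun j hj => sub_ne_zero.1 (z0 j hj)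
  have p2 : p.P ^ 2 ≤ Real.exp (2 * p.G) := by
    rw [two_mul, Real.exp_add, sq]
    exact mul_self_le_mul_self (by linarith) h.ok.p4
  have e : V z = NN (fJ A J x l) R p.k p.b z / fJ A J x l z -
      ∑ j ∈ WW J x p.X, cc A J x l R p.k p.b j / (z - x j * I) := by
    apply mul_left_cancel₀ f0
    rw [hV.2 z (by linarith) (by linarith), mul_sub, mul_div_cancel₀ _ f0, Finset.mul_sum]
    congr 1
    refine Finset.sum_congr rfl fun j hj => ?_
    have hj' := (Finset.mem_filter.1 hj).1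
    have := z0 j hj'
    rw [fJ_erase hj' z]
    field_simp
  have s : ‖∑ j ∈ WW J x p.X, cc A J x l R p.k p.b j / (z - x j * I)‖ ≤
      40 * Real.exp (3 * p.G + 4 * p.κ * |z.re|) := by
    refine (norm_sum_le _ _).trans ((Finset.sum_le_card_nsmul _ _ (20 * p.P ^ 2)
      fun j hj => ?_).trans ?_)
    · obtain ⟨a, b⟩ := Finset.mem_filter.1 hj
      rw [norm_div, div_le_iff₀ (norm_pos_iff.2 (z0 j a))]
      have := mul_le_mul_of_nonneg_left (hz j a) (show 0 ≤ 20 * p.P ^ 2 by positivity)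
      linarith [h5 p A J x l R h j a b.le]
    · rw [nsmul_eq_mul]
      have a := mul_le_mul ((h8 p A J x l R h).1.trans (show _ ≤ 2 * Real.exp p.G by
        linarith [h.ok.p1, h.ok.p4])) p2 (by positivity) (by positivity)
      rw [mul_assoc, ← Real.exp_add] at a
      have := Real.exp_le_exp.2 (show p.G + 2 * p.G ≤ 3 * p.G + 4 * p.κ * |z.re| by linarith)
      linarith
  have u : ‖NN (fJ A J x l) R p.k p.b z / fJ A J x l z‖ ≤
      65 * Real.exp (3 * p.G + 4 * p.κ * |z.re|) := by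
    have key : ∀ M : ℝ, z.re ≤ 1 → ‖fJ A J x l (z + p.k * I) / fJ A J x l z‖ ≤ M →
        M ≤ 16 * Real.exp (2 * p.G + 2 * p.κ * |z.re|) →
        ‖NN (fJ A J x l) R p.k p.b z / fJ A J x l z‖ ≤
          65 * Real.exp (3 * p.G + 4 * p.κ * |z.re|) := fun M a b c => by
      refine (left h1 h (by linarith) a hi f0 b).trans ?_
      have d := Real.one_le_exp (show 0 ≤ 2 * p.G + 2 * p.κ * |z.re| by linarith)
      have f := mul_le_mul_of_nonneg_right (show 4 * M + 1 ≤
        65 * Real.exp (2 * p.G + 2 * p.κ * |z.re|) by linarith)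
        (Real.exp_pos (p.G + p.κ * |z.re|)).le
      rw [mul_assoc, ← Real.exp_add] at f
      have := Real.exp_le_exp.2 (show 2 * p.G + 2 * p.κ * |z.re| + (p.G + p.κ * |z.re|) ≤
        3 * p.G + 4 * p.κ * |z.re| by linarith)
      linarith
    rcases le_total 1 z.re with a | a
    · have := right h1 h a (by linarith) hi
      rw [abs_of_nonneg (show 0 ≤ z.re by linarith)]
      linarith [Real.exp_pos (3 * p.G + 4 * p.κ * z.re)]
    rcases le_total (-1) z.re with b | b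
    · refine key _ a (gm h2 h (abs_le.2 ⟨b, a⟩) hi hz f0) ?_
      have := Real.exp_le_exp.2 (show 2 * p.G ≤ 2 * p.G + 2 * p.κ * |z.re| by linarith)
      linarith [Real.exp_pos (2 * p.G)]
    · have c := gl h1 h3 h (s := -z.re) (t := z.im) (by linarith) (by linarith) hi
      rw [ofReal_neg, neg_neg, re_add_im, ← abs_of_nonpos (show z.re ≤ 0 by linarith)] at c
      exact key _ a c le_rfl
  rw [e]
  linarith [norm_sub_le (NN (fJ A J x l) R p.k p.b z / fJ A J x l z)
    (∑ j ∈ WW J x p.X, cc A J x l R p.k p.b j / (z - x j * I))]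

end D9aux

theorem D9 (hB : BOX_s) (h1 : D1_s) (h2 : D2_s) (h3 : D3_s) (h5 : D5_s) (h8 : D8_s) : D9_s := by
  intro p A J x l R V h hV z hr hi
  have xb := h.ok.xb
  have gb := h.ok.gb
  have k1 := h.ok.k1
  have q : 0 ≤ p.κ * |z.re| := mul_nonneg h.ok.κ0.le (abs_nonneg _)
  by_cases hz : ∀ j ∈ J, 1 / 10 ≤ ‖z - x j * I‖
  · refine (D9aux.off h1 h2 h3 h5 h8 h hV hr (by linarith) hz).trans ?_
    rw [show 4 * p.G + 4 * p.κ * |z.re| = p.G + (3 * p.G + 4 * p.κ * |z.re|) by ring,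
      Real.exp_add p.G]
    exact mul_le_mul_of_nonneg_right (by linarith) (Real.exp_pos _).le
  push Not at hz
  obtain ⟨j, hj, hz⟩ := hz
  have a1 := abs_le.1 ((abs_re_le_norm _).trans hz.le)
  have a2 := abs_le.1 ((abs_im_le_norm _).trans hz.le)
  have ai := abs_le.1 hi
  simp only [sub_re, sub_im, mul_I_re, mul_I_im, ofReal_re, ofReal_im, neg_zero, sub_zero] at a1 a2
  have sep := SEP p A J x l R h j (by rw [abs_le]; constructor <;> linarith)
  have := hB V (-(1 / 10)) (1 / 10) (x j - 1 / 10) (x j + 1 / 10)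
    (105 * Real.exp (3 * p.G + 1)) (hV.1.mono fun w hw => ?_) (fun w hw he => ?_) z
    ⟨by linarith, by linarith, by linarith, by linarith⟩
  · refine this.trans ?_
    rw [show 4 * p.G + 4 * p.κ * |z.re| = p.G + 4 * p.κ * |z.re| + 3 * p.G by ring,
      Real.exp_add, Real.exp_add _ (3 * p.G), mul_comm (Real.exp (3 * p.G)), ← mul_assoc]
    refine mul_le_mul_of_nonneg_right ?_ (Real.exp_pos _).le
    linarith [Real.exp_one_lt_d9, Real.exp_le_exp.2 (show p.G ≤ p.G + 4 * p.κ * |z.re| by linarith)]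
  · obtain ⟨b1, b2, b3, b4⟩ := hw
    constructor <;> rw [abs_lt] <;> constructor <;> linarith
  · obtain ⟨b1, b2, b3, b4⟩ := hw
    have wr : |w.re| ≤ 1 / 10 := abs_le.2 ⟨b1, b2⟩
    refine (D9aux.off h1 h2 h3 h5 h8 h hV (by linarith) (by rw [abs_le]; constructor <;> linarith)
      fun i _ => ?_).trans ?_
    · have c1 := abs_re_le_norm (w - x i * I)
      have c2 := abs_im_le_norm (w - x i * I)
      simp only [sub_re, sub_im, mul_I_re, mul_I_im, ofReal_re, ofReal_im, neg_zero,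
        sub_zero] at c1 c2
      have d1 := le_abs_self w.re
      have d2 := neg_le_abs w.re
      have d3 := le_abs_self (w.im - x i)
      have d4 := neg_le_abs (w.im - x i)
      rcases lt_trichotomy i j with m | m | m
      · linarith [sep.1 i m]
      · subst m
        rcases he with he | he | he | he <;> linarith
      · linarith [sep.2 i m]
    · have := mul_le_mul h.ok.κ1 wr (abs_nonneg _) (by norm_num)
      exact mul_le_mul_of_nonneg_left (Real.exp_le_exp.2 (by linarith)) (by norm_num)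

end Pool.Agent.MP_f0209c_nt.Rg

/-! The regular part is bounded near the axis. -/

namespace Pool.Agent.MP_f0209c_nt.Rg
open Complex Set Filter Topology ArithmeticFunction Ch Pp

namespace D10aux

lemma smp (h5 : D5_s) (h6 : D6_s) (h8 : D8_s) {p : Par} {A : ℂ} {J : Finset ℕ} {x : ℕ → ℝ}
    {l R V : ℂ → ℂ} (h : Dat p A J x l R) (hV : Reg p A J x l R V) {j : ℕ} (hj : j ∈ J)
    (hx : |x j| ≤ p.X) (hi : ∀ i, i < j → x i ≤ x j - p.k - 3 / 20) :
    ‖V ((x j - p.k : ℝ) * I)‖ ≤ 30 * p.P ^ 3 := by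
  have o := h.ok
  have a1 := o.xb
  have a2 := o.pb
  have a3 := o.k1
  have a4 := o.k2.trans Real.pi_le_four
  have b := abs_le.1 hx
  set z : ℂ := (x j - p.k : ℝ) * I with hz
  have far : ∀ i, 3 / 20 ≤ ‖z - x i * I‖ := fun i => by
    rw [hz, ← sub_mul, ← ofReal_sub, norm_mul, norm_I, mul_one, norm_real, Real.norm_eq_abs]
    rcases lt_or_ge i j with q | q
    · exact le_abs.2 (.inl (by linarith [hi i q]))
    · exact le_abs.2 (.inr (by linarith [h.mono q]))
  have ne : ∀ i, z - x i * I ≠ 0 := fun i => norm_pos_iff.1 (by linarith [far i])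
  have f0 : fJ A J x l z ≠ 0 := fJ_ne h.a0 fun i _ => sub_ne_zero.1 (ne i)
  have e := hV.2 z (by simp [hz]; linarith) (by
    simp only [hz, mul_I_im, ofReal_re]; exact abs_lt.2 ⟨by linarith, by linarith⟩)
  have zk : z + p.k * I = x j * I := by rw [hz]; push_cast; ring
  have e2 : V z = -(exp z * R z) -
      ∑ i ∈ WW J x p.X, cc A J x l R p.k p.b i / (z - x i * I) := by
    refine mul_left_cancel₀ f0 (e.trans ?_)
    rw [NN, zk, fJ_zero hj, mul_sub (fJ A J x l z), Finset.mul_sum]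
    congr 1
    · ring
    refine Finset.sum_congr rfl fun i q => ?_
    have := ne i
    rw [fJ_erase (Finset.mem_filter.1 q).1 z]
    field_simp
  have n1 : ‖exp z * R z‖ ≤ 2 * p.P ^ 2 := by
    rw [norm_mul, hz, norm_exp_ofReal_mul_I, one_mul]
    exact h6 p A J x l R h j hj (by linarith) hi
  have n2 : ‖∑ i ∈ WW J x p.X, cc A J x l R p.k p.b i / (z - x i * I)‖ ≤
      (WW J x p.X).card • (2 * p.P ^ 2 / (3 / 20)) :=
    (norm_sum_le _ _).trans (Finset.sum_le_card_nsmul _ _ _ fun i q => by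
      obtain ⟨q1, q2⟩ := Finset.mem_filter.1 q
      rw [norm_div]
      exact div_le_div₀ (by positivity) (h5 p A J x l R h i q1 q2.le) (by norm_num) (far i))
  rw [nsmul_eq_mul] at n2
  have n3 := mul_le_mul_of_nonneg_right ((h8 p A J x l R h).1.trans
    (show 2 * p.X ≤ 2 * p.P by linarith [o.p1])) (show 0 ≤ 2 * p.P ^ 2 / (3 / 20) by positivity)
  rw [e2]
  refine (norm_sub_le _ _).trans ?_
  rw [norm_neg]
  nlinarith [mul_le_mul_of_nonneg_right a2 (sq_nonneg p.P), sq_nonneg p.P]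

end D10aux

theorem D10 (hS : SAM_s) (h5 : D5_s) (h6 : D6_s) (h7 : D7b_s) (h8 : D8_s) (h9 : D9_s) : D10_s := by
  intro p A J x l R V h hV z z1 z2
  have o := h.ok
  have a1 := o.xb
  have a2 := o.xn
  have a3 := o.n1
  have a4 := o.pb
  have a5 := o.k1
  have a6 := o.k2.trans Real.pi_le_four
  have a7 := o.y2
  have b := abs_le.1 z2
  have re : ∀ w : ℂ, (w + z.im * I).re = w.re := fun w => by simp
  have im : ∀ w : ℂ, (w + z.im * I).im = w.im + z.im := fun w => by simp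
  have p3 : 1 ≤ p.P ^ 3 := one_le_pow₀ (by linarith)
  have key := hS (fun w => V (w + z.im * I)) (p.X / 4) (1 / (700 * p.n)) (70 * p.n) (30 * p.P ^ 3)
    (by positivity) (by positivity) (le_of_eq (by field_simp; norm_num))
    (by rw [one_div, inv_mul_eq_div, le_div_iff₀ (by positivity)]; linarith) (by linarith)
    (hV.1.comp (by fun_prop) fun w ⟨w1, w2, w3, w4⟩ =>
      ⟨by rw [re]; exact abs_lt.2 ⟨by linarith, by linarith⟩,
        by rw [im]; exact abs_lt.2 ⟨by linarith, by linarith⟩⟩)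
    (fun w ⟨w1, w2, w3, w4⟩ => (h9 p A J x l R V h hV _ (by rw [re]; exact abs_le.2 ⟨w1, w2⟩)
      (by rw [im]; exact abs_le.2 ⟨by linarith, by linarith⟩)).trans (Real.exp_le_exp.2 (by
        have e1 : 4 * p.κ * |w.re| = 1 / (700 * p.n) * |w.re| / 4 := by
          unfold Par.κ; field_simp; ring
        have e2 : 4 * p.G ≤ 1 / (700 * p.n) * (p.X / 4) / 2 := by
          rw [one_div, inv_mul_eq_div, div_div, le_div_iff₀ (by positivity)]
          nlinarith [o.x2, o.g1]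
        rw [re, e1]; linarith)))
    (fun t ht => by
      have c := abs_le.1 ht
      obtain ⟨j, hj, j1, j2⟩ := h7 p A J x l R h (z.im + t) (abs_le.2 ⟨by linarith, by linarith⟩)
      have d := abs_le.1 j1
      refine ⟨x j - p.k - z.im, abs_le.2 ⟨by linarith, by linarith⟩, ?_⟩
      have e : ((x j - p.k - z.im : ℝ) : ℂ) * I + z.im * I = (x j - p.k : ℝ) * I := by
        push_cast; ring
      simp only [e]
      exact D10aux.smp h5 h6 h8 h hV hj (abs_le.2 ⟨by linarith, by linarith⟩) j2)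
    z.re (by linarith)
  simp only [re_add_im] at key
  have e3 : Real.exp (1 / (700 * p.n) * |z.re|) ≤ 3 :=
    (Real.exp_le_exp.2 (show _ ≤ 1 by
      rw [one_div, inv_mul_eq_div, div_le_one (by positivity)]; linarith)).trans
      (by linarith [Real.exp_one_lt_d9])
  refine key.trans ((mul_le_mul_of_nonneg_left e3 (by positivity)).trans ?_)
  nlinarith [mul_le_mul_of_nonneg_right a4 (show 0 ≤ p.P ^ 3 by linarith)]

end Pool.Agent.MP_f0209c_nt.Rg

/-! Almost periodicity of `F`. -/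

namespace Pool.Agent.MP_f0209c_nt.Rg
open Complex Set Filter Topology ArithmeticFunction Ch Pp

theorem D11 (h1 : D1_s) (h2 : D2_s) (h5 : D5_s) (h8 : D8_s) (h10 : D10_s) : D11_s := by
  intro p A J x l R h z hr hi
  obtain ⟨hc, V, hV⟩ := h8 p A J x l R h
  have xb := h.ok.xb
  have pb := h.ok.pb
  have xn := h.ok.xn
  have y1 := h.ok.y1
  have y2 := h.ok.y2
  have k1 := h.ok.k1
  have k2 := h.ok.k2.trans Real.pi_le_four
  have ai := abs_le.1 hi
  have ar := abs_le.1 hr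
  have rd := abs_sub_round z.im
  have rd' := abs_le.1 rd
  have hv : |((round z.im : ℤ) : ℝ)| ≤ p.X := by rw [abs_le]; constructor <;> linarith
  set w : ℂ := 1 + (round z.im : ℤ) * I with hw
  have n1 : ‖z - w‖ ≤ p.y + 8 := by
    have a : |(z - w).re| ≤ p.y + 1 := by
      rw [show (z - w).re = z.re - 1 by simp [hw], abs_le]
      constructor <;> linarith
    have b : |(z - w).im| ≤ 1 / 2 := by simpa [hw] using rd
    linarith [norm_le_abs_re_add_abs_im (z - w)]
  have n2 : ‖z‖ ≤ p.X := by linarith [norm_le_abs_re_add_abs_im z]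
  have n3 : ‖z + p.k * I‖ ≤ 4 * p.X := by
    refine (norm_add_le _ _).trans ?_
    rw [norm_mul, norm_I, norm_real, Real.norm_of_nonneg (by linarith)]
    linarith
  have n4 : ‖w‖ ≤ 4 * p.X := by linarith [norm_sub_norm_le w z, norm_sub_rev w z]
  obtain ⟨a1, a2⟩ := (h2 p A J x l R h _ z (hv.trans (by linarith))).1 n1
  obtain ⟨b0, -, b1⟩ := h1 p A J x l R h z (by linarith)
  obtain ⟨b2, b3, -⟩ := h1 p A J x l R h w n4
  have b4 := (h1 p A J x l R h _ n3).1
  have g := h.good _ hv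
  rw [← hw] at a1 a2 g
  have f0 := norm_nonneg (fJ A J x l w)
  have s : ‖∑ j ∈ WW J x p.X, cc A J x l R p.k p.b j * fJ A (J.erase j) x l z‖ ≤
      p.P ^ 5 * ‖fJ A J x l w‖ := by
    refine (norm_sum_le _ _).trans ((Finset.sum_le_card_nsmul _ _
      (2 * p.P ^ 2 * (p.P * ‖fJ A J x l w‖)) fun j hj => ?_).trans ?_)
    · obtain ⟨a, b⟩ := Finset.mem_filter.1 hj
      rw [norm_mul]
      exact mul_le_mul (h5 p A J x l R h j a b.le) (a2 j a) (norm_nonneg _) (by positivity)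
    · rw [nsmul_eq_mul]
      refine (mul_le_mul_of_nonneg_right (hc.trans (show _ ≤ 2 * p.P by linarith [h.ok.p1]))
        (by positivity)).trans ?_
      have := mul_le_mul_of_nonneg_right (show 4 ≤ p.P by linarith)
        (show 0 ≤ p.P ^ 4 * ‖fJ A J x l w‖ by positivity)
      linarith
  have u : ‖NN (fJ A J x l) R p.k p.b z‖ ≤ 2 * p.P ^ 5 * ‖fJ A J x l w‖ := by
    rw [← eq_sub_iff_add_eq.1 (hV.2 z (by linarith) (by linarith))]
    refine (norm_add_le _ _).trans ?_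
    rw [norm_mul]
    have := mul_le_mul a1 (h10 p A J x l R V h hV z hr hi) (norm_nonneg _) (by positivity)
    linarith
  have e : FF (fJ A J x l) R p.b (z + p.k * I) - FF (fJ A J x l) R p.b z =
      NN (fJ A J x l) R p.k p.b z * exp (-z) / fJ A J x l (z + p.b) := by
    have := exp_ne_zero z
    unfold FF NN
    rw [exp_neg]
    field_simp
  have ez : ‖exp (-z)‖ ≤ p.P := by
    rw [norm_exp, neg_re]
    exact (Real.exp_le_exp.2 (by linarith)).trans h.ok.p2
  rw [norm_div, div_mul_eq_mul_div, div_le_one (norm_pos_iff.2 b2)] at g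
  rw [e, norm_div, div_mul_eq_mul_div, div_le_one (norm_pos_iff.2 b0), norm_mul]
  have c := mul_le_mul_of_nonneg_right (mul_le_mul u ez (norm_nonneg _) (by positivity))
    (show 0 ≤ p.P ^ 5 by positivity)
  have := mul_le_mul_of_nonneg_right (show 8 ≤ p.P by linarith)
    (show 0 ≤ p.P ^ 11 * ‖fJ A J x l w‖ by positivity)
  linarith

end Pool.Agent.MP_f0209c_nt.Rg

namespace Pool.Agent.MP_f0209c_nt.Rg
open Complex Set Filter Topology ArithmeticFunction Ch Pp

namespace D12aux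

variable {A : ℂ} {J : Finset ℕ} {x : ℕ → ℝ} {l R : ℂ → ℂ} {p : Par}

lemma nle {z : ℂ} {a b : ℝ} (h1 : |z.re| ≤ a) (h2 : |z.im| ≤ b) : ‖z‖ ≤ a + b :=
  (norm_le_abs_re_add_abs_im z).trans (add_le_add h1 h2)

lemma four (h1 : D1_s) (h : Dat p A J x l R) {z z' : ℂ} (hz : ‖z‖ ≤ 4 * p.X) (hz' : ‖z'‖ ≤ 4 * p.X) :
    ‖fJ A J x l (z + p.b)‖ ≤ 4 * ‖fJ A J x l (z' + p.b)‖ := by
  linarith [(h1 p A J x l R h z hz).2.1, (h1 p A J x l R h z' hz').2.2]

lemma rat (h1 : D1_s) (h2 : D2_s) (h : Dat p A J x l R) {w z' : ℂ} (a0 : 0 ≤ w.re)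
    (a1 : w.re ≤ p.X / 20) (a2 : |w.im| ≤ p.X / 10) (hz' : ‖z'‖ ≤ 4 * p.X) :
    ‖fJ A J x l w‖ ≤ 4 * Real.exp (p.G + p.κ * w.re) * ‖fJ A J x l (z' + p.b)‖ := by
  have xb := h.ok.xb
  have k0 := h.ok.κ0
  rcases le_total 1 w.re with s1 | s1
  · have hw : ‖w‖ ≤ 4 * p.X :=
      (nle (a := p.X / 20) (by rwa [abs_of_nonneg a0]) a2).trans (by linarith)
    have c := (h.crude.1 w s1 (by linarith) (by linarith)).2.1
    have n := (h1 p A J x l R h w hw).1
    rw [norm_div, div_le_iff₀ (norm_pos_iff.2 n)] at c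
    have d := mul_le_mul_of_nonneg_left (four h1 h hw hz') (Real.exp_pos (p.G + p.κ * w.re)).le
    linarith
  · obtain ⟨v, hv⟩ : ∃ v : ℤ, |w.im - v| ≤ 1 / 2 := ⟨round w.im, abs_sub_round _⟩
    have v1 : |(v : ℝ)| ≤ p.X := by
      have := abs_le.1 hv
      have := abs_le.1 a2
      rw [abs_le]; constructor <;> linarith
    have hd : ‖w - (1 + v * I)‖ ≤ p.y + 8 := by
      refine (nle (a := 1) (b := 1 / 2) ?_ ?_).trans (by linarith [h.ok.y1])
      · rw [abs_le]; constructor <;> simp <;> linarith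
      · simpa using hv
    have hv' : ‖(1 + v * I : ℂ)‖ ≤ 4 * p.X :=
      (nle (a := 1) (b := p.X) (by simp) (by simpa using v1)).trans (by linarith)
    have c := ((h2 p A J x l R h v w (by linarith)).1 hd).1
    have g := h.good v v1
    have n := norm_pos_iff.2 (h1 p A J x l R h _ hv').1
    have P1 : 1 ≤ p.P ^ 12 := one_le_pow₀ (by linarith [h.ok.pb])
    have g' : ‖fJ A J x l (1 + v * I) / fJ A J x l (1 + v * I + p.b)‖ ≤ 1 :=
      (le_mul_of_one_le_right (norm_nonneg _) P1).trans g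
    rw [norm_div, div_le_one n] at g'
    have f4 := four h1 h hv' hz'
    have pe : p.P ≤ Real.exp (p.G + p.κ * w.re) :=
      h.ok.p4.trans (Real.exp_le_exp.2 (by nlinarith))
    have e1 : p.P * ‖fJ A J x l (1 + v * I)‖ ≤
        Real.exp (p.G + p.κ * w.re) * (4 * ‖fJ A J x l (z' + p.b)‖) :=
      mul_le_mul pe (g'.trans f4) (norm_nonneg _) (Real.exp_pos _).le
    linarith

lemma fin (h : p.Ok) {s : ℝ} (s0 : 0 ≤ s) :
    8 * (Real.exp (p.G + p.κ * s) * Real.exp (p.G + p.κ * s)) ≤ Real.exp (4 * p.G + 3 * p.κ * s) := by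
  have k0 := h.κ0
  have a : Real.exp (4 * p.G + 3 * p.κ * s) = Real.exp (2 * p.G + p.κ * s) *
      (Real.exp (p.G + p.κ * s) * Real.exp (p.G + p.κ * s)) := by
    rw [← Real.exp_add, ← Real.exp_add]; congr 1; ring
  rw [a]
  refine mul_le_mul_of_nonneg_right ?_ (by positivity)
  have : Real.exp p.G ≤ Real.exp (2 * p.G + p.κ * s) :=
    Real.exp_le_exp.2 (by nlinarith [h.g1])
  linarith [h.gb]

end D12aux

open D12aux in
theorem D12 (h1 : D1_s) (h2 : D2_s) (h3 : D3_s) : D12_s := by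
  intro p A J x l R h
  have xb := h.ok.xb
  have k0 := h.ok.κ0
  constructor
  · intro z hz
    rw [mem_closedBall_zero_iff] at hz
    obtain ⟨b1, b2⟩ := h.ok.ball (z := z) (by linarith)
    have d1 : DifferentiableAt ℂ (fJ A J x l) z := h.win.diffAt b1
    have d2 : DifferentiableAt ℂ (fun z => fJ A J x l (z + p.b)) z :=
      (h.win.diffAt (A := A) (J := J) (x := x) b2).comp z (differentiableAt_id.add_const _)
    exact ((d1.mul (h.dR z)).div d2 (h1 p A J x l R h z (by linarith)).1).differentiableWithinAt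
  intro z a0 a1 a2
  have hz : ‖z‖ ≤ 4 * p.X :=
    (nle (a := p.X / 20) (by rwa [abs_of_nonneg a0]) a2).trans (by linarith)
  have fi := fin h.ok a0
  have e1 : 200000000 ≤ Real.exp (p.G + p.κ * z.re) :=
    h.ok.gb.trans (Real.exp_le_exp.2 (by nlinarith))
  constructor
  · have n := (h1 p A J x l R h z hz).1
    rcases le_total 1 z.re with s1 | s1
    · obtain ⟨-, c2, c3⟩ := h.crude.1 z s1 (by linarith) (by linarith)
      have n0 : fJ A J x l z ≠ 0 := fJ_ne' h.a0 (by linarith)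
      have e : (FF (fJ A J x l) R p.b z - 1) * exp z =
          -((fJ A J x l (z + p.b) / fJ A J x l z - R z) *
            (fJ A J x l z / fJ A J x l (z + p.b)) * exp z) := by
        unfold FF; field_simp; ring
      rw [e, norm_neg, norm_mul, norm_mul, norm_exp]
      refine (mul_le_mul_of_nonneg_right (mul_le_mul c3 c2 (norm_nonneg _) (Real.exp_pos _).le)
        (Real.exp_pos _).le).trans ?_
      rw [← Real.exp_add, ← Real.exp_add]
      exact Real.exp_le_exp.2 (by nlinarith [h.ok.g1])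
    · have c := h.crude.2 z (by linarith) s1 (by linarith)
      rw [abs_of_nonneg a0] at c
      have r := rat h1 h2 h a0 a1 a2 hz
      rw [← div_le_iff₀ (norm_pos_iff.2 n), ← norm_div] at r
      have e : (FF (fJ A J x l) R p.b z - 1) * exp z =
          fJ A J x l z / fJ A J x l (z + p.b) * (exp z * R z) - exp z := by
        unfold FF; ring
      rw [e]
      refine (norm_sub_le _ _).trans ?_
      rw [norm_mul, norm_exp]
      have m := mul_le_mul r c (norm_nonneg _) (by positivity)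
      have q : Real.exp z.re ≤ 3 := (Real.exp_le_exp.2 s1).trans (by linarith [Real.exp_one_lt_d9])
      nlinarith
  · have hz' : ‖-z‖ ≤ 4 * p.X := by rwa [norm_neg]
    have n := (h1 p A J x l R h (-z) hz').1
    have c := h.crude.2 (-z) (by simp; linarith) (by simp; linarith) (by simp; linarith)
    rw [neg_re, abs_neg, abs_of_nonneg a0] at c
    have d := (h3 p A J x l R h z.re (-z.im) a0 (by linarith) (by rw [abs_neg]; linarith)).1
    have ez : (-(z.re : ℂ) + ((-z.im : ℝ) : ℂ) * I) = -z := by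
      apply Complex.ext <;> simp
    rw [ez] at d
    have r := rat h1 h2 h (w := (z.re : ℂ) + ((-z.im : ℝ) : ℂ) * I) (z' := -z) (by simpa using a0)
      (by simpa using a1) (by simpa using a2) hz'
    have wr : ((z.re : ℂ) + ((-z.im : ℝ) : ℂ) * I).re = z.re := by simp
    rw [wr] at r
    have e : FF (fJ A J x l) R p.b (-z) * exp (-(2 * z)) =
        fJ A J x l (-z) * exp (-z) / fJ A J x l (-z + p.b) * (exp (-z) * R (-z)) := by
      rw [show -(2 * z) = -z + -z by ring, exp_add]; unfold FF; ring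
    have t : ‖fJ A J x l (-z) * exp (-z) / fJ A J x l (-z + p.b)‖ ≤
        8 * Real.exp (p.G + p.κ * z.re) := by
      rw [norm_div, div_le_iff₀ (norm_pos_iff.2 n), norm_mul, norm_exp, neg_re, Real.exp_neg,
        ← div_eq_mul_inv, div_le_iff₀ (Real.exp_pos _)]
      have := mul_le_mul_of_nonneg_left r (show 0 ≤ 2 * Real.exp z.re by positivity)
      linarith
    rw [e, norm_mul]
    have m := mul_le_mul t c (norm_nonneg _) (by positivity)
    linarith

end Pool.Agent.MP_f0209c_nt.Rg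

/-! Consecutive ordinates differ by almost a multiple of the period. -/

namespace Pool.Agent.MP_f0209c_nt.Rg
open Complex Set Filter Topology ArithmeticFunction Ch Pp

theorem DET (hP : PER_s) (h7 : D7a_s) (h11 : D11_s) (h12 : D12_s) : DET_s := by
  intro p A J x l R h j hj
  have o := h.ok
  have a1 := o.xb
  have a2 := o.xn
  have a3 := o.n1
  have a4 := o.pb
  have b := abs_le.1 hj
  obtain ⟨i, -, i1, i2⟩ := h7 p A J x l R h (x j + 1) (abs_le.2 ⟨by linarith, by linarith⟩)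
  have ij : j < i := not_le.1 fun q => by linarith [h.mono q]
  have c1 := h.mono (show j + 1 ≤ i from ij)
  have c2 := h.mono (Nat.le_succ j)
  refine ⟨by linarith, ?_⟩
  obtain ⟨d1, d2⟩ := h12 p A J x l R h
  have z0 : ∀ i, |x i| ≤ 2 * p.X → FF (fJ A J x l) R p.b (x i * I) = 0 := fun i q => by
    rw [FF, fJ_zero (h.mem i q), zero_mul, zero_div]
  have p5 : 0 < p.P ^ 5 := by positivity
  refine hP _ (p.X / 20) p.k p.y (1 / p.P ^ 5) (x j) (x (j + 1)) o.k1 o.k2 o.y1
    (by linarith [o.y2]) (by linarith) (by positivity) ?_ (by nlinarith) ?_ (d1.mono ?_) ?_ ?_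
    (z0 _ (by linarith)) (z0 _ (abs_le.2 ⟨by linarith, by linarith⟩))
  · rw [Real.exp_neg, one_div, inv_mul_eq_div, div_le_iff₀ p5, inv_mul_eq_div,
      le_div_iff₀ (Real.exp_pos _)]
    calc p.X / 20 * Real.exp p.y ≤ p.P * p.P :=
          mul_le_mul (by linarith [o.p1]) o.p2 (Real.exp_pos _).le (by linarith)
      _ = p.P ^ 2 := by ring
      _ ≤ p.P ^ 5 := pow_le_pow_right₀ (by linarith) (by norm_num)
  · have : x (j + 1) ^ 2 ≤ (9 * p.n) ^ 2 := sq_le_sq' (by linarith) (by linarith)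
    nlinarith [o.x1]
  · rintro z ⟨z1, z2, z3, z4⟩
    rw [mem_closedBall_zero_iff]
    linarith [norm_le_abs_re_add_abs_im z, abs_le.2 ⟨z1, z2⟩, abs_le.2 ⟨z3, z4⟩]
  · rintro z ⟨z1, z2, z3, z4⟩
    obtain ⟨q1, q2⟩ := d2 z z1 z2 (abs_le.2 ⟨by linarith, by linarith⟩)
    have : Real.exp (4 * p.G + 3 * p.κ * z.re) ≤ Real.exp (p.X / 20 / 20 + z.re / 40) :=
      Real.exp_le_exp.2 (by nlinarith [o.x2, o.g1, o.κ1])
    exact ⟨q1.trans this, q2.trans this⟩
  · rintro z ⟨z1, z2, z3, z4⟩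
    rw [le_div_iff₀ p5]
    exact h11 p A J x l R h z (abs_le.2 ⟨z1, z2⟩) (abs_le.2 ⟨by linarith, by linarith⟩)

end Pool.Agent.MP_f0209c_nt.Rg

/-! The numerical side conditions. -/

namespace Pool.Agent.MP_f0209c_nt.Rg
open Complex Set Filter Topology ArithmeticFunction Ch Pp

namespace PARaux

lemma pw {t c : ℝ} (ht : 1000 ≤ t) (m n k : ℕ) (h : m + k ≤ n) (hc : c ≤ 1000 ^ k) :
    c * t ^ m ≤ t ^ n := by
  have a : (1 : ℝ) ≤ t := by linarith
  calc c * t ^ m ≤ t ^ k * t ^ m :=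
        mul_le_mul_of_nonneg_right (hc.trans (pow_le_pow_left₀ (by norm_num) ht k)) (by positivity)
    _ = t ^ (m + k) := by ring
    _ ≤ t ^ n := pow_le_pow_right₀ a h

end PARaux

open PARaux in
theorem PAR : PAR_s := by
  intro y hy
  filter_upwards [eventually_ge_atTop (1000 : ℝ), eventually_ge_atTop (Real.exp y),
    eventually_ge_atTop (Real.exp (100 * (y + 8) ^ 2))] with t ht h1 h2
  have t0 : 0 < t := by linarith
  have y0 : 0 < 100 * (y + 8) ^ 2 := by positivity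
  have q : ∀ n, 1 ≤ n → t ≤ t ^ n := fun n hn => by simpa using pw (c := 1) ht 1 n 0 hn (by simp)
  have e4 : 10 ≤ Real.exp (t ^ 4) := by linarith [Real.add_one_le_exp (t ^ 4), q 4 (by norm_num)]
  refine ⟨⟨?_, ?_, ?_, hy, ?_, ?_, ?_, ?_, ?_, Real.exp_pos _, ?_, ?_, ?_, ?_, le_rfl, ?_, ?_, ?_⟩, ?_⟩
  all_goals try dsimp only
  · linarith [q 5 (by norm_num)]
  · rw [← pow_mul]; exact pw ht _ _ 2 (by norm_num) (by norm_num)
  · exact le_of_eq (by ring)
  · linarith [q 5 (by norm_num), Real.add_one_le_exp y]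
  · simpa using pw (c := 1) ht 20 21 0 (by norm_num) (by simp)
  · exact h1.trans (q 21 (by norm_num))
  · rw [sub_add_cancel, mul_div_cancel₀ _ y0.ne', show 21 * Real.log t = (21 : ℕ) * Real.log t by
      norm_num, Real.exp_nat_mul, Real.exp_log t0]
  · have a := Real.quadratic_le_exp_of_nonneg (show 0 ≤ t ^ 15 / 30000 by positivity)
    have b := pw (c := 1800000000) ht 21 30 4 (by norm_num) (by norm_num)
    have c : (t ^ 15 / 30000) ^ 2 / 2 = t ^ 30 / 1800000000 := by ring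
    have d : 0 ≤ t ^ 15 / 30000 := by positivity
    linarith
  · rw [← Real.exp_add, neg_add_cancel, Real.exp_zero]
  · have : Real.exp (-t ^ 4) ≤ 1 / 10 := by
      rw [Real.exp_neg, ← one_div]; exact one_div_le_one_div_of_le (by norm_num) e4
    linarith [Real.pi_gt_d2]
  · linarith [Real.exp_pos (-t ^ 4)]
  · have a := Real.pow_div_factorial_le_exp (t ^ 4) (by positivity) 11
    have b := pw (c := 39916800000) ht 40 44 4 (by norm_num) (by norm_num)
    have c : (t ^ 4) ^ 11 / (Nat.factorial 11 : ℕ) = t ^ 44 / 39916800 := by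
      norm_num [Nat.factorial]; ring
    have d : (t ^ 20) ^ 2 = t ^ 40 := by ring
    rw [d]
    linarith
  · positivity
  · exact le_of_eq (by field_simp)
  · have a := (Real.le_log_iff_exp_le t0).2 h2
    rw [sub_nonneg, one_le_div y0]
    linarith
  · rw [← Real.exp_nat_mul, ← Real.exp_add, Real.exp_le_one_iff]
    have b := pw (c := 1500) ht 4 15 2 (by norm_num) (by norm_num)
    push_cast
    linarith

end Pool.Agent.MP_f0209c_nt.Rg

/-! From agreement on a disc to the data of the local argument. -/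

namespace Pool.Agent.MP_f0209c_nt.Rg
open Complex Set Filter Topology ArithmeticFunction Ch Pp

namespace DATaux

lemma nrm {z : ℂ} {a b : ℝ} (h1 : |z.re| ≤ a) (h2 : |z.im| ≤ b) : ‖z‖ ≤ a + b :=
  (norm_le_abs_re_add_abs_im z).trans (add_le_add h1 h2)

lemma dv {L E : ℝ} {w u : ℂ} (hL : 0 < L) (e : w = L * u) (h : ‖w‖ ≤ L * E) : ‖u‖ ≤ E := by
  rw [e, norm_mul, norm_real, Real.norm_of_nonneg hL.le] at h
  exact le_of_mul_le_mul_left h hL

end DATaux

open DATaux in
theorem DAT : DAT_s := by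
  intro p A J x l R f Z L ok hL hA hW hR hm hf hZ hJ hg he hb hc hd
  have X0 := ok.xb
  have nX := ok.xn
  have n1 := ok.n1
  have k1 := ok.k1
  have k4 : p.k ≤ 4 := ok.k2.trans Real.pi_le_four
  have c0 := ok.c0
  have c1 : p.c ≤ 1 := by linarith [ok.c1, ok.τ1]
  have B : ∀ {z : ℂ}, |z.re| ≤ 50 * p.X → |z.im| ≤ 50 * p.X →
      z ∈ Metric.ball (0 : ℂ) p.r ∧ z + p.b ∈ Metric.ball (0 : ℂ) p.r := fun h1 h2 => by
    have := ok.ball ((nrm h1 h2).trans (by linarith))
    exact ⟨mem_ball_zero_iff.2 this.1, mem_ball_zero_iff.2 this.2⟩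
  have V : ∀ (a E : ℝ) (v : ℤ), 0 < a → a ≤ 50 * p.X → |(v : ℝ)| ≤ 2 * p.X →
      ‖Z (a + v * I)‖ ≤ L * E → ‖ld J x l (a + v * I)‖ ≤ E := fun a E v a0 a1 hv h =>
    dv hL (hZ _ (B (by simpa [abs_of_pos a0] using a1) (by simpa using hv.trans (by linarith))).1
      (by simpa using a0)) h
  have Q : ∀ t : ℝ, |t| ≤ 3 * p.X → f (p.c + t * I) = fJ A J x l (p.c + t * I) ∧
      f (p.c + t * I + p.k * I) = fJ A J x l (p.c + t * I + p.k * I) := fun t ht => by
    have q := abs_le.1 ht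
    refine ⟨hf _ (B ?_ ?_).1, hf _ (B ?_ ?_).1⟩
    · simpa [abs_of_pos c0] using (by linarith : p.c ≤ 50 * p.X)
    · simpa using ht.trans (by linarith)
    · simpa [abs_of_pos c0] using (by linarith : p.c ≤ 50 * p.X)
    · simpa using (abs_le.2 ⟨by linarith, by linarith⟩ : |t + p.k| ≤ 50 * p.X)
  refine ⟨ok, hA, hW, hR, hm, fun j hj => (hg j hj).1, fun j hj => ?_, fun v hv => ?_,
    fun v hv => ⟨?_, ?_⟩, ?_, ⟨fun z h1 h2 h3 => ?_, hc.2⟩, fun j hj => ?_, fun j hj => ?_,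
    fun v hv => ?_⟩
  · obtain ⟨i, hi, e⟩ := hJ j (hj.trans_lt (by linarith [ok.bx, ok.r1]))
    rcases lt_trichotomy i j with q | q | q
    · linarith [(hg i (e ▸ hj)).1, hm (show i + 1 ≤ j from q)]
    · exact q ▸ hi
    · linarith [(hg j hj).1, hm (show j + 1 ≤ i from q)]
  · simpa using V 1 p.E v one_pos (by linarith) hv (by simpa using (he v hv).1)
  · exact V p.n (1 / 50) v (by linarith) (by linarith) hv (by linarith [(he v hv).2.1])
  · simpa using V (3 * p.n) (1 / 50) v (by linarith) (by linarith) hv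
      (by push_cast; linarith [(he v hv).2.2])
  · have b0 : 0 < p.b := by linarith [ok.bx]
    have m := (B (z := 0) (by simp; linarith) (by simp; linarith)).2
    rw [zero_add] at m
    rw [hZ _ m (by simpa using b0), norm_mul, norm_real, Real.norm_of_nonneg hL.le, mul_assoc] at hb
    exact le_of_mul_le_mul_left (by rwa [mul_one]) hL
  · have m := B (z := z) (by rw [abs_of_nonneg (by linarith)]; linarith) (by linarith)
    rw [← hf _ m.1, ← hf _ m.2]
    exact hc.1 z h1 h2 h3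
  · obtain ⟨t, t1, t2⟩ := (hg j hj).2.1
    have a := abs_le.1 t1
    have b := abs_le.1 hj
    have m := Q t (abs_le.2 ⟨by linarith, by linarith⟩)
    refine ⟨t, t1, ?_⟩
    unfold qp at t2 ⊢
    rwa [← m.1, ← m.2]
  · obtain ⟨t, t1, t2⟩ := (hg j hj).2.2
    have a := abs_le.1 t1
    have b := abs_le.1 hj
    have m := Q t (abs_le.2 ⟨by linarith, by linarith⟩)
    refine ⟨t, t1, ?_⟩
    unfold qm at t2 ⊢
    rwa [← m.1, ← m.2]
  · have m := B (z := 1 + v * I) (by simp; linarith) (by simpa using hv.trans (by linarith))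
    rw [← hf _ m.1, ← hf _ m.2]
    exact hd v hv

end Pool.Agent.MP_f0209c_nt.Rg
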