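import Pool.Agent.MP_f0209c_nt.Rg.Bas

/-! Inputs from the zeta function: models, variances, mean values. -/

namespace Pool.Agent.MP_f0209c_nt.Rg
open Complex Set Filter Topology ArithmeticFunction Ch Pp Metric

namespace WINaux
variable {ρ : ℕ → ℂ}

lemma real (hz : Zs ρ) {u h : ℝ} {J : Finset ℕ} {A : ℂ} {l : ℂ → ℂ} (A0 : A ≠ 0) (u1 : 4 ≤ u)
    (h0 : 0 ≤ h) (h1 : h < 1) (hl : DifferentiableOn ℂ l (ball (4 + u * I) (38 / 10)))
    (e : ∀ s ∈ ball (4 + u * I : ℂ) (38 / 10),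
      riemannZeta s = A * (∏ j ∈ J, (s - ρ j)) * exp (l s)) :
    (GG h (1 / 2 + u * I) * exp (l (1 / 2 + u * I + h * I) - l (1 / 2 + u * I))).im = 0 := by
  set c : ℂ := 4 + u * I with hc
  have inb : ∀ {s}, ‖s - c‖ ≤ 37 / 10 → s ∈ ball c (38 / 10) := fun hs =>
    mem_ball_iff_norm.2 (by linarith)
  have dl : ∀ {s}, ‖s - c‖ ≤ 37 / 10 → DifferentiableAt ℂ l s := fun hs =>
    hl.differentiableAt (isOpen_ball.mem_nhds (inb hs))
  have nr0 : ∀ {t : ℝ}, |t - u| ≤ 1 → ‖(1 / 2 + t * I : ℂ) - c‖ ≤ 37 / 10 := fun t1 =>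
    near (by simp) (by simp; norm_num) (by simpa using t1)
  set y : ℝ → ℂ := fun t => I ^ J.card * A * Gammaℝ (1 / 2 + t * I) * exp (l (1 / 2 + t * I))
    with hy
  have tp : ∀ {t : ℝ}, |t - u| ≤ 1 → (1 / 2 + t * I : ℂ).im ≠ 0 := fun t1 => by
    have := abs_le.1 t1
    simp; linarith
  have yc : ∀ t, |t - u| ≤ 1 → ContinuousAt y t := fun t t1 =>
    (continuousAt_const.mul (ContinuousAt.comp (f := fun t : ℝ => (1 / 2 + t * I : ℂ))
      (diff_Gammaℝ (tp t1)).continuousAt (by fun_prop))).mul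
      (ContinuousAt.comp (f := fun t : ℝ => (1 / 2 + t * I : ℂ))
        (dl (nr0 t1)).continuousAt (by fun_prop)).cexp
  have y1 : ∀ t, |t - u| ≤ 1 → (y t).im * ∏ j ∈ J, (t - (ρ j).im) = 0 := fun t t1 => by
    have a := lam_real (t := t) (by simpa using tp t1)
    have b : ∏ j ∈ J, (1 / 2 + t * I - ρ j) = I ^ J.card * (∏ j ∈ J, (t - (ρ j).im) : ℝ) := by
      rw [ofReal_prod, ← Finset.prod_const, ← Finset.prod_mul_distrib]
      refine Finset.prod_congr rfl fun j _ => ?_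
      nth_rw 1 [hz.eq j]
      push_cast; ring
    rw [lam_eq (tp t1), e _ (inb (nr0 t1)), b] at a
    rw [← im_mul_ofReal, ← a, hy]
    congr 1; ring
  have y2 : ∀ t, |t - u| < 1 → (y t).im = 0 := fun t t1 => by_contra fun ne => by
    refine infinite_of_mem_nhds t (s := J.image fun j => (ρ j).im) ?_ (Finset.finite_toSet _)
    filter_upwards [(continuous_im.continuousAt.comp (yc t t1.le)).eventually_ne ne,
      (isOpen_lt (by fun_prop) continuous_const).mem_nhds (show t ∈ {t | |t - u| < 1} from t1)]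
      with x x1 x2
    obtain ⟨j, hj, q⟩ := Finset.prod_eq_zero_iff.1
      ((mul_eq_zero.1 (y1 x (le_of_lt x2))).resolve_left x1)
    exact Finset.mem_coe.2 (Finset.mem_image.2 ⟨j, hj, (sub_eq_zero.1 q).symm⟩)
  have uu : |u - u| < 1 := by simp
  have uh : |u + h - u| < 1 := by rwa [add_sub_cancel_left, abs_of_nonneg h0]
  have y4 : GG h (1 / 2 + u * I) * exp (l (1 / 2 + u * I + h * I) - l (1 / 2 + u * I)) =
      ((y (u + h)).re / (y u).re : ℝ) := by
    have a : ∀ t, |t - u| < 1 → ((y t).re : ℂ) = y t := fun t t1 =>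
      Complex.ext (by simp) (by simp [y2 t t1])
    have := Gammaℝ_ne (tp uu.le)
    rw [ofReal_div, a _ uu, a _ uh, hy, GG, exp_sub, mul_comm I (h : ℂ)]
    simp only [ofReal_add, add_mul, ← add_assoc]
    field_simp
  rw [y4, ofReal_im]

lemma ang {β w : ℂ} {η : ℝ} (hb : ‖β - 1‖ ≤ η) (e1 : η ≤ 1 / 2) (hw : ‖w‖ ≤ 1)
    (h : (β * exp w).im = 0) : |w.im| ≤ 4 * η := by
  have a := abs_le.1 ((abs_re_le_norm _).trans hb)
  have b := (abs_im_le_norm _).trans hb
  rw [sub_re, one_re] at a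
  rw [sub_im, one_im, sub_zero] at b
  rw [mul_im, exp_im, exp_re] at h
  have c : β.re * Real.sin w.im = -(β.im * Real.cos w.im) := by
    apply mul_left_cancel₀ (Real.exp_pos w.re).ne'
    linarith
  have d : β.re * |Real.sin w.im| ≤ η := by
    rw [← abs_of_nonneg (show 0 ≤ β.re by linarith), ← abs_mul, c, abs_neg, abs_mul]
    exact (mul_le_of_le_one_right (abs_nonneg _) (Real.abs_cos_le_one _)).trans b
  have f := Real.mul_abs_le_abs_sin (x := w.im)
    (((abs_im_le_norm w).trans hw).trans (by linarith [Real.pi_gt_three]))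
  have g : 1 / 2 ≤ 2 / Real.pi := by
    rw [div_le_div_iff₀ (by norm_num) Real.pi_pos]; linarith [Real.pi_le_four]
  nlinarith [abs_nonneg w.im, abs_nonneg (Real.sin w.im)]

lemma key (hz : Zs ρ) {T M u : ℝ} {J : Finset ℕ} {A : ℂ} {l : ℂ → ℂ} (A0 : A ≠ 0) (T1 : 4 ≤ T)
    (u1 : T ≤ u) (u2 : u ≤ 2 * T) (M1 : 24 ≤ M) (M2 : Real.log T ≤ M)
    (hl : DifferentiableOn ℂ l (ball (4 + u * I) (38 / 10)))
    (e : ∀ s ∈ ball (4 + u * I : ℂ) (38 / 10),
      riemannZeta s = A * (∏ j ∈ J, (s - ρ j)) * exp (l s))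
    (bd : ∀ s, ‖s - (4 + u * I)‖ ≤ 37 / 10 → ‖deriv l s‖ ≤ M ∧ ‖deriv (deriv l) s‖ ≤ M) :
    (∀ z, ‖z - (1 / 2 + u * I)‖ ≤ 1 / 5 → |(deriv l z).re + Real.log T / 2| ≤
      97 + M * ‖z - (1 / 2 + u * I)‖) := by
  have L0 : 0 ≤ Real.log T := Real.log_nonneg (by linarith)
  set s : ℂ := 1 / 2 + u * I with hs
  obtain ⟨h, hh⟩ : ∃ h : ℝ, M * h = 1 / 2 := ⟨1 / (2 * M), by field_simp⟩
  have h0 : 0 < h := by nlinarith
  have h1 : 48 * h ≤ 1 := by nlinarith
  have nb : ∀ z ∈ closedBall s (1 / 5), ‖z - (4 + u * I)‖ ≤ 37 / 10 := fun z hz => by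
    have a := norm_sub_le_norm_sub_add_norm_sub z s (4 + u * I)
    rw [show s - (4 + u * I) = -(7 / 2) by rw [hs]; ring, norm_neg] at a
    have := mem_closedBall_iff_norm.1 hz
    norm_num at a ⊢; linarith
  have op : ∀ z ∈ closedBall s (1 / 5), ball (4 + u * I : ℂ) (38 / 10) ∈ 𝓝 z := fun z hz =>
    isOpen_ball.mem_nhds (mem_ball_iff_norm.2 (by linarith [nb z hz]))
  have s0 : s ∈ closedBall s (1 / 5) := mem_closedBall_self (by norm_num)
  have m2 : ∀ z ∈ closedBall s (1 / 5), ‖deriv l z - deriv l s‖ ≤ M * ‖z - s‖ := fun z hz =>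
    (convex_closedBall s (1 / 5)).norm_image_sub_le_of_norm_deriv_le (𝕜 := ℂ) (f := deriv l)
      (fun w hw => (hl.deriv isOpen_ball).differentiableAt (op w hw))
      (fun w hw => (bd w (nb w hw)).2) s0 hz
  have sub : closedBall s h ⊆ closedBall s (1 / 5) := closedBall_subset_closedBall (by linarith)
  have nh : ‖s + h * I - s‖ = h := by simp [abs_of_pos h0]
  have sh : s + h * I ∈ closedBall s h := mem_closedBall_iff_norm.2 nh.le
  have m1 := (convex_closedBall s (1 / 5)).norm_image_sub_le_of_norm_deriv_le (𝕜 := ℂ) (f := l)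
    (fun w hw => hl.differentiableAt (op w hw)) (fun w hw => (bd w (nb w hw)).1) s0 (sub sh)
  have m3 := (convex_closedBall s h).norm_image_sub_le_of_norm_hasDerivWithin_le (𝕜 := ℂ)
    (f := fun z => l z - z * deriv l s) (f' := fun z => deriv l z - deriv l s) (C := 1 / 2)
    (fun z hz => ((hl.differentiableAt (op z (sub hz))).hasDerivAt.sub
      (hasDerivAt_mul_const _)).hasDerivWithinAt)
    (fun z hz => (m2 z (sub hz)).trans (hh ▸ mul_le_mul_of_nonneg_left
      (mem_closedBall_iff_norm.1 hz) (by linarith)))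
    (mem_closedBall_self h0.le) sh
  rw [nh] at m1 m3
  have g1 := gamma_ratio (s := s) T1 h0.le (by linarith) (by simpa [hs] using u1)
    (by simpa [hs] using u2) (by simp [hs]; linarith)
  have r := real hz A0 (T1.trans u1) h0.le (by linarith) hl e
  have a := ang (w := I * h * Real.log T / 2 + (l (s + h * I) - l s)) g1 (by linarith) (by
      refine (norm_add_le _ _).trans ?_
      have : ‖I * h * Real.log T / 2‖ = h * Real.log T / 2 := by
        simp [abs_of_pos h0, abs_of_nonneg L0]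
      rw [this]; nlinarith)
    (by rw [mul_assoc, ← exp_add, neg_add_cancel_left]; exact r)
  have b := (abs_im_le_norm _).trans m3
  have a' : (I * h * Real.log T / 2 + (l (s + h * I) - l s)).im =
      h * Real.log T / 2 + ((l (s + h * I)).im - (l s).im) := by simp
  have b' : (l (s + h * I) - (s + h * I) * deriv l s - (l s - s * deriv l s)).im =
      (l (s + h * I)).im - (l s).im - h * (deriv l s).re := by
    simp only [sub_im, mul_im, add_re, add_im, mul_re, ofReal_re, ofReal_im, I_re, I_im]; ring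
  rw [a'] at a; rw [b'] at b
  have c : |(deriv l s).re + Real.log T / 2| ≤ 97 := by
    have a := abs_le.1 a
    have b := abs_le.1 b
    rw [abs_le]
    constructor <;> apply le_of_mul_le_mul_left _ h0 <;> nlinarith
  intro z hz
  have d := abs_le.1 ((abs_re_le_norm _).trans (m2 z (mem_closedBall_iff_norm.2 hz)))
  have c := abs_le.1 c
  rw [sub_re] at d
  rw [abs_le]; constructor <;> linarith

end WINaux

theorem WIN : WIN_s := fun ρ hz r μ r0 m0 => by
  filter_upwards [hz.loc, eventually_ge_atTop 40,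
    Real.tendsto_log_atTop.eventually_ge_atTop (5 * r + 1),
    Real.tendsto_log_atTop.eventually_ge_atTop ((97 + 10 ^ 10 * (r + 1)) / μ)]
    with T hL T1 L1 L2 u u1 u2
  obtain ⟨J, A, l, A0, -, -, hl, e, bd⟩ := hL u (by linarith) (by linarith)
  have k := WINaux.key hz A0 (T := T) (by linarith) (by linarith) (by linarith) (by linarith)
    (by linarith) hl e bd
  rw [div_le_iff₀ m0] at L2
  have hs : ∀ z, sc T u z = 1 / 2 + u * I + z / (Real.log T : ℝ) := fun _ => rfl
  have hx : ∀ j, xs ρ T u j = Real.log T * ((ρ j).im - u) := fun _ => rfl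
  have sr := sc_re T u
  unfold fz
  generalize Real.log T = L at *
  have L0 : 0 < L := by linarith
  have L3 : (L : ℂ) ≠ 0 := ofReal_ne_zero.2 L0.ne'
  have n1 : ∀ z ∈ ball (0 : ℂ) r, ‖sc T u z - (1 / 2 + u * I)‖ ≤ r / L := fun z hz => by
    rw [hs, add_sub_cancel_left, norm_div, norm_real, Real.norm_of_nonneg L0.le]
    exact div_le_div_of_nonneg_right (mem_ball_zero_iff.1 hz).le L0.le
  have rl : r / L ≤ 1 / 5 := by rw [div_le_iff₀ L0]; linarith
  have nb : ∀ z ∈ ball (0 : ℂ) r, ‖sc T u z - (4 + u * I)‖ ≤ 37 / 10 := fun z hz => by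
    have a := norm_sub_le_norm_sub_add_norm_sub (sc T u z) (1 / 2 + u * I) (4 + u * I)
    rw [show (1 / 2 + u * I : ℂ) - (4 + u * I) = -(7 / 2) by ring, norm_neg] at a
    have := n1 z hz
    norm_num at a this ⊢; linarith
  have ib : ∀ z ∈ ball (0 : ℂ) r, sc T u z ∈ ball (4 + u * I : ℂ) (38 / 10) := fun z hz =>
    mem_ball_iff_norm.2 (by linarith [nb z hz])
  have ds : ∀ z, HasDerivAt (sc T u) (1 / L) z := fun z => by
    rw [funext hs]; exact ((hasDerivAt_id z).div_const _).const_add _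
  have d1 : ∀ z ∈ ball (0 : ℂ) r, HasDerivAt (l ∘ sc T u) (deriv l (sc T u z) * (1 / L)) z :=
    fun z hz => (hl.differentiableAt (isOpen_ball.mem_nhds (ib z hz))).hasDerivAt.comp z (ds z)
  have d2 : ∀ z ∈ ball (0 : ℂ) r, deriv (deriv (l ∘ sc T u)) z =
      deriv (deriv l) (sc T u z) * (1 / L) * (1 / L) := fun z hz => by
    rw [EventuallyEq.deriv_eq (eventually_of_mem (isOpen_ball.mem_nhds hz)
      fun w hw => (d1 w hw).deriv)]
    exact ((((hl.deriv isOpen_ball).differentiableAt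
      (isOpen_ball.mem_nhds (ib z hz))).hasDerivAt.comp z (ds z)).mul_const _).deriv
  have sj : ∀ z j, sc T u z - ρ j = (z - xs ρ T u j * I) / L := fun z j => by
    nth_rw 1 [hz.eq j]
    rw [hs, hx]; push_cast; field_simp; ring
  refine ⟨J, A / L ^ J.card, l ∘ sc T u, div_ne_zero A0 (pow_ne_zero _ L3),
    ⟨fun z hz => (d1 z hz).differentiableAt.differentiableWithinAt, fun z hz => ?_, fun z hz => ?_⟩,
    fun z hz => ?_, fun z hz' z0 => ?_, fun j hj => ?_⟩
  · have a := (k _ ((n1 z hz).trans rl)).trans (add_le_add_right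
      (mul_le_mul_of_nonneg_left (n1 z hz) (by positivity)) 97)
    rw [(d1 z hz).deriv, mul_one_div, div_ofReal_re,
      show (deriv l (sc T u z)).re / L + 1 / 2 = ((deriv l (sc T u z)).re + L / 2) / L by
        field_simp, abs_div, abs_of_pos L0, div_le_iff₀ L0]
    rw [show 10 ^ 10 * L * (r / L) = 10 ^ 10 * r by field_simp] at a
    linarith
  · rw [d2 z hz, norm_mul, norm_mul, norm_div, norm_one, norm_real, Real.norm_of_nonneg L0.le,
      mul_one_div, mul_one_div, div_le_iff₀ L0, div_le_iff₀ L0]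
    refine (bd _ (nb z hz)).2.trans (mul_le_mul_of_nonneg_right ?_ L0.le)
    linarith
  · rw [e _ (ib z hz), fJ, Finset.prod_congr rfl fun j _ => sj z j, Finset.prod_div_distrib,
      Finset.prod_const, Function.comp_apply]
    ring
  · rw [hz.frac A0 hl e (nb z hz') (by rw [sr]; linarith [div_pos z0 L0]), ld, (d1 z hz').deriv,
      mul_add, Finset.mul_sum]
    congr 1
    · exact Finset.sum_congr rfl fun j _ => by rw [sj, inv_div, div_eq_mul_inv]
    · field_simp
  · have a : sc T u (xs ρ T u j * I) = ρ j := sub_eq_zero.1 (by rw [sj, sub_self, zero_div])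
    have b := e _ (ib (xs ρ T u j * I) (by simpa using hj))
    rw [a, hz.zero j] at b
    obtain ⟨i, hi, q⟩ := Finset.prod_eq_zero_iff.1 ((mul_eq_zero.1
      ((mul_eq_zero.1 b.symm).resolve_right (exp_ne_zero _))).resolve_left A0)
    exact ⟨i, hi, by rw [hx, hx, sub_eq_zero.1 q]⟩

end Pool.Agent.MP_f0209c_nt.Rg

namespace Pool.Agent.MP_f0209c_nt.Rg
open Complex Set Filter Topology ArithmeticFunction Ch Pp MeasureTheory

namespace SELaux
variable {φ : ℝ → ℝ}

lemma ibp (h : Cut φ (1 / 2) 1) : ∃ D : ℝ, 0 ≤ D ∧ ∀ z : ℂ, 0 < z.re →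
    ‖(∫ x in (0 : ℝ)..1, φ x * exp (-z * x)) - z⁻¹‖ ≤ D * Real.exp (-(z.re / 2)) * ‖z⁻¹‖ ^ 2 := by
  obtain ⟨s, b, o, e⟩ := h
  obtain ⟨D, hD⟩ := s.deriv.deriv.cont.bounded_above_of_compact_support s.deriv.deriv.cs
  have D0 : 0 ≤ D := (norm_nonneg _).trans (hD 0)
  refine ⟨D, D0, fun z hz => ?_⟩
  have z0 : z ≠ 0 := fun q => by simp [q] at hz
  have p0 : φ 0 = 1 := o 0 (by norm_num)
  have p1 : φ 1 = 0 := e 1 (by norm_num)
  have d0 : deriv φ 0 = 0 :=
    IsLocalMax.deriv_eq_zero (Eventually.of_forall fun y => p0 ▸ (b y).2)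
  have d1 : deriv φ 1 = 0 :=
    IsLocalMin.deriv_eq_zero (Eventually.of_forall fun y => p1 ▸ (b y).1)
  have d2 : ∀ x : ℝ, |x| < 1 / 2 → deriv (deriv φ) x = 0 := fun x hx => by
    have q : φ =ᶠ[𝓝 x] fun _ => 1 :=
      ((isOpen_lt continuous_abs continuous_const).mem_nhds hx : {y : ℝ | |y| < 1 / 2} ∈ 𝓝 x)
        |> fun m => eventually_of_mem m fun y hy => o y (le_of_lt hy)
    rw [q.deriv.deriv_eq]; simp
  have c0 := s.cont
  have c2 := s.deriv.deriv.cont
  have k := intervalIntegral.integral_eq_sub_of_hasDerivAt (a := 0) (b := 1)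
    (f := fun x : ℝ => -(z⁻¹ * (φ x * exp (-z * x))) - z⁻¹ ^ 2 * (deriv φ x * exp (-z * x)))
    (f' := fun x : ℝ => φ x * exp (-z * x) - z⁻¹ ^ 2 * (deriv (deriv φ) x * exp (-z * x)))
    (fun x _ => by
      have a := ((s.1.differentiable (by simp)) x).hasDerivAt.ofReal_comp
      have a' := ((s.deriv.1.differentiable (by simp)) x).hasDerivAt.ofReal_comp
      have c := ((hasDerivAt_id x).ofReal_comp.const_mul (-z)).cexp
      refine (((a.mul c).const_mul z⁻¹).neg.sub ((a'.mul c).const_mul (z⁻¹ ^ 2))).congr_deriv ?_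
      simp only [id, ofReal_one]; field_simp; ring)
    (Continuous.intervalIntegrable (by fun_prop) _ _)
  rw [intervalIntegral.integral_sub (Continuous.intervalIntegrable (by fun_prop) _ _)
    (Continuous.intervalIntegrable (by fun_prop) _ _), intervalIntegral.integral_const_mul] at k
  simp only [p0, p1, d0, d1, ofReal_zero, ofReal_one, zero_mul, mul_zero, exp_zero, mul_one,
    neg_zero, sub_zero, zero_sub, neg_neg] at k
  rw [sub_eq_iff_eq_add'.2 (sub_eq_iff_eq_add.1 k), norm_mul, norm_pow, mul_comm]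
  refine mul_le_mul_of_nonneg_right ?_ (by positivity)
  have := intervalIntegral.norm_integral_le_of_norm_le_const (a := 0) (b := 1)
    (f := fun x : ℝ => ((deriv (deriv φ) x : ℝ) : ℂ) * exp (-z * x))
    (C := D * Real.exp (-(z.re / 2))) fun x hx => by
      rw [uIoc_of_le zero_le_one] at hx
      rcases lt_or_ge x (1 / 2) with q | q
      · rw [d2 x (by rwa [abs_of_pos hx.1])]; simp only [ofReal_zero, zero_mul, norm_zero]
        positivity
      · refine norm_mul_le_of_le (by rw [norm_real]; exact hD x) ?_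
        rw [norm_exp, re_mul_ofReal, neg_re]
        exact Real.exp_le_exp.2 (by nlinarith)
  simpa using this

lemma res (h : Cut φ (1 / 2) 1) : ∃ D : ℝ, 0 ≤ D ∧ ∀ (l : ℝ) (w : ℂ), 0 < l → 0 < w.re →
    (Integrable fun y : ℝ => kk φ l (y * I) * (w + y * I)⁻¹) ∧
    ‖(∫ y : ℝ, kk φ l (y * I) * (w + y * I)⁻¹) - 2 * Real.pi * w⁻¹‖ ≤
      2 * Real.pi * (D * Real.exp (-(l * w.re / 2)) / l * ‖w⁻¹‖ ^ 2) := by
  obtain ⟨D, D0, hD⟩ := ibp h
  refine ⟨D, D0, fun l w l0 w0 => ?_⟩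
  have z0 : 0 < ((l : ℂ) * w).re := by rw [re_ofReal_mul]; positivity
  have lc : (l : ℂ) ≠ 0 := by exact_mod_cast l0.ne'
  have e : (fun y : ℝ => kk φ l (y * I) * (w + y * I)⁻¹) = fun y : ℝ => (l : ℂ) ^ 2 *
      (kk φ 1 ((l * y : ℝ) * I) * (l * w + (l * y : ℝ) * I)⁻¹) := by
    funext y
    rw [kk, kk, ofReal_mul, mul_assoc (l : ℂ) y, ← mul_add, mul_inv, ofReal_one, one_mul, one_mul]
    field_simp
  rw [e]
  refine ⟨((h.1.int_res z0).comp_mul_left' l0.ne').const_mul _, ?_⟩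
  rw [integral_const_mul, Measure.integral_comp_mul_left
    (fun y : ℝ => kk φ 1 (y * I) * (l * w + y * I)⁻¹), h.1.res' z0, abs_of_pos (inv_pos.2 l0),
    real_smul]
  have k := hD _ z0
  generalize (∫ x in (0 : ℝ)..1, (φ x : ℂ) * exp (-(l * w) * x)) = X at k ⊢
  rw [show (l : ℂ) ^ 2 * ((l⁻¹ : ℝ) * (2 * Real.pi * X)) - 2 * Real.pi * w⁻¹ =
    (2 * Real.pi * l : ℝ) * (X - (l * w)⁻¹) by rw [mul_inv]; push_cast; field_simp,
    norm_mul, norm_real, Real.norm_of_nonneg (by positivity)]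
  refine (mul_le_mul_of_nonneg_left k (by positivity)).trans (le_of_eq ?_)
  rw [re_ofReal_mul, mul_inv, norm_mul, norm_inv (l : ℂ), norm_real, Real.norm_of_nonneg l0.le]
  field_simp

lemma tsum_eq (h : Cut φ (1 / 2) 1) {T : ℝ} (L0 : 0 < Real.log T) (a u : ℝ) :
    ∑' n, LSeries.term (fun n => (Λ n : ℂ)) (sc T u a) n * φ (Real.log n / (Real.log T / 7)) =
      (Real.log T : ℝ) * DP (NT T) (ca φ T a) u := by
  have e : sc T u a = (1 / 2 + a / Real.log T : ℝ) + u * I := by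
    rw [sc]; push_cast; ring
  have lc : ((Real.log T : ℝ) : ℂ) ≠ 0 := by exact_mod_cast L0.ne'
  rw [tsum_eq_sum (s := NT T) fun n hn => ?_, DP, Finset.mul_sum]
  · refine Finset.sum_congr rfl fun n _ => ?_
    rw [e, term_ex (by simp), ca, ofReal_mul, ofReal_mul, ofReal_div (Λ n)]
    field_simp
  rcases Nat.eq_zero_or_pos n with rfl | n0
  · simp
  rw [NT, Finset.mem_Icc, not_and, not_le] at hn
  have q := (Real.lt_log_iff_exp_lt (Nat.cast_pos.2 n0)).2 (Nat.lt_of_floor_lt (hn n0))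
  rw [h.2.2.2 _ (le_trans ((one_le_div (by positivity)).2 q.le) (le_abs_self _))]; simp

lemma n1 {l y : ℝ} (l0 : 0 < l) (hy : 1 ≤ y) :
    4 * (10 ^ 10 * (7 * l)) * (7 * l) ≤ (1 + l * y) ^ 2 * (200 * 10 ^ 10) := by
  have b : l ≤ 1 + l * y := by nlinarith
  have b1 := pow_le_pow_left₀ l0.le b 2
  nlinarith

lemma n2 {l y : ℝ} (l0 : 0 ≤ l * y) :
    10 ^ 10 * (7 * l) * y ≤ (1 + l * y) ^ 2 * (200 * 10 ^ 10) := by
  nlinarith [sq_nonneg (l * y)]

lemma n3 {L E D x c : ℝ} (L0 : 0 < L) (E0 : 0 ≤ E) (D0 : 0 ≤ D) (x0 : 0 < x) (c0 : 0 ≤ c) :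
    c * Real.pi + c * Real.pi + 2 * Real.pi * (7 * D * x * (L * E + 10 ^ 10 * L)) + 1 ≤
      2 * Real.pi * L * ((1 + c + 7 * 10 ^ 10 * D) * x * (E + 1) +
        (1 + c + 7 * 10 ^ 10 * D) / L) := by
  have p0 := Real.pi_pos
  rw [mul_add (2 * Real.pi * L), mul_assoc (2 * Real.pi) L (_ / L), mul_div_cancel₀ _ L0.ne',
    mul_assoc (2 * Real.pi) L]
  have f1 : 7 * D * x * (L * E + 10 ^ 10 * L) ≤ L * ((1 + c + 7 * 10 ^ 10 * D) * x * (E + 1)) := by
    have q1 : 0 ≤ L * x * (E + 1) * (1 + c) := by positivity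
    have q2 : 0 ≤ L * x * E * D := by positivity
    linarith
  linarith [mul_le_mul_of_nonneg_left f1 (by positivity : 0 ≤ 2 * Real.pi), Real.pi_gt_three,
    mul_nonneg p0.le D0]

end SELaux

theorem SEL : SEL_s := fun ρ hz φ hφ => by
  have h := hφ.1
  obtain ⟨K, K0, hK⟩ := h.kk_le 2
  obtain ⟨D, D0, hD⟩ := SELaux.res hφ
  refine ⟨1 + K * (200 * 10 ^ 10) + 7 * 10 ^ 10 * D, by
    linarith [mul_nonneg K0.le (by norm_num : (0 : ℝ) ≤ 200 * 10 ^ 10)], fun B => ?_⟩
  filter_upwards [hz.loc, hz.crude', h.smooth 1, eventually_ge_atTop 80,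
    big_T 2 one_pos (2 * 10 ^ 10), Real.tendsto_log_atTop.eventually_ge_atTop 7,
    Real.tendsto_log_atTop.eventually_ge_atTop B] with T hL hC hS T1 T2 L1 L2 u a E u1 u2 a1 a2 hE
  have L0 : 0 < Real.log T := by linarith
  have eS := SELaux.tsum_eq hφ L0 a u
  have zr : (sc T u a).re = 1 / 2 + a / Real.log T := by rw [sc_re, ofReal_re]
  have zi : (sc T u a).im = u := by rw [sc_im, ofReal_im, zero_div, add_zero]
  have zr1 : (sc T u 1).re = 1 / 2 + 1 / Real.log T := by rw [sc_re, one_re]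
  have zi1 : (sc T u 1).im = u := by rw [sc_im, one_im, zero_div, add_zero]
  generalize sc T u a = z at *
  generalize sc T u 1 = z₁ at *
  generalize DP (NT T) (ca φ T a) u = P at *
  set L := Real.log T
  set M := 10 ^ 10 * L with hM
  set l := L / 7 with hl
  have l1 : 1 ≤ l := by rw [hl]; linarith
  have l0 : 0 < l := by linarith
  have i0 : 0 < 1 / L := by positivity
  have i1 : 1 / L ≤ a / L := by gcongr
  have i2 : a / L ≤ 1 := (div_le_one L0).2 (a2.trans L2)
  have M0 : 0 ≤ M := by positivity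
  have E0 : 0 ≤ E := nonneg_of_mul_nonneg_right ((norm_nonneg _).trans hE) L0
  have rect : ∀ w : ℂ, 0 ≤ w.re → w.re ≤ 4 → |w.im| ≤ T / 20 →
      DifferentiableAt ℂ ZZ (z + w) ∧ ‖ZZ (z + w)‖ ≤ 2 * M * L := fun w w1 w2 w3 => by
    have := abs_le.1 w3
    have p : 0 < (z + w).im := by rw [add_im, zi]; linarith
    refine ⟨diff_ZZ (ne_one p) (hz.ne p (by rw [add_re, zr]; linarith)), (hC _ (1 / L)
      (by rw [add_im, zi]; linarith) (by rw [add_im, zi]; linarith) i0 (by linarith)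
      (by rw [add_re, zr]; linarith) (by rw [add_re, zr]; linarith)).trans (le_of_eq ?_)⟩
    rw [div_div_eq_mul_div, div_one]
  have h1 := hS l (fun s => -ZZ s) (fun n => (Λ n : ℂ)) z l1 (by rw [hl]; linarith)
    (by rw [zr]; linarith)
    (fun n => by
      rw [norm_real, Real.norm_of_nonneg vonMangoldt_nonneg]
      exact vonMangoldt_le_log.trans ((Real.log_le_self n.cast_nonneg).trans
        (by exact_mod_cast Nat.le_self_pow two_ne_zero n)))
    (fun w w1 w2 w3 => ⟨(rect w w1 w2 w3).1.neg, by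
      rw [norm_neg]
      exact (rect w w1 w2 w3).2.trans (le_trans (le_of_eq (by rw [hM]; ring)) T2)⟩)
    fun y => by
      rw [LSeries_vonMangoldt_eq_deriv_riemannZeta_div (by simp [zr]; linarith), ZZ, logDeriv_apply,
        neg_div]
  rw [eS] at h1
  obtain ⟨J, A, g, A0, cnt, -, hg, e, bd⟩ := hL u (by linarith) (by linarith)
  have rj : ∀ j, (ρ j).re = 1 / 2 := fun j => hz.line (hz.pos j) (hz.zero j)
  have nz := near (u := u) (s := z) (by linarith) (by linarith) (by simp [zi])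
  have nz1 := near (u := u) (s := z₁) (by linarith) (by linarith) (by simp [zi1])
  set W : ℝ → ℂ := fun y => ∑ j ∈ J, (z - ρ j + y * I)⁻¹ + deriv g z with hW
  have nW : ∀ y, ‖W y‖ ≤ M * L + M := fun y => by
    have b := norm_sum_le_of_le J fun j _ => hz.inv_le j i0 (s := z + y * I)
      (by rw [add_re, re_ofReal_mul, I_re, zr]; linarith)
    rw [Finset.sum_const, nsmul_eq_mul, one_div, inv_inv] at b
    simp only [add_sub_right_comm] at b
    exact norm_add_le_of_le (b.trans (by gcongr)) (bd z nz).1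
  have big : ∀ y : ℝ, 1 ≤ |y| → 4 * M * L ≤ (1 + l * |y|) ^ 2 * (200 * 10 ^ 10) := fun y hy => by
    rw [hM, show L = 7 * l by rw [hl]; ring]
    exact SELaux.n1 l0 hy
  have ML : M ≤ M * L := le_mul_of_one_le_right M0 (by linarith)
  have pt : ∀ y : ℝ, |y| ≤ T / 20 →
      ‖-ZZ (z + y * I) + W y‖ ≤ (1 + l * |y|) ^ 2 * (200 * 10 ^ 10) := fun y hy => by
    rcases le_total |y| 1 with c | c
    · have n := near (u := u) (s := z + y * I) (by simp [zr]; linarith) (by simp [zr]; linarith)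
        (by simpa [zi] using c)
      have b := (convex_closedBall (4 + u * I : ℂ) (37 / 10)).norm_image_sub_le_of_norm_deriv_le
        (f := deriv g) (fun x hx => (hg.deriv Metric.isOpen_ball).differentiableAt
          (Metric.isOpen_ball.mem_nhds (Metric.closedBall_subset_ball (by norm_num) hx)))
        (fun x hx => (bd x (mem_closedBall_iff_norm.1 hx)).2) (mem_closedBall_iff_norm.2 n)
        (mem_closedBall_iff_norm.2 nz)
      rw [hz.frac A0 hg e n (by simp [zr]; linarith), hW]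
      simp only [add_sub_right_comm]
      rw [neg_add_eq_sub, add_sub_add_left_eq_sub]
      refine b.trans ?_
      rw [sub_add_cancel_left, norm_neg, norm_mul, norm_I, mul_one, norm_real, Real.norm_eq_abs, hM,
        show L = 7 * l by rw [hl]; ring]
      exact SELaux.n2 (by positivity)
    · have b := (rect (y * I) (by simp) (by simp) (by simpa using hy)).2
      refine (norm_add_le_of_le (norm_neg (ZZ _) ▸ b) (nW y)).trans (le_trans ?_ (big y c))
      linarith
  have hk : ∀ y : ℝ, (1 + l * |y|) ^ 2 * ‖kk φ l (y * I)‖ ≤ K * wt l y := fun y => by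
    simpa using hK l 0 y l0 le_rfl
  have V0 : -(T / 20) ≤ T / 20 := by linarith
  have ck : Continuous fun y : ℝ => kk φ l (y * I) := (h.diff_kk l).continuous.comp (by fun_prop)
  have mk : ∀ (y : ℝ) (x : ℂ), ‖x‖ ≤ (1 + l * |y|) ^ 2 * (200 * 10 ^ 10) →
      ‖kk φ l (y * I) * x‖ ≤ K * (200 * 10 ^ 10) * wt l y := fun y x hx => by
    rw [norm_mul]
    refine (mul_le_mul_of_nonneg_left hx (norm_nonneg _)).trans ?_
    rw [← mul_assoc, mul_comm ‖_‖, mul_right_comm K]
    exact mul_le_mul_of_nonneg_right (hk y) (by positivity)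
  have h2 : ‖∫ y in -(T / 20)..(T / 20), kk φ l (y * I) * (-ZZ (z + y * I) + W y)‖ ≤
      K * (200 * 10 ^ 10) * Real.pi := by
    refine (intervalIntegral.norm_integral_le_of_norm_le V0 (g := fun y => K * (200 * 10 ^ 10) *
      wt l y) (ae_of_all _ fun y hy => mk y _ (pt y (abs_le.2 ⟨hy.1.le, hy.2⟩)))
      ((wt_int l0).1.intervalIntegrable.const_mul _)).trans ?_
    rw [intervalIntegral.integral_const_mul]
    exact mul_le_mul_of_nonneg_left (int_wt l0 V0) (by positivity)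
  have wr : ∀ j, (z - ρ j).re = a / L := fun j => by rw [sub_re, zr, rj]; ring
  have hj := fun j => hD l (z - ρ j) l0 (by rw [wr]; linarith)
  have ik : Integrable fun y : ℝ => kk φ l (y * I) := by simpa using h.int_kk (a := 0) l0 le_rfl
  have eW : (fun y : ℝ => kk φ l (y * I) * W y) = fun y : ℝ =>
      ∑ j ∈ J, kk φ l (y * I) * (z - ρ j + y * I)⁻¹ + kk φ l (y * I) * deriv g z := by
    funext y; rw [hW, mul_add, Finset.mul_sum]
  have is := integrable_finsetSum J fun j _ => (hj j).1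
  have iW : Integrable fun y : ℝ => kk φ l (y * I) * W y := eW ▸ is.add (ik.mul_const _)
  have h3 := tail_le iW (V := T / 20) (M := K * (200 * 10 ^ 10)) (by linarith) (by positivity) l0
    fun y hy => mk y _ ((nW y).trans (le_trans (by linarith) (big y (by linarith))))
  have h4 := h.inv (a := 0) l0 le_rfl 0
  simp only [ofReal_zero, zero_add, mul_zero, exp_zero, mul_one, zero_div,
    hφ.2.2.1 0 (by norm_num), ofReal_one] at h4
  have hQ : ∑ j ∈ J, ‖(z - ρ j)⁻¹‖ ^ 2 ≤ L * (L * E + M) := by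
    have f1 := hz.frac A0 hg e nz1 (by linarith)
    have b : (∑ j ∈ J, (z₁ - ρ j)⁻¹).re ≤ L * E + M := by
      rw [eq_sub_of_add_eq f1.symm]
      exact (re_le_norm _).trans (norm_sub_le_of_le hE (bd z₁ nz1).1)
    refine le_trans ?_ (mul_le_mul_of_nonneg_left b L0.le)
    rw [re_sum, Finset.mul_sum]
    refine Finset.sum_le_sum fun j _ => ?_
    have r1 : (z₁ - ρ j).re = 1 / L := by rw [sub_re, zr1, rj]; ring
    have p : 0 < normSq (z₁ - ρ j) := normSq_pos.2 fun q => by rw [q, zero_re] at r1; linarith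
    rw [inv_re, norm_inv, inv_pow, Complex.sq_norm, r1, ← mul_div_assoc, mul_one_div_cancel L0.ne',
      one_div]
    refine inv_anti₀ p ?_
    rw [normSq_apply, normSq_apply, r1, wr, sub_im, sub_im, zi, zi1]
    exact add_le_add_left (mul_self_le_mul_self i0.le i1) _
  have p0 := Real.pi_pos
  have h5 : ‖(∫ y : ℝ, kk φ l (y * I) * W y) - 2 * Real.pi * ZZ z‖ ≤
      2 * Real.pi * (7 * D * Real.exp (-(a / 14)) * (L * E + M)) := by
    rw [eW, integral_add is (ik.mul_const _), integral_finsetSum J fun j _ => (hj j).1,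
      integral_mul_const, h4, hz.frac A0 hg e nz (by linarith), mul_add, add_sub_add_right_eq_sub,
      Finset.mul_sum, ← Finset.sum_sub_distrib]
    refine (norm_sum_le_of_le J fun j _ => (hj j).2).trans ?_
    simp only [wr]
    rw [← Finset.mul_sum, ← Finset.mul_sum, show l * (a / L) / 2 = a / 14 by rw [hl]; field_simp; ring]
    refine mul_le_mul_of_nonneg_left ((mul_le_mul_of_nonneg_left hQ (by positivity)).trans
      (le_of_eq ?_)) (by positivity)
    rw [hl]; field_simp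
  have cz : ContinuousOn (fun y : ℝ => -ZZ (z + y * I)) (uIcc (-(T / 20)) (T / 20)) := fun y hy => by
    rw [uIcc_of_le V0] at hy
    exact (ContinuousAt.comp (f := fun y : ℝ => z + y * I) (rect (y * I) (by simp) (by simp)
      (by simpa using abs_le.2 hy)).1.continuousAt (by fun_prop)).neg.continuousWithinAt
  simp only [mul_add _ (-ZZ _)] at h2
  rw [intervalIntegral.integral_add (f := fun y : ℝ => kk φ l (y * I) * -ZZ (z + y * I))
    (g := fun y : ℝ => kk φ l (y * I) * W y) (ck.continuousOn.mul cz).intervalIntegrable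
    iW.intervalIntegrable] at h2
  have lc : (L : ℂ) ≠ 0 := by exact_mod_cast L0.ne'
  have b1 := norm_sub_le_of_le (norm_sub_le_of_le (norm_add_le_of_le h2 h3) h5) h1
  rw [show ∀ X Y Z : ℂ, X + Y + (Z - Y) - (Z - 2 * Real.pi * ZZ z) - (X - 2 * Real.pi * (L * P)) =
    (2 * Real.pi * L : ℝ) * (ZZ z / L + P) from fun X Y Z => by push_cast; field_simp; ring,
    norm_mul, norm_real, Real.norm_of_nonneg (by positivity)] at b1
  exact le_of_mul_le_mul_left (b1.trans (SELaux.n3 L0 E0 D0 (Real.exp_pos _) (by positivity)))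
    (show 0 < 2 * Real.pi * L by positivity)

end Pool.Agent.MP_f0209c_nt.Rg

/-! The logarithm of the ratio is a short prime sum up to the envelope. -/

namespace Pool.Agent.MP_f0209c_nt.Rg
open Complex Set Filter Topology ArithmeticFunction Ch Pp

namespace GFaux

lemma log_norm {F : ℝ → ℂ} {F' : ℂ} {a : ℝ} (h : HasDerivAt F F' a) (h0 : F a ≠ 0) :
    HasDerivAt (fun x => Real.log ‖F x‖) (F' / F a).re a := by
  have n := norm_pos_iff.2 h0
  have b := (h.norm_sq.log (by positivity)).div_const 2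
  simp only [Real.log_pow, Nat.cast_ofNat, mul_div_cancel_left₀ _ (two_ne_zero' ℝ)] at b
  refine b.congr_deriv (Eq.symm ?_)
  rw [Complex.inner, div_re, Complex.normSq_eq_norm_sq, mul_re, conj_re, conj_im]
  field_simp
  ring

lemma coef {L : ℝ} (n : ℕ) (c : ℝ) (a : ℝ) :
    HasDerivAt (fun x : ℝ => Λ n / Real.log n * ex (1 / 2 + x / L) n * c)
      (-(Λ n / L * ex (1 / 2 + a / L) n * c)) a := by
  have b : HasDerivAt (fun x : ℝ => -(1 / 2 + x / L) * Real.log n) (-(1 / L) * Real.log n) a :=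
    ((((hasDerivAt_id a).div_const L).const_add (1 / 2)).neg).mul_const _
  refine ((b.exp.const_mul (Λ n / Real.log n)).mul_const c).congr_deriv ?_
  rcases eq_or_ne (Real.log n) 0 with z | z
  · have : Λ n = 0 := le_antisymm (z ▸ vonMangoldt_le_log) vonMangoldt_nonneg
    simp [this]
  · unfold ex; field_simp

end GFaux

open GFaux in
theorem GF (hSEL : SEL_s) : GF_s := by
  intro ρ hz φ hφ
  obtain ⟨C, C1, hC⟩ := hSEL ρ hz φ hφ
  refine ⟨15 * C, by linarith, fun b b0 => ?_⟩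
  filter_upwards [hC (1 + b), Real.tendsto_log_atTop.eventually_ge_atTop (1 + b),
    eventually_ge_atTop 1] with T hT L1 T1 u E u1 u2 hE
  set L := Real.log T with hL
  have L0 : 0 < L := by linarith
  have E0 : 0 ≤ E := nonneg_of_mul_nonneg_right ((norm_nonneg _).trans hE) L0
  set g : ℝ → ℝ := fun a => Real.log ‖fz T u a‖ - (DP (NT T) (fun n => Λ n / Real.log n *
    ex (1 / 2 + a / L) n * φ (Real.log n / (L / 7))) u).re with hg
  have ne : ∀ a : ℝ, 1 ≤ a → 0 < (sc T u a).im ∧ fz T u a ≠ 0 := fun a ha => by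
    have p : 0 < (sc T u a).im := by rw [sc_im]; simp; linarith
    refine ⟨p, hz.ne p ?_⟩
    rw [sc_re, ofReal_re]
    have : 0 < a / L := div_pos (by linarith) L0
    linarith
  have dg : ∀ a : ℝ, 1 ≤ a → HasDerivAt g
      (ZZ (sc T u a) / (L : ℝ) + DP (NT T) (ca φ T a) u).re a := fun a ha => by
    have s1 : HasDerivAt (sc T u) (1 / (L : ℝ)) a :=
      ((hasDerivAt_id (a : ℂ)).div_const _).const_add _
    have s2 : HasDerivAt (fun x : ℝ => fz T u x) (deriv riemannZeta (sc T u a) * (1 / (L : ℝ))) a :=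
      ((diff_zeta (ne a ha).1.ne').hasDerivAt.comp (a : ℂ) s1).comp_ofReal
    have s3 : HasDerivAt (fun x : ℝ => (DP (NT T) (fun n => Λ n / Real.log n *
        ex (1 / 2 + x / L) n * φ (Real.log n / (L / 7))) u).re) (-(DP (NT T) (ca φ T a) u).re) a := by
      simp only [DP, re_sum, re_ofReal_mul, ← Finset.sum_neg_distrib, ← neg_mul]
      exact HasDerivAt.fun_sum fun n _ => (coef n _ a).mul_const _
    refine ((log_norm s2 (ne a ha).2).sub s3).congr_deriv ?_
    rw [add_re, sub_neg_eq_add, ZZ, logDeriv_apply, fz]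
    congr 2
    ring
  have key := image_norm_le_of_norm_deriv_right_le_deriv_boundary (f := fun a => g a - g 1)
    (a := 1) (b := 1 + b)
    (fun a ha => ((dg a ha.1).sub_const _).continuousAt.continuousWithinAt)
    (fun a ha => ((dg a ha.1).sub_const _).hasDerivWithinAt)
    (B := fun a => 14 * C * (E + 1) * (1 - Real.exp (-(a / 14))) + C / L * a)
    (B' := fun a => C * Real.exp (-(a / 14)) * (E + 1) + C / L)
    (by
      have : Real.exp (-(1 / 14)) ≤ 1 := Real.exp_le_one_iff.2 (by norm_num)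
      have : 0 ≤ 1 - Real.exp (-(1 / 14)) := by linarith
      simp only [sub_self, norm_zero]
      positivity)
    (fun a => by
      have b1 := ((((hasDerivAt_id a).div_const 14).neg.exp.const_sub 1).const_mul
        (14 * C * (E + 1))).add ((hasDerivAt_id a).const_mul (C / L))
      refine b1.congr_deriv ?_
      simp only [Pi.neg_apply, id]
      ring)
    (fun a ha => (abs_re_le_norm _).trans (hT u a E u1 u2 ha.1 ha.2.le hE))
    (right_mem_Icc.2 (by linarith))
  have e : g (1 + b) - g 1 =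
      Real.log ‖fz T u (1 + b) / fz T u 1‖ + (DP (NT T) (cb φ T b) u).re := by
    have n1 := (ne 1 le_rfl).2
    have n2 := (ne (1 + b) (by linarith)).2
    simp only [hg, DP, re_sum, re_ofReal_mul]
    push_cast at n1 n2 ⊢
    rw [norm_div, Real.log_div (norm_ne_zero_iff.2 n2) (norm_ne_zero_iff.2 n1), sub_sub_sub_comm,
      sub_eq_add_neg _ (_ - _), neg_sub, ← Finset.sum_sub_distrib]
    congr 1
    refine Finset.sum_congr rfl fun n _ => ?_
    have : ex (1 / 2 + (1 + b) / L) n = ex (1 / 2 + 1 / L) n * ex (b / L) n := by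
      unfold ex; rw [← Real.exp_add]; congr 1; ring
    rw [cb, this]; ring
  rw [e, Real.norm_eq_abs] at key
  refine key.trans ?_
  have a1 : C / L * (1 + b) ≤ C := by
    rw [div_mul_eq_mul_div, div_le_iff₀ L0]; gcongr
  have a2 := Real.exp_pos (-((1 + b) / 14))
  have a3 : 0 ≤ C * (E + 1) := by positivity
  nlinarith [mul_nonneg a3 a2.le, mul_nonneg (by linarith : 0 ≤ C) E0]

end Pool.Agent.MP_f0209c_nt.Rg

/-! Sums of `p ^ (-s)` over primes near `s = 1`. -/

namespace Pool.Agent.MP_f0209c_nt.Rg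
open Complex Set Filter Topology ArithmeticFunction Ch Pp

namespace MERaux

lemma ex_rpow (σ : ℝ) {n : ℕ} (hn : n ≠ 0) : ex σ n = (n : ℝ) ^ (-σ) := by
  rw [ex, Real.rpow_def_of_pos (by exact_mod_cast Nat.pos_of_ne_zero hn), mul_comm]

lemma sq_sum (S : Finset Nat.Primes) : ∑ p ∈ S, 1 / ((p : ℕ) : ℝ) ^ 2 ≤ 7 / 10 := by
  classical
  have a := sum_le_hasSum (insert 1 (S.image fun p : Nat.Primes => (p : ℕ)))
    (fun _ _ => by positivity) hasSum_zeta_two
  rw [Finset.sum_insert (fun h => by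
      obtain ⟨p, -, e⟩ := Finset.mem_image.1 h
      exact p.2.one_lt.ne' e),
    Finset.sum_image (f := fun n : ℕ => 1 / (n : ℝ) ^ 2) (g := fun p : Nat.Primes => (p : ℕ))
      fun p _ q _ h => Subtype.ext h] at a
  simp only [Nat.cast_one, one_pow, div_one] at a
  nlinarith [Real.pi_lt_d2, Real.pi_pos]

lemma key {σ : ℝ} (h : 1 < σ) : Summable (fun p : Nat.Primes => ex σ p) ∧
    0 ≤ Real.log ‖riemannZeta σ‖ - ∑' p : Nat.Primes, ex σ p ∧
    Real.log ‖riemannZeta σ‖ - ∑' p : Nat.Primes, ex σ p ≤ 3 / 2 := by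
  have sx : Summable (fun p : Nat.Primes => ex σ p) :=
    ((Real.summable_nat_rpow.2 (show -σ < -1 by linarith)).subtype {p | p.Prime}).congr
      fun p => (ex_rpow σ p.2.ne_zero).symm
  have n1 : ∀ p : Nat.Primes, 0 ≤ -Real.log (1 - ex σ p) - ex σ p := fun p => by
    linarith [Real.log_le_sub_one_of_pos (show 0 < 1 - ex σ p by linarith [ex_half h.le p.2])]
  have n2 : ∀ p : Nat.Primes, -Real.log (1 - ex σ p) - ex σ p ≤ 2 * (1 / ((p : ℕ) : ℝ) ^ 2) :=
    fun p => by
      have a := ex_half h.le p.2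
      have b := ex_pos σ p
      have c := Real.one_sub_inv_le_log_of_pos (show 0 < 1 - ex σ p by linarith)
      have d : (1 - ex σ p)⁻¹ ≤ 1 + ex σ p + 2 * ex σ p ^ 2 := by
        rw [inv_le_iff_one_le_mul₀ (by linarith)]
        nlinarith [mul_nonneg (sq_nonneg (ex σ p)) (show 0 ≤ 1 - 2 * ex σ p by linarith)]
      have p1 : (1 : ℝ) ≤ (p : ℕ) := by exact_mod_cast p.2.one_le
      have e : ex σ p ≤ 1 / ((p : ℕ) : ℝ) := by
        rw [ex_rpow σ p.2.ne_zero, one_div, ← Real.rpow_neg_one]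
        exact Real.rpow_le_rpow_of_exponent_le p1 (by linarith)
      have f := pow_le_pow_left₀ b.le e 2
      rw [div_pow, one_pow] at f
      linarith
  have bd : ∀ S : Finset Nat.Primes, ∑ p ∈ S, (-Real.log (1 - ex σ p) - ex σ p) ≤ 3 / 2 := fun S => by
    have := Finset.sum_le_sum fun p (_ : p ∈ S) => n2 p
    rw [← Finset.mul_sum] at this
    linarith [sq_sum S]
  have sy := summable_of_sum_le n1 bd
  have e := riemannZeta_eulerProduct_exp_log (s := σ) (by simpa using h)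
  have e1 : ∀ p : Nat.Primes, -log (1 - ((p : ℕ) : ℂ) ^ (-(σ : ℂ))) =
      ((-Real.log (1 - ex σ p) - ex σ p + ex σ p : ℝ) : ℂ) := fun p => by
    rw [sub_add_cancel, ofReal_neg, ofReal_log (by linarith [ex_half h.le p.2]), ofReal_sub,
      ofReal_one, ← pw_real σ p.2.ne_zero, pw_apply _ p.2.ne_zero, pw_nat _ p.2.ne_zero]
  rw [tsum_congr e1, ← ofReal_tsum, sy.tsum_add sx] at e
  rw [← e, norm_exp, Real.log_exp, ofReal_re, add_sub_cancel_right]
  exact ⟨sx, tsum_nonneg n1, sy.tsum_le_of_sum_le bd⟩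

end MERaux

theorem MER : MER_s := fun a a' a0 aa => by
  have b0 : 0 < a' := a0.trans_le aa
  have t := (ratio_lim (w := a) (w' := a') (by exact_mod_cast a0.ne')
    (by exact_mod_cast b0.ne')).norm
  rw [← ofReal_div, norm_real, Real.norm_of_nonneg (div_pos b0 a0).le] at t
  have t1 := t.log (div_pos b0 a0).ne'
  filter_upwards [eventually_gt_atTop 0, (Metric.tendsto_nhds.1 t1) (1 / 2) (by norm_num)]
    with L L0 hL
  have u1 : 1 < 1 + a / L := by linarith [div_pos a0 L0]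
  have u2 : 1 < 1 + a' / L := by linarith [div_pos b0 L0]
  obtain ⟨s1, x1, y1⟩ := MERaux.key u1
  obtain ⟨s2, x2, y2⟩ := MERaux.key u2
  refine ⟨s1.sub s2, ?_⟩
  have z1 := riemannZeta_ne_zero_of_one_lt_re (s := (1 + a / L : ℝ)) (by simpa using u1)
  have z2 := riemannZeta_ne_zero_of_one_lt_re (s := (1 + a' / L : ℝ)) (by simpa using u2)
  push_cast at x1 y1 x2 y2 z1 z2
  rw [Real.dist_eq, norm_div, Real.log_div (norm_ne_zero_iff.2 z1) (norm_ne_zero_iff.2 z2),
    abs_lt] at hL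
  rw [s1.tsum_sub s2, abs_le]
  constructor <;> linarith [hL.1, hL.2]

end Pool.Agent.MP_f0209c_nt.Rg

/-! Upper bounds for the variances. -/

namespace Pool.Agent.MP_f0209c_nt.Rg
open Complex Set Filter Topology ArithmeticFunction Ch Pp

namespace VAR1aux

lemma ex_add (a b : ℝ) (n : ℕ) : ex (a + b) n = ex a n * ex b n := by
  rw [ex, ex, ex, ← Real.exp_add]; ring_nf

lemma psum {f : ℕ → ℝ} (hf : Summable fun p : Nat.Primes => f p) (f0 : ∀ n, 0 ≤ f n)
    {S : Finset ℕ} (hS : ∀ n ∈ S, n.Prime) : ∑ n ∈ S, f n ≤ ∑' p : Nat.Primes, f p := by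
  classical
  rw [← Finset.sum_subtype_of_mem f hS]
  exact sum_le_hasSum (ι := Nat.Primes) (S.subtype Nat.Prime) (fun p _ => f0 p) hf.hasSum

lemma mer (hM : MER_s) {w : ℝ} (w0 : 0 ≤ w) : ∀ᶠ T : ℝ in atTop,
    ∑ p ∈ PT T, ex (1 + 2 / Real.log T) p * (1 - ex (w / Real.log T) p) ≤
      Real.log ((2 + w) / 2) + 2 := by
  filter_upwards [Real.tendsto_log_atTop.eventually (hM 2 (2 + w) (by norm_num) (by linarith)),
    Real.tendsto_log_atTop.eventually (eventually_gt_atTop 0)] with T h L0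
  have e : ∀ n : ℕ, ex (1 + 2 / Real.log T) n * (1 - ex (w / Real.log T) n) =
      ex (1 + 2 / Real.log T) n - ex (1 + (2 + w) / Real.log T) n := fun n => by
    rw [mul_sub, mul_one, ← ex_add, add_div, add_assoc]
  have a := psum (f := fun n => ex (1 + 2 / Real.log T) n - ex (1 + (2 + w) / Real.log T) n) h.1
    (fun n => by
      rw [← e]
      exact mul_nonneg (ex_pos _ _).le (sub_nonneg.2 (ex_le_one (div_nonneg w0 L0.le) n)))
    (S := PT T) fun n hn => (Finset.mem_filter.1 hn).2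
  simp only [e]
  linarith [(abs_le.1 h.2).2]

lemma ex_sq (a L : ℝ) (n : ℕ) : ex (1 / 2 + a / L) n ^ 2 = ex (1 + 2 * a / L) n := by
  rw [sq, ← ex_add]; ring_nf

variable {φ : ℝ → ℝ}

lemma cb_p (h : ∀ y, 0 ≤ φ y ∧ φ y ≤ 1) {T b : ℝ} (L0 : 0 < Real.log T) (b0 : 0 ≤ b) {p : ℕ}
    (hp : p.Prime) : cb φ T b p ^ 2 ≤ ex (1 + 2 / Real.log T) p * (1 - ex (b / Real.log T) p) ∧
      cb φ T b p ^ 2 ≤ ex (1 + 2 / Real.log T) p := by
  have l : Real.log p ≠ 0 := (Real.log_pos (by exact_mod_cast hp.one_lt)).ne'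
  have a := ex_le_one (div_nonneg b0 L0.le) p
  have c := ex_pos (b / Real.log T) p
  have d := pow_le_one₀ (n := 2) (h (Real.log p / (Real.log T / 7))).1
    (h (Real.log p / (Real.log T / 7))).2
  have e := ex_pos (1 + 2 / Real.log T) p
  have f : cb φ T b p ^ 2 ≤ ex (1 + 2 / Real.log T) p * (1 - ex (b / Real.log T) p) := by
    rw [cb, vonMangoldt_apply_prime hp, div_self l, one_mul, mul_pow, mul_pow, ex_sq, mul_one,
      mul_assoc]
    refine mul_le_mul_of_nonneg_left ((mul_le_of_le_one_right (sq_nonneg _) d).trans ?_) e.le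
    nlinarith
  exact ⟨f, f.trans (mul_le_of_le_one_right e.le (by linarith))⟩

lemma ee_le {X v L : ℝ} (L0 : 0 < L) (hv : |v| ≤ X) (p : ℕ) :
    ‖ee (v / L) p - 1‖ ^ 2 ≤ 8 * (1 - ex (X / L) p) := by
  have l := Real.log_natCast_nonneg p
  have X0 := (abs_nonneg v).trans hv
  set w := X / L * Real.log p with hw
  have w0 : 0 ≤ w := by positivity
  have a : ‖ee (v / L) p - 1‖ ≤ 2 := (norm_sub_le _ _).trans (by rw [norm_ee, norm_one]; norm_num)
  have b : ‖ee (v / L) p - 1‖ ≤ w := by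
    have := Real.norm_exp_I_mul_ofReal_sub_one_le (x := -(v / L * Real.log p))
    rw [Real.norm_eq_abs, abs_neg, abs_mul, abs_div, abs_of_pos L0, abs_of_nonneg l] at this
    refine le_trans (le_of_eq ?_) (this.trans (by rw [hw]; gcongr))
    rw [ee]; push_cast; ring_nf
  have c : ex (X / L) p * (w + 1) ≤ 1 := by
    have := mul_le_mul_of_nonneg_left (Real.add_one_le_exp w) (ex_pos (X / L) p).le
    rwa [ex, ← Real.exp_add, neg_mul, ← hw, neg_add_cancel, Real.exp_zero, hw, ← neg_mul, ← ex]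
      at this
  have d := ex_pos (X / L) p
  have n0 := norm_nonneg (ee (v / L) p - 1)
  rcases le_total 1 w with q | q
  · nlinarith
  · have : w ≤ 2 * (1 - ex (X / L) p) := by nlinarith
    nlinarith

lemma QT_sub (T : ℝ) : QT T ⊆ (Finset.range (⌊Real.exp (Real.log T / 7)⌋₊ + 1)).filter
    fun n => ¬ n.Prime := Finset.filter_subset_filter _ fun _ hn =>
  Finset.mem_range.2 (Nat.lt_succ_of_le (Finset.mem_Icc.1 hn).2)

lemma log_NT {T : ℝ} {n : ℕ} (hn : n ∈ NT T) : Real.log n ≤ Real.log T / 7 := by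
  obtain ⟨a, b⟩ := Finset.mem_Icc.1 hn
  rw [Real.log_le_iff_le_exp (by exact_mod_cast a)]
  exact (Nat.cast_le.2 b).trans (Nat.floor_le (Real.exp_pos _).le)

lemma cb_q (h : ∀ y, 0 ≤ φ y ∧ φ y ≤ 1) {T b : ℝ} (L0 : 0 < Real.log T) (b0 : 0 ≤ b) {n : ℕ}
    (hn : n ∈ NT T) : cb φ T b n ^ 2 ≤ b ^ 2 / Real.log T * (Λ n * ex (1 / 2 + 1 / 2) n) := by
  have l := Real.log_natCast_nonneg n
  have v : 0 ≤ Λ n := vonMangoldt_nonneg
  have a := ex_le_one (div_nonneg b0 L0.le) n
  have c : Λ n / Real.log n * (1 - ex (b / Real.log T) n) ≤ Λ n * (b / Real.log T) := by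
    refine (mul_le_mul_of_nonneg_left (one_sub_ex _ n) (div_nonneg v l)).trans ?_
    rcases l.eq_or_lt with e | e
    · rw [← e, mul_zero, mul_zero]; positivity
    · exact le_of_eq (by field_simp)
  have c0 : 0 ≤ Λ n / Real.log n * (1 - ex (b / Real.log T) n) :=
    mul_nonneg (div_nonneg v l) (by linarith)
  have d := pow_le_one₀ (n := 2) (h (Real.log n / (Real.log T / 7))).1
    (h (Real.log n / (Real.log T / 7))).2
  have e : ex (1 / 2 + 1 / Real.log T) n ^ 2 ≤ ex (1 / 2 + 1 / 2) n := by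
    rw [ex_sq, ex_add, add_halves]
    exact mul_le_of_le_one_right (ex_pos _ _).le (ex_le_one (by positivity) n)
  have f : Λ n ≤ Real.log T := by linarith [vonMangoldt_le_log (n := n), log_NT hn]
  calc cb φ T b n ^ 2 = (Λ n / Real.log n * (1 - ex (b / Real.log T) n)) ^ 2 *
        ex (1 / 2 + 1 / Real.log T) n ^ 2 * φ (Real.log n / (Real.log T / 7)) ^ 2 := by
        rw [cb]; ring
    _ ≤ (Λ n * (b / Real.log T)) ^ 2 * ex (1 / 2 + 1 / 2) n * 1 := by
        have := (ex_pos (1 / 2 + 1 / 2) n).le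
        gcongr
    _ = Λ n / Real.log T * (b ^ 2 / Real.log T * (Λ n * ex (1 / 2 + 1 / 2) n)) := by ring
    _ ≤ _ := by
        have := (ex_pos (1 / 2 + 1 / 2) n).le
        exact mul_le_of_le_one_left (by positivity) ((div_le_one L0).2 f)

lemma abs_ca (h : ∀ y, 0 ≤ φ y ∧ φ y ≤ 1) {T : ℝ} (L0 : 0 < Real.log T) (a : ℝ) (n : ℕ) :
    |ca φ T a n| ≤ (Λ n * ex (1 / 2 + a / Real.log T) n) / Real.log T := by
  have v : 0 ≤ Λ n := vonMangoldt_nonneg
  have e := (ex_pos (1 / 2 + a / Real.log T) n).le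
  have := (h (Real.log n / (Real.log T / 7))).1
  rw [ca, abs_of_nonneg (by positivity)]
  exact (mul_le_of_le_one_right (by positivity) (h _).2).trans (le_of_eq (by ring))

lemma ca_sq (h : ∀ y, 0 ≤ φ y ∧ φ y ≤ 1) {T a : ℝ} (L0 : 0 < Real.log T) (a0 : 0 < a) (n : ℕ) :
    ca φ T a n ^ 2 ≤ 1 / (a * Real.log T) * (Λ n * ex (1 + a / Real.log T) n) := by
  have v : 0 ≤ Λ n := vonMangoldt_nonneg
  have e := (ex_pos (1 + a / Real.log T) n).le
  have e' := (ex_pos (a / Real.log T) n).le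
  have c : a / Real.log T * Real.log n * ex (a / Real.log T) n ≤ 1 := by
    have := mul_le_mul_of_nonneg_right ((le_add_of_nonneg_right zero_le_one).trans
      (Real.add_one_le_exp (a / Real.log T * Real.log n))) e'
    rwa [ex, ← Real.exp_add, neg_mul, add_neg_cancel, Real.exp_zero, ← neg_mul, ← ex] at this
  have d : a / Real.log T * Λ n * ex (a / Real.log T) n ≤ 1 :=
    le_trans (by gcongr; exact vonMangoldt_le_log) c
  rw [← sq_abs]
  refine (pow_le_pow_left₀ (abs_nonneg _) (abs_ca h L0 a n) 2).trans ?_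
  rw [div_pow, mul_pow, ex_sq, show 1 + 2 * a / Real.log T = a / Real.log T +
    (1 + a / Real.log T) by ring, ex_add]
  calc _ = a / Real.log T * Λ n * ex (a / Real.log T) n *
        (1 / (a * Real.log T) * (Λ n * ex (1 + a / Real.log T) n)) := by field_simp
    _ ≤ _ := mul_le_of_le_one_left (by positivity) d

end VAR1aux

open VAR1aux in
theorem VAR1 (hM : MER_s) : VAR1_s := fun φ hφ => by
  have h := hφ.2.1
  obtain ⟨C1, c1, h1⟩ := lam_sum
  obtain ⟨C2, c2, h2⟩ := np_sum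
  have pos := Real.tendsto_log_atTop.eventually (eventually_gt_atTop 0)
  have q3 : ∀ b η : ℝ, 0 ≤ b → 0 < η → ∀ᶠ T : ℝ in atTop, ∑ n ∈ QT T, cb φ T b n ^ 2 ≤ η :=
    fun b η b0 e0 => by
      filter_upwards [pos, Real.tendsto_log_atTop.eventually
        (eventually_ge_atTop (b ^ 2 * (C2 / (1 / 2)) / η))] with T L0 hT
      refine (Finset.sum_le_sum fun n hn => cb_q h L0 b0 (Finset.mem_filter.1 hn).1).trans ?_
      rw [← Finset.mul_sum]
      refine (mul_le_mul_of_nonneg_left ((Finset.sum_le_sum_of_subset_of_nonneg (QT_sub T)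
        fun n _ _ => mul_nonneg vonMangoldt_nonneg (ex_pos _ _).le).trans
          (h2 (1 / 2) (by norm_num) le_rfl _)) (by positivity)).trans ?_
      rw [div_mul_eq_mul_div, div_le_iff₀ L0, mul_comm η]
      exact (div_le_iff₀ e0).1 hT
  refine ⟨24 + C1 + C2, by linarith, fun b b3 => ?_, fun b X b0 X1 => ?_, q3, fun a a1 => ?_⟩
  · filter_upwards [pos, mer hM (show 0 ≤ b by linarith), q3 b 1 (by linarith) one_pos]
      with T L0 hp hq
    have l1 : 1 ≤ Real.log b := by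
      rw [Real.le_log_iff_exp_le (by linarith)]; linarith [Real.exp_one_lt_d9]
    have l2 : Real.log ((2 + b) / 2) ≤ Real.log b := Real.log_le_log (by linarith) (by linarith)
    rw [← Finset.sum_filter_add_sum_filter_not (NT T) Nat.Prime]
    have := Finset.sum_le_sum fun p (hp : p ∈ PT T) =>
      (cb_p h L0 (show 0 ≤ b by linarith) (Finset.mem_filter.1 hp).2).1
    change ∑ n ∈ PT T, _ + ∑ n ∈ QT T, _ ≤ _
    nlinarith
  · filter_upwards [pos, mer hM (show 0 ≤ X by linarith)] with T L0 hp v hv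
    have l1 := Real.log_nonneg X1
    have l2 : Real.log ((2 + X) / 2) ≤ Real.log X + 1 := by
      have := Real.log_le_log (show 0 < (2 + X) / 2 by linarith) (show _ ≤ X * 2 by linarith)
      rw [Real.log_mul (by linarith) (by norm_num)] at this
      linarith [Real.log_two_lt_d9]
    have : ∑ p ∈ PT T, cb φ T b p ^ 2 * ‖ee (v / Real.log T) p - 1‖ ^ 2 ≤
        ∑ p ∈ PT T, 8 * (ex (1 + 2 / Real.log T) p * (1 - ex (X / Real.log T) p)) :=
      Finset.sum_le_sum fun p hp => (mul_le_mul (cb_p h L0 b0 (Finset.mem_filter.1 hp).2).2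
        (ee_le L0 hv p) (sq_nonneg _) (ex_pos _ _).le).trans (le_of_eq (by ring))
    rw [← Finset.mul_sum] at this
    nlinarith
  · have a0 : 0 < a := by linarith
    filter_upwards [pos, Real.tendsto_log_atTop.eventually (eventually_ge_atTop (2 * a))]
      with T L0 hT
    have d0 := div_pos a0 L0
    have d1 : a / Real.log T ≤ 1 / 2 := by rw [div_le_iff₀ L0]; linarith
    constructor
    · refine (Finset.sum_le_sum fun n _ => ca_sq h L0 a0 n).trans ?_
      rw [← Finset.mul_sum]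
      refine (mul_le_mul_of_nonneg_left (h1 _ d0 (by linarith) _) (by positivity)).trans ?_
      rw [show 1 / (a * Real.log T) * (C1 / (a / Real.log T)) = C1 / a ^ 2 by field_simp]
      gcongr; linarith
    · refine (Finset.sum_le_sum fun n _ => abs_ca h L0 a n).trans ?_
      rw [← Finset.sum_div]
      refine (div_le_div_of_nonneg_right ((Finset.sum_le_sum_of_subset_of_nonneg (QT_sub T)
        fun n _ _ => mul_nonneg vonMangoldt_nonneg (ex_pos _ _).le).trans
          (h2 _ d0 d1 _)) L0.le).trans ?_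
      rw [show C2 / (a / Real.log T) / Real.log T = C2 / a by field_simp]
      gcongr; linarith

end Pool.Agent.MP_f0209c_nt.Rg

/-! The variance carried by a band of primes. -/

namespace Pool.Agent.MP_f0209c_nt.Rg
open Complex Set Filter Topology ArithmeticFunction Ch Pp

namespace VAR2aux

/-- differences of two weights, on primes -/
noncomputable def hh (L a a' : ℝ) (n : ℕ) : ℝ :=
  if n.Prime then ex (1 + a / L) n - ex (1 + a' / L) n else 0

lemma conv (hM : MER_s) {a a' : ℝ} (a0 : 0 < a) (aa : a ≤ a') : ∀ᶠ T : ℝ in atTop,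
    ∃ s, HasSum (hh (Real.log T) a a') s ∧ |s - Real.log (a' / a)| ≤ 2 := by
  filter_upwards [Real.tendsto_log_atTop.eventually (hM a a' a0 aa)] with T h
  refine ⟨_, ?_, h.2⟩
  have := (hasSum_subtype_iff_indicator (s := {p : ℕ | p.Prime})
    (f := fun n : ℕ => ex (1 + a / Real.log T) n - ex (1 + a' / Real.log T) n)).1 h.1.hasSum
  rwa [show indicator _ _ = hh (Real.log T) a a' from funext fun n => by
    by_cases q : n.Prime <;> simp [hh, q]] at this

lemma exa (L a : ℝ) (n : ℕ) :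
    ex (1 + a / L) n = ex 1 n * Real.exp (-(a * (Real.log n / L))) := by
  unfold ex; rw [← Real.exp_add]; congr 1; ring

lemma hh0 {L a a' : ℝ} (L0 : 0 < L) (aa : a ≤ a') (n : ℕ) : 0 ≤ hh L a a' n := by
  unfold hh
  split_ifs
  · refine sub_nonneg.2 (Real.exp_le_exp.2 ?_)
    have := div_le_div_of_nonneg_right aa L0.le
    nlinarith [Real.log_natCast_nonneg n]
  · exact le_rfl

/-- the square of the coefficient without the cut-off -/
lemma cb_sq (φ : ℝ → ℝ) (T b : ℝ) {p : ℕ} (hp : p.Prime) : cb φ T b p ^ 2 =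
    (hh (Real.log T) 2 (2 + b) p - hh (Real.log T) (2 + b) (2 + 2 * b) p) *
      φ (Real.log p / (Real.log T / 7)) ^ 2 := by
  have l0 : Real.log p ≠ 0 := (Real.log_pos (by exact_mod_cast hp.one_lt)).ne'
  have e : ∀ x y : ℝ, ex (x + y) p = ex x p * ex y p := fun x y => by
    unfold ex; rw [← Real.exp_add]; congr 1; ring
  unfold cb hh
  rw [if_pos hp, if_pos hp, vonMangoldt_apply_prime hp, div_self l0]
  generalize Real.log T = L
  rw [show 1 + (2 + 2 * b) / L = (1 / 2 + 1 / L) + (1 / 2 + 1 / L) + b / L + b / L by ring,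
    show 1 + (2 + b) / L = (1 / 2 + 1 / L) + (1 / 2 + 1 / L) + b / L by ring,
    show 1 + 2 / L = (1 / 2 + 1 / L) + (1 / 2 + 1 / L) by ring]
  generalize 1 / 2 + 1 / L = σ
  simp only [e]
  ring

lemma out {L b b' : ℝ} (L0 : 0 < L) (h1 : 14 ≤ b') (h2 : b' ≤ b) (n : ℕ)
    (h : ¬ (1 / b < Real.log n / L ∧ Real.log n / L ≤ 1 / b')) :
    hh L 2 (2 + b) n - hh L (2 + b) (2 + 2 * b) n ≤ 3 * hh L b (2 * b) n + 2 * hh L 2 (2 + b') n := by
  have a1 := hh0 L0 (show b ≤ 2 * b by linarith) n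
  have a2 := hh0 L0 (show 2 ≤ 2 + b' by linarith) n
  unfold hh at *
  split_ifs at * with hp
  swap
  · simp
  simp only [exa] at *
  have y0 : 0 ≤ Real.log n / L := div_nonneg (Real.log_natCast_nonneg n) L0.le
  generalize Real.log n / L = y at *
  have q0 := ex_pos 1 n
  generalize ex 1 n = q at *
  rw [show -((2 + 2 * b) * y) = -(2 * y) + -(b * y) + -(b * y) by ring,
    show -((2 + b) * y) = -(2 * y) + -(b * y) by ring,
    show -((2 + b') * y) = -(2 * y) + -(b' * y) by ring,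
    show -(2 * b * y) = -(b * y) + -(b * y) by ring] at *
  simp only [Real.exp_add] at *
  have u1 : Real.exp (-(b * y)) ≤ 1 := Real.exp_le_one_iff.2 (by nlinarith)
  have w1 : Real.exp (-(2 * y)) ≤ 1 := Real.exp_le_one_iff.2 (by nlinarith)
  have u0 := Real.exp_pos (-(b * y))
  have w0 := Real.exp_pos (-(2 * y))
  have e1 := Real.exp_neg_one_gt_d9
  have e2 := Real.exp_neg_one_lt_d9
  rcases not_and_or.1 h with c | c
  · have : Real.exp (-1) ≤ Real.exp (-(b * y)) := Real.exp_le_exp.2 (by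
      have := (le_div_iff₀ (by linarith : 0 < b)).1 (not_lt.1 c); linarith)
    generalize Real.exp (-(b * y)) = u at *
    generalize Real.exp (-(2 * y)) = w at *
    have k : w * (1 - u) ≤ 3 * u := by nlinarith
    nlinarith [mul_le_mul_of_nonneg_left k (mul_nonneg q0.le (sub_nonneg.2 u1))]
  · have : Real.exp (-(b' * y)) ≤ Real.exp (-1) := Real.exp_le_exp.2 (by
      have := (div_lt_iff₀ (by linarith : 0 < b')).1 (not_le.1 c); linarith)
    generalize Real.exp (-(b * y)) = u at *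
    generalize Real.exp (-(2 * y)) = w at *
    generalize Real.exp (-(b' * y)) = v at *
    have k : (1 - u) * (1 - u) ≤ 2 * (1 - v) := by nlinarith
    nlinarith [mul_le_mul_of_nonneg_left k (mul_nonneg q0.le w0.le)]

end VAR2aux
open VAR2aux

theorem VAR2 (hM : MER_s) : VAR2_s := fun φ hφ => ⟨25, by norm_num, fun b b' h1 h2 => by
  filter_upwards [conv hM (a := b) (a' := 2 * b) (by linarith) (by linarith),
    conv hM (a := 2) (a' := 2 + b') (by linarith) (by linarith),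
    conv hM (a := 2) (a' := 2 + b) (by linarith) (by linarith),
    conv hM (a := 2 + b) (a' := 2 + 2 * b) (by linarith) (by linarith),
    Real.tendsto_log_atTop.eventually_gt_atTop 0] with T ⟨s1, H1, e1⟩ ⟨s2, H2, e2⟩ ⟨s3, H3, e3⟩
    ⟨s4, H4, e4⟩ L0
  have b0 : 0 < b := by linarith
  have l2 := Real.log_two_lt_d9
  have f1 : s1 ≤ 3 := by
    rw [mul_div_cancel_right₀ _ b0.ne'] at e1; linarith [(abs_le.1 e1).2]
  have f2 : s2 ≤ Real.log b' + 2 := by
    linarith [(abs_le.1 e2).2, Real.log_le_log (by linarith : 0 < (2 + b') / 2)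
      (by linarith : (2 + b') / 2 ≤ b')]
  have f3 : Real.log b - 3 ≤ s3 := by
    have := Real.log_le_log (by linarith : 0 < b / 2) (by linarith : b / 2 ≤ (2 + b) / 2)
    rw [Real.log_div b0.ne' two_ne_zero] at this
    linarith [(abs_le.1 e3).1]
  have f4 : s4 ≤ 3 := by
    linarith [(abs_le.1 e4).2, Real.log_le_log (by positivity : 0 < (2 + 2 * b) / (2 + b))
      ((div_le_iff₀ (by linarith)).2 (by linarith) : (2 + 2 * b) / (2 + b) ≤ 2)]
  have H := (H1.mul_left 3).add (H2.mul_left 2)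
  have p0 : ∀ n, 0 ≤ 3 * hh (Real.log T) b (2 * b) n + 2 * hh (Real.log T) 2 (2 + b') n := fun n =>
    add_nonneg (mul_nonneg (by norm_num) (hh0 L0 (by linarith) n))
      (mul_nonneg (by norm_num) (hh0 L0 (by linarith) n))
  constructor
  · have G := (hasSum_sum_of_ne_finset_zero (s := BT T b b')
      (f := fun n => if n ∈ BT T b b' then cb φ T b n ^ 2 else 0) fun n hn => if_neg hn).add H
    rw [Finset.sum_congr rfl fun n hn => if_pos hn] at G
    suffices s3 - s4 ≤ ∑ n ∈ BT T b b', cb φ T b n ^ 2 + (3 * s1 + 2 * s2) by linarith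
    refine hasSum_le (fun n => ?_) (H3.sub H4) G
    by_cases c : 1 / b < Real.log n / Real.log T ∧ Real.log n / Real.log T ≤ 1 / b'
    swap
    · refine (out L0 h1 h2 n c).trans (le_add_of_nonneg_left ?_)
      split_ifs <;> positivity
    refine le_add_of_le_of_nonneg ?_ (p0 n)
    by_cases hp : n.Prime
    swap
    · simp only [hh, if_neg hp]
      split_ifs <;> simp [sq_nonneg]
    have y1 : Real.log n ≤ Real.log T / 14 := by
      have := (div_le_iff₀ L0).1 (c.2.trans (one_div_le_one_div_of_le (by norm_num) h1))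
      linarith
    have m : n ∈ BT T b b' := Finset.mem_filter.2 ⟨Finset.mem_filter.2 ⟨Finset.mem_Icc.2
      ⟨hp.pos, Nat.le_floor ((Real.log_le_iff_le_exp (Nat.cast_pos.2 hp.pos)).1 (by linarith))⟩,
      hp⟩, c⟩
    rw [if_pos m, cb_sq φ T b hp, hφ.2.2.1 _ (by
      rw [abs_of_nonneg (div_nonneg (Real.log_natCast_nonneg n) (by linarith)),
        div_le_iff₀ (by linarith)]; linarith), one_pow, mul_one]
  · refine ((Finset.sum_le_sum fun n hn => ?_).trans
      (sum_le_hasSum _ (fun n _ => p0 n) H)).trans (by linarith)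
    obtain ⟨m, q⟩ := Finset.mem_sdiff.1 hn
    have o := out L0 h1 h2 n fun c => q (Finset.mem_filter.2 ⟨m, c⟩)
    rw [cb_sq φ T b (Finset.mem_filter.1 m).2]
    exact (mul_le_mul_of_nonneg_right o (sq_nonneg _)).trans (mul_le_of_le_one_right (p0 n)
      (pow_le_one₀ (hφ.2.1 _).1 (hφ.2.1 _).2))⟩

end Pool.Agent.MP_f0209c_nt.Rg

namespace Pool.Agent.MP_f0209c_nt.Rg
open Complex Set Filter Topology ArithmeticFunction Ch Pp

namespace SMLaux

lemma bigH {θ : ℝ} (h : θ < 1) : ∀ᶠ T : ℝ in atTop, Real.exp (θ * Real.log T) ≤ HH T := by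
  have a : 0 < 1 - θ := by linarith
  have b : ∀ᶠ L : ℝ in atTop, L ^ 2 ≤ Real.exp ((1 - θ) * L) := by
    have c := ((Real.tendsto_exp_div_pow_atTop 2).comp
      (tendsto_id.const_mul_atTop a)).eventually_ge_atTop (1 / (1 - θ) ^ 2)
    filter_upwards [c, eventually_gt_atTop 0] with L h1 h2
    simp only [Function.comp, id] at h1
    rw [div_le_div_iff₀ (by positivity) (by positivity), one_mul, mul_pow, mul_comm] at h1
    exact le_of_mul_le_mul_right h1 (by positivity)
  filter_upwards [Real.tendsto_log_atTop.eventually b, eventually_gt_atTop 1] with T h1 h2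
  have L0 := Real.log_pos h2
  rw [HH, le_div_iff₀ (by positivity)]
  refine (mul_le_mul_of_nonneg_left h1 (Real.exp_pos _).le).trans (le_of_eq ?_)
  rw [← Real.exp_add, show θ * Real.log T + (1 - θ) * Real.log T = Real.log T by ring,
    Real.exp_log (by linarith)]

lemma two : ∀ᶠ T : ℝ in atTop, 2 ≤ HH T := by
  filter_upwards [bigH (θ := 1 / 2) (by norm_num),
    Real.tendsto_log_atTop.eventually_ge_atTop 2] with T h1 h2
  linarith [Real.add_one_le_exp (1 / 2 * Real.log T)]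

lemma mem_NT {T : ℝ} {n : ℕ} (h : n ∈ NT T) : 1 ≤ n ∧ (n : ℝ) ≤ Real.exp (Real.log T / 7) :=
  ⟨(Finset.mem_Icc.1 h).1, (Nat.le_floor_iff (Real.exp_pos _).le).1 (Finset.mem_Icc.1 h).2⟩

lemma one {H : ℝ} (H0 : 0 < H) : Mv H (fun _ => 1) (2 * H) := by
  have e : gw H = fun x => Real.exp (-(1 / H ^ 2) * x ^ 2) := funext fun x => by rw [gw]; ring_nf
  refine ⟨fun _ => 1, ?_, fun _ => le_rfl, ?_⟩ <;> simp only [one_mul, e]
  · exact integrable_exp_neg_mul_sq (by positivity)
  · rw [integral_gaussian, div_div_eq_mul_div, div_one, Real.sqrt_mul Real.pi_pos.le,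
      Real.sqrt_sq H0.le]
    exact mul_le_mul_of_nonneg_right
      (Real.sqrt_le_iff.2 ⟨by norm_num, by linarith [Real.pi_le_four]⟩) H0.le

lemma mv_dp {H : ℝ} (H2 : 2 ≤ H) (S : Finset ℕ) (c : ℕ → ℝ) (h : ∀ n ∈ S, 1 ≤ n ∧ (n : ℝ) ≤ H)
    (τ : ℝ) : Mv H (fun y => ‖DP S c (τ + y)‖ ^ 2) (48 * (∑ n ∈ S, c n ^ 2) * H) := by
  classical
  have su : Sup (fun n => if n ∈ S then (c n : ℂ) * ee τ n else 0) S :=
    ⟨fun q => by simpa using (h 0 q).1, fun n hn => by_contra fun q => hn (if_neg q)⟩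
  refine (mvt su H2).mono (fun y => le_of_eq ?_) ?_
  · rw [su.dp_eq, DP]
    congr 2
    exact Finset.sum_congr rfl fun n hn => by rw [if_pos hn, ee_add, mul_assoc]
  · rw [Finset.mul_sum, Finset.mul_sum, Finset.sum_mul]
    refine Finset.sum_le_sum fun n hn => ?_
    rw [if_pos hn, norm_mul, norm_ee, mul_one, norm_real, Real.norm_eq_abs, sq_abs]
    nlinarith [(h n hn).2, sq_nonneg (c n)]

end SMLaux

open SMLaux in
theorem SML : SML_s := by
  refine ⟨fun T Φ η v h => ⟨fun u => h.1 _, fun τ => ?_⟩,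
    fun T Φ Ψ η η' h h' => ⟨fun u => add_nonneg (h.1 u) (h'.1 u), fun τ => ?_⟩,
    fun T Φ η c hc h => ⟨fun u => mul_nonneg hc (h.1 u), fun τ => ?_⟩,
    fun T Φ Ψ η η' hT h h1 h2 => ⟨fun u => (h1 u).1, fun τ => ?_⟩,
    fun ι s T Φ η h => ⟨fun u => Finset.sum_nonneg fun i hi => (h i hi).1 u, fun τ => ?_⟩,
    ?_, ?_, ?_, ?_⟩
  · exact (h.2 (τ + v)).mono (fun y => le_of_eq (by rw [add_right_comm])) le_rfl
  · rw [add_mul]; exact (h.2 τ).add (h'.2 τ)
  · rw [mul_assoc]; exact (h.2 τ).mul hc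
  · refine (h.2 τ).mono (fun y => (h1 _).2) (mul_le_mul_of_nonneg_right h2 ?_)
    unfold HH; positivity
  · rw [Finset.sum_mul]; exact Mv.sum fun i hi => (h i hi).2 τ
  · filter_upwards [two] with T h
    exact ⟨fun _ => zero_le_one, fun _ => one (by linarith)⟩
  · filter_upwards [two] with T h S c hS
    exact ⟨fun _ => by positivity, fun τ => mv_dp h S c hS τ⟩
  · filter_upwards [bigH (θ := 1 / 7) (by norm_num)] with T h n hn
    exact ⟨(mem_NT hn).1, (mem_NT hn).2.trans ((le_of_eq (by ring_nf)).trans h)⟩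
  · filter_upwards [bigH (θ := 6 / 7) (by norm_num), two, eventually_ge_atTop 1] with T h h2 h1
      S c k hS hk
    refine ⟨fun _ => by positivity, fun τ => ?_⟩
    have hY : Real.exp (Real.log T / 7) ^ k ≤ HH T := by
      refine le_trans ?_ h
      rw [← Real.exp_nat_mul]
      have : (k : ℝ) ≤ 6 := by exact_mod_cast hk
      exact Real.exp_le_exp.2 (by nlinarith [Real.log_nonneg h1])
    refine (pow_mv (fun p hp => ⟨(Finset.mem_filter.1 (hS hp)).2,
      (mem_NT (Finset.mem_filter.1 (hS hp)).1).2⟩) (fun p => c p * ee τ p) k h2 hY).mono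
      (fun x => le_of_eq (by simp only [ee_add, mul_assoc])) (le_of_eq ?_)
    simp only [norm_mul, norm_ee, mul_one]
    ring

end Pool.Agent.MP_f0209c_nt.Rg

/-! Mean value for sums over fractions. -/

namespace Pool.Agent.MP_f0209c_nt.Rg
open Complex Set Filter Topology ArithmeticFunction Ch Pp ComplexConjugate MeasureTheory

namespace GMaux

lemma quad {ι : Type} (S : Finset ι) (c : ι → ℂ) {k : ι → ℝ → ℂ} {K : ι → ι → ℝ}
    (hk : ∀ m n, Integrable (fun t => k m t * conj (k n t)) ∧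
      ∫ t, k m t * conj (k n t) = K m n) :
    Integrable (fun t => ‖∑ m ∈ S, c m * k m t‖ ^ 2) ∧ ∫ t, ‖∑ m ∈ S, c m * k m t‖ ^ 2 =
      ∑ m ∈ S, ∑ n ∈ S, (c m * conj (c n)).re * K m n := by
  have e : ∀ t, ‖∑ m ∈ S, c m * k m t‖ ^ 2 =
      reCLM (∑ m ∈ S, ∑ n ∈ S, c m * conj (c n) * (k m t * conj (k n t))) := fun t => by
    rw [← normSq_eq_norm_sq, ← ofReal_re (normSq _), ← mul_conj, map_sum, Finset.sum_mul_sum]
    exact congrArg re (Finset.sum_congr rfl fun _ _ => Finset.sum_congr rfl fun _ _ => by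
      rw [map_mul]; ring)
  have i1 : ∀ m, Integrable fun t => ∑ n ∈ S, c m * conj (c n) * (k m t * conj (k n t)) :=
    fun m => integrable_finsetSum _ fun n _ => (hk m n).1.const_mul _
  have i2 := integrable_finsetSum S fun m _ => i1 m
  simp only [e]
  refine ⟨reCLM.integrable_comp i2, ?_⟩
  rw [reCLM.integral_comp_comm i2, integral_finsetSum _ fun m _ => i1 m, map_sum]
  refine Finset.sum_congr rfl fun m _ => ?_
  rw [integral_finsetSum _ fun n _ => (hk m n).1.const_mul _, map_sum]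
  refine Finset.sum_congr rfl fun n _ => ?_
  rw [integral_const_mul, (hk m n).2, reCLM_apply, re_mul_ofReal]

lemma int_ex {ι : Type} (S : Finset ι) (c : ι → ℂ) (θ : ι → ℝ) {T : ℝ} (hT : 0 < T) :
    Integrable (fun t : ℝ => ‖∑ i ∈ S, c i * exp (-(I * t) * θ i)‖ ^ 2 * gw T t) ∧
      ∫ t : ℝ, ‖∑ i ∈ S, c i * exp (-(I * t) * θ i)‖ ^ 2 * gw T t = ∑ m ∈ S, ∑ n ∈ S,
        (c m * conj (c n)).re * (√Real.pi * T * Real.exp (-(T ^ 2 * (θ m - θ n) ^ 2 / 4))) := by
  have := quad S c (k := fun m t => exp (-(I * t) * θ m) * Real.exp (-(t ^ 2 / T ^ 2) / 2))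
    (K := fun m n => √Real.pi * T * Real.exp (-(T ^ 2 * (θ m - θ n) ^ 2 / 4)))
    fun m n => by
      have g := gauss (b := 1 / T ^ 2) (by positivity) (-I * (θ m - θ n : ℝ)) 0
      have e : ∀ t : ℝ, exp (-(I * t) * θ m) * Real.exp (-(t ^ 2 / T ^ 2) / 2) *
          conj (exp (-(I * t) * θ n) * Real.exp (-(t ^ 2 / T ^ 2) / 2)) =
          exp (-(1 / T ^ 2 : ℝ) * t ^ 2 + -I * (θ m - θ n : ℝ) * t + 0) := fun t => by
        rw [map_mul, conj_ofReal, ← exp_conj, ofReal_exp, ← exp_add, ← exp_add, ← exp_add]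
        simp only [map_mul, map_neg, conj_I, conj_ofReal]
        push_cast; ring_nf
      simp only [e]
      refine ⟨g.1, g.2.trans ?_⟩
      rw [div_div_eq_mul_div, div_one, Real.sqrt_mul Real.pi_pos.le, Real.sqrt_sq hT.le,
        ofReal_mul _ (Real.exp _), ofReal_exp]
      congr 2
      have : (T : ℂ) ≠ 0 := by exact_mod_cast hT.ne'
      push_cast
      rw [mul_pow, neg_sq, I_sq]
      field_simp; ring
  have e : ∀ t : ℝ, ‖∑ m ∈ S, c m * (exp (-(I * t) * θ m) * Real.exp (-(t ^ 2 / T ^ 2) / 2))‖ ^ 2 =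
      ‖∑ i ∈ S, c i * exp (-(I * t) * θ i)‖ ^ 2 * gw T t := fun t => by
    simp only [← mul_assoc, ← Finset.sum_mul]
    rw [norm_mul, mul_pow, norm_real, Real.norm_eq_abs, sq_abs, ← Real.exp_nat_mul, gw]
    congr 2
    push_cast; ring
  simpa only [e] using this

lemma log_gap {A B : ℕ} {N : ℝ} (hB : 1 ≤ B) (h : B < A) (hA : (A : ℝ) ≤ N) :
    1 / N ≤ Real.log A - Real.log B := by
  have b : (1 : ℝ) ≤ B := by exact_mod_cast hB
  have a : (B : ℝ) + 1 ≤ A := by exact_mod_cast h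
  rw [← Real.log_div (by linarith) (by linarith)]
  refine le_trans ?_ (Real.one_sub_inv_le_log_of_pos (div_pos (by linarith) (by linarith)))
  refine (one_div_le_one_div_of_le (by linarith) hA).trans ?_
  rw [inv_div, one_sub_div (by linarith)]
  exact div_le_div_of_nonneg_right (by linarith) (by linarith)

end GMaux

open GMaux in
theorem GM : GM_s := by
  classical
  intro ι s c n m N H r hH hN hr h1 h2 h3 h4
  obtain ⟨θ, hθ⟩ : ∃ θ : ι → ℝ, ∀ i, θ i = Real.log (n i) - Real.log (m i) := ⟨_, fun _ => rfl⟩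
  obtain ⟨a, b⟩ := int_ex s c θ hH
  have e : ∀ (t : ℝ) i, c i * ee t (n i) * conj (ee t (m i)) = c i * exp (-(I * t) * θ i) :=
    fun t i => by
      rw [conj_ee, ee, ee, mul_assoc, ← exp_add, hθ]
      push_cast; ring_nf
  simp only [e]
  refine ⟨_, a, fun _ => le_rfl, b.trans_le ?_⟩
  obtain ⟨k, hk⟩ : ∃ k : ι → ι → ℝ, ∀ i j, k i j = Real.exp (-(H ^ 2 * (θ i - θ j) ^ 2 / 4)) :=
    ⟨_, fun _ _ => rfl⟩
  simp only [← hk]
  have k0 : ∀ i j, 0 ≤ k i j := fun i j => hk i j ▸ (Real.exp_pos _).le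
  have k2 : ∀ i j, k i j = k j i := fun i j => by rw [hk, hk]; ring_nf
  have k1 : ∀ i ∈ s, ∑ j ∈ s, k i j ≤ r + 1 := fun i hi => by
    rw [← Finset.sum_filter_add_sum_filter_not s fun j => n i * m j = n j * m i]
    refine add_le_add ?_ ?_
    · refine (Finset.sum_le_card_nsmul _ _ 1 fun j _ => ?_).trans ?_
      · rw [hk]
        exact Real.exp_le_one_iff.2 (neg_nonpos.2 (by positivity))
      · have := h4 i hi
        rw [← Finset.coe_filter, ncard_coe_finset] at this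
        simpa using this
    · refine (Finset.sum_le_card_nsmul _ _ (Real.exp (-(H ^ 2 / (4 * N ^ 2)))) fun j hj => ?_).trans ?_
      · obtain ⟨hj, hne⟩ := Finset.mem_filter.1 hj
        have p : ∀ i ∈ s, ∀ j ∈ s, Real.log (n i * m j : ℕ) = Real.log (n i) + Real.log (m j) :=
          fun i hi j hj => by
            rw [Nat.cast_mul, Real.log_mul (Nat.cast_ne_zero.2 (Nat.one_le_iff_ne_zero.1 (h1 i hi).1))
              (Nat.cast_ne_zero.2 (Nat.one_le_iff_ne_zero.1 (h1 j hj).2))]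
        have q : 1 / N ≤ |θ i - θ j| := by
          rw [hθ, hθ]
          rcases lt_or_gt_of_ne hne with l | l
          · have := log_gap (Nat.mul_pos (h1 i hi).1 (h1 j hj).2) l (by exact_mod_cast h2 j hj i hi)
            rw [p i hi j hj, p j hj i hi] at this
            exact this.trans (le_trans (by linarith) (neg_le_abs _))
          · have := log_gap (Nat.mul_pos (h1 j hj).1 (h1 i hi).2) l (by exact_mod_cast h2 i hi j hj)
            rw [p i hi j hj, p j hj i hi] at this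
            exact this.trans (le_trans (by linarith) (le_abs_self _))
        have q2 := pow_le_pow_left₀ (by positivity) q 2
        rw [sq_abs] at q2
        rw [hk]
        refine Real.exp_le_exp.2 (neg_le_neg ?_)
        rw [show H ^ 2 / (4 * N ^ 2) = H ^ 2 * (1 / N) ^ 2 / 4 by field_simp]
        gcongr
      · rw [nsmul_eq_mul, Real.exp_neg, ← div_eq_mul_inv, div_le_one (Real.exp_pos _)]
        exact le_trans (by exact_mod_cast Finset.card_filter_le _ _) h3
  have p : √Real.pi ≤ 2 := Real.sqrt_le_iff.2 ⟨by norm_num, by linarith [Real.pi_le_four]⟩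
  have q : ∑ i ∈ s, ∑ j ∈ s, (c i * conj (c j)).re * (√Real.pi * H * k i j) ≤ ∑ i ∈ s, ∑ j ∈ s,
      (H * ‖c i‖ ^ 2 * k i j + H * ‖c j‖ ^ 2 * k j i) :=
    Finset.sum_le_sum fun i _ => Finset.sum_le_sum fun j _ => by
      have x : (c i * conj (c j)).re ≤ (‖c i‖ ^ 2 + ‖c j‖ ^ 2) / 2 := by
        refine (re_le_norm _).trans ?_
        rw [norm_mul, norm_conj]
        nlinarith [sq_nonneg (‖c i‖ - ‖c j‖)]
      have y := k0 i j
      rw [k2 j i]
      refine (mul_le_mul x (mul_le_mul_of_nonneg_right (mul_le_mul_of_nonneg_right p hH.le) y)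
        (by positivity) (by positivity)).trans (le_of_eq ?_)
      ring
  simp only [Finset.sum_add_distrib] at q
  rw [Finset.sum_comm (f := fun i j => H * ‖c j‖ ^ 2 * k j i), ← Finset.sum_add_distrib] at q
  refine q.trans ?_
  rw [Finset.mul_sum]
  refine Finset.sum_le_sum fun i hi => ?_
  rw [← Finset.mul_sum]
  have := mul_le_mul_of_nonneg_left (k1 i hi) (show 0 ≤ H * ‖c i‖ ^ 2 by positivity)
  linarith

end Pool.Agent.MP_f0209c_nt.Rg

/-! One of many independent prime sums is negative. -/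

namespace Pool.Agent.MP_f0209c_nt.Rg
open Complex Set Filter Topology ArithmeticFunction Ch Pp ComplexConjugate

namespace MULTIaux

lemma sgm (hG : GM_s) {T Y M : ℝ} (Y1 : 1 ≤ Y) (hY : Y ^ 6 ≤ HH T) (hM : 4 * M ≤ Y) {ι : Type}
    (s : Finset ι) (c : ι → ℝ) (n m : ι → ℕ) (r : ℕ) (h1 : ∀ i ∈ s, 1 ≤ n i ∧ 1 ≤ m i)
    (h2 : ∀ i ∈ s, ∀ j ∈ s, (n i * m j : ℝ) ≤ Y ^ 2) (h3 : (s.card : ℝ) ≤ M * Y ^ 2)
    (h4 : ∀ i ∈ s, {j | j ∈ s ∧ n i * m j = n j * m i}.ncard ≤ r) :
    Sml T (fun u => ‖∑ i ∈ s, c i * ee u (n i) * conj (ee u (m i))‖ ^ 2)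
      (2 * (r + 1) * ∑ i ∈ s, c i ^ 2) := by
  refine ⟨fun u => by positivity, fun τ => ?_⟩
  have y2 : 1 ≤ Y ^ 2 := one_le_pow₀ Y1
  refine (hG ι s (fun i => c i * ee τ (n i) * conj (ee τ (m i))) n m (Y ^ 2) (HH T) r
    (lt_of_lt_of_le (by positivity) hY) y2 (by positivity) h1 h2 (h3.trans ?_)
    fun i hi => by exact_mod_cast h4 i hi).mono (fun t => le_of_eq ?_) (le_of_eq ?_)
  · refine le_trans ?_ ((le_add_of_nonneg_right zero_le_one).trans (Real.add_one_le_exp _))
    rw [le_div_iff₀ (by positivity)]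
    refine le_trans ?_ (pow_le_pow_left₀ (by positivity) hY 2)
    have a : Y ^ 7 ≤ Y ^ 12 := pow_le_pow_right₀ Y1 (by norm_num)
    have b := mul_le_mul_of_nonneg_right hM (show 0 ≤ Y ^ 6 by positivity)
    linarith [show M * Y ^ 2 * (4 * (Y ^ 2) ^ 2) = 4 * M * Y ^ 6 by ring,
      show Y * Y ^ 6 = Y ^ 7 by ring, show (Y ^ 6) ^ 2 = Y ^ 12 by ring]
  · refine congrArg (‖·‖ ^ 2) (Finset.sum_congr rfl fun i _ => ?_)
    rw [ee_add τ t (n i), ee_add τ t (m i), map_mul]; ring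
  · simp only [norm_mul, norm_conj, norm_ee, mul_one, norm_real, Real.norm_eq_abs, sq_abs]
    ring

lemma large (m : ℕ) : ∀ᶠ T : ℝ in atTop, 1 ≤ Real.exp (Real.log T / 7) ∧
    Real.exp (Real.log T / 7) ^ 6 ≤ HH T ∧ 4 * (m : ℝ) ≤ Real.exp (Real.log T / 7) := by
  filter_upwards [Real.tendsto_log_atTop.eventually_ge_atTop (2058 + 28 * m),
    eventually_gt_atTop 0] with T hL T0
  have m0 : (0 : ℝ) ≤ m := m.cast_nonneg
  refine ⟨Real.one_le_exp (by linarith), ?_, by linarith [Real.add_one_le_exp (Real.log T / 7)]⟩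
  have a := Real.pow_div_factorial_le_exp (Real.log T / 7) (by linarith) 3
  have b : Real.log T ^ 2 ≤ Real.exp (Real.log T / 7) := by
    refine le_trans ?_ a
    norm_num [Nat.factorial]
    nlinarith [sq_nonneg (Real.log T)]
  rw [HH, le_div_iff₀ (pow_pos (by linarith) 2)]
  refine (mul_le_mul_of_nonneg_left b (by positivity)).trans (le_of_eq ?_)
  rw [← pow_succ, ← Real.exp_nat_mul]
  rw [show ((6 + 1 : ℕ) : ℝ) * (Real.log T / 7) = Real.log T by push_cast; ring, Real.exp_log T0]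

lemma one {α : ℝ} (a4 : 4 ≤ α) (D : ℂ) (h : -D.re ≤ 1 / (32 * α)) :
    1 + ((D * conj D - 1).re + (D ^ 2).re) ≤
      2 * (α * D.re + ‖D ^ 2‖ ^ 2 / α ^ 2 + 1 / 16) := by
  have e : 1 + ((D * conj D - 1).re + (D ^ 2).re) = 2 * D.re ^ 2 := by
    simp [sq]; ring
  have a : D.re ^ 2 ≤ ‖D ^ 2‖ := by
    rw [norm_pow, ← sq_abs]
    exact pow_le_pow_left₀ (abs_nonneg _) (abs_re_le_norm D) 2
  have b : (D.re ^ 2) ^ 2 / α ^ 2 ≤ ‖D ^ 2‖ ^ 2 / α ^ 2 := by gcongr
  rw [e]
  generalize D.re = y at h b ⊢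
  have c0 : 0 ≤ (y ^ 2) ^ 2 / α ^ 2 := by positivity
  have t : α * (1 / (32 * α)) = 1 / 32 := by field_simp
  have t1 : 1 / (32 * α) ≤ 1 / 32 := one_div_le_one_div_of_le (by norm_num) (by linarith)
  generalize 1 / (32 * α) = θ at h t t1
  rcases le_total y 0 with y0 | y0
  · nlinarith
  rcases le_total y α with y1 | y1
  · nlinarith
  · have : y ^ 2 ≤ (y ^ 2) ^ 2 / α ^ 2 := by
      rw [le_div_iff₀ (by positivity), sq (y ^ 2)]
      exact mul_le_mul_of_nonneg_left (pow_le_pow_left₀ (by linarith) y1 2) (sq_nonneg y)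
    nlinarith

lemma ee_one (u : ℝ) : ee u 1 = 1 := by simp [ee]

lemma off {B : Finset ℕ} {c : ℕ → ℝ} (h : ∑ p ∈ B, c p ^ 2 = 1) (u : ℝ) :
    DP B c u * conj (DP B c u) - 1 =
      ∑ x ∈ B.offDiag, (c x.1 * c x.2 : ℝ) * ee u x.1 * conj (ee u x.2) := by
  rw [DP, map_sum, Finset.sum_mul_sum, ← Finset.sum_product', ← Finset.diag_union_offDiag,
    Finset.sum_union (Finset.disjoint_diag_offDiag B), Finset.sum_diag, sub_eq_iff_eq_add']
  congr 1
  · rw [← ofReal_one, ← h, ofReal_sum]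
    refine Finset.sum_congr rfl fun p _ => ?_
    rw [mul_conj, normSq_eq_norm_sq, norm_mul, norm_ee, mul_one, norm_real, Real.norm_eq_abs, sq_abs]
  · exact Finset.sum_congr rfl fun x _ => by rw [map_mul, conj_ofReal]; push_cast; ring

lemma od (B : Finset ℕ) : B.offDiag ⊆ B ×ˢ B := fun _ h =>
  Finset.mem_product.2 ⟨(Finset.mem_offDiag.1 h).1, (Finset.mem_offDiag.1 h).2.1⟩

lemma sqr {B : Finset ℕ} (c : ℕ → ℝ) (h : ∀ p ∈ B, p.Prime) (u : ℝ) : DP B c u ^ 2 =
    ∑ x ∈ B ×ˢ B, (c x.1 * c x.2 : ℝ) * ee u (x.1 * x.2) * conj (ee u 1) := by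
  rw [DP, sq, Finset.sum_mul_sum, ← Finset.sum_product']
  refine Finset.sum_congr rfl fun x hx => ?_
  obtain ⟨a, b⟩ := Finset.mem_product.1 hx
  rw [ee_mul u (h _ a).ne_zero (h _ b).ne_zero, ee_one, map_one]
  push_cast; ring

lemma sq_sum {B : Finset ℕ} {c : ℕ → ℝ} (h : ∑ p ∈ B, c p ^ 2 = 1) :
    ∑ x ∈ B ×ˢ B, (c x.1 * c x.2) ^ 2 = 1 := by
  simp only [mul_pow]
  rw [Finset.sum_product' B B fun p q => c p ^ 2 * c q ^ 2, ← Finset.sum_mul_sum, h, one_mul]

end MULTIaux

open MULTIaux in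
theorem MULTI (hG : GM_s) (hS : SML_s) : MULTI_s := by
  obtain ⟨-, sA, sM, sL, sS, -⟩ := hS
  refine ⟨700, by norm_num, fun α m a4 m1 => ?_⟩
  filter_upwards [large m, eventually_ge_atTop 1] with T ⟨Y1, Y6, Ym⟩ T1 B c hB hd hc
  generalize hY : Real.exp (Real.log T / 7) = Y at Y1 Y6 Ym
  have m0 : (1 : ℝ) ≤ m := by exact_mod_cast m1
  have pr : ∀ i, ∀ p ∈ B i, p.Prime := fun i p hp => (Finset.mem_filter.1 (hB i hp)).2
  have le : ∀ i, ∀ p ∈ B i, (p : ℝ) ≤ Y := fun i p hp => hY ▸ (Nat.le_floor_iff (Real.exp_pos _).le).1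
    (Finset.mem_Icc.1 (Finset.mem_filter.1 (hB i hp)).1).2
  have cd : ∀ i, ((B i).card : ℝ) ≤ Y := fun i => by
    have a := Finset.card_le_card ((hB i).trans (Finset.filter_subset _ _))
    rw [NT, Nat.card_Icc, Nat.add_sub_cancel, hY] at a
    exact (Nat.le_floor_iff (by linarith)).1 a
  have same : ∀ i j p, p ∈ B i → p ∈ B j → j = i := fun i j p a b => by
    by_contra h
    rcases lt_or_gt_of_ne h with l | l
    · exact Finset.disjoint_left.1 (hd _ _ l) b a
    · exact Finset.disjoint_left.1 (hd _ _ l) a b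
  have cs : ∀ {β : Type} (A : Finset ℕ) (t : ℕ → Finset β), A ⊆ Finset.range m →
      (∀ i, ((t i).card : ℝ) ≤ Y ^ 2) → ((A.sigma t).card : ℝ) ≤ m * Y ^ 2 := fun A t hA ht => by
    rw [Finset.card_sigma, Nat.cast_sum]
    refine (Finset.sum_le_card_nsmul _ _ _ fun i _ => ht i).trans ?_
    rw [nsmul_eq_mul]
    exact mul_le_mul_of_nonneg_right
      (by exact_mod_cast (Finset.card_le_card hA).trans_eq (Finset.card_range m)) (by positivity)
  have c2 : ∀ i, ((B i ×ˢ B i).card : ℝ) ≤ Y ^ 2 := fun i => by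
    rw [Finset.card_product, Nat.cast_mul, sq]
    exact mul_le_mul (cd i) (cd i) (by positivity) (by linarith)
  have l2 : ∀ i j, ∀ p ∈ B i, ∀ q ∈ B j, (p * q : ℝ) ≤ Y ^ 2 := fun i j p hp q hq => by
    rw [sq]
    exact mul_le_mul (le i p hp) (le j q hq) (by positivity) (by linarith)
  have s1 : Sml T (fun u => ‖∑ i ∈ Finset.range m, DP (B i) (c i) u‖ ^ 2) (4 * m) := by
    refine sL _ _ _ _ _ T1 (sgm hG Y1 Y6 Ym ((Finset.range m).sigma B) (fun x => c x.1 x.2)
      (fun x => x.2) (fun _ => 1) 1 (fun x hx => ⟨(pr _ _ (Finset.mem_sigma.1 hx).2).pos, le_rfl⟩)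
      (fun x hx _ _ => by nlinarith [le _ _ (Finset.mem_sigma.1 hx).2, Nat.cast_one (R := ℝ)])
      (cs _ _ subset_rfl fun i => by nlinarith [cd i]) fun x hx => ?_)
      (fun u => ⟨by positivity, le_of_eq ?_⟩) (le_of_eq ?_)
    · refine (ncard_le_ncard (t := {x}) ?_).trans (ncard_singleton x).le
      rintro ⟨j, q⟩ ⟨a, b⟩
      obtain ⟨i, p⟩ := x
      obtain rfl : p = q := by simpa using b
      obtain rfl := same _ _ _ (Finset.mem_sigma.1 hx).2 (Finset.mem_sigma.1 a).2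
      rfl
    · simp only [Finset.sum_sigma, ee_one, map_one, mul_one, DP]
    · rw [Finset.sum_sigma, Finset.sum_congr rfl fun i hi => hc i (Finset.mem_range.1 hi)]
      simp; norm_num
  have s2 : Sml T (fun u => ‖∑ i ∈ Finset.range m,
      (DP (B i) (c i) u * conj (DP (B i) (c i) u) - 1)‖ ^ 2) (4 * m) := by
    refine sL _ _ _ _ _ T1 (sgm hG Y1 Y6 Ym ((Finset.range m).sigma fun i => (B i).offDiag)
      (fun x => c x.1 x.2.1 * c x.1 x.2.2) (fun x => x.2.1) (fun x => x.2.2) 1 (fun x hx => ?_)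
      (fun x hx y hy => l2 _ _ _ (Finset.mem_offDiag.1 (Finset.mem_sigma.1 hx).2).1 _
        (Finset.mem_offDiag.1 (Finset.mem_sigma.1 hy).2).2.1)
      (cs _ _ subset_rfl fun i => le_trans (by
        exact_mod_cast Finset.card_le_card (od _)) (c2 i)) fun x hx => ?_)
      (fun u => ⟨by positivity, le_of_eq ?_⟩) ?_
    · obtain ⟨a, b, -⟩ := Finset.mem_offDiag.1 (Finset.mem_sigma.1 hx).2
      exact ⟨(pr _ _ a).pos, (pr _ _ b).pos⟩
    · refine (ncard_le_ncard (t := {x}) ?_).trans (ncard_singleton x).le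
      rintro ⟨j, p', q'⟩ ⟨a, b⟩
      obtain ⟨i, p, q⟩ := x
      obtain ⟨a1, a2, a3⟩ := Finset.mem_offDiag.1 (Finset.mem_sigma.1 hx).2
      obtain ⟨b1, b2, -⟩ := Finset.mem_offDiag.1 (Finset.mem_sigma.1 a).2
      dsimp only at a1 a2 a3 b1 b2 b
      obtain rfl : p = p' := by
        rcases (pr _ _ a1).dvd_mul.1 ⟨q', b.symm⟩ with h | h
        · exact (Nat.prime_dvd_prime_iff_eq (pr _ _ a1) (pr _ _ b1)).1 h
        · exact absurd ((Nat.prime_dvd_prime_iff_eq (pr _ _ a1) (pr _ _ a2)).1 h) a3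
      obtain rfl := Nat.eq_of_mul_eq_mul_left (pr _ _ a1).pos b
      obtain rfl := same _ _ _ a1 b1
      rfl
    · rw [Finset.sum_sigma, Finset.sum_congr rfl fun i hi => off (hc i (Finset.mem_range.1 hi)) u]
    · rw [Finset.sum_sigma]
      have := Finset.sum_le_card_nsmul (Finset.range m)
        (fun i => ∑ x ∈ (B i).offDiag, (c i x.1 * c i x.2) ^ 2) 1 fun i hi =>
          (Finset.sum_le_sum_of_subset_of_nonneg (od _)
            fun _ _ _ => sq_nonneg _).trans (sq_sum (hc i (Finset.mem_range.1 hi))).le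
      rw [Finset.card_range, nsmul_one] at this
      push_cast
      linarith
  have s3 : ∀ A ⊆ Finset.range m,
      Sml T (fun u => ‖∑ i ∈ A, DP (B i) (c i) u ^ 2‖ ^ 2) (6 * A.card) := fun A hA => by
    refine sL _ _ _ _ _ T1 (sgm hG Y1 Y6 Ym (A.sigma fun i => B i ×ˢ B i)
      (fun x => c x.1 x.2.1 * c x.1 x.2.2) (fun x => x.2.1 * x.2.2) (fun _ => 1) 2 (fun x hx => ?_)
      (fun x hx _ _ => ?_) (cs _ _ hA c2) fun x hx => ?_)
      (fun u => ⟨by positivity, le_of_eq ?_⟩) (le_of_eq ?_)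
    · obtain ⟨a, b⟩ := Finset.mem_product.1 (Finset.mem_sigma.1 hx).2
      exact ⟨Nat.mul_pos (pr _ _ a).pos (pr _ _ b).pos, le_rfl⟩
    · obtain ⟨a, b⟩ := Finset.mem_product.1 (Finset.mem_sigma.1 hx).2
      simpa using l2 _ _ _ a _ b
    · obtain ⟨i, p, q⟩ := x
      refine (ncard_le_ncard (t := {⟨i, p, q⟩, ⟨i, q, p⟩}) ?_).trans
        ((ncard_insert_le _ _).trans (by rw [ncard_singleton]))
      rintro ⟨j, p', q'⟩ ⟨a, b⟩
      obtain ⟨a1, a2⟩ := Finset.mem_product.1 (Finset.mem_sigma.1 hx).2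
      obtain ⟨b1, b2⟩ := Finset.mem_product.1 (Finset.mem_sigma.1 a).2
      dsimp only at a1 a2 b1 b2 b
      rw [mul_one, mul_one] at b
      rcases (pr _ _ a1).dvd_mul.1 ⟨q, b.symm⟩ with h | h
      · obtain rfl := (Nat.prime_dvd_prime_iff_eq (pr _ _ a1) (pr _ _ b1)).1 h
        obtain rfl := Nat.eq_of_mul_eq_mul_left (pr _ _ a1).pos b
        obtain rfl := same _ _ _ a1 b1
        exact .inl rfl
      · obtain rfl := (Nat.prime_dvd_prime_iff_eq (pr _ _ a1) (pr _ _ b2)).1 h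
        obtain rfl := Nat.eq_of_mul_eq_mul_left (pr _ _ a1).pos (b.trans (mul_comm _ _))
        obtain rfl := same _ _ _ a1 b2
        exact .inr rfl
    · rw [Finset.sum_sigma, Finset.sum_congr rfl fun i _ => sqr (c i) (pr i) u]
    · rw [Finset.sum_sigma, Finset.sum_congr rfl fun i hi =>
        sq_sum (hc i (Finset.mem_range.1 (hA hi)))]
      simp; norm_num
  have s4 := sS ℕ (Finset.range m) T _ _ fun i hi => s3 {i} (Finset.singleton_subset_iff.2 hi)
  simp only [Finset.sum_singleton, Finset.card_singleton, Finset.sum_const, Finset.card_range,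
    nsmul_eq_mul, Nat.cast_one] at s4
  have s5 := s3 _ subset_rfl
  rw [Finset.card_range] at s5
  have s := sA _ _ _ _ _ (sA _ _ _ _ _ (sM _ _ _ (100 * α ^ 2 / m ^ 2) (by positivity) s1)
    (sM _ _ _ (25 / m ^ 2) (by positivity) s2)) (sA _ _ _ _ _ (sM _ _ _ (25 / m ^ 2) (by positivity) s5)
    (sM _ _ _ (10 / (m * α ^ 2)) (by positivity) s4))
  refine ⟨_, sL _ _ _ _ _ T1 s (fun u => ⟨s.1 u, le_rfl⟩) ?_, fun u hu => ?_⟩
  · have a : 1 / (m : ℝ) ≤ α ^ 2 / m := div_le_div_of_nonneg_right (by nlinarith) (by linarith)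
    have b : 0 ≤ 1 / α ^ 2 := by positivity
    have d : 0 ≤ 1 / (m : ℝ) := by positivity
    have e : 100 * α ^ 2 / m ^ 2 * (4 * m) + 25 / m ^ 2 * (4 * m) + (25 / m ^ 2 * (6 * m) +
        10 / (m * α ^ 2) * (m * (6 * 1))) = 400 * (α ^ 2 / m) + 250 * (1 / m) + 60 * (1 / α ^ 2) := by
      field_simp; ring
    rw [e, mul_div_assoc, div_eq_mul_one_div 700]
    linarith
  by_contra hn
  push Not at hn
  have a := Finset.sum_le_sum fun i (hi : i ∈ Finset.range m) =>
    one a4 _ (hn i (Finset.mem_range.1 hi))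
  simp only [Finset.sum_add_distrib, ← Finset.mul_sum, ← Finset.sum_div, ← re_sum, Finset.sum_const,
    Finset.card_range, nsmul_eq_mul, mul_one] at a
  have q0 : 0 ≤ ∑ i ∈ Finset.range m, ‖DP (B i) (c i) u ^ 2‖ ^ 2 :=
    Finset.sum_nonneg fun _ _ => sq_nonneg _
  generalize ∑ i ∈ Finset.range m, ‖DP (B i) (c i) u ^ 2‖ ^ 2 = Q at a hu q0
  generalize ∑ i ∈ Finset.range m, DP (B i) (c i) u ^ 2 = S₃ at a hu
  generalize ∑ i ∈ Finset.range m, (DP (B i) (c i) u * conj (DP (B i) (c i) u) - 1) = S₂ at a hu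
  generalize ∑ i ∈ Finset.range m, DP (B i) (c i) u = S₁ at a hu
  have b1 := mul_le_mul_of_nonneg_left (re_le_norm S₁) (show 0 ≤ α by linarith)
  have b2 := (abs_le.1 (abs_re_le_norm S₂)).1
  have b3 := (abs_le.1 (abs_re_le_norm S₃)).1
  have e : 100 * α ^ 2 / m ^ 2 * ‖S₁‖ ^ 2 + 25 / m ^ 2 * ‖S₂‖ ^ 2 + (25 / m ^ 2 * ‖S₃‖ ^ 2 +
      10 / (m * α ^ 2) * Q) = ((10 * (α * ‖S₁‖)) ^ 2 + (5 * ‖S₂‖) ^ 2 + (5 * ‖S₃‖) ^ 2 +
        10 * (Q / α ^ 2) * m) / m ^ 2 := by
    field_simp; ring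
  rw [e, div_lt_one (by positivity)] at hu
  have q1 : 0 ≤ Q / α ^ 2 := by positivity
  generalize Q / α ^ 2 = w at a hu q1
  have q2 : 0 ≤ 10 * w * m := by positivity
  have d1 := abs_le_of_sq_le_sq' (a := 10 * (α * ‖S₁‖)) (b := m) (by nlinarith) (by linarith)
  have d2 := abs_le_of_sq_le_sq' (a := 5 * ‖S₂‖) (b := m) (by nlinarith) (by linarith)
  have d3 := abs_le_of_sq_le_sq' (a := 5 * ‖S₃‖) (b := m) (by nlinarith) (by linarith)
  have d4 : 10 * w ≤ m := le_of_mul_le_mul_right (by nlinarith) (show (0 : ℝ) < m by linarith)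
  linarith [d1.2, d2.2, d3.2]

end Pool.Agent.MP_f0209c_nt.Rg

/-! A majorant for a Dirichlet polynomial on short intervals. -/

namespace Pool.Agent.MP_f0209c_nt.Rg
open Complex Set Filter Topology ArithmeticFunction Ch Pp

namespace SUPaux

lemma geo (K : ℕ) : ∑ k ∈ Finset.range K, (1 / 2 : ℝ) ^ k ≤ 2 := sum_geometric_two_le K

/-- Taylor expansion in the shift -/
lemma taylor (S : Finset ℕ) (c lam : ℕ → ℝ) (h : ∀ n ∈ S, |lam n| ≤ 1) (u x : ℝ)
    (hx : |x| ≤ 1 / 2) (K : ℕ) :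
    ‖∑ n ∈ S, (c n : ℂ) * ee u n * exp (-(I * x) * lam n)‖ ≤
      ∑ k ∈ Finset.range K, (1 / 2) ^ k * ‖DP S (fun n => c n * (lam n ^ k / k.factorial)) u‖ +
        2 * (1 / 2) ^ K * ∑ n ∈ S, |c n| := by
  have hw : ‖-(I * (x : ℂ))‖ ≤ 1 / 2 := by simpa using hx
  have e : ∑ n ∈ S, (c n : ℂ) * ee u n * exp (-(I * x) * lam n) =
      ∑ k ∈ Finset.range K,
        (-(I * x)) ^ k * DP S (fun n => c n * (lam n ^ k / k.factorial)) u +
      ∑ n ∈ S, (c n : ℂ) * ee u n * (exp (-(I * x) * lam n) -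
        ∑ k ∈ Finset.range K, (-(I * x) * lam n) ^ k / k.factorial) := by
    simp only [DP, Finset.mul_sum, mul_sub, Finset.sum_sub_distrib]
    rw [Finset.sum_comm, ← add_sub_assoc, eq_sub_iff_add_eq, add_comm]
    congr 1
    refine Finset.sum_congr rfl fun n _ => Finset.sum_congr rfl fun k _ => ?_
    push_cast
    ring
  rw [e]
  refine (norm_add_le _ _).trans (add_le_add ?_ ?_)
  · refine (norm_sum_le _ _).trans (Finset.sum_le_sum fun k _ => ?_)
    rw [norm_mul, norm_pow]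
    exact mul_le_mul_of_nonneg_right (pow_le_pow_left₀ (norm_nonneg _) hw k) (norm_nonneg _)
  · rw [Finset.mul_sum]
    refine (norm_sum_le _ _).trans (Finset.sum_le_sum fun n hn => ?_)
    have a : ‖-(I * (x : ℂ)) * lam n‖ ≤ 1 / 2 := by
      rw [norm_mul, norm_real, Real.norm_eq_abs]
      exact (mul_le_of_le_one_right (norm_nonneg _) (h n hn)).trans hw
    have b := exp_bound' (x := -(I * (x : ℂ)) * lam n) (n := K)
      ((div_le_self (norm_nonneg _) (by exact_mod_cast Nat.succ_pos K)).trans a)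
    have d : ‖-(I * (x : ℂ)) * lam n‖ ^ K / K.factorial ≤ (1 / 2) ^ K :=
      (div_le_self (by positivity) (by exact_mod_cast K.factorial_pos)).trans
        (pow_le_pow_left₀ (norm_nonneg _) a K)
    rw [norm_mul, norm_mul, norm_ee, mul_one, norm_real, Real.norm_eq_abs, mul_comm]
    exact mul_le_mul_of_nonneg_right (by linarith) (abs_nonneg _)

lemma cs (K : ℕ) (a : ℕ → ℝ) :
    (∑ k ∈ Finset.range K, (1 / 2) ^ k * a k) ^ 2 ≤
      2 * ∑ k ∈ Finset.range K, (1 / 2) ^ k * a k ^ 2 := by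
  refine (Finset.sum_sq_le_sum_mul_sum_of_sq_le_mul (Finset.range K)
    (f := fun k => (1 / 2 : ℝ) ^ k) (g := fun k => (1 / 2) ^ k * a k ^ 2)
    (fun k _ => by positivity) (fun k _ => by positivity) fun k _ => le_of_eq (by ring)).trans ?_
  exact mul_le_mul_of_nonneg_right (geo K) (Finset.sum_nonneg fun k _ => by positivity)

lemma rest (S : Finset ℕ) (c : ℕ → ℝ) :
    (2 * (1 / 2) ^ S.card * ∑ n ∈ S, |c n|) ^ 2 ≤ 4 * ∑ n ∈ S, c n ^ 2 := by
  have a := sq_sum_le_card_mul_sum_sq (s := S) (f := fun n => |c n|)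
  simp only [sq_abs] at a
  have b : (S.card : ℝ) * (1 / 2) ^ S.card ≤ 1 := by
    rw [one_div, inv_pow, ← div_eq_mul_inv, div_le_one (by positivity)]
    exact_mod_cast Nat.lt_two_pow_self.le
  have d : (1 / 2 : ℝ) ^ S.card ≤ 1 := pow_le_one₀ (by norm_num) (by norm_num)
  have s0 : 0 ≤ ∑ n ∈ S, c n ^ 2 := Finset.sum_nonneg fun n _ => sq_nonneg _
  have e : (S.card : ℝ) * (1 / 2) ^ S.card * (1 / 2) ^ S.card ≤ 1 :=
    mul_le_one₀ b (by positivity) d
  calc (2 * (1 / 2) ^ S.card * ∑ n ∈ S, |c n|) ^ 2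
      = 4 * ((1 / 2) ^ S.card) ^ 2 * (∑ n ∈ S, |c n|) ^ 2 := by ring
    _ ≤ 4 * ((1 / 2) ^ S.card) ^ 2 * (S.card * ∑ n ∈ S, c n ^ 2) :=
        mul_le_mul_of_nonneg_left a (by positivity)
    _ = 4 * ((S.card * (1 / 2) ^ S.card * (1 / 2) ^ S.card) * ∑ n ∈ S, c n ^ 2) := by ring
    _ ≤ 4 * ∑ n ∈ S, c n ^ 2 :=
        mul_le_mul_of_nonneg_left (mul_le_of_le_one_left s0 e) (by norm_num)

end SUPaux

open SUPaux in
theorem SUP (hS : SML_s) : SUP_s := by
  obtain ⟨-, h2, h3, h4, h5, h6, h7, -⟩ := hS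
  refine ⟨400, by norm_num, ?_⟩
  filter_upwards [h6, h7, eventually_ge_atTop (Real.exp 1)] with T a6 a7 hT S c hc
  have T0 : 0 < T := (Real.exp_pos 1).trans_le hT
  have L1 : 1 ≤ Real.log T := (Real.le_log_iff_exp_le T0).2 hT
  have T1 : 1 ≤ T := (Real.one_le_exp zero_le_one).trans hT
  have hl : ∀ n ∈ S, |Real.log n / Real.log T| ≤ 1 := fun n hn => by
    have n0 : (0 : ℝ) < n := by exact_mod_cast (hc n hn).1
    rw [abs_of_nonneg (div_nonneg (Real.log_natCast_nonneg n) (by linarith)),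
      div_le_one (by linarith)]
    exact Real.log_le_log n0 ((hc n hn).2.trans (div_le_self T0.le (one_le_pow₀ L1)))
  have s0 : 0 ≤ ∑ n ∈ S, c n ^ 2 := Finset.sum_nonneg fun n _ => sq_nonneg _
  have hk : ∀ k : ℕ, ∑ n ∈ S, (c n * ((Real.log n / Real.log T) ^ k / k.factorial)) ^ 2 ≤
      ∑ n ∈ S, c n ^ 2 := fun k => Finset.sum_le_sum fun n hn => by
    rw [mul_pow]
    refine mul_le_of_le_one_right (sq_nonneg _) ((sq_le_one_iff_abs_le_one _).2 ?_)
    rw [abs_div, abs_pow, Nat.abs_cast]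
    exact (div_le_self (by positivity) (by exact_mod_cast k.factorial_pos)).trans
      (pow_le_one₀ (abs_nonneg _) (hl n hn))
  have m1 := h5 ℕ (Finset.range S.card) T _ _ fun k _ =>
    h3 T _ _ ((1 / 2) ^ k) (by positivity)
      (a7 S (fun n => c n * ((Real.log n / Real.log T) ^ k / k.factorial)) hc)
  have m2 := h2 T _ _ _ _ (h3 T _ _ 4 (by norm_num) m1)
    (h3 T _ _ (8 * ∑ n ∈ S, c n ^ 2) (by positivity) a6)
  refine ⟨_, h4 T _ _ _ _ T1 m2 (fun u => ⟨m2.1 u, le_rfl⟩) ?_, fun u x hx => ?_⟩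
  · have b : ∑ k ∈ Finset.range S.card, (1 / 2 : ℝ) ^ k *
        (48 * ∑ n ∈ S, (c n * ((Real.log n / Real.log T) ^ k / k.factorial)) ^ 2) ≤
        2 * (48 * ∑ n ∈ S, c n ^ 2) := by
      refine (Finset.sum_le_sum fun k _ => mul_le_mul_of_nonneg_left
        (mul_le_mul_of_nonneg_left (hk k) (by norm_num)) (by positivity)).trans ?_
      rw [← Finset.sum_mul]
      exact mul_le_mul_of_nonneg_right (geo _) (by positivity)
    linarith
  · have e : DP S c (u + x / Real.log T) = ∑ n ∈ S, (c n : ℂ) * ee u n *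
        exp (-(I * x) * (Real.log n / Real.log T : ℝ)) := by
      refine Finset.sum_congr rfl fun n _ => ?_
      rw [ee_add, mul_assoc]
      congr 2
      unfold ee
      congr 1
      rw [ofReal_div, ofReal_div]
      ring
    have a := pow_le_pow_left₀ (norm_nonneg _)
      (taylor S c (fun n => Real.log n / Real.log T) hl u x hx S.card) 2
    have b := cs S.card fun k =>
      ‖DP S (fun n => c n * ((Real.log n / Real.log T) ^ k / k.factorial)) u‖
    have d := rest S c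
    rw [e]
    refine a.trans ((add_sq_le (a := _) (b := _)).trans ?_)
    linarith

end Pool.Agent.MP_f0209c_nt.Rg

namespace Pool.Agent.MP_f0209c_nt.Rg
open Complex Set Filter Topology ArithmeticFunction Ch Pp

namespace MASSaux

lemma bigH {θ : ℝ} (h : θ < 1) : ∀ᶠ T : ℝ in atTop, Real.exp (θ * Real.log T) ≤ HH T := by
  have a : 0 < 1 - θ := by linarith
  have b : ∀ᶠ L : ℝ in atTop, L ^ 2 ≤ Real.exp ((1 - θ) * L) := by
    have c := ((Real.tendsto_exp_div_pow_atTop 2).comp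
      (tendsto_id.const_mul_atTop a)).eventually_ge_atTop (1 / (1 - θ) ^ 2)
    filter_upwards [c, eventually_gt_atTop 0] with L h1 h2
    simp only [Function.comp, id] at h1
    rw [div_le_div_iff₀ (by positivity) (by positivity), one_mul, mul_pow, mul_comm] at h1
    exact le_of_mul_le_mul_right h1 (by positivity)
  filter_upwards [Real.tendsto_log_atTop.eventually b, eventually_gt_atTop 1] with T h1 h2
  have L0 := Real.log_pos h2
  rw [HH, le_div_iff₀ (by positivity)]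
  refine (mul_le_mul_of_nonneg_left h1 (Real.exp_pos _).le).trans (le_of_eq ?_)
  rw [← Real.exp_add, show θ * Real.log T + (1 - θ) * Real.log T = Real.log T by ring,
    Real.exp_log (by linarith)]

lemma mass {b : ℝ} (hb : 1 ≤ b) : ∀ᶠ L : ℝ in atTop, ∀ S : Finset ℕ,
    ∑ n ∈ S, (mm (b / L : ℝ) 0 n).re * ex (1 + 2 / L) n ≤ 2 * b := by
  have t := (continuous_re.tendsto _).comp (ratio_lim (w := 2) (w' := 2 + b) two_ne_zero
    (ne_of_re (by simp; linarith)))
  have e : (((2 : ℂ) + b) / 2).re < 2 * b := by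
    rw [show ((2 : ℂ) + b) / 2 = ((2 + b) / 2 : ℝ) by push_cast; ring, ofReal_re]; linarith
  filter_upwards [t.eventually_lt_const e, eventually_gt_atTop 0] with L h L0 S
  have p1 : 0 < 2 / L := by positivity
  have p2 : 0 ≤ b / L := by positivity
  have hs := (has_mm (z := (b / L : ℝ)) (z' := 0) (s := (1 + 2 / L : ℝ))
    (by rw [add_re, ofReal_re, ofReal_re]; linarith)
    (by rw [add_zero, ofReal_re]; linarith)).mapL reCLM
  have e1 : ∀ n, reCLM (LSeries.term (mm (b / L : ℝ) 0) (1 + 2 / L : ℝ) n) =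
      (mm (b / L : ℝ) 0 n).re * ex (1 + 2 / L) n := fun n => by
    have := term_ex (f := mm (b / L : ℝ) 0) (by simp) (1 + 2 / L) 0 n
    rw [ofReal_zero, zero_mul, add_zero] at this
    rw [this, ee, reCLM_apply, ofReal_zero, mul_zero, neg_zero, zero_mul, exp_zero, mul_one,
      re_mul_ofReal]
  simp only [e1] at hs
  refine (sum_le_hasSum S (fun n _ => ?_) hs).trans (le_trans (le_of_eq ?_) h.le)
  · obtain ⟨r, ρ, -, e2, e3, -⟩ := rho p2 n
    rw [e2, ofReal_re]
    exact mul_nonneg ((abs_nonneg _).trans e3) (ex_pos _ _).le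
  · simp only [Function.comp, reCLM_apply]
    congr 3 <;> push_cast <;> ring

end MASSaux

open MASSaux in
theorem MASS : MASS_s := by
  intro φ b δ hb hδ hφ
  filter_upwards [bigH (θ := 1 - δ) (by linarith), Real.tendsto_log_atTop.eventually (mass hb),
    eventually_gt_atTop 1] with T h1 h2 h3
  have L0 := Real.log_pos h3
  have p2 : 0 ≤ b / Real.log T := by positivity
  refine ⟨Finset.Icc 1 ⌊Real.exp ((1 - δ) * Real.log T)⌋₊,
    fun n => (mm 0 (b / Real.log T : ℝ) n).re * φ (Real.log n / Real.log T) *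
      ex (1 / 2 + 1 / Real.log T) n, fun n hn => ⟨(Finset.mem_Icc.1 hn).1,
      ((Nat.le_floor_iff (Real.exp_pos _).le).1 (Finset.mem_Icc.1 hn).2).trans h1⟩,
    le_trans (Finset.sum_le_sum fun n _ => ?_) (h2 _), fun u x => ?_⟩
  · obtain ⟨r, ρ, e1, e2, e3, e4⟩ := rho p2 n
    have e : ex (1 / 2 + 1 / Real.log T) n ^ 2 = ex (1 + 2 / Real.log T) n := by
      rw [ex, ex, ← Real.exp_nat_mul]; push_cast; ring_nf
    dsimp only
    rw [e1, e2, ofReal_re, ofReal_re, mul_pow, mul_pow, e]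
    refine mul_le_mul_of_nonneg_right ?_ (ex_pos _ _).le
    have a := hφ (Real.log n / Real.log T)
    have a1 : φ (Real.log n / Real.log T) ^ 2 ≤ 1 := pow_le_one₀ a.1 a.2
    have a2 : r ^ 2 ≤ ρ := by
      rw [← sq_abs]; nlinarith [abs_nonneg r]
    exact (mul_le_of_le_one_right (sq_nonneg r) a1).trans a2
  · rw [Rz, RP, DP]
    refine Finset.sum_congr rfl fun n _ => ?_
    obtain ⟨r, ρ, e1, -, -, -⟩ := rho p2 n
    rw [rf_apply, e1, ofReal_re, ofReal_mul, ofReal_mul, mul_assoc _ (_ : ℂ) (ee _ _), ex, ee,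
      ofReal_exp, ← exp_add, sc]
    congr 2
    push_cast
    ring

end Pool.Agent.MP_f0209c_nt.Rg
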