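import Pool.Agent.MP_f0209c_nt.Rg.Bas

/-! Inputs from the zeta function: the resonator and the exceptional sets. -/

/-! The diagonal term is bounded uniformly in `b`. -/

namespace Pool.Agent.MP_f0209c_nt.Rg
open Complex Filter Topology ArithmeticFunction MeasureTheory Ch Pp

theorem DIAG : DIAG_s := by
  intro b c h d b1 c0 cb h1 h2 hb d0
  obtain ⟨C, C1, hC⟩ := ep_bound
  have p0 := Real.pi_pos
  have h0 : 0 < h := by linarith
  set s := (Real.cos (3 * h / 2) - Real.cos (h / 2)) / h with hs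
  have s0 : -s ≤ Real.pi - h := by
    have a : Real.sin h ≤ Real.pi - h := by
      rw [← Real.sin_pi_sub]; exact Real.sin_le (by linarith)
    have a0 : 0 ≤ Real.sin h := Real.sin_nonneg_of_nonneg_of_le_pi h0.le h2
    have a1 := Real.sin_le_one (h / 2)
    rw [hs, Real.cos_sub_cos, show (3 * h / 2 + h / 2) / 2 = h by ring,
      show (3 * h / 2 - h / 2) / 2 = h / 2 by ring, ← neg_div, div_le_iff₀ h0]
    nlinarith [mul_le_mul_of_nonneg_left a1 a0, mul_nonneg (sub_nonneg.2 h2) (show 0 ≤ h - 2 by linarith)]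
  set K := Real.exp (h * C / c) with hK
  have K1 : 1 ≤ K := Real.one_le_exp (by positivity)
  set η := min (1 / 4) (min d (1 / (b * K))) with hη
  have η0 : 0 < η := by positivity
  have η1 : η ≤ 1 / 4 := min_le_left _ _
  have η2 : η * (b * K) ≤ 1 :=
    (le_div_iff₀ (by positivity)).1 ((min_le_right _ _).trans (min_le_right _ _))
  obtain ⟨φ, sφ, φ0, φ1, φ2⟩ := exists_bump (c := 0) (r := 1 - 2 * η) (R := 1 - η) (by linarith)
    (by linarith) (by linarith) (by linarith)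
  obtain ⟨ψ, sψ, ψ0, ψ1, ψ2⟩ := exists_bump (c := 1 - 3 * η / 2) (r := η / 2) (R := η) (by linarith)
    (by linarith) (by linarith) (by linarith)
  have φa : ∀ y, |φ y| ≤ 1 := fun y => abs_le.2 ⟨by linarith [(φ0 y).1], (φ0 y).2⟩
  refine ⟨η, φ, η0, (min_le_right _ _).trans (min_le_left _ _), η1, ⟨sφ, φ0,
    fun y hy => φ1 y (by rwa [sub_zero]), fun y hy => φ2 y (by rwa [sub_zero])⟩, ?_⟩
  unfold Dia
  have ep : ∀ᶠ L : ℝ in atTop, ∀ (g : ArithmeticFunction ℂ) (k : ℝ), g.IsMultiplicative → 0 ≤ k →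
      (∀ p j, p.Prime → ‖g (p ^ (j + 1))‖ ≤ k / L * Real.log p) →
      LSeriesSummable g (1 + 2 * c / L : ℝ) → LSeriesSummable g (1 + 2 * c / L : ℝ) ∧
        ∑' n, ‖LSeries.term g (1 + 2 * c / L : ℝ) n‖ ≤ Real.exp (k * C / c) := by
    filter_upwards [eventually_gt_atTop 0, eventually_ge_atTop (2 * c)] with L L0 L1 g k g1 k0 g2 g3
    have := (div_le_one L0).2 L1
    refine ⟨g3, (hC g _ (k / L) g1 (by rw [ofReal_re]; linarith [div_pos c0 L0, mul_div_assoc 2 c L])
      (by rw [ofReal_re]; linarith) (by positivity) g2 g3).trans (le_of_eq ?_)⟩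
    rw [ofReal_re, add_sub_cancel_left]
    congr 1; field_simp
  have re : ∀ {L : ℝ}, 0 < L → 1 < ((1 + 2 * c / L : ℝ) : ℂ).re := fun L0 => by
    rw [ofReal_re]; exact lt_add_of_pos_right _ (by positivity)
  have w0 : ∀ v : ℝ, 0 < ((2 * c : ℝ) + v * I : ℂ).re := fun v => by simpa using c0
  have t1 := sφ.lim (f := fun L => ff (h / L) (b / L)) (x := 2 * c) (by
    filter_upwards [ep, eventually_gt_atTop 0] with L e L0
    have b0 : 0 ≤ b / L := by positivity
    refine e _ (2 * b) (mult_ff _ _) (by linarith) (fun p j hp => ?_) (summ_ff b0 _ (re L0))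
    rw [ff_pp _ _ hp, norm_mul, norm_pow, norm_pow, norm_real, Real.norm_of_nonneg (ex_pos _ _).le,
      mul_div_assoc]
    exact (mul_le_of_le_one_right (norm_nonneg _) (pow_le_one₀ (sq_nonneg _)
      (pow_le_one₀ (ex_pos _ _).le (ex_le_one b0 p)))).trans (norm_A b0 _ p))
    fun v => ff_lim (w0 v) h (by linarith)
  have sρ : ∀ᶠ L : ℝ in atTop, LSeriesSummable (mm (b / L : ℝ) 0) (1 + 2 * c / L : ℝ) ∧
      ∑' n, ‖LSeries.term (mm (b / L : ℝ) 0) (1 + 2 * c / L : ℝ) n‖ ≤ Real.exp (b * C / c) := by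
    filter_upwards [ep, eventually_gt_atTop 0] with L e L0
    have b0 : 0 ≤ b / L := by positivity
    refine e _ b (mult_mm _ _) (by linarith) (fun p j hp => ?_) (has_mm (by
      rw [add_re, ofReal_re (b / L)]; linarith [re L0]) (by simpa using re L0)).LSeriesSummable
    rw [mm_pp _ _ hp, pw_zero hp.ne_zero, pw_real _ hp.ne_zero, one_pow, mul_one, ← ofReal_one,
      ← ofReal_sub, norm_real, Real.norm_of_nonneg (sub_nonneg.2 (ex_le_one b0 p))]
    exact one_sub_ex _ p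
  have t2 := sψ.lim (f := fun L => mm (b / L : ℝ) 0) (x := 2 * c) sρ fun v =>
    (ratio_lim (ne_of_re (w0 v)) (w' := (2 * c : ℝ) + v * I + b)
      (ne_of_re (by rw [add_re, ofReal_re]; linarith [w0 v]))).congr'
      ((eventually_gt_atTop 0).mono fun L L0 => by
        have r : 1 < (1 + ((2 * c : ℝ) + v * I) / L : ℂ).re := by
          rw [add_re, one_re, div_ofReal_re]; linarith [div_pos (w0 v) L0]
        have := (has_mm (z := (b / L : ℝ)) (z' := 0) (s := 1 + ((2 * c : ℝ) + v * I) / L) (by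
          rw [add_re, ofReal_re (b / L)]; linarith [div_pos (one_pos.trans_le b1) L0])
          (by rwa [add_zero])).LSeries_eq
        dsimp only
        rw [this, add_zero, add_div _ (b : ℂ), ofReal_div, add_assoc])
  have pc : (Real.pi : ℂ) ≠ 0 := by exact_mod_cast p0.ne'
  have z2 : 0 < ((2 * c : ℝ) : ℂ).re := by simpa using c0
  have v2 : ‖(∫ v : ℝ, kk ψ 1 (v * I) * (((2 * c : ℝ) + v * I + b) / ((2 * c : ℝ) + v * I))) /
      (2 * Real.pi)‖ ≤ 3 * η * b := by
    rw [integral_congr_ae (g := fun v : ℝ => kk ψ 1 (v * I) +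
      b * (kk ψ 1 (v * I) * ((2 * c : ℝ) + v * I)⁻¹)) (ae_of_all _ fun v => by
        have := ne_of_re (w0 v)
        dsimp only
        field_simp), integral_add (sψ.int0 one_pos) ((sψ.int_res z2).const_mul _),
      integral_const_mul, sψ.int_one, sψ.res' z2, ψ2 0 (by
        rw [zero_sub, abs_neg, abs_of_pos (by linarith)]; linarith), ofReal_zero, mul_zero, zero_add,
      mul_left_comm, mul_div_cancel_left₀ _ (by simp [pc]), norm_mul, norm_real,
      Real.norm_of_nonneg (by linarith), mul_comm]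
    have := sψ.cont
    refine mul_le_mul_of_nonneg_right ((split (t := 3 * η) (M := 0) (N := 1) (by fun_prop)
      (by linarith) (by linarith) le_rfl (fun x _ hx => ?_) fun x hx _ => ?_).trans
        (le_of_eq (by ring))) (by linarith)
    · rw [ψ2 x (by rw [abs_sub_comm, abs_of_pos (by linarith)]; linarith)]; simp
    · rw [norm_mul, norm_real, Real.norm_of_nonneg (ψ0 x).1]
      exact mul_le_one₀ (ψ0 x).2 (norm_nonneg _) (nexp z2.le hx)
  have z3 : 0 < ((2 * c : ℝ) - h * I : ℂ).re := by simpa using c0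
  have z4 : 0 < ((2 * c + 2 * b : ℝ) : ℂ).re := by rw [ofReal_re]; linarith
  have n5 : 2 * b ≤ ‖(2 * b + h * I : ℂ)‖ := by simpa using re_le_norm (2 * b + h * I)
  have z5 : (2 * b + h * I : ℂ) ≠ 0 := norm_pos_iff.1 (by linarith)
  set A : ℂ := b * (b + h * I) / (2 * b + h * I) with hA
  have A1 : ‖A - (b / 2 : ℝ)‖ ≤ 2 := by
    rw [show A - (b / 2 : ℝ) = (b * h / 2 : ℝ) * I / (2 * b + h * I) by
      rw [hA, eq_div_iff z5, sub_mul, div_mul_cancel₀ _ z5]; push_cast; ring, norm_div, norm_mul, norm_I, norm_real,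
      Real.norm_of_nonneg (by positivity), div_le_iff₀ (by linarith)]
    nlinarith [Real.pi_le_four]
  have cφ := sφ.cont
  set I₁ := ∫ x in (0 : ℝ)..1, φ x * exp (-((2 * c : ℝ) - h * I) * x) with hI₁
  set I₂ := ∫ x in (0 : ℝ)..1, φ x * exp (-((2 * c + 2 * b : ℝ) : ℂ) * x) with hI₂
  have v1 : (∫ v : ℝ, kk φ 1 (v * I) * (((2 * c : ℝ) + v * I - h * I + b) /
      ((2 * c : ℝ) + v * I - h * I) * (((2 * c : ℝ) + v * I + b) / ((2 * c : ℝ) + v * I + b + b)))) /
      (2 * Real.pi) = 1 + A * (I₁ - I₂) := by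
    rw [integral_congr_ae (g := fun v : ℝ => kk φ 1 (v * I) +
      A * (kk φ 1 (v * I) * ((2 * c : ℝ) - h * I + v * I)⁻¹ -
        kk φ 1 (v * I) * ((2 * c + 2 * b : ℝ) + v * I)⁻¹)) (ae_of_all _ fun v => by
        have q1 : ((2 * c : ℝ) - h * I + v * I : ℂ) ≠ 0 := ne_of_re (by simpa using c0)
        have q2 : ((2 * c + 2 * b : ℝ) + v * I : ℂ) ≠ 0 := ne_of_re (by simp; linarith)
        dsimp only
        rw [hA, show ((2 * c : ℝ) + v * I - h * I : ℂ) = (2 * c : ℝ) - h * I + v * I by ring,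
          show ((2 * c : ℝ) + v * I + b + b : ℂ) = (2 * c + 2 * b : ℝ) + v * I by push_cast; ring]
        generalize hu : ((2 * c : ℝ) - h * I + v * I : ℂ) = u at *
        generalize hw : ((2 * c + 2 * b : ℝ) + v * I : ℂ) = w at *
        generalize ht : (2 * b + h * I : ℂ) = t at *
        field_simp
        subst hu hw ht
        push_cast; ring),
      integral_add (g := fun v : ℝ => A * (kk φ 1 (v * I) * ((2 * c : ℝ) - h * I + v * I)⁻¹ -
        kk φ 1 (v * I) * ((2 * c + 2 * b : ℝ) + v * I)⁻¹)) (sφ.int0 one_pos)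
        (((sφ.int_res z3).sub (sφ.int_res z4)).const_mul _),
      integral_const_mul, integral_sub (sφ.int_res z3) (sφ.int_res z4), sφ.int_one, sφ.res' z3,
      sφ.res' z4, φ1 0 (by rw [sub_zero, abs_zero]; linarith), ← hI₁, ← hI₂]
    push_cast; field_simp
  have nφ : ∀ {z : ℂ} {x : ℝ}, 0 ≤ z.re → 0 ≤ x → ‖φ x * exp (-z * x)‖ ≤ 1 := fun hz hx => by
    rw [norm_mul, norm_real]
    exact mul_le_one₀ (φa _) (norm_nonneg _) (nexp hz hx)
  have i1 : ‖I₁‖ ≤ 1 := (split (t := 0) (by fun_prop) le_rfl zero_le_one zero_le_one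
    (fun x hx _ => nφ z3.le hx) fun x hx _ => nφ z3.le hx).trans (by norm_num)
  have i2 : ‖I₂‖ ≤ 1 / (2 * b) := by
    refine (intervalIntegral.norm_integral_le_of_norm_le zero_le_one
      (g := fun x => Real.exp (-(2 * b) * x)) (ae_of_all _ fun x hx => ?_)
      (Continuous.intervalIntegrable (by fun_prop) _ _)).trans ?_
    · rw [norm_mul, norm_real, norm_exp, re_mul_ofReal, neg_re, ofReal_re]
      exact (mul_le_of_le_one_left (Real.exp_pos _).le (φa x)).trans
        (Real.exp_le_exp.2 (by nlinarith [hx.1]))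
    · have i := integrableOn_exp_mul_Ioi (a := -(2 * b)) (by linarith) 0
      rw [intervalIntegral.integral_of_le zero_le_one]
      refine (setIntegral_mono_set i (ae_of_all _ fun x => (Real.exp_pos _).le)
        Set.Ioc_subset_Ioi_self.eventuallyLE).trans (le_of_eq ?_)
      rw [integral_exp_mul_Ioi (by linarith), mul_zero, Real.exp_zero, neg_div_neg_eq]
  have hI : (I * h : ℂ) ≠ 0 := mul_ne_zero I_ne_zero (by exact_mod_cast h0.ne')
  have i3 : ‖I₁ - (exp (I * h) - 1) / (I * h)‖ ≤ 2 * c + 2 * (2 * η) := by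
    have a := integral_exp_mul_complex (a := 0) (b := 1) hI
    simp only [ofReal_one, mul_one, ofReal_zero, mul_zero, exp_zero] at a
    rw [← a, hI₁, ← intervalIntegral.integral_sub (Continuous.intervalIntegrable (by fun_prop) _ _)
      (Continuous.intervalIntegrable (by fun_prop) _ _)]
    refine split (by fun_prop) (by linarith) (by linarith) (by linarith) (fun x x0 x1 => ?_)
      fun x x0 _ => (norm_sub_le_of_le (nφ z3.le x0) (show _ ≤ 1 by
        rw [norm_exp]; simp)).trans (by norm_num)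
    rw [φ1 x (by rwa [sub_zero, abs_of_nonneg x0]), ofReal_one, one_mul,
      show exp (-((2 * c : ℝ) - h * I) * x) - exp (I * h * x) =
        exp (I * h * x) * (Real.exp (-(2 * c * x)) - 1 : ℝ) by
          push_cast; rw [mul_sub, ← exp_add]; ring_nf, norm_mul, norm_exp, norm_real,
      Real.norm_eq_abs, abs_sub_comm, abs_of_nonneg (sub_nonneg.2 (Real.exp_le_one_iff.2
        (neg_nonpos.2 (by positivity))))]
    simp
    nlinarith [Real.add_one_le_exp (-(2 * c * x))]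
  have ne : ‖exp (I * h / 2)‖ = 1 := by rw [norm_exp]; simp
  have i4 : (exp (I * h / 2) * ((exp (I * h) - 1) / (I * h))).im = -s := by
    rw [show exp (I * h / 2) * ((exp (I * h) - 1) / (I * h)) =
      I * (exp ((h / 2 : ℝ) * I) - exp ((3 * h / 2 : ℝ) * I)) / h by
        rw [mul_div_assoc', mul_sub, ← exp_add, div_eq_div_iff hI (right_ne_zero_of_mul hI)]
        push_cast; ring_nf; rw [I_sq]; ring, div_ofReal_im, I_mul_im, sub_re,
      exp_ofReal_mul_I_re, exp_ofReal_mul_I_re, hs]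
    ring
  rw [v1] at t1
  filter_upwards [ep, sρ, eventually_gt_atTop 0, Metric.tendsto_nhds.1 t1 1 one_pos,
    Metric.tendsto_nhds.1 t2 (1 / K) (by positivity)] with L e e' L0 m1 m2 X hX
  have b0 : 0 ≤ b / L := by positivity
  have er := err_le φ0 (fun x y x0 xy q1 q2 => ψ1 x (abs_le.2 ⟨by
      linarith [not_le.1 fun q => q2 (φ1 x (by rwa [sub_zero, abs_of_nonneg x0]))], by
      linarith [not_le.1 fun q => q1 (φ2 y (by rw [sub_zero]; exact le_trans q (le_abs_self y)))]⟩))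
    b0 L0 (h / L) (1 + 2 * c / L) X
  obtain ⟨sa, ba⟩ := e (mm (-((h / L : ℝ) * I)) 0) h (mult_mm _ _) h0.le (fun p j hp => by
      rw [mm_pp _ _ hp, pw_zero hp.ne_zero, one_pow, mul_one, pw_apply _ hp.ne_zero, norm_sub_rev,
        neg_neg, mul_comm _ I, mul_assoc, ← ofReal_mul]
      refine Real.norm_exp_I_mul_ofReal_sub_one_le.trans (le_of_eq (Real.norm_of_nonneg ?_))
      have := Real.log_natCast_nonneg p; positivity)
    (has_mm (by simpa using re L0) (by simpa using re L0)).LSeriesSummable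
  have f1 := (sa.norm.sum_le_tsum (Finset.Icc 1 X) fun _ _ => norm_nonneg _).trans ba
  have f2 : ∑ n ∈ Finset.Icc 1 X, ‖LSeries.term (mm (b / L : ℝ) 0) (1 + 2 * c / L : ℝ) n *
      ψ (Real.log n / L)‖ ≤ 3 * η * b + 1 / K := by
    have r : ∀ n, LSeries.term (mm (b / L : ℝ) 0) (1 + 2 * c / L : ℝ) n * ψ (Real.log n / L) =
        (‖LSeries.term (mm (b / L : ℝ) 0) (1 + 2 * c / L : ℝ) n * ψ (Real.log n / L)‖ : ℝ) :=
      fun n => by
        rcases eq_or_ne n 0 with rfl | n0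
        · simp
        obtain ⟨r, ρ, -, e2, e3, -⟩ := rho b0 n
        rw [term_pw, pw_real _ n0, e2, ← ofReal_mul, ← ofReal_mul, norm_real, Real.norm_of_nonneg
          (mul_nonneg (mul_nonneg ((abs_nonneg _).trans e3) (ex_pos _ _).le) (ψ0 _).1)]
    have sm : Summable fun n => ‖LSeries.term (mm (b / L : ℝ) 0) (1 + 2 * c / L : ℝ) n *
        ψ (Real.log n / L)‖ := e'.1.norm.of_nonneg_of_le (fun _ => norm_nonneg _) fun n => by
      rw [norm_mul, norm_real, Real.norm_of_nonneg (ψ0 _).1]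
      exact mul_le_of_le_one_right (norm_nonneg _) (ψ0 _).2
    refine (sm.sum_le_tsum _ fun _ _ => norm_nonneg _).trans ?_
    rw [tsum_congr r, ← ofReal_tsum, dist_eq_norm] at m2
    refine (le_abs_self _).trans ?_
    rw [← Real.norm_eq_abs, ← norm_real]
    exact (norm_le_norm_sub_add _ _).trans (by linarith)
  rw [tsum_eq_sum (s := Finset.Icc 1 X) fun n hn => by
    rcases eq_or_ne n 0 with rfl | n0
    · simp
    · rw [hX n (by rw [Finset.mem_Icc] at hn; omega), ofReal_zero, mul_zero], dist_eq_norm] at m1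
  have er2 := er.trans (mul_le_mul f1 f2 (by positivity) (by positivity))
  generalize ∑ n ∈ Finset.Icc 1 X, (mm (-((h / L : ℝ) * I)) 0 * rf φ (b / L) L) n *
    rf φ (b / L) L n * ex (1 + 2 * c / L) n = D at *
  generalize ∑ n ∈ Finset.Icc 1 X, LSeries.term (ff (h / L) (b / L)) (1 + 2 * c / L : ℝ) n *
    φ (Real.log n / L) = D' at *
  set E := (exp (I * h) - 1) / (I * h)
  have nb : ‖((b / 2 : ℝ) : ℂ)‖ = b / 2 := by rw [norm_real, Real.norm_of_nonneg (by linarith)]
  have nA : ‖A‖ ≤ 2 + b / 2 := by linarith [norm_le_norm_sub_add A (b / 2 : ℝ)]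
  have tot := norm_add_le_of_le (norm_add_le_of_le er2 m1.le) (norm_sub_le_of_le
    (norm_add_le_of_le (norm_add_le_of_le (norm_one (α := ℂ)).le (norm_mul_le_of_le nb.le i3))
      (norm_mul_le_of_le A1 i1)) (norm_mul_le_of_le nA i2))
  rw [show D - D' + (D' - (1 + A * (I₁ - I₂))) + (1 + (b / 2 : ℝ) * (I₁ - E) +
    (A - (b / 2 : ℝ)) * I₁ - A * I₂) = D - (b / 2 : ℝ) * E by ring] at tot
  have fin := abs_im_le_norm (exp (I * h / 2) * (D - (b / 2 : ℝ) * E))
  rw [norm_mul, ne, one_mul, mul_sub, sub_im, mul_left_comm, im_ofReal_mul, i4] at fin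
  have q : (2 + b / 2) * (1 / (2 * b)) ≤ 2 := by
    rw [mul_one_div, div_le_iff₀ (by linarith)]; linarith
  have q2 : η * b ≤ 1 := by nlinarith [mul_pos η0 (one_pos.trans_le b1)]
  have q3 : K * (3 * η * b + 1 / K) ≤ 4 := by
    rw [mul_add, mul_one_div_cancel (by positivity)]; linarith
  have q4 := mul_le_mul_of_nonneg_left s0 (show 0 ≤ b by linarith)
  rw [← hK] at tot
  linarith [(abs_le.1 fin).2]

end Pool.Agent.MP_f0209c_nt.Rg

/-! The main integral for shifts of both signs. -/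

namespace Pool.Agent.MP_f0209c_nt.Rg
open Complex Set Filter Topology ArithmeticFunction Ch Pp MeasureTheory ComplexConjugate

theorem MINT : MINT_s := by
  intro ρ hz c η k c0 η0
  obtain ⟨A, A0, hA⟩ := hz.rc c0 |k|
  filter_upwards [hA, eventually_ge_atTop 20, big_T 2 one_pos 6,
    big_T 5 (mul_pos two_pos η0) (32 * (A + 47)),
    Real.tendsto_log_atTop.eventually_ge_atTop (800 * (A + 47)),
    Real.tendsto_log_atTop.eventually_ge_atTop (2 * c),
    Real.tendsto_log_atTop.eventually_ge_atTop |k|]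
    with T hA T1 T2 T3 L1 L2 L3 r X s r0 r1 r2 hX s1 s2 s3
  set L := Real.log T with hL
  have eT : Real.exp L = T := Real.exp_log (by linarith)
  have L4 : 1 ≤ L := by linarith
  have L0 : 0 < L := by linarith
  rw [one_mul, eT] at T2
  set h := k / L with hh
  have h0 : |h| = |k| / L := by rw [hh, abs_div, abs_of_pos L0]
  have h1 := abs_le.1 (h0.trans_le ((div_le_one L0).2 L3))
  have a0 := div_pos c0 L0
  have a1 : c / L ≤ 1 / 2 := by rw [div_le_iff₀ L0]; linarith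
  set H := T / L ^ 2 with hH
  have H6 : 6 ≤ H := (le_div_iff₀ (by positivity)).2 T2
  have H1 : H ≤ Real.exp ((A + 1) * L) := (div_le_self (by linarith) (one_le_pow₀ L4)).trans
    (eT ▸ Real.exp_le_exp.2 (by nlinarith))
  have X1 : (X : ℝ) ≤ Real.exp L := hX.trans (Real.exp_le_exp.2 (by nlinarith))
  set Φ : ℂ → ℂ := fun z => riemannZeta z / riemannZeta (z + -(h * I)) * RP r X z with hΦ
  have hr : ∀ w : ℂ, 0 ≤ w.re → w.re ≤ 4 → |w.im| ≤ T / 20 →
      DifferentiableAt ℂ Φ (s + w) ∧ ‖Φ (s + w)‖ ≤ Real.exp ((A + 1) * L) := fun w w1 w2 w3 => by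
    have := abs_le.1 w3
    obtain ⟨b1, b2⟩ := hA (s + w + -(h * I)) (h * I) (by simp; linarith) (by simp; linarith)
      (by simp; linarith) (by simp; linarith) (by simp) (by simp [h0])
    rw [neg_add_cancel_right] at b2
    refine ⟨((differentiableAt_riemannZeta (ne_one (by simp; linarith))).div
      (DifferentiableAt.comp (g := riemannZeta) (f := fun z => z + -(h * I)) (s + w)
        (differentiableAt_riemannZeta (ne_one (by simp; linarith))) (by fun_prop)) b1).mul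
      (diff_RP r X _), ?_⟩
    rw [add_mul, one_mul, Real.exp_add]
    exact norm_mul_le_of_le b2 ((norm_RP r1 X (by simp; linarith)).trans X1)
  have pn := fun n (hn : n ∈ Finset.Icc 1 X) => per_n (Φ := Φ) (b := ⇑(mm (-(h * I)) 0 * r))
    (P := (A + 47) * L) (Y := L) H6 (by linarith : 0 ≤ T / 20) (by linarith) (by linarith)
    (fun m => (norm_conv m.cast_nonneg (fun d hd => (norm_mm (by simp) (by simp) d).trans
      (Nat.cast_le.2 hd)) r1).trans (sq _).ge) hr
    (fun y => by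
      have := (LSeriesHasSum_mul (has_mm (z := -(h * I)) (z' := 0) (s := s + 4 + y * I)
        (by simp; linarith) (by simp; linarith)) (has_RP r0 _)).LSeries_eq
      rw [this, add_zero])
    (Finset.mem_Icc.1 hn).1 (Finset.mem_Icc.1 hn).2
    ((Real.log_le_iff_le_exp (Nat.cast_pos.2 (Finset.mem_Icc.1 hn).1)).2
      ((Nat.cast_le.2 (Finset.mem_Icc.1 hn).2).trans X1)) (by positivity)
    (by
      rw [hH, show (T / 20) ^ 2 / (T / L ^ 2) ^ 2 = L * L * L ^ 2 / 400 by
        have : T ≠ 0 := by linarith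
        field_simp; norm_num]
      nlinarith [mul_le_mul L1 (one_le_pow₀ (n := 2) L4) zero_le_one L0.le])
    (by
      have b := pow_le_pow_left₀ X.cast_nonneg hX 2
      have e : Real.exp (2 * η * L) * Real.exp ((1 - η) * L) ^ 2 = T ^ 2 := by
        rw [← eT, ← Real.exp_nat_mul, ← Real.exp_nat_mul, ← Real.exp_add]; congr 1; push_cast; ring
      rw [hH, div_pow, le_div_iff₀ (by positivity), ← e]
      exact le_trans (le_of_eq (by ring)) (mul_le_mul T3 b (by positivity) (by positivity)))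
  have V0 : -(T / 20) ≤ T / 20 := by linarith
  have cz : ContinuousOn (fun y : ℝ => Φ (s + y * I)) (uIcc (-(T / 20)) (T / 20)) := fun y hy => by
    rw [uIcc_of_le V0] at hy
    exact (ContinuousAt.comp (f := fun y : ℝ => s + y * I) (hr (y * I) (by simp) (by simp)
      (by simpa using abs_le.2 hy)).1.continuousAt (by fun_prop)).continuousWithinAt
  rw [intervalIntegral.integral_congr (g := fun y : ℝ => ∑ n ∈ Finset.Icc 1 X,
      r n * ex (1 + 2 * c / L) n * (exp ((s + y * I) * Real.log n) * gw H y * Φ (s + y * I)))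
    fun y _ => by
      have e : conj (RP r X (s + y * I)) = ∑ n ∈ Finset.Icc 1 X,
          r n * ex (1 + 2 * c / L) n * exp ((s + y * I) * Real.log n) := by
        rw [RP, map_sum]
        refine Finset.sum_congr rfl fun n _ => ?_
        rw [map_mul, r2, ← exp_conj, ex, ofReal_exp, mul_assoc, ← exp_add, map_mul, conj_ofReal,
          ofReal_mul, ← add_mul]
        congr 3
        refine Complex.ext ?_ (by simp [-ofReal_div, add_comm])
        simp [-ofReal_div, s1]; ring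
      simp only [← mul_assoc, ← Finset.sum_mul, hΦ, ← e]
      push_cast
      rw [← mul_conj']; ring,
    intervalIntegral.integral_finsetSum (f := fun (n : ℕ) (y : ℝ) => r n * ex (1 + 2 * c / L) n *
      (exp ((s + y * I) * Real.log n) * gw H y * Φ (s + y * I)))
      fun n _ => ContinuousOn.intervalIntegrable
      (continuousOn_const.mul ((Continuous.continuousOn (by unfold gw; fun_prop)).mul cz)),
    Finset.mul_sum, ← Finset.sum_sub_distrib]
  refine (norm_sum_le_of_le _ (n := fun _ => Real.exp (-L)) fun n hn => ?_).trans ?_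
  · rw [intervalIntegral.integral_const_mul, mul_assoc _ (r n), mul_comm _ (r n * _), mul_left_comm,
      ← mul_sub]
    refine (norm_mul_le_of_le (norm_mul_le_of_le (r1 n) (show _ ≤ 1 by
      rw [norm_real, Real.norm_of_nonneg (ex_pos _ _).le]; exact ex_le_one (by positivity) n))
      (pn n hn)).trans ?_
    calc _ ≤ 1 * 1 * (20 * (Real.exp ((A + 1) * L) + Real.exp ((A + 1) * L)) *
          Real.exp (5 * L + 1 - (A + 47) * L)) := by gcongr
      _ = 40 * (Real.exp ((A + 1) * L) * Real.exp (5 * L + 1 - (A + 47) * L)) := by ring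
      _ ≤ Real.exp 39 * (Real.exp ((A + 1) * L) * Real.exp (5 * L + 1 - (A + 47) * L)) := by
        gcongr; linarith [Real.add_one_le_exp 39]
      _ ≤ _ := by rw [← Real.exp_add, ← Real.exp_add]; exact Real.exp_le_exp.2 (by linarith)
  · rw [Finset.sum_const, Nat.card_Icc, Nat.add_sub_cancel, nsmul_eq_mul, Real.exp_neg,
      ← div_eq_mul_inv, div_le_one (Real.exp_pos _)]
    exact X1

end Pool.Agent.MP_f0209c_nt.Rg

/-! The mean of the positive parts of the two forms. -/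

namespace Pool.Agent.MP_f0209c_nt.Rg
open Complex Set Filter Topology ArithmeticFunction Ch Pp MeasureTheory ComplexConjugate

namespace NULLaux

lemma mv_ind {H M V : ℝ} {f g : ℝ → ℝ} (V0 : -V ≤ V) (hg : Continuous g)
    (hle : ∀ y, |y| ≤ V → f y ≤ g y) (hM : ∫ y in -V..V, g y * gw H y ≤ M) :
    Mv H (fun y => if |y| ≤ V then f y else 0) M := by
  have e : (fun t => (Icc (-V) V).indicator g t * gw H t) =
      (Icc (-V) V).indicator fun t => g t * gw H t := funext fun t =>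
    (indicator_mul_left (Icc (-V) V) g (gw H)).symm
  refine ⟨(Icc (-V) V).indicator g, ?_, fun t => ?_, ?_⟩
  · rw [e]
    exact (integrable_indicator_iff measurableSet_Icc).2 (hg.mul (cont_gw H)).integrableOn_Icc
  · dsimp only
    split_ifs with c
    · rw [indicator_of_mem (show t ∈ Icc (-V) V from abs_le.1 c)]; exact hle t c
    · rw [indicator_of_notMem (show t ∉ Icc (-V) V from fun q => c (abs_le.2 q))]
  · rwa [e, integral_indicator measurableSet_Icc, integral_Icc_eq_integral_Ioc,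
      ← intervalIntegral.integral_of_le V0]

lemma imint {V a : ℝ} {u D : ℂ} {F : ℝ → ℂ} (hu : ‖u‖ ≤ 1) (hF : Continuous F)
    (h : ‖(∫ y in -V..V, F y) - a * D‖ ≤ 1) :
    |(∫ y in -V..V, (u * F y).im) - a * (u * D).im| ≤ 1 := by
  have m := abs_im_le_norm (u * _) |>.trans ((norm_mul_le_of_le hu h).trans (one_mul _).le)
  rwa [mul_sub, sub_im, mul_left_comm, im_ofReal_mul, ← intervalIntegral.integral_const_mul,
    ← imCLM_apply, ← imCLM.intervalIntegral_comp_comm (f := fun y : ℝ => u * F y)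
      (Continuous.intervalIntegrable (by fun_prop) _ _)] at m

lemma one {H V C D e : ℝ} {q g r B : ℝ → ℝ} (V0 : -V ≤ V) (H1 : 1 ≤ H) (C0 : 0 < C) (D0 : 0 < D)
    (cq : Continuous q) (cg : Continuous g) (cr : Continuous r) (cB : Continuous B)
    (B0 : ∀ y, 0 ≤ B y) (e1 : (C + D) * e ^ 2 ≤ 1 / 4)
    (h : ∀ y, |y| ≤ V → -q y ≤ r y ^ 2 * (2 * g y * (min 1 (B y) + e)))
    (i1 : ∫ y in -V..V, g y ^ 4 * gw H y ≤ C * H) (i2 : ∫ y in -V..V, r y ^ 8 * gw H y ≤ D * H)
    (i3 : ∫ y in -V..V, q y * gw H y ≤ 37 * H) :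
    Mv H (fun y => if |y| ≤ V then max 0 (q y) else 0)
      (40 * H + 2 * (C + D) * ∫ y in -V..V, B y * gw H y) := by
  have Q0 : 0 < C + D := by positivity
  refine mv_ind V0 (g := fun y => q y + ((g y ^ 4 + r y ^ 8) / (2 * (C + D)) + 2 * (C + D) * B y +
    2 * (C + D) * e ^ 2)) (by fun_prop) (fun y hy => ?_) ?_
  · have a := (h y hy).trans (young Q0 (le_min zero_le_one (B0 y)) (min_le_left _ _)
      (min_le_right _ _))
    have := B0 y
    exact max_le (by linarith) (le_add_of_nonneg_right (by positivity))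
  have i := fun {f : ℝ → ℝ} (hf : Continuous f) => hf.intervalIntegrable (μ := volume) (-V) V
  rw [intervalIntegral.integral_congr (g := fun y => q y * gw H y + ((g y ^ 4 * gw H y +
      r y ^ 8 * gw H y) / (2 * (C + D)) + 2 * (C + D) * (B y * gw H y) +
      2 * (C + D) * e ^ 2 * gw H y)) fun y _ => by ring,
    intervalIntegral.integral_add (i (by fun_prop)) (i (by fun_prop)),
    intervalIntegral.integral_add (i (by fun_prop)) (i (by fun_prop)),
    intervalIntegral.integral_add (i (by fun_prop)) (i (by fun_prop)),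
    intervalIntegral.integral_div, intervalIntegral.integral_add (i (by fun_prop))
      (i (by fun_prop)), intervalIntegral.integral_const_mul, intervalIntegral.integral_const_mul]
  have m5 := (div_le_div_of_nonneg_right (add_le_add i1 i2) (by positivity : 0 ≤ 2 * (C + D))).trans
    (le_of_eq (show _ = H / 2 by field_simp))
  have m6 := mul_le_mul (show 2 * (C + D) * e ^ 2 ≤ 1 / 2 by linarith)
    (int_gw (by linarith : 0 < H) V0)
    (intervalIntegral.integral_nonneg V0 fun y _ => (gw_pos _ _).le) (by norm_num)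
  linarith

lemma conj_mul {f g f' g' : ArithmeticFunction ℂ} (hf : ∀ n, conj (f n) = f' n)
    (hg : ∀ n, conj (g n) = g' n) (n : ℕ) : conj ((f * g) n) = (f' * g') n := by
  rw [mul_apply, mul_apply, map_sum]
  exact Finset.sum_congr rfl fun x _ => by rw [map_mul, hf, hg]

lemma conj_pw (z : ℂ) (n : ℕ) : conj (pw z n) = pw (conj z) n := by
  rcases eq_or_ne n 0 with rfl | hn
  · simp
  rw [pw_apply _ hn, pw_apply _ hn, ← exp_conj, map_mul, map_neg, conj_ofReal]

lemma conj_mm (z z' : ℂ) (n : ℕ) : conj (mm z z' n) = mm (conj z) (conj z') n :=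
  conj_mul (fun n => by
    rw [mp, mp, pmul_apply, pmul_apply, map_mul, conj_pw, intCoe_apply, map_intCast])
    (conj_pw z') n

lemma inv_form {k x : ℝ} {a b : ℂ} (h : -(2 * ‖a / b‖ * x) ≤ (exp (I * k / 2) * (a / b)).im) :
    (exp (-(I * k / 2)) * (b / a)).im ≤ 2 * ‖b / a‖ * x := by
  have n : ‖exp (I * k / 2) * (a / b)‖ = ‖a / b‖ := by
    rw [norm_mul, show ‖exp (I * k / 2)‖ = 1 by rw [norm_exp]; simp, one_mul]
  rw [exp_neg, ← inv_div a b, ← mul_inv, inv_im, normSq_eq_norm_sq, n, norm_inv]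
  rcases (norm_nonneg (a / b)).eq_or_lt with q | q
  · rw [← q]; simp
  rw [div_le_iff₀ (by positivity)]
  refine (neg_le.1 h).trans (le_of_eq ?_)
  field_simp

end NULLaux

open NULLaux in
theorem NULL (hMINT : MINT_s) : NULL_s := by
  intro ρ hz b c k δ φ b0 c0 k0 δ0 ⟨sφ, φ1, _, φ2⟩ hD
  obtain ⟨C₁, C1, h1⟩ := hz.momr c0 k0.le 4
  obtain ⟨C₂, C2, h2⟩ := hz.mom8 c0 b0 sφ
  set W := 4 * (10 ^ 10 * k * c) + 48 * k with hW
  refine ⟨4 * (C₁ + C₂), by positivity, ?_⟩
  have lt := Real.tendsto_log_atTop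
  filter_upwards [lt.eventually hD, h1, h2, hMINT ρ hz c δ k c0 δ0, hMINT ρ hz c δ (-k) c0 δ0,
    hz.loc, eventually_ge_atTop 20, big_T 2 one_pos 2, lt.eventually_ge_atTop (2 * W),
    lt.eventually_ge_atTop (2 * (C₁ + C₂) * W), lt.eventually_gt_atTop (2 * c),
    lt.eventually_ge_atTop k] with T hD h1 h2 hM hM' hL T1 T2 L1 L2 L3 L4 S hS τ t1 t2
  rw [one_mul, Real.exp_log (by linarith)] at T2
  unfold qp qm fz Rz HH
  have s1 : ∀ y : ℝ, sc T (τ + y) c = 1 / 2 + (c / Real.log T : ℝ) + τ * I + y * I := fun y => by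
    unfold sc; push_cast; ring
  have s2 : ∀ y : ℝ, sc T (τ + y) (c + k * I) =
      1 / 2 + (c / Real.log T : ℝ) + τ * I + y * I + (k / Real.log T : ℝ) * I := fun y => by
    unfold sc; push_cast; ring
  simp only [s1, s2]
  unfold Gaps at hS
  rw [neg_div] at hM'
  set L := Real.log T
  have L0 : 0 < L := by linarith
  set H := T / L ^ 2
  have H2 : 2 ≤ H := (le_div_iff₀ (by positivity)).2 T2
  set h := k / L with hh
  set α := c / L with hα
  have h0 : 0 < h := by positivity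
  have h1' : h ≤ 1 := (div_le_one L0).2 L4
  have a0 : 0 < α := by positivity
  have a1 : α < 1 / 2 := by rw [hα, div_lt_iff₀ L0]; linarith
  set e := 4 * (10 ^ 10 * L * h * α) + 48 * h with he
  have e0 : e = W / L := by rw [he, hW, hh, hα]; field_simp
  have e1 : e ≤ 1 / 2 := by rw [e0, div_le_iff₀ L0]; linarith
  have e2 : (C₁ + C₂) * e ≤ 1 / 2 := by rw [e0, ← mul_div_assoc, div_le_iff₀ L0]; linarith
  have e3 : 0 ≤ e := by positivity
  have e4 : (C₁ + C₂) * e ^ 2 ≤ 1 / 4 := by nlinarith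
  set X := ⌊Real.exp ((1 - δ) * L)⌋₊
  have hX : ∀ n : ℕ, X < n → φ (Real.log n / L) = 0 := fun n hn => φ2 _ (((le_div_iff₀ L0).2
    ((Real.le_log_iff_exp_le (Nat.cast_pos.2 (by omega))).2 ((Nat.floor_lt (Real.exp_pos _).le).1
      hn).le)).trans (le_abs_self _))
  have β0 : 0 ≤ b / L := by positivity
  have V0 : -(T / 20) ≤ T / 20 := by linarith
  set s : ℂ := 1 / 2 + α + τ * I with hs
  have sr : s.re = 1 / 2 + α := by simp [hs]
  have si : s.im = τ := by simp [hs]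
  have r0 : ∀ n, X < n → rf φ (b / L) L n = 0 := fun n hn => by
    rw [rf_apply, hX n hn, ofReal_zero, mul_zero]
  have r1 : ∀ n, ‖rf φ (b / L) L n‖ ≤ 1 := fun n => by
    rw [rf_apply, norm_mul, norm_real, Real.norm_of_nonneg (φ1 _).1]
    exact mul_le_one₀ (norm_r β0 n) (φ1 _).1 (φ1 _).2
  have r2 : ∀ n, conj (rf φ (b / L) L n) = rf φ (b / L) L n := fun n => by
    obtain ⟨r, -, q, -⟩ := rho β0 n
    rw [rf_apply, q, map_mul, conj_ofReal, conj_ofReal]
  have m := hM _ X (s + h * I) r0 r1 r2 (Nat.floor_le (Real.exp_pos _).le) (by simp [sr])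
    (by simp [si]; linarith) (by simp [si]; linarith)
  have m' := hM' _ X s r0 r1 r2 (Nat.floor_le (Real.exp_pos _).le) sr (by linarith) (by linarith)
  have m1 := h1 s (h * I) sr (by linarith) (by linarith) (by simp) (by simp [h0.le])
  have m1' := h1 (s + h * I) (-(h * I)) (by simp [sr]) (by simp [si]; linarith)
    (by simp [si]; linarith) (by simp) (by simp [h0.le])
  have m2 := h2 X (s + h * I) hX (by simp [sr]) (by simp [si]; linarith) (by simp [si]; linarith)
  have m2' := h2 X s hX sr (by linarith) (by linarith)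
  have d := hD X hX
  simp only [add_right_comm s (h * I), add_neg_cancel_right] at m m2 m1'
  simp only [ofReal_neg, neg_mul, neg_neg] at m'
  have cG : Continuous fun y : ℝ => riemannZeta (s + y * I + h * I) / riemannZeta (s + y * I) :=
    hz.cont (by fun_prop) (by fun_prop) (fun y => by simp; linarith)
      (fun y => by simp [-one_div]; linarith) fun y => by simp; linarith
  have cG' : Continuous fun y : ℝ => riemannZeta (s + y * I) / riemannZeta (s + y * I + h * I) :=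
    hz.cont (by fun_prop) (by fun_prop) (fun y => by simp; linarith)
      (fun y => by simp [-one_div]; linarith) fun y => by simp; linarith
  have cR : Continuous fun y : ℝ => ‖RP (rf φ (b / L) L) X (s + y * I + h * I)‖ := by
    have := (diff_RP (rf φ (b / L) L) X).continuous; fun_prop
  have cR' : Continuous fun y : ℝ => ‖RP (rf φ (b / L) L) X (s + y * I)‖ := by
    have := (diff_RP (rf φ (b / L) L) X).continuous; fun_prop
  have q : ∀ y : ℝ, |y| ≤ T / 20 →
      -(2 * ‖riemannZeta (s + y * I + h * I) / riemannZeta (s + y * I)‖ *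
        (min 1 (∑ j ∈ S, aa α h (τ + y - (ρ j).im)) + e)) ≤ (exp (I * k / 2) *
          (riemannZeta (s + y * I + h * I) / riemannZeta (s + y * I))).im := fun y hy => by
    have hy := abs_le.1 hy
    have q := hz.herg (hL (τ + y) (by linarith [hy.1]) (by linarith [hy.2])) (T := T)
      (by linarith) (by linarith [hy.1]) (by linarith [hy.2]) h0.le a0 (by linarith) e1 (S := S)
      fun j j1 j2 => hS j (by linarith [(abs_le.1 j1).1, hy.1])
        (by linarith [(abs_le.1 j1).2, hy.2]) j2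
    rwa [show (1 / 2 + α + (τ + y : ℝ) * I : ℂ) = s + y * I by rw [hs]; push_cast; ring,
      show (I * h * L / 2 : ℂ) = I * k / 2 by
        rw [mul_assoc, ← ofReal_mul, hh, div_mul_cancel₀ _ L0.ne']] at q
  have dc : ∑ n ∈ Finset.Icc 1 X, (mm (h * I) 0 * rf φ (b / L) L) n * rf φ (b / L) L n *
      ex (1 + 2 * c / L) n = conj (∑ n ∈ Finset.Icc 1 X, (mm (-(h * I)) 0 * rf φ (b / L) L) n *
      rf φ (b / L) L n * ex (1 + 2 * c / L) n) := by
    rw [map_sum]
    refine Finset.sum_congr rfl fun n _ => ?_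
    rw [map_mul, map_mul, conj_mul (conj_mm _ _) r2, r2, conj_ofReal, map_neg, map_mul, conj_ofReal,
      conj_I, _root_.map_zero, mul_neg, neg_neg]
  set G : ℝ → ℂ := fun y => riemannZeta (s + y * I + h * I) / riemannZeta (s + y * I) with hG
  set G' : ℝ → ℂ := fun y => riemannZeta (s + y * I) / riemannZeta (s + y * I + h * I) with hG'
  set R : ℝ → ℝ := fun y => ‖RP (rf φ (b / L) L) X (s + y * I + h * I)‖ with hR
  set R' : ℝ → ℝ := fun y => ‖RP (rf φ (b / L) L) X (s + y * I)‖ with hR'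
  have m3 := imint (u := exp (I * k / 2)) (F := fun y => (gw H y * R y ^ 2 : ℝ) * G y)
    (by rw [norm_exp]; simp) (by fun_prop) m
  have m3' := imint (u := exp (-(I * k / 2))) (F := fun y => (gw H y * R' y ^ 2 : ℝ) * G' y)
    (by rw [norm_exp]; simp) (by fun_prop) m'
  rw [dc, show exp (-(I * k / 2)) = conj (exp (I * k / 2)) by
    rw [← exp_conj, map_div₀, map_mul, conj_I, conj_ofReal, map_ofNat, neg_mul, neg_div],
    ← map_mul, conj_im] at m3'
  have sp : √Real.pi ≤ 9 / 5 := Real.sqrt_le_iff.2 ⟨by norm_num, by linarith [Real.pi_lt_d2]⟩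
  have m7 := (mul_le_mul_of_nonneg_left d (by positivity : 0 ≤ √Real.pi * H)).trans
    (show _ ≤ 36 * H by nlinarith)
  have cB : Continuous fun y => ∑ j ∈ S, aa α h (τ + y - (ρ j).im) := by fun_prop
  have B0 := fun y => Finset.sum_nonneg fun j (_ : j ∈ S) => aa_nonneg a0 h0.le (τ + y - (ρ j).im)
  have p := one (q := fun y => (exp (I * k / 2) * G y).im * R y ^ 2) (g := fun y => ‖G y‖) V0
    (by linarith) C1 C2 (by fun_prop) cG.norm cR cB B0 e4
    (fun y hy => by
      rw [← neg_mul, mul_comm]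
      exact mul_le_mul_of_nonneg_left (neg_le.1 (q y hy)) (sq_nonneg _)) m1 m2
    (by
      rw [intervalIntegral.integral_congr (g := fun y => (exp (I * k / 2) *
        ((gw H y * R y ^ 2 : ℝ) * G y)).im) fun y _ => by
          dsimp only; rw [mul_left_comm, im_ofReal_mul]; ring]
      linarith [(abs_le.1 m3).2])
  have p' := one (q := fun y => -(exp (-(I * k / 2)) * G' y).im * R' y ^ 2) (g := fun y => ‖G' y‖)
    V0 (by linarith) C1 C2 (by fun_prop) cG'.norm cR' cB B0 e4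
    (fun y hy => by
      rw [neg_mul, neg_neg, mul_comm]
      exact mul_le_mul_of_nonneg_left (inv_form (q y hy)) (sq_nonneg _)) m1' m2'
    (by
      rw [intervalIntegral.integral_congr (g := fun y => -(conj (exp (I * k / 2)) *
        ((gw H y * R' y ^ 2 : ℝ) * G' y)).im) fun y _ => by
          dsimp only
          rw [mul_left_comm, im_ofReal_mul, ← exp_conj, map_div₀, map_mul, conj_I, conj_ofReal,
            map_ofNat, neg_mul I, neg_div]
          ring, intervalIntegral.integral_neg]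
      linarith [(abs_le.1 m3').1])
  refine (p.add p').mono (fun y => ?_) (le_of_eq (by ring))
  split_ifs
  · exact le_rfl
  · exact (add_zero _).ge

end Pool.Agent.MP_f0209c_nt.Rg

/-! Counting through the windows. -/

namespace Pool.Agent.MP_f0209c_nt.Rg
open Complex Set Filter Topology ArithmeticFunction Ch Pp MeasureTheory

lemma CNT_gw {H y : ℝ} (H0 : 0 < H) (a : 0 ≤ y) (b : y ≤ 2 * H) : 1 / 60 ≤ gw H y := by
  have e : Real.exp 4 ≤ 60 := by
    have h : Real.exp 4 = Real.exp 1 ^ 4 := by rw [← Real.exp_nat_mul]; norm_num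
    have := pow_le_pow_left₀ (Real.exp_pos 1).le Real.exp_one_lt_d9.le 4
    rw [h]; exact this.trans (by norm_num)
  have q : y ^ 2 / H ^ 2 ≤ 4 := by
    rw [div_le_iff₀ (by positivity)]; nlinarith
  unfold gw
  rw [Real.exp_neg, one_div]
  exact inv_anti₀ (Real.exp_pos _) ((Real.exp_le_exp.2 q).trans e)

lemma CNT_one {H M w s : ℝ} {φ : ℝ → ℝ} {K : Finset ℕ} {a : ℕ → ℝ} (H0 : 0 < H) (w0 : 0 < w)
    (h : Mv H φ M) (p : ∀ y, 0 ≤ φ y)
    (gap : ∀ i ∈ K, ∀ j ∈ K, i < j → w ≤ a j - a i) (r : ∀ j ∈ K, 0 ≤ a j ∧ a j + w ≤ 2 * H)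
    (b : ∀ j ∈ K, ∀ y, a j ≤ y → y ≤ a j + w → s ≤ φ y) : K.card * s * w ≤ 60 * M := by
  obtain ⟨ψ, i1, i2, i3⟩ := h
  have d : Set.Pairwise (K : Set ℕ) (Function.onFun Disjoint fun j => Ico (a j) (a j + w)) := by
    intro i hi j hj ne
    rw [Function.onFun, Set.disjoint_left]
    intro y ⟨u1, u2⟩ ⟨v1, v2⟩
    rcases lt_or_gt_of_ne ne with q | q
    · linarith [gap i hi j hj q]
    · linarith [gap j hj i hi q]
  have e := integral_biUnion_finset (μ := volume) (f := fun t => ψ t * gw H t) K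
    (fun j _ => measurableSet_Ico) d (fun j _ => i1.integrableOn)
  have l : ∫ t in ⋃ j ∈ K, Ico (a j) (a j + w), ψ t * gw H t ≤ ∫ t, ψ t * gw H t :=
    setIntegral_le_integral i1 (Eventually.of_forall fun t =>
      mul_nonneg ((p t).trans (i2 t)) (gw_pos _ _).le)
  have m : ∀ j ∈ K, s * w / 60 ≤ ∫ t in Ico (a j) (a j + w), ψ t * gw H t := fun j hj => by
    have c : ∫ _ in Ico (a j) (a j + w), s / 60 = s * w / 60 := by
      rw [setIntegral_const, Real.volume_real_Ico_of_le (by linarith), smul_eq_mul]; ring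
    rw [← c]
    refine setIntegral_mono_on (integrableOn_const (by simp)) i1.integrableOn measurableSet_Ico
      fun y hy => ?_
    have g := CNT_gw H0 ((r j hj).1.trans hy.1) (hy.2.le.trans (r j hj).2)
    have := mul_le_mul ((b j hj y hy.1 hy.2.le).trans (i2 y)) g (by norm_num)
      ((p y).trans (i2 y))
    linarith
  have := Finset.card_nsmul_le_sum K _ _ m
  rw [nsmul_eq_mul] at this
  linarith

theorem CNT : CNT_s := by
  filter_upwards [eventually_gt_atTop 0, Real.tendsto_log_atTop.eventually_ge_atTop 7] with T T0 L7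
  have L2 : 49 ≤ Real.log T ^ 2 := by nlinarith
  have TL : Real.log T ^ 2 ≤ T := by
    have := Real.pow_div_factorial_le_exp (Real.log T) (by linarith) 3
    rw [Real.exp_log T0] at this
    norm_num [Nat.factorial] at this
    nlinarith
  have HL : HH T * Real.log T ^ 2 = T := div_mul_cancel₀ _ (by linarith)
  have H1 : 1 ≤ HH T := by unfold HH; rw [le_div_iff₀ (by linarith)]; linarith
  have H0 : 0 < HH T := by linarith
  have fl : (⌊2 / 5 * Real.log T ^ 2⌋₊ : ℝ) ≤ 2 / 5 * Real.log T ^ 2 := Nat.floor_le (by linarith)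
  refine ⟨?_, fun J g w s F M w0 w1 _ gap r p mv b => ?_⟩
  · unfold NG; push_cast; nlinarith
  have mem : ∀ j ∈ J, ⌊(g j - 135 / 100 * T) / HH T⌋₊ ∈ Finset.range (NG T) := fun j hj => by
    rw [Finset.mem_range]
    refine Nat.lt_succ_of_le (Nat.floor_mono ?_)
    rw [div_le_iff₀ H0]
    nlinarith [(r j hj).2]
  rw [Finset.card_eq_sum_card_fiberwise mem, Nat.cast_sum, Finset.sum_mul, Finset.sum_mul,
    Finset.mul_sum]
  refine Finset.sum_le_sum fun i hi => ?_
  have i1 : (i : ℝ) ≤ 2 / 5 * Real.log T ^ 2 :=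
    (Nat.cast_le.2 (Nat.le_of_lt_succ (Finset.mem_range.1 hi))).trans fl
  have i0 : (0 : ℝ) ≤ i * HH T := by positivity
  have rr : ∀ j ∈ J.filter fun j => ⌊(g j - 135 / 100 * T) / HH T⌋₊ = i,
      0 ≤ g j - gr T i ∧ g j - gr T i + w ≤ 2 * HH T := fun j hj => by
    obtain ⟨hj, e⟩ := Finset.mem_filter.1 hj
    rw [Nat.floor_eq_iff (div_nonneg (by linarith [(r j hj).1]) H0.le), le_div_iff₀ H0,
      div_lt_iff₀ H0] at e
    unfold gr
    constructor <;> linarith [e.1, e.2]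
  refine CNT_one (a := fun j => g j - gr T i) H0 w0
    (mv (gr T i) (by unfold gr; linarith) (by unfold gr; nlinarith)) (p _)
    (fun x hx y hy q => by
      linarith [gap x (Finset.mem_filter.1 hx).1 y (Finset.mem_filter.1 hy).1 q]) rr
    fun j hj y y1 y2 => ?_
  have := b j (Finset.mem_filter.1 hj).1 (gr T i) (y + gr T i) (by linarith) (by linarith) (by
    rw [add_sub_cancel_right, abs_of_nonneg ((rr j hj).1.trans y1)]
    nlinarith [(rr j hj).2])
  rwa [add_sub_cancel_right] at this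

end Pool.Agent.MP_f0209c_nt.Rg

namespace Pool.Agent.MP_f0209c_nt.Rg
open Complex Set Filter Topology ArithmeticFunction Ch Pp

namespace GBaux

lemma gw_le (H t : ℝ) : gw H t ≤ 1 / (1 + (t / H) ^ 2) := by
  have h := Real.add_one_le_exp ((t / H) ^ 2)
  rw [gw, ← div_pow, Real.exp_neg, ← one_div]
  exact one_div_le_one_div_of_le (by positivity) (by linarith)

lemma sum_gw (hS : SUMZ_s) {H : ℝ} (H0 : 0 < H) (a x : ℝ) (N : ℕ) :
    ∑ i ∈ Finset.range N, gw H (x - (a + i * H)) ≤ 8 := by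
  have h := hS 1 ((x - a) / H) ((Finset.range N).image fun i : ℕ => (i : ℤ)) le_rfl
  rw [Finset.sum_image fun i _ j _ e => by exact_mod_cast e, mul_one] at h
  refine (Finset.sum_le_sum fun i _ => (gw_le _ _).trans (le_of_eq ?_)).trans h
  have e : (x - (a + i * H)) / H = ((x - a) / H - ((i : ℤ) : ℝ)) / 1 := by
    push_cast; field_simp; ring
  rw [e]

end GBaux

theorem GB (hS : SUMZ_s) : GB_s := by
  filter_upwards [eventually_gt_atTop 1] with T T1 S g α h a0 h0
  have L0 : 0 < Real.log T := Real.log_pos T1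
  have H0 : 0 < HH T := by unfold HH; positivity
  set B : ℝ → ℝ := fun x => ∑ j ∈ S, aa α h (x - g j) with hB
  have cB : Continuous B := by rw [hB]; fun_prop
  have B0 : ∀ x, 0 ≤ B x := fun x => Finset.sum_nonneg fun j _ => aa_nonneg a0 h0 _
  have mo : ∀ i j : ℕ, i ≤ j → gr T i ≤ gr T j := fun i j e => by
    have : (i : ℝ) ≤ j := by exact_mod_cast e
    unfold gr; nlinarith
  have lh : gr T 0 - T / 20 ≤ gr T (NG T) + T / 20 := by linarith [mo 0 (NG T) (Nat.zero_le _)]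
  have c1 : ∀ i : ℕ, Continuous fun x => B x * gw (HH T) (x - gr T i) := fun i => by fun_prop
  have s1 : ∀ i ∈ Finset.range (NG T), ∫ y in -(T / 20)..(T / 20), B (gr T i + y) * gw (HH T) y ≤
      ∫ x in (gr T 0 - T / 20)..(gr T (NG T) + T / 20), B x * gw (HH T) (x - gr T i) := by
    intro i hi
    have e := intervalIntegral.integral_comp_add_left (a := -(T / 20)) (b := T / 20)
      (fun x => B x * gw (HH T) (x - gr T i)) (gr T i)
    simp only [add_sub_cancel_left] at e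
    rw [e]
    refine intervalIntegral.integral_mono_interval ?_ (by linarith) ?_
      (Eventually.of_forall fun x => mul_nonneg (B0 x) (gw_pos _ _).le)
      ((c1 i).intervalIntegrable _ _)
    · linarith [mo 0 i (Nat.zero_le _)]
    · linarith [mo i (NG T) (Finset.mem_range.1 hi).le]
  refine (Finset.sum_le_sum s1).trans ?_
  rw [← intervalIntegral.integral_finsetSum fun i _ => (c1 i).intervalIntegrable _ _]
  have s2 := intervalIntegral.integral_mono_on (μ := MeasureTheory.volume) lh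
    ((continuous_finsetSum (Finset.range (NG T)) fun i _ => c1 i).intervalIntegrable _ _)
    ((cB.mul (continuous_const (y := (8 : ℝ)))).intervalIntegrable _ _) fun x _ => by
      rw [← Finset.mul_sum]
      exact mul_le_mul_of_nonneg_left (GBaux.sum_gw hS H0 _ x _) (B0 x)
  refine s2.trans ?_
  have s3 : ∫ x in (gr T 0 - T / 20)..(gr T (NG T) + T / 20), B x ≤ S.card * (Real.pi * h) := by
    rw [hB, intervalIntegral.integral_finsetSum fun j _ =>
      Continuous.intervalIntegrable (by fun_prop) _ _, ← nsmul_eq_mul]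
    exact Finset.sum_le_card_nsmul _ _ _ fun j _ => int_aa h0 _ _ _
  simp only [Pi.mul_apply]
  rw [intervalIntegral.integral_mul_const]
  linarith

end Pool.Agent.MP_f0209c_nt.Rg

/-! The exceptional set of indices. -/

namespace Pool.Agent.MP_f0209c_nt.Rg
open Complex Set Filter Topology ArithmeticFunction Ch Pp

namespace EXCaux

lemma qp_shift (φ : ℝ → ℝ) (b δ T u k c t : ℝ) :
    qp (fz T u) (Rz φ b δ T u) k (c + t * I) =
      qp (fz T (u + t / Real.log T)) (Rz φ b δ T (u + t / Real.log T)) k c := by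
  unfold qp
  rw [show (c : ℂ) + t * I + k * I = c + k * I + t * I by ring, fz_shift, fz_shift T u t,
    Rz_shift φ b δ T u t]

lemma qm_shift (φ : ℝ → ℝ) (b δ T u k c t : ℝ) :
    qm (fz T u) (Rz φ b δ T u) k (c + t * I) =
      qm (fz T (u + t / Real.log T)) (Rz φ b δ T (u + t / Real.log T)) k c := by
  unfold qm
  rw [show (c : ℂ) + t * I + k * I = c + k * I + t * I by ring, fz_shift T u t, fz_shift T u t,
    Rz_shift φ b δ T u t]

lemma fin {ρ : ℕ → ℂ} (h : Zs ρ) (T : ℝ) : ∃ A : Finset ℕ, ∀ j, (ρ j).im ≤ T → j ∈ A := by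
  refine ⟨(h.fin (isCompact_closedBall 0 (T + 1))).toFinset, fun j hj => ?_⟩
  rw [Finite.mem_toFinset, mem_ofPred_eq, mem_closedBall_zero_iff]
  have a := norm_le_abs_re_add_abs_im (ρ j)
  rw [h.line (h.pos j) (h.zero j), abs_of_pos (h.pos j), abs_of_pos (by norm_num)] at a
  linarith

variable {γ : ℕ → ℝ} {A S : Finset ℕ} {T L k c Γ W : ℝ}

/-- the zeros near which `q` is large -/
lemma cnt (T1 : 500 ≤ T) (L2 : 2 ≤ L) (c0 : 0 < c) (c1 : c ≤ 1) (k3 : 3 ≤ k) (Γ0 : 0 < Γ)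
    (hA : ∀ j, γ j ≤ 2 * T → j ∈ A)
    (sep : ∀ i j, i ∉ S → T ≤ γ i → γ j ≤ 2 * T → i < j → k / L ≤ γ j - γ i) {q : ℝ → ℝ}
    (hq : ∀ (J : Finset ℕ) (g : ℕ → ℝ) (w s : ℝ), 0 < w → w ≤ 1 → 0 ≤ s →
      (∀ i ∈ J, ∀ j ∈ J, i < j → w ≤ g j - g i) →
      (∀ j ∈ J, 136 / 100 * T ≤ g j ∧ g j ≤ 174 / 100 * T) →
      (∀ j ∈ J, ∀ u, g j ≤ u → u ≤ g j + w → s ≤ q u) → J.card * s * w ≤ 4860 * T)
    {σ : ℝ} (σ0 : 0 ≤ σ) (σ4 : σ ≤ 4) :
    ∃ B : Finset ℕ, (B.card : ℝ) ≤ 2430 * (T * L / Γ) ∧ ∀ i ∉ B, i ∉ S →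
      137 / 100 * T ≤ γ i → γ i ≤ 173 / 100 * T → ∃ v, |v - (γ i - σ / L)| ≤ c / L ∧ c * q v ≤ Γ := by
  classical
  have L0 : 0 < L := by linarith
  refine ⟨A.filter fun i => i ∉ S ∧ 137 / 100 * T ≤ γ i ∧ γ i ≤ 173 / 100 * T ∧
    ∀ v, |v - (γ i - σ / L)| ≤ c / L → Γ < c * q v, ?_, fun i hi a1 a2 a3 => ?_⟩
  · have c2 : c / L ≤ c / 2 := div_le_div_of_nonneg_left c0.le two_pos L2
    have σ2 : σ / L ≤ σ / 2 := div_le_div_of_nonneg_left σ0 two_pos L2
    have c3 : 0 < c / L := by positivity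
    have σ3 : 0 ≤ σ / L := by positivity
    have kc : 2 * c / L ≤ k / L := div_le_div_of_nonneg_right (by linarith) L0.le
    rw [mul_div_assoc] at kc
    refine (le_div_iff₀ (show 0 < Γ / c * (2 * (c / L)) by positivity)).2
      ((mul_assoc _ _ _).symm.trans_le (hq _ (fun i => γ i - σ / L - c / L) _ _
        (by positivity) (by linarith) (by positivity) (fun i hi j hj hij => ?_) (fun j hj => ?_)
        fun j hj u u1 u2 => ?_)) |>.trans_eq (by field_simp; ring)
    · obtain ⟨-, a, a1, -⟩ := Finset.mem_filter.1 hi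
      obtain ⟨-, -, -, a2, -⟩ := Finset.mem_filter.1 hj
      linarith [sep i j a (by linarith) (by linarith) hij]
    · obtain ⟨-, -, a1, a2, -⟩ := Finset.mem_filter.1 hj
      constructor <;> linarith
    · obtain ⟨-, -, -, -, a⟩ := Finset.mem_filter.1 hj
      exact (div_le_iff₀' c0).2 (a u (abs_le.2 ⟨by linarith, by linarith⟩)).le
  · by_contra n
    push Not at n
    exact hi (Finset.mem_filter.2 ⟨hA i (by linarith), a1, a2, a3, n⟩)

/-- the indices close to a bad index -/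
lemma nbr (hP : PACK_s) (TW : 500 * W ≤ T) (L2 : 2 ≤ L) (k3 : 3 ≤ k) (W1 : 1 ≤ W)
    (hA : ∀ j, γ j ≤ 2 * T → j ∈ A)
    (sep : ∀ i j, i ∉ S → T ≤ γ i → γ j ≤ 2 * T → i < j → k / L ≤ γ j - γ i) (B : Finset ℕ) :
    ∃ Z : Finset ℕ, (Z.card : ℝ) ≤ S.card + B.card * (3 * W) ∧ ∀ j ∉ Z, 14 / 10 * T ≤ γ j →
      γ j ≤ 17 / 10 * T → ∀ u, γ j ≤ u → u ≤ γ j + 1 / L → ∀ i, |L * (γ i - u)| ≤ W →
      i ∉ B ∧ 137 / 100 * T ≤ γ i ∧ γ i ≤ 173 / 100 * T := by
  classical
  have L0 : 0 < L := by linarith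
  have k0 : 0 < k := by linarith
  obtain ⟨N, hN⟩ : ∃ N : ℕ → Finset ℕ, ∀ i j, j ∈ N i ↔ j ∈ A ∧ j ∉ S ∧ 14 / 10 * T ≤ γ j ∧
    γ j ≤ 17 / 10 * T ∧ |γ j - γ i| ≤ (W + 1) / L := ⟨fun i => A.filter _, fun i j => Finset.mem_filter⟩
  have cN : ∀ i, ((N i).card : ℝ) ≤ 3 * W := fun i => by
    have e := hP (N i) γ (γ i - (W + 1) / L) (2 * ((W + 1) / L)) (k / L)
      (by positivity) (by positivity) (fun j hj j' hj' hjj => by
        obtain ⟨-, a, a1, -⟩ := (hN _ _).1 hj
        obtain ⟨-, -, -, a2, -⟩ := (hN _ _).1 hj'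
        exact sep j j' a (by linarith) (by linarith) hjj)
      (fun j hj => by
        obtain ⟨-, -, -, -, a⟩ := (hN _ _).1 hj
        have := abs_le.1 a
        constructor <;> linarith)
    rw [show 2 * ((W + 1) / L) / (k / L) = 2 * (W + 1) / k by field_simp] at e
    have : 2 * (W + 1) / k ≤ 2 * (W + 1) / 3 :=
      div_le_div_of_nonneg_left (by linarith) (by norm_num) k3
    linarith
  refine ⟨S ∪ B.biUnion N, ?_, fun j hj j1 j2 u u1 u2 i hi => ?_⟩
  · have a : ((S ∪ B.biUnion N).card : ℝ) ≤ S.card + ∑ i ∈ B, ((N i).card : ℝ) := by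
      exact_mod_cast (Finset.card_union_le _ _).trans
        (Nat.add_le_add_left Finset.card_biUnion_le _)
    refine a.trans (add_le_add_right ((Finset.sum_le_sum fun i _ => cN i).trans_eq ?_) _)
    rw [Finset.sum_const, nsmul_eq_mul]
  · rw [abs_mul, abs_of_pos L0, ← le_div_iff₀' L0, abs_le] at hi
    have w2 : W / L ≤ W / 2 := div_le_div_of_nonneg_left (by linarith) two_pos L2
    have w3 : 1 / L ≤ 1 / 2 := div_le_div_of_nonneg_left zero_le_one two_pos L2
    have w4 : 0 < 1 / L := by positivity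
    rw [Finset.mem_union, not_or] at hj
    refine ⟨fun q => hj.2 (Finset.mem_biUnion.2 ⟨i, q, (hN _ _).2 ⟨hA j (by linarith), hj.1, j1,
      j2, ?_⟩⟩), by linarith, by linarith⟩
    rw [add_div]
    exact abs_le.2 ⟨by linarith, by linarith⟩

lemma ab (L0 : 0 < L) {v u g σ : ℝ} (a : |v - (g - σ / L)| ≤ c / L) :
    |L * (v - u) - (L * (g - u) - σ)| ≤ c := by
  rwa [show L * (v - u) - (L * (g - u) - σ) = L * (v - (g - σ / L)) by field_simp; ring, abs_mul,
    abs_of_pos L0, ← le_div_iff₀' L0]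

lemma tot {s b b2 b3 z : ℝ} (TL : 0 < T * L) (Γ0 : 0 < Γ) (W1 : 1 ≤ W) (h1 : s ≤ 1 / Γ * (T * L))
    (h2 : b2 ≤ 2430 * (T * L / Γ)) (h3 : b3 ≤ 2430 * (T * L / Γ)) (hb : b ≤ s + b2 + b3)
    (hz : z ≤ s + b * (3 * W)) : z ≤ 15000 * W / Γ * T * L := by
  have e4 : 0 < T * L / Γ := by positivity
  rw [show 1 / Γ * (T * L) = T * L / Γ by ring] at h1
  have e5 := mul_le_mul_of_nonneg_right (show b ≤ 4861 * (T * L / Γ) by linarith)
    (show 0 ≤ 3 * W by linarith)
  rw [show 15000 * W / Γ * T * L = 15000 * (W * (T * L / Γ)) by ring]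
  linarith [mul_le_mul_of_nonneg_right W1 e4.le, mul_pos e4 (one_pos.trans_le W1)]

end EXCaux
open EXCaux

theorem EXC (hN : NULL_s) (hC : CNT_s) (hG : GB_s) (hP : PACK_s) : EXC_s := by
  classical
  refine ⟨15000, by norm_num, fun ρ hρ b c k δ Γ W φ b0 c0 c1 k3 k4 δ0 Γ1 W1 hφ hD => ?_⟩
  have k0 : 0 < k := by linarith
  obtain ⟨Q, Q0, hQ⟩ := hN ρ hρ b c k δ φ b0 c0 k0 δ0 hφ hD
  have π0 := Real.pi_pos
  have Γ0 : 0 < Γ := by linarith
  refine ⟨min (1 / Γ) (1 / (8 * Real.pi * k * Q)), by positivity, ?_⟩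
  filter_upwards [hQ, hC, hG, Real.tendsto_log_atTop.eventually_ge_atTop 2,
    eventually_ge_atTop (500 * W)] with T hQ hC hG L2 TW S hS hc
  have L0 : 0 < Real.log T := two_pos.trans_le L2
  have T1 : 500 ≤ T := by linarith only [TW, W1]
  have TL : 0 < T * Real.log T := by positivity
  obtain ⟨A, hA⟩ := fin hρ (2 * T)
  have sep : ∀ i j, i ∉ S → T ≤ (ρ i).im → (ρ j).im ≤ 2 * T → i < j →
      k / Real.log T ≤ (ρ j).im - (ρ i).im := fun i j hi h1 h2 hij => by
    have m : (ρ (i + 1)).im ≤ (ρ j).im := hρ.mono (show i + 1 ≤ j from hij)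
    linarith only [m, not_lt.1 fun q => hi (hS i h1 (m.trans h2) q)]
  rw [mul_assoc] at hc
  have S2 : Q * (8 * Real.pi * (k / Real.log T) * S.card) ≤ T := by
    refine (mul_le_mul_of_nonneg_left (mul_le_mul_of_nonneg_left (hc.trans
      (mul_le_mul_of_nonneg_right (min_le_right _ _) TL.le)) (by positivity)) Q0.le).trans_eq ?_
    field_simp
  have hq : ∀ q : ℝ → ℝ, (∀ v, q v ≤ max 0 (qp (fz T v) (Rz φ b δ T v) k c) +
      max 0 (qm (fz T v) (Rz φ b δ T v) k c)) → ∀ (J : Finset ℕ) (g : ℕ → ℝ) (w s : ℝ), 0 < w →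
      w ≤ 1 → 0 ≤ s → (∀ i ∈ J, ∀ j ∈ J, i < j → w ≤ g j - g i) →
      (∀ j ∈ J, 136 / 100 * T ≤ g j ∧ g j ≤ 174 / 100 * T) →
      (∀ j ∈ J, ∀ u, g j ≤ u → u ≤ g j + w → s ≤ q u) → J.card * s * w ≤ 4860 * T := by
    intro q hq J g w s w0 w1 s0 a1 a2 a3
    have e := hC.2 J g w s _ _ w0 w1 s0 a1 a2 (fun τ y => by split_ifs <;> positivity) (hQ S hS)
      fun j hj τ u u1 u2 u3 => by
        rw [if_pos u3, add_sub_cancel]; exact (a3 j hj u u1 u2).trans (hq u)
    rw [Finset.sum_add_distrib, ← Finset.mul_sum _ _ Q, Finset.sum_const, Finset.card_range,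
      nsmul_eq_mul] at e
    linarith only [hC.1, e, S2, mul_le_mul_of_nonneg_left (hG S (fun j => (ρ j).im)
      (c / Real.log T) (k / Real.log T) (by positivity) (by positivity)) Q0.le]
  obtain ⟨B2, c2, h2⟩ := cnt T1 L2 c0 c1 k3 Γ0 hA sep (hq _ fun v =>
    (le_max_right 0 _).trans (le_add_of_nonneg_right (le_max_left _ _))) le_rfl (by norm_num)
  obtain ⟨B3, c3, h3⟩ := cnt T1 L2 c0 c1 k3 Γ0 hA sep (hq _ fun v =>
    (le_max_right 0 _).trans (le_add_of_nonneg_left (le_max_left _ _))) k0.le k4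
  obtain ⟨Z, cZ, hZ⟩ := nbr hP TW L2 k3 W1 hA sep (S ∪ B2 ∪ B3)
  refine ⟨Z, tot TL Γ0 W1 (hc.trans (mul_le_mul_of_nonneg_right (min_le_left _ _) TL.le)) c2 c3
    ?_ cZ, fun j hj j1 j2 u u1 u2 i hi => ?_⟩
  · exact_mod_cast (Finset.card_union_le _ _).trans
      (Nat.add_le_add_right (Finset.card_union_le _ _) _)
  obtain ⟨iB, i1, i2⟩ := hZ j hj j1 j2 u u1 u2 i hi
  simp only [Finset.mem_union, not_or] at iB
  have sh : ∀ v : ℝ, u + Real.log T * (v - u) / Real.log T = v := fun v => by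
    rw [mul_div_cancel_left₀ _ L0.ne', add_sub_cancel]
  refine ⟨?_, ?_, ?_⟩
  · have : k / Real.log T ≤ (ρ (i + 1)).im - (ρ i).im := by
      by_cases q : (ρ (i + 1)).im ≤ 2 * T
      · exact sep i _ iB.1.1 (by linarith only [i1, T1]) q (Nat.lt_succ_self i)
      · linarith only [not_le.1 q, i2, T1, k4, div_le_div_of_nonneg_left k0.le two_pos L2]
    rw [div_le_iff₀' L0] at this
    unfold xs; linarith only [this]
  · obtain ⟨v, v1, v2⟩ := h2 i iB.1.2 iB.1.1 i1 i2
    refine ⟨Real.log T * (v - u), (sub_zero (xs ρ T u i)) ▸ ab L0 v1, ?_⟩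
    rw [qp_shift, sh]; exact v2
  · obtain ⟨v, v1, v2⟩ := h3 i iB.2 iB.1.1 i1 i2
    refine ⟨Real.log T * (v - u), ab L0 v1, ?_⟩
    rw [qm_shift, sh]; exact v2

end Pool.Agent.MP_f0209c_nt.Rg

/-! Bounds on the whole half plane. -/

namespace Pool.Agent.MP_f0209c_nt.Rg
open Complex Set Filter Topology ArithmeticFunction Ch Pp

namespace FARaux

lemma nphi {φ : ℝ → ℝ} (h : ∀ y, 0 ≤ φ y ∧ φ y ≤ 1) {β : ℝ} (b0 : 0 ≤ β) (L : ℝ) (n : ℕ) :
    ‖rf φ β L n‖ ≤ 1 := by
  rw [rf_apply, norm_mul, norm_real, Real.norm_of_nonneg (h _).1]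
  exact mul_le_one₀ (norm_r b0 n) (h _).1 (h _).2

lemma two {z z' s : ℂ} (h : 0 ≤ z.re) (h' : 0 ≤ z'.re) (hs : 4 ≤ s.re) :
    ‖riemannZeta (s + z') / riemannZeta (s + z)‖ ≤ 2 := by
  have a := has_mm (z := z) (z' := z') (s := s) (by rw [add_re]; linarith) (by rw [add_re]; linarith)
  obtain ⟨t1, t2⟩ := summ_sq (f := mm z z') (fun n => (norm_mm h h' n).trans (by
    exact_mod_cast Nat.le_self_pow two_ne_zero n)) hs
  rw [← a.tsum_eq]
  exact (norm_tsum_le_tsum_norm t1.norm).trans t2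

lemma tail {φ : ℝ → ℝ} {r β L : ℝ} {X : ℕ} (h : ∀ y, 0 ≤ φ y ∧ φ y ≤ 1)
    (h1 : ∀ y, |y| ≤ r → φ y = 1) (r1 : r ≤ 1) (b0 : 0 ≤ β) (L0 : 0 < L)
    (hX : ∀ n, X < n → rf φ β L n = 0) {s e : ℂ} (hs : 4 ≤ s.re)
    (he : e.re = r * L * (s.re - 1 / 2)) :
    ‖exp e * (riemannZeta (s + β) / riemannZeta s - RP (rf φ β L) X s)‖ ≤ Real.exp (2 * L) * 2 := by
  have a := has_mm (z := 0) (z' := β) (s := s) (by rw [add_zero]; linarith)
    (by rw [add_re, ofReal_re]; linarith)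
  rw [add_zero] at a
  refine (((a.sub (has_RP hX s)).mul_left (exp e)).norm_le_of_bounded
    (hasSum_zeta_two.mul_left (Real.exp (2 * L))) fun n => ?_).trans
    (mul_le_mul_of_nonneg_left (by nlinarith [Real.pi_lt_d2, Real.pi_pos]) (Real.exp_pos _).le)
  rcases eq_or_ne n 0 with rfl | n0
  · simp
  by_cases c : φ (Real.log n / L) = 1
  · rw [term_pw, Pi.sub_apply, rf_apply, c, ofReal_one, mul_one, sub_self, zero_mul, mul_zero,
      norm_zero]
    positivity
  have l0 := Real.log_natCast_nonneg n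
  have q : r * L < Real.log n := by
    rw [← lt_div_iff₀ L0]
    by_contra w
    exact c (h1 _ (by rw [abs_of_nonneg (by positivity)]; exact not_lt.1 w))
  have n1 : (0 : ℝ) < n := Nat.cast_pos.2 (Nat.pos_of_ne_zero n0)
  have w : ‖mm 0 β n - mm 0 β n * φ (Real.log n / L)‖ ≤ 1 := by
    rw [← mul_one_sub, ← ofReal_one, ← ofReal_sub, norm_mul, norm_real,
      Real.norm_of_nonneg (sub_nonneg.2 (h _).2)]
    exact mul_le_one₀ (norm_r b0 n) (sub_nonneg.2 (h _).2) (by linarith [(h (Real.log n / L)).1])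
  rw [term_pw, Pi.sub_apply, rf_apply, norm_mul, norm_mul, norm_pw' _ n0, norm_exp, he, ex,
    ← Real.exp_log (show 0 < 1 / (n : ℝ) ^ 2 by positivity), ← Real.exp_add, one_div ((n : ℝ) ^ 2),
    Real.log_inv, Real.log_pow]
  refine (mul_le_mul_of_nonneg_left (mul_le_of_le_one_left (Real.exp_pos _).le w)
    (Real.exp_pos _).le).trans ?_
  rw [← Real.exp_add, Real.exp_le_exp]
  push_cast
  nlinarith [mul_le_mul_of_nonneg_right q.le (show 0 ≤ s.re - 2 by linarith),
    mul_le_mul_of_nonneg_right r1 L0.le]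

lemma left {r : ℕ → ℂ} (h : ∀ n, ‖r n‖ ≤ 1) {X : ℕ} {L : ℝ} (L0 : 0 < L) (hX : X ≤ Real.exp L)
    {s e : ℂ} (e1 : e.re ≤ 1) (hs : s.re = 1 / 2 + e.re / L) :
    ‖exp e * RP r X s‖ ≤ Real.exp (L + 1) := by
  rw [RP, Finset.mul_sum]
  refine (norm_sum_le_of_le _ (n := fun _ => Real.exp 1) fun n hn => ?_).trans ?_
  · obtain ⟨n1, n2⟩ := Finset.mem_Icc.1 hn
    have l0 := Real.log_natCast_nonneg n
    have l1 : Real.log n / L ≤ 1 := by
      rw [div_le_one L0, Real.log_le_iff_le_exp (Nat.cast_pos.2 n1)]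
      exact (Nat.cast_le.2 n2).trans hX
    have l2 := div_nonneg l0 L0.le
    rw [mul_left_comm, ← exp_add, norm_mul, norm_exp]
    refine (mul_le_of_le_one_left (Real.exp_pos _).le (h n)).trans (Real.exp_le_exp.2 ?_)
    rw [add_re, re_mul_ofReal, neg_re, hs, neg_mul, add_mul, div_mul_eq_mul_div e.re, mul_div_assoc]
    nlinarith [mul_le_mul_of_nonneg_right e1 (sub_nonneg.2 l1)]
  · rw [Finset.sum_const, Nat.card_Icc, add_tsub_cancel_right, nsmul_eq_mul, Real.exp_add]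
    exact mul_le_mul_of_nonneg_right hX (Real.exp_pos _).le

end FARaux
open FARaux

theorem FAR : FAR_s := by
  intro ρ hz b δ φ b0 d0 d1 ⟨_, p0, p1, p2⟩
  obtain ⟨A, A0, hA⟩ := hz.rc one_pos b
  refine ⟨A + 2 * 10 ^ 10 * b + 8, by nlinarith, fun V => ?_⟩
  filter_upwards [hA, hz.crude', eventually_ge_atTop 50, eventually_ge_atTop (10 * V),
    Real.tendsto_log_atTop.eventually_ge_atTop 1, Real.tendsto_log_atTop.eventually_ge_atTop b]
    with T hA hC T1 T2 L1 L2 u z u1 u2 z1 z2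
  have hb : sc T u (z + b) = sc T u z + (b / Real.log T : ℝ) := by unfold sc; push_cast; ring
  have sr := sc_re T u z
  have si := sc_im T u z
  have sl := sc_re T u (2 - z)
  have ds : Differentiable ℂ (sc T u) := by unfold sc; fun_prop
  unfold fz Rz
  rw [hb]
  set L := Real.log T
  have L0 : 0 < L := by linarith
  have β0 : 0 ≤ b / L := by positivity
  have β1 : b / L ≤ 1 := (div_le_one L0).2 L2
  have i1 : |z.im / L| ≤ V := by rwa [abs_div, abs_of_pos L0, div_le_iff₀ L0]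
  have r1 : 1 / L ≤ z.re / L := by gcongr
  have a0 : 0 < 1 / L := by positivity
  obtain ⟨i2, i3⟩ := abs_le.1 i1
  have hX : (⌊Real.exp ((1 - δ) * L)⌋₊ : ℝ) ≤ Real.exp L :=
    (Nat.floor_le (Real.exp_pos _).le).trans (Real.exp_le_exp.2 (by nlinarith))
  have up : ∀ {x y : ℝ}, x ≤ Real.exp y → y ≤ (A + 2 * 10 ^ 10 * b + 8) * L →
      x ≤ Real.exp ((A + 2 * 10 ^ 10 * b + 8) * L) := fun h1 h2 => h1.trans (Real.exp_le_exp.2 h2)
  have AL := mul_nonneg A0 L0.le
  have bL := mul_nonneg b0 L0.le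
  have e2 : 2 ≤ Real.exp L := by linarith [Real.add_one_le_exp L]
  have s4 := up (left (nphi p0 β0 L) L0 hX (e := 2 - z) (by rw [sub_re, re_ofNat]; linarith) sl)
    (by nlinarith)
  have ip : 0 < (sc T u z).im := by linarith
  have dz := (differentiableAt_riemannZeta (ne_one ip)).comp z (ds z)
  set s := sc T u z
  refine ⟨dz, hz.ne ip (by linarith), ?_⟩
  rcases le_total s.re 6 with c | c
  · have s1 := (hA s (b / L : ℝ) (by linarith) (by linarith) (by linarith) c (by rwa [ofReal_re])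
      (by rw [norm_real, Real.norm_of_nonneg β0])).2
    have s2 := Pp.ratio (s := s + (b / L : ℝ)) (w := -(b / L : ℝ)) (M := 2 * (10 ^ 10 * L) / (1 / L))
      fun t ht => by
        have x1 : (s + (b / L : ℝ) + t * -(b / L : ℝ) : ℂ).im = s.im := by
          rw [← ofReal_neg, ← ofReal_mul, add_im, add_im, ofReal_im, ofReal_im]; ring
        have x2 : (s + (b / L : ℝ) + t * -(b / L : ℝ) : ℂ).re = s.re + (1 - t) * (b / L) := by
          rw [← ofReal_neg, ← ofReal_mul, add_re, add_re, ofReal_re, ofReal_re]; ring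
        have x3 := mul_nonneg (sub_nonneg.2 ht.2) β0
        have x4 := mul_nonneg ht.1 β0
        exact ⟨ne_one (by rwa [x1]), hz.ne (by rwa [x1]) (by rw [x2]; linarith),
          hC _ _ (by rw [x1]; linarith) (by rw [x1]; linarith) a0 ((div_le_one L0).2 L1)
            (by rw [x2]; linarith) (by rw [x2]; nlinarith)⟩
    rw [add_neg_cancel_right, norm_neg, norm_real, Real.norm_of_nonneg β0,
      show 2 * (10 ^ 10 * L) / (1 / L) * (b / L) = 2 * 10 ^ 10 * (b * L) by field_simp] at s2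
    refine ⟨up s1 (by nlinarith), up s2 (by nlinarith), up (y := 6 * L + (L + (A * L + L))) ?_
      (by nlinarith), s4⟩
    have zr : z.re ≤ 6 * L := by rw [← div_le_iff₀ L0]; linarith
    rw [norm_mul, norm_exp, Real.exp_add, Real.exp_add, re_ofReal_mul]
    refine mul_le_mul (Real.exp_le_exp.2 (by nlinarith)) ((norm_sub_le_of_le s1
      ((norm_RP (nphi p0 β0 L) _ (by linarith)).trans hX)).trans ?_) (norm_nonneg _)
      (Real.exp_pos _).le
    nlinarith [Real.exp_le_exp.2 (show A * L ≤ A * L + L by linarith),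
      Real.exp_le_exp.2 (show L ≤ A * L + L by linarith), Real.exp_pos (A * L + L)]
  · have s1 := two (z := 0) (z' := (b / L : ℝ)) (s := s) le_rfl (by rwa [ofReal_re]) (by linarith)
    have s2 := two (z' := 0) (z := (b / L : ℝ)) (s := s) (by rwa [ofReal_re]) le_rfl (by linarith)
    rw [add_zero] at s1 s2
    refine ⟨up (s1.trans e2) (by nlinarith), up (s2.trans e2) (by nlinarith),
      up (y := 2 * L + L) ((tail p0 p1 (by linarith) β0 L0 (fun n hn => ?_) (by linarith) ?_).trans ?_)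
        (by nlinarith), s4⟩
    · have q := (Nat.floor_lt (Real.exp_pos _).le).1 hn
      rw [← Real.lt_log_iff_exp_lt ((Real.exp_pos _).trans q), ← lt_div_iff₀ L0] at q
      rw [rf_apply, p2 _ (q.le.trans (le_abs_self _)), ofReal_zero, mul_zero]
    · rw [re_ofReal_mul, sr]; field_simp; ring
    · rw [Real.exp_add]; exact mul_le_mul_of_nonneg_left e2 (Real.exp_pos _).le

end Pool.Agent.MP_f0209c_nt.Rg

/-! Crude bounds on one cell of the line `Re z = 1`. -/

namespace Pool.Agent.MP_f0209c_nt.Rg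
open Complex Set Filter Topology ArithmeticFunction Ch Pp

namespace CELLaux

lemma sq5 (a b c d e : ℝ) :
    (a + b + c + d + e) ^ 2 ≤ 5 * (a ^ 2 + b ^ 2 + c ^ 2 + d ^ 2 + e ^ 2) := by
  linarith only [sq_nonneg (a - b), sq_nonneg (a - c), sq_nonneg (a - d), sq_nonneg (a - e),
    sq_nonneg (b - c), sq_nonneg (b - d), sq_nonneg (b - e), sq_nonneg (c - d), sq_nonneg (c - e),
    sq_nonneg (d - e)]

lemma pos_sq (E : ℝ) : (max E 0 + 1) ^ 2 ≤ 2 * (1 + Real.exp E) := by
  have h := Real.quadratic_le_exp_of_nonneg (le_max_right E 0)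
  have g : Real.exp (max E 0) ≤ 1 + Real.exp E := by
    rcases le_total E 0 with q | q
    · rw [max_eq_right q, Real.exp_zero]; linarith only [Real.exp_pos E]
    · rw [max_eq_left q]; linarith only []
  linarith only [h, g]

lemma res_le {r P b : ℝ} (hb : 1 ≤ b) (h : r ^ 2 ≤ P) :
    r ≤ Real.exp (Real.log b + √(P / b)) := by
  have b0 : 0 < b := by linarith only [hb]
  have P0 : 0 ≤ P / b := div_nonneg ((sq_nonneg r).trans h) b0.le
  have s0 := Real.sqrt_nonneg (P / b)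
  have e : √(P / b) ^ 2 * b = P := by rw [Real.sq_sqrt P0, div_mul_cancel₀ _ b0.ne']
  rw [Real.exp_add, Real.exp_log b0]
  have a : r ≤ b * √(P / b) := by
    refine le_of_sq_le_sq ?_ (mul_nonneg b0.le s0)
    have := mul_le_mul_of_nonneg_left hb (mul_nonneg (sq_nonneg √(P / b)) b0.le)
    calc r ^ 2 ≤ √(P / b) ^ 2 * b * 1 := by rw [mul_one, e]; exact h
      _ ≤ √(P / b) ^ 2 * b * b := this
      _ = (b * √(P / b)) ^ 2 := by ring
  exact a.trans (mul_le_mul_of_nonneg_left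
    (by linarith only [Real.add_one_le_exp √(P / b)]) b0.le)

lemma two_sided {f g D : ℂ} {B P y : ℝ} (h : |Real.log ‖f / g‖ + D.re| ≤ B) (hD : ‖D‖ ^ 2 ≤ P)
    (hy : B + √P ≤ y) : ‖f / g‖ ≤ Real.exp y ∧ ‖g / f‖ ≤ Real.exp y := by
  have a := abs_le.1 h
  have c := abs_le.1 ((abs_re_le_norm D).trans (Real.le_sqrt_of_sq_le hD))
  constructor
  · exact (Real.le_exp_log _).trans (Real.exp_le_exp.2 (by linarith only [a.2, c.1, hy]))
  · refine (Real.le_exp_log _).trans (Real.exp_le_exp.2 ?_)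
    rw [← inv_div, norm_inv, Real.log_inv]
    linarith only [a.1, c.2, hy]

end CELLaux
open CELLaux

theorem CELL (hGF : GF_s) (hSUP : SUP_s) (hMASS : MASS_s) (hVAR1 : VAR1_s) (hSML : SML_s) :
    CELL_s := by
  intro ρ hz
  obtain ⟨φ0, hφ0⟩ := exists_cut
  obtain ⟨Cg, g1, hg⟩ := hGF ρ hz φ0 hφ0
  obtain ⟨Cs, s1, hs⟩ := hSUP
  obtain ⟨Cv, v1, hv, -⟩ := hVAR1 φ0 hφ0
  obtain ⟨E, e1, e2⟩ := hz.env one_pos 1
  obtain ⟨K, K0, hK⟩ := e1 1 zero_le_one
  obtain ⟨-, sadd, smul, smono, -, sone, -, sNT, -⟩ := hSML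
  have g2 : 0 ≤ Cg ^ 2 := sq_nonneg _
  have g3 : 0 ≤ Cg ^ 2 * K := mul_nonneg g2 K0.le
  have g4 : 0 ≤ Cs * Cv := mul_nonneg (by linarith only [s1]) (by linarith only [v1])
  refine ⟨5 * (10 + 4 * Cg ^ 2 + 2 * (Cg ^ 2 * K) + Cs * Cv + 2 * Cs),
    by linarith only [g2, g3, g4, s1], fun b δ φ hb hδ hφ => ?_⟩
  have b1 : 1 ≤ b := by linarith only [hb]
  have b0 : 0 < b := by linarith only [hb]
  have l1 : 1 ≤ Real.log b := by
    rw [Real.le_log_iff_exp_le b0]; linarith only [Real.exp_one_lt_d9, hb]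
  filter_upwards [hg b b0.le, hs, hv b hb, hMASS φ b δ b1 hδ hφ, e2, hK, sone, sNT,
    Real.tendsto_log_atTop.eventually_ge_atTop 1, eventually_ge_atTop 10]
    with T hg hs hv hm e2 hK sone sNT L1 T10
  obtain ⟨S, c, hS, hc, hR⟩ := hm
  obtain ⟨Φ1, m1, p1⟩ := hs (NT T) (cb φ0 T b) sNT
  obtain ⟨Φ2, m2, p2⟩ := hs S c hS
  have mE : Sml T (fun u => Real.exp (1 * E T u)) K := ⟨fun u => (Real.exp_pos _).le, hK⟩
  have n1 : ∀ u, 0 ≤ Cg * (max (E T u) 0 + 1) := fun u =>
    mul_nonneg (by linarith only [g1]) (by linarith only [le_max_right (E T u) 0])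
  refine ⟨fun u => 2 + Cg * (max (E T u) 0 + 1) + √(Φ1 u) + Real.log b + √(Φ2 u / b),
    fun u => ?_, ?_, fun u x u1 u2 hx => ?_⟩
  · linarith only [n1 u, Real.sqrt_nonneg (Φ1 u), l1, Real.sqrt_nonneg (Φ2 u / b)]
  · have l2 : 0 ≤ Real.log b ^ 2 := sq_nonneg _
    have M := smul _ _ _ 5 (by norm_num) (sadd _ _ _ _ _ (sadd _ _ _ _ _ (sadd _ _ _ _ _
      (smul _ _ _ (4 + 2 * Cg ^ 2 + Real.log b ^ 2) (by linarith only [g2, l2]) sone)
      (smul _ _ _ (2 * Cg ^ 2) (by linarith only [g2]) mE)) m1)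
      (smul _ _ _ b⁻¹ (inv_nonneg.2 b0.le) m2))
    refine smono _ _ _ _ _ (by linarith only [T10]) M (fun u => ⟨sq_nonneg _, ?_⟩) ?_
    · refine (sq5 _ _ _ _ _).trans ?_
      rw [Real.sq_sqrt (m1.1 u), Real.sq_sqrt (div_nonneg (m2.1 u) b0.le), mul_pow, one_mul,
        div_eq_inv_mul]
      linarith only [mul_le_mul_of_nonneg_left (pos_sq (E T u)) g2]
    · have l3 : 1 ≤ Real.log b ^ 2 := one_le_pow₀ l1
      have l4 : Real.log b ≤ Real.log b ^ 2 := by
        rw [sq]; exact le_mul_of_one_le_left (by linarith only [l1]) l1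
      have s0 : 0 ≤ Cs := by linarith only [s1]
      have a1 : Cs * ∑ n ∈ NT T, cb φ0 T b n ^ 2 ≤ Cs * Cv * Real.log b ^ 2 := by
        have := mul_le_mul_of_nonneg_left hv s0
        linarith only [this, mul_le_mul_of_nonneg_left l4 g4]
      have a2 : b⁻¹ * (Cs * ∑ n ∈ S, c n ^ 2) ≤ 2 * Cs := by
        rw [inv_mul_le_iff₀ b0]
        linarith only [mul_le_mul_of_nonneg_left hc s0]
      linarith only [a1, a2, l3, mul_le_mul_of_nonneg_left l3 g2, mul_le_mul_of_nonneg_left l3 g3,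
        mul_le_mul_of_nonneg_left l3 s0]
  · have L0 : 0 < Real.log T := by linarith only [L1]
    have x1 : |x / Real.log T| ≤ 1 / Real.log T := by
      rw [abs_div, abs_of_pos L0]
      exact div_le_div_of_nonneg_right (by linarith only [hx]) L0.le
    have x2 : |x / Real.log T| ≤ 1 / 2 := by
      rw [abs_div, abs_of_pos L0]
      exact (div_le_self (abs_nonneg x) L1).trans hx
    have x3 := abs_le.1 x2
    have z1 : ‖ZZ (sc T (u + x / Real.log T) 1)‖ ≤ Real.log T * max (E T u) 0 := by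
      refine (e2 u _ (by linarith only [u1, T10]) (by linarith only [u2, T10]) ?_ ?_ ?_).trans
        (mul_le_mul_of_nonneg_left (le_max_left _ _) L0.le)
      · rw [sc_re, one_re]; linarith only []
      · rw [sc_re, one_re]; linarith only []
      · rw [sc_im, one_im, zero_div, add_zero, add_sub_cancel_left]; exact x1
    have z2 := hg _ _ (by linarith only [u1, T10, x3.1]) (by linarith only [u2, T10, x3.2]) z1
    have z3 := two_sided z2 (p1 u x hx)
      (y := 2 + Cg * (max (E T u) 0 + 1) + √(Φ1 u) + Real.log b + √(Φ2 u / b) - 2)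
      (by linarith only [l1, Real.sqrt_nonneg (Φ2 u / b)])
    rw [show (1 : ℂ) + x * I + b = 1 + b + x * I by ring, fz_shift, fz_shift, hR]
    refine ⟨z3.1, z3.2, (res_le b1 (p2 u x hx)).trans (Real.exp_le_exp.2 ?_)⟩
    linarith only [n1 u, Real.sqrt_nonneg (Φ1 u)]

end Pool.Agent.MP_f0209c_nt.Rg

/-! The crude bounds hold outside a small set. -/

namespace Pool.Agent.MP_f0209c_nt.Rg
open Complex Set Filter Topology ArithmeticFunction Ch Pp

namespace CRUaux

lemma two_exp (a : ℝ) : Real.exp 1 * (Real.exp (a - 2) + Real.exp (a - 2)) ≤ Real.exp a := by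
  have h : Real.exp a = Real.exp 1 * (Real.exp 1 * Real.exp (a - 2)) := by
    rw [← Real.exp_add, ← Real.exp_add]; congr 1; ring
  have h2 : (2 : ℝ) ≤ Real.exp 1 := by linarith [Real.add_one_le_exp (1 : ℝ)]
  rw [h]
  exact mul_le_mul_of_nonneg_left (by nlinarith [Real.exp_pos (a - 2)]) (Real.exp_pos _).le

/-- the deterministic part -/
lemma core (hPL : PL_s) (f R : ℂ → ℂ) (b δ X G κ N : ℝ) (a a' : ℤ → ℝ) (hb : 0 ≤ b) (hδ : 0 < δ)
    (hX : 2 ≤ X) (hG : 20 ≤ G) (hκ : 2 * δ ≤ κ) (hκ1 : κ ≤ 1) (h1 : 2 * X ≤ N)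
    (h2 : 2 * X ^ 2 * κ ≤ N) (dR : Differentiable ℂ R) (a0 : ∀ v, 0 ≤ a v) (a0' : ∀ v, 0 ≤ a' v)
    (far : ∀ z : ℂ, 1 ≤ z.re → |z.im| ≤ N → DifferentiableAt ℂ f z ∧ f z ≠ 0 ∧
      ‖f (z + b) / f z‖ ≤ Real.exp (κ * N / 2) ∧ ‖f z / f (z + b)‖ ≤ Real.exp (κ * N / 2) ∧
      ‖exp ((1 - 2 * δ : ℝ) * z) * (f (z + b) / f z - R z)‖ ≤ Real.exp (κ * N / 2) ∧
      ‖exp (2 - z) * R (2 - z)‖ ≤ Real.exp (κ * N / 2))
    (cell : ∀ x : ℝ, |x| ≤ N → ‖f (1 + x * I + b) / f (1 + x * I)‖ ≤ Real.exp (a (round x) - 2) ∧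
      ‖f (1 + x * I) / f (1 + x * I + b)‖ ≤ Real.exp (a (round x) - 2) ∧
      ‖R (1 + x * I)‖ ≤ Real.exp (a (round x) - 2) ∧
      ‖R (2 - (1 + x * I))‖ ≤ Real.exp (a' (round x) - 2))
    (s1 : ∑ v ∈ Finset.Icc (-⌈N⌉) ⌈N⌉, a v ^ 2 / (1 + (v / X) ^ 2) ≤ (G / 200) ^ 2)
    (s2 : ∑ v ∈ Finset.Icc (-⌈N⌉) ⌈N⌉, a' v ^ 2 / (1 + (v / X) ^ 2) ≤ (G / 200) ^ 2) :
    Crude f R X G κ b := by
  have k0 : 0 < κ := by linarith
  have mem : ∀ z ∈ Bx 1 N (-N) N, 1 ≤ z.re ∧ |z.im| ≤ N := fun z hz =>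
    ⟨hz.1, abs_le.2 ⟨hz.2.2.1, hz.2.2.2⟩⟩
  have fb : ∀ z ∈ Bx 1 N (-N) N, DifferentiableAt ℂ (fun z => f (z + b)) z ∧ f (z + b) ≠ 0 := by
    intro z hz
    obtain ⟨p, q, -⟩ := far (z + b) (by simp; linarith [hz.1]) (by simpa using (mem z hz).2)
    exact ⟨p.comp z (by fun_prop : DifferentiableAt ℂ (fun z : ℂ => z + b) z), q⟩
  have pl := fun h c d c0 e1 e2 e3 => hPL h N κ X (G / 200) c k0 (by linarith) h1 h2 (by linarith)
    d c0 e1 e2 e3
  have le2 : ∀ t : ℝ, Real.exp (t - 2) ≤ Real.exp t := fun t => Real.exp_le_exp.2 (by linarith)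
  have d1 : DifferentiableOn ℂ (fun z => f (z + b) / f z) (Bx 1 N (-N) N) := fun z hz =>
    ((fb z hz).1.div (far z (mem z hz).1 (mem z hz).2).1
      (far z (mem z hz).1 (mem z hz).2).2.1).differentiableWithinAt
  have p1 := pl (fun z => f (z + b) / f z) a d1 a0 (fun x hx => (cell x hx).1.trans (le2 _))
    (fun z hz => (far z (mem z hz).1 (mem z hz).2).2.2.1) s1
  have p2 := pl (fun z => f z / f (z + b)) a (fun z hz =>
    ((far z (mem z hz).1 (mem z hz).2).1.div (fb z hz).1 (fb z hz).2).differentiableWithinAt) a0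
    (fun x hx => (cell x hx).2.1.trans (le2 _))
    (fun z hz => (far z (mem z hz).1 (mem z hz).2).2.2.2.1) s1
  have p3 := pl (fun z => exp ((1 - 2 * δ : ℝ) * z) * (f (z + b) / f z - R z)) a
    ((by fun_prop : Differentiable ℂ fun z : ℂ => exp ((1 - 2 * δ : ℝ) * z)).differentiableOn.mul
      (d1.sub dR.differentiableOn)) a0 (fun x hx => by
      obtain ⟨p, -, q, -⟩ := cell x hx
      refine le_trans ?_ (two_exp _)
      rw [norm_mul, norm_exp]
      refine mul_le_mul (Real.exp_le_exp.2 ?_) ((norm_sub_le _ _).trans (add_le_add p q))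
        (norm_nonneg _) (Real.exp_pos _).le
      rw [re_ofReal_mul]; simp; linarith)
    (fun z hz => (far z (mem z hz).1 (mem z hz).2).2.2.2.2.1) s1
  have p4 := pl (fun z => exp (2 - z) * R (2 - z)) a' (by
      have : Differentiable ℂ fun z : ℂ => R (2 - z) := dR.comp (by fun_prop)
      exact ((by fun_prop : Differentiable ℂ fun z : ℂ => exp (2 - z)).mul this).differentiableOn)
    a0' (fun x hx => by
      obtain ⟨-, -, -, q⟩ := cell x hx
      refine le_trans ?_ (two_exp _)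
      rw [norm_mul, norm_exp]
      refine mul_le_mul (Real.exp_le_exp.2 ?_) (q.trans (by linarith [Real.exp_pos (a' (round x) - 2)]))
        (norm_nonneg _) (Real.exp_pos _).le
      simp; norm_num)
    (fun z hz => (far z (mem z hz).1 (mem z hz).2).2.2.2.2.2) s2
  refine ⟨fun z z1 z2 z3 => ?_, fun z z1 z2 z3 => ?_⟩
  · have hz : z ∈ Bx 1 (2 * X) (-(2 * X)) (2 * X) :=
      ⟨z1, by linarith, (abs_le.1 z3).1, (abs_le.1 z3).2⟩
    have e : Real.exp (140 * (G / 200) + 1 + κ * z.re) ≤ Real.exp (G + κ * z.re) :=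
      Real.exp_le_exp.2 (by linarith)
    refine ⟨(p1 z hz).trans e, (p2 z hz).trans e, ?_⟩
    have q := p3 z hz
    rw [norm_mul, norm_exp, re_ofReal_mul, ← le_div_iff₀' (Real.exp_pos _), ← Real.exp_sub] at q
    refine q.trans (Real.exp_le_exp.2 ?_)
    nlinarith [mul_le_mul_of_nonneg_right hκ (show 0 ≤ z.re by linarith)]
  · have hz : 2 - z ∈ Bx 1 (2 * X) (-(2 * X)) (2 * X) := by
      have := abs_le.1 z3
      refine ⟨?_, ?_, ?_, ?_⟩ <;> simp <;> linarith
    have q := p4 (2 - z) hz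
    rw [sub_sub_cancel] at q
    refine q.trans (Real.exp_le_exp.2 ?_)
    have := mul_le_mul_of_nonneg_left (neg_le_abs z.re) k0.le
    simp only [sub_re, re_ofNat]
    nlinarith

end CRUaux

theorem CRU (hPL : PL_s) (hFAR : FAR_s) (hCELL : CELL_s) (hSUMZ : SUMZ_s) (hSML : SML_s) :
    CRU_s := by
  intro ρ hρ
  obtain ⟨C, C1, hC⟩ := hCELL ρ hρ
  obtain ⟨m1, m2, m3, m4, m5, -⟩ := hSML
  refine ⟨640000 * C, by linarith, fun b δ X G κ φ hb hδ hδ4 hX hG hκ hκ1 hφ => ?_⟩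
  obtain ⟨A, A1, hA⟩ := hFAR ρ hρ b δ φ (by linarith) hδ hδ4 hφ
  have k0 : 0 < κ := by linarith
  obtain ⟨V, hV⟩ : ∃ V, V = 2 * A / κ := ⟨_, rfl⟩
  have V0 : 0 < V := by rw [hV]; positivity
  have lim : Tendsto (fun T => V * Real.log T) atTop atTop :=
    Real.tendsto_log_atTop.const_mul_atTop V0
  filter_upwards [hA V, hC b δ φ hb hδ hφ.2.1, lim.eventually_ge_atTop (2 * X),
    lim.eventually_ge_atTop (2 * X ^ 2 * κ), Real.tendsto_log_atTop.eventually_ge_atTop 1,
    eventually_ge_atTop (20 * (V + 1)), eventually_ge_atTop 1] with T far ⟨a, a0, as, cell⟩ h1 h2 L1 hT T1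
  obtain ⟨N, hN⟩ : ∃ N, N = V * Real.log T := ⟨_, rfl⟩
  rw [← hN] at h1 h2 far
  have kN : A * Real.log T = κ * N / 2 := by rw [hN, hV]; field_simp
  rw [kN] at far
  have w0 : ∀ v : ℤ, (0 : ℝ) < 1 + (v / X) ^ 2 := fun v => by positivity
  have G0 : 0 < (G / 200) ^ 2 := by positivity
  refine ⟨fun u => ∑ v ∈ Finset.Icc (-⌈N⌉) ⌈N⌉, 1 / (1 + (v / X) ^ 2) / (G / 200) ^ 2 *
    (a (u + v / Real.log T) ^ 2 + a (u + -(v / Real.log T)) ^ 2), ?_, fun u u1 u2 hu => ?_⟩
  · have s := m5 ℤ (Finset.Icc (-⌈N⌉) ⌈N⌉) T _ _ fun v _ =>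
      m3 T _ _ (1 / (1 + (v / X) ^ 2) / (G / 200) ^ 2) (by have := w0 v; positivity)
        (m2 T _ _ _ _ (m1 T _ _ (v / Real.log T) as) (m1 T _ _ (-(v / Real.log T)) as))
    refine m4 T _ _ _ _ T1 s (fun u => ⟨s.1 u, le_rfl⟩) ?_
    rw [← Finset.sum_mul, ← Finset.sum_div]
    have z := hSUMZ X 0 (Finset.Icc (-⌈N⌉) ⌈N⌉) (by linarith)
    simp only [zero_sub, neg_div, neg_sq] at z
    refine (mul_le_mul_of_nonneg_right (div_le_div_of_nonneg_right z G0.le)
      (by positivity)).trans (le_of_eq ?_)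
    have : G ≠ 0 := by linarith
    field_simp; ring
  · have key : ∀ c : ℤ → ℝ, (∀ v : ℤ, c v ^ 2 ≤
        a (u + v / Real.log T) ^ 2 + a (u + -(v / Real.log T)) ^ 2) →
        ∑ v ∈ Finset.Icc (-⌈N⌉) ⌈N⌉, c v ^ 2 / (1 + (v / X) ^ 2) ≤ (G / 200) ^ 2 := by
      intro c hc
      rw [← div_le_one G0, Finset.sum_div]
      refine le_trans (Finset.sum_le_sum fun v _ => ?_) hu.le
      have := w0 v
      refine le_trans (le_of_eq (by field_simp)) (mul_le_mul_of_nonneg_left (hc v) (by positivity))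
    refine CRUaux.core hPL _ _ b δ X G κ N (fun v => a (u + v / Real.log T))
      (fun v => a (u + -(v / Real.log T))) (by linarith) hδ hX hG hκ hκ1 h1 h2 (diff_Rz _ _ _ _ _)
      (fun v => a0 _) (fun v => a0 _) (fun z z1 z2 => far u z u1 u2 z1 z2) (fun x hx => ?_)
      (key _ fun v => le_add_of_nonneg_right (sq_nonneg _))
      (key _ fun v => le_add_of_nonneg_left (sq_nonneg _))
    have r := abs_sub_round x
    have L0 : 0 < Real.log T := by linarith
    have hv : |(round x : ℝ) / Real.log T| ≤ T / 20 := by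
      rw [abs_div, abs_of_pos L0, div_le_iff₀ L0]
      have := abs_sub_abs_le_abs_sub (round x : ℝ) x
      rw [abs_sub_comm] at this
      nlinarith
    have hv' := abs_le.1 hv
    obtain ⟨c1, c2, c3⟩ := cell (u + round x / Real.log T) (x - round x) (by linarith) (by linarith) r
    obtain ⟨-, -, c4⟩ := cell (u + (-(round x : ℝ)) / Real.log T) (-(x - round x))
      (by rw [neg_div]; linarith) (by rw [neg_div]; linarith) (by rwa [abs_neg])
    rw [← fz_shift, ← fz_shift] at c1 c2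
    rw [← Rz_shift] at c3 c4
    have e1 : (1 : ℂ) + (x - round x : ℝ) * I + b + (round x : ℝ) * I = 1 + x * I + b := by
      push_cast; ring
    have e2 : (1 : ℂ) + (x - round x : ℝ) * I + (round x : ℝ) * I = 1 + x * I := by
      push_cast; ring
    have e3 : (1 : ℂ) + (-(x - round x) : ℝ) * I + (-(round x : ℝ) : ℝ) * I = 2 - (1 + x * I) := by
      push_cast; ring
    rw [e1, e2] at c1 c2
    rw [e2] at c3
    rw [e3, neg_div] at c4
    exact ⟨c1, c2, c3, c4⟩

end Pool.Agent.MP_f0209c_nt.Rg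

/-! The envelope, the density and the distant point. -/

namespace Pool.Agent.MP_f0209c_nt.Rg
open Complex Set Filter Topology ArithmeticFunction Ch Pp

namespace LOCaux

/-- the integers of a window -/
noncomputable def VV (X : ℝ) : Finset ℤ := Finset.Icc (-⌊X⌋) ⌊X⌋

lemma mem_VV {X : ℝ} {v : ℤ} (h : |(v : ℝ)| ≤ X) : v ∈ VV X := by
  have a := abs_le.1 h
  have b : -v ≤ ⌊X⌋ := Int.le_floor.2 (by push_cast; linarith [a.1])
  exact Finset.mem_Icc.2 ⟨by omega, Int.le_floor.2 a.2⟩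

lemma card_VV {X : ℝ} (h : 1 ≤ X) : ((VV X).card : ℝ) ≤ 3 * X := by
  have a : 0 ≤ ⌊X⌋ := Int.floor_nonneg.2 (by linarith)
  have b : (((VV X).card : ℤ) : ℝ) = (⌊X⌋ + 1 - -⌊X⌋ : ℤ) := by
    rw [VV, Int.card_Icc, Int.toNat_of_nonneg (by omega)]
  push_cast at b
  linarith [Int.floor_le X]

lemma sml_sum (hS : SML_s) {T X c η η' : ℝ} {Φ : ℝ → ℝ} (T1 : 1 ≤ T) (X1 : 1 ≤ X) (c0 : 0 ≤ c)
    (e0 : 0 ≤ η) (h : Sml T Φ η) (e : 3 * X * (c * η) ≤ η') :
    Sml T (fun u => ∑ v ∈ VV X, c * Φ (u + v / Real.log T)) η' := by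
  obtain ⟨s1, -, s3, s4, s5, -⟩ := hS
  have a := s5 ℤ (VV X) T (fun v u => c * Φ (u + v / Real.log T)) (fun _ => c * η)
    fun v _ => s3 _ _ _ _ c0 (s1 _ _ _ _ h)
  refine s4 _ _ _ _ _ T1 a (fun u => ⟨a.1 u, le_rfl⟩) (le_trans ?_ e)
  rw [Finset.sum_const, nsmul_eq_mul]
  exact mul_le_mul_of_nonneg_right (card_VV X1) (mul_nonneg c0 e0)

lemma term_lt {X c L u : ℝ} {Φ : ℝ → ℝ} (c0 : 0 ≤ c) (h0 : ∀ u, 0 ≤ Φ u)
    (h : ∑ v ∈ VV X, c * Φ (u + v / L) < 1) {v : ℤ} (hv : |(v : ℝ)| ≤ X) :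
    c * Φ (u + v / L) < 1 :=
  (Finset.single_le_sum (f := fun v : ℤ => c * Φ (u + v / L))
    (fun _ _ => mul_nonneg c0 (h0 _)) (mem_VV hv)).trans_lt h

lemma dp_split (T u : ℝ) (c : ℕ → ℝ) :
    ‖DP (NT T) c u‖ ≤ ‖DP (PT T) c u‖ + ∑ n ∈ QT T, |c n| := by
  rw [DP, ← Finset.sum_filter_add_sum_filter_not _ Nat.Prime]
  refine (norm_add_le _ _).trans (add_le_add le_rfl ((norm_sum_le _ _).trans (le_of_eq ?_)))
  exact Finset.sum_congr rfl fun n _ => by rw [norm_mul, norm_ee, mul_one, norm_real, Real.norm_eq_abs]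

lemma sml_six (hS : SML_s) : ∀ᶠ T : ℝ in atTop, ∀ (c : ℕ → ℝ) (M : ℝ),
    ∑ n ∈ NT T, c n ^ 2 ≤ M → Sml T (fun u => ‖DP (PT T) c u‖ ^ 6) (1296 * M ^ 3) := by
  obtain ⟨-, -, -, s4, -, -, -, -, s9⟩ := hS
  filter_upwards [s9, eventually_ge_atTop 1] with T h T1 c M hM
  have a := h (PT T) (fun n => (c n : ℂ)) 3 subset_rfl (by norm_num)
  refine s4 _ _ _ _ _ T1 a (fun u => ⟨by positivity, le_rfl⟩) ?_
  have b : ∑ p ∈ PT T, ‖(c p : ℂ)‖ ^ 2 ≤ M := by
    refine le_trans ?_ hM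
    simp only [norm_real, Real.norm_eq_abs, sq_abs]
    exact Finset.sum_le_sum_of_subset_of_nonneg (Finset.filter_subset _ _) fun _ _ _ => sq_nonneg _
  have := pow_le_pow_left₀ (Finset.sum_nonneg fun _ _ => sq_nonneg _) b 3
  push_cast
  linarith

lemma decay (C : ℝ) : ∀ᶠ t : ℝ in atTop, ∀ a, t ≤ a →
    C * Real.exp (-(a / 14)) * (21 * Real.log t) * (400 * t ^ 20) ≤ 1 := by
  have h := ((Real.tendsto_pow_mul_exp_neg_atTop_nhds_zero 21).comp
    (tendsto_id.atTop_div_const (show (0 : ℝ) < 14 by norm_num))).const_mul (|C| * 8400 * 14 ^ 21)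
  rw [mul_zero] at h
  filter_upwards [h.eventually (eventually_le_nhds one_pos), eventually_ge_atTop 1] with t h t1 a ha
  refine le_trans ?_ h
  have e : Real.exp (-(a / 14)) ≤ Real.exp (-(t / 14)) := Real.exp_le_exp.2 (by linarith)
  have l0 := Real.log_nonneg t1
  have l1 : Real.log t ≤ t := (Real.log_le_sub_one_of_pos (by linarith)).trans (by linarith)
  calc _ ≤ |C| * Real.exp (-(t / 14)) * (21 * t) * (400 * t ^ 20) := by
        gcongr; exact le_abs_self C
    _ = _ := by simp only [Function.comp, id]; ring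

lemma exp_big {t : ℝ} (h : 10 ≤ t) : t ^ 21 ≤ Real.exp (t ^ 4) := by
  have a := Real.pow_div_factorial_le_exp (t ^ 4) (by positivity) 6
  have b : (10 : ℝ) ^ 3 ≤ t ^ 3 := pow_le_pow_left₀ (by norm_num) h 3
  have c : 0 ≤ t ^ 21 := by positivity
  refine le_trans ?_ a
  rw [le_div_iff₀ (by positivity), show (t ^ 4) ^ 6 = t ^ 21 * t ^ 3 by ring]
  refine mul_le_mul_of_nonneg_left (le_trans ?_ b) c
  norm_num [Nat.factorial]

end LOCaux
open LOCaux

theorem LOC (hL : SEL_s) (hV : VAR1_s) (hS : SML_s) : LOC_s := by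
  intro ρ hz A η A1 η0
  obtain ⟨φ, hφ⟩ := exists_cut
  obtain ⟨C, C1, hC⟩ := hL ρ hz φ hφ
  obtain ⟨D, D1, -, -, -, hD⟩ := hV φ hφ
  obtain ⟨E, e1, e2⟩ := hz.env one_pos 1
  obtain ⟨K, K0, hK⟩ := e1 A (by linarith)
  filter_upwards [decay C, eventually_ge_atTop 10, eventually_ge_atTop (200 * D),
    eventually_ge_atTop (24 * Real.exp A * K / η),
    eventually_ge_atTop (24 * 10 ^ 12 * 1296 * D ^ 3 / η),
    eventually_ge_atTop (4 * 40000 * 48 * D / η)] with t hd t1 t2 t3 t4 t5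
  rw [div_le_iff₀ η0] at t3 t4 t5
  have t0 : 0 < t := by linarith
  have p (n : ℕ) (hn : n ≠ 0) : t ≤ t ^ n := le_self_pow₀ (by linarith) hn
  have p5 := p 5 (by norm_num)
  have p20 := p 20 (by norm_num)
  have p21 := p 21 (by norm_num)
  have hb := exp_big t1
  set b := Real.exp (t ^ 4)
  have b0 : 0 < b := Real.exp_pos _
  obtain ⟨-, s2, s3, s4, -, -, s7, s8, -⟩ := id hS
  filter_upwards [hC (b + 3 * t ^ 5), hD (t ^ 5) (by linarith), hD (3 * t ^ 5) (by linarith),
    hD b (by linarith), e2, hK, sml_six hS, s7, s8, eventually_ge_atTop (20 * t ^ 20),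
    Real.tendsto_log_atTop.eventually_ge_atTop 1,
    Real.tendsto_log_atTop.eventually_ge_atTop (C * (400 * t ^ 20))]
    with T hC d1 d2 d3 e2 hK s6 s7 s8 T1 L1 L2
  have T0 : 1 ≤ T := by linarith
  have X1 : 1 ≤ 2 * t ^ 20 := by linarith
  have m1 : Sml T (fun u => Real.exp (A * E T u)) K := ⟨fun _ => (Real.exp_pos _).le, hK⟩
  have n1 := sml_sum hS T0 X1 (show 0 ≤ Real.exp A / t ^ 21 by positivity) K0.le m1
    (η' := η / 4) (by
      rw [show 3 * (2 * t ^ 20) * (Real.exp A / t ^ 21 * K) = 6 * Real.exp A * K / t by field_simp; ring,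
        div_le_iff₀ t0]
      linarith)
  have q : 3 * (2 * t ^ 20) * (10 ^ 12 * (1296 * (D / t ^ 10) ^ 3)) ≤ η / 4 := by
    rw [show 3 * (2 * t ^ 20) * (10 ^ 12 * (1296 * (D / t ^ 10) ^ 3)) =
      6 * 10 ^ 12 * 1296 * D ^ 3 / t ^ 10 by field_simp; ring, div_le_iff₀ (by positivity)]
    linarith only [mul_le_mul_of_nonneg_left (p 10 (by norm_num)) η0.le, t4]
  have m2 := s6 _ (D / t ^ 10) (d1.1.trans (le_of_eq (by ring)))
  have m3 := s6 _ (D / t ^ 10) (d2.1.trans (by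
    refine div_le_div_of_nonneg_left (by linarith) (by positivity) ?_
    linarith only [show 0 ≤ t ^ 10 by positivity, show (3 * t ^ 5) ^ 2 = 9 * t ^ 10 by ring]))
  have n2 := sml_sum hS T0 X1 (show (0 : ℝ) ≤ 10 ^ 12 by positivity) (by positivity) m2 q
  have n3 := sml_sum hS T0 X1 (show (0 : ℝ) ≤ 10 ^ 12 by positivity) (by positivity) m3 q
  have m4 := s3 _ _ _ ((200 * t ^ 20) ^ 2) (by positivity) (s7 _ (ca φ T b) s8)
  have n4 := s4 _ _ _ _ (η / 4) T0 m4 (fun u => ⟨m4.1 u, le_rfl⟩) (by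
    have a : D / b ^ 2 ≤ D / (t ^ 21) ^ 2 :=
      div_le_div_of_nonneg_left (by linarith) (by positivity) (by gcongr)
    calc _ ≤ (200 * t ^ 20) ^ 2 * (48 * (D / (t ^ 21) ^ 2)) := by gcongr; exact d3.1.trans a
      _ = 40000 * 48 * D / t ^ 2 := by field_simp; ring
      _ ≤ _ := by
        rw [div_le_iff₀ (by positivity)]
        linarith only [mul_le_mul_of_nonneg_left (p 2 (by norm_num)) η0.le, t5])
  refine ⟨_, s4 _ _ _ _ η T0 (s2 _ _ _ _ _ (s2 _ _ _ _ _ n1 n2) (s2 _ _ _ _ _ n3 n4))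
    (fun u => ⟨(s2 _ _ _ _ _ (s2 _ _ _ _ _ n1 n2) (s2 _ _ _ _ _ n3 n4)).1 u, le_rfl⟩)
    (by linarith), fun u u1 u2 hu => ?_⟩
  have g1 := n1.1 u
  have g2 := n2.1 u
  have g3 := n3.1 u
  have g4 := n4.1 u
  simp only at hu g1 g2 g3 g4
  set L := Real.log T with hL
  have L0 : 0 < L := by linarith
  have rg {v : ℤ} (hv : |(v : ℝ)| ≤ 2 * t ^ 20) :
      11 / 10 * T ≤ u + v / L ∧ u + v / L ≤ 19 / 10 * T := by
    have a : |(v : ℝ) / L| ≤ T / 10 := by
      rw [abs_div, abs_of_pos L0]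
      exact (div_le_self (abs_nonneg _) L1).trans (by linarith)
    have := abs_le.1 a
    constructor <;> linarith [this.1, this.2]
  have en {v : ℤ} (hv : |(v : ℝ)| ≤ 2 * t ^ 20) :
      ‖ZZ (sc T (u + v / L) 1)‖ ≤ L * (21 * Real.log t / A - 1) := by
    have a := term_lt (Φ := fun u => Real.exp (A * E T u)) (by positivity) m1.1
      (show ∑ v ∈ VV (2 * t ^ 20), Real.exp A / t ^ 21 * Real.exp (A * E T (u + v / L)) < 1 by
        linarith) hv
    refine (e2 _ _ (rg hv).1 (rg hv).2 ?_ ?_ ?_).trans (mul_le_mul_of_nonneg_left ?_ L0.le)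
    · rw [sc_re]; simp [hL]
    · rw [sc_re]; simp [hL]
    · rw [sc_im]; simp; positivity
    · rw [div_mul_eq_mul_div, div_lt_one (by positivity), ← Real.exp_add,
        ← Real.lt_log_iff_exp_lt (by positivity), Real.log_pow] at a
      rw [le_sub_iff_add_le, le_div_iff₀ (by linarith)]
      push_cast at a
      linarith
  have se {v : ℤ} (hv : |(v : ℝ)| ≤ 2 * t ^ 20) {a : ℝ} (a1 : t ≤ a) (a2 : a ≤ b + 3 * t ^ 5) :
      ‖ZZ (sc T (u + v / L) a)‖ ≤
        L * (‖DP (NT T) (ca φ T a) (u + v / L)‖ + 1 / (200 * t ^ 20)) := by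
    have h := hC _ a _ (rg hv).1 (rg hv).2 (by linarith) a2 (en hv)
    have h1 : C * Real.exp (-(a / 14)) * (21 * Real.log t / A - 1 + 1) ≤ 1 / (400 * t ^ 20) := by
      rw [le_div_iff₀ (by positivity), sub_add_cancel]
      refine le_trans ?_ (hd a a1)
      have := Real.log_nonneg (show 1 ≤ t by linarith)
      gcongr
      exact div_le_self (by positivity) A1
    have h2 : C / L ≤ 1 / (400 * t ^ 20) := by
      rw [div_le_div_iff₀ L0 (by positivity)]; linarith
    have h3 := norm_sub_le (ZZ (sc T (u + v / L) a) / (L : ℝ) + DP (NT T) (ca φ T a) (u + v / L))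
      (DP (NT T) (ca φ T a) (u + v / L))
    rw [add_sub_cancel_right, norm_div, norm_real, Real.norm_of_nonneg L0.le] at h3
    rw [← div_le_iff₀' L0, show 1 / (200 * t ^ 20) = 1 / (400 * t ^ 20) + 1 / (400 * t ^ 20) by
      field_simp; norm_num]
    linarith
  have de {v : ℤ} (hv : |(v : ℝ)| ≤ 2 * t ^ 20) {a : ℝ} (a1 : t ≤ a) (a2 : a ≤ b + 3 * t ^ 5)
      (d : ∑ n ∈ QT T, |ca φ T a n| ≤ D / a)
      (h : ∑ v ∈ VV (2 * t ^ 20), 10 ^ 12 * ‖DP (PT T) (ca φ T a) (u + v / L)‖ ^ 6 < 1) :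
      ‖ZZ (sc T u (a + v * I))‖ ≤ L / 50 := by
    have h1 := term_lt (Φ := fun u => ‖DP (PT T) (ca φ T a) u‖ ^ 6) (by positivity)
      (fun _ => by positivity) h hv
    have h2 : ‖DP (PT T) (ca φ T a) (u + v / L)‖ ≤ 1 / 100 :=
      le_of_pow_le_pow_left₀ (n := 6) (by norm_num) (by norm_num) (by linarith)
    have h3 : D / a ≤ 1 / 200 := by rw [div_le_iff₀ (by linarith)]; linarith
    have h4 : 1 / (200 * t ^ 20) ≤ 1 / 200 := one_div_le_one_div_of_le (by norm_num) (by linarith)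
    have h5 := dp_split T (u + v / L) (ca φ T a)
    rw [← ofReal_intCast, sc_shift]
    exact (se hv a1 a2).trans ((mul_le_mul_of_nonneg_left (c := 1 / 50)
      (by linarith only [h2, h3, h4, h5, d]) L0.le).trans_eq (by ring))
  refine ⟨fun v hv => ⟨?_, ?_, ?_⟩, ?_⟩
  · rw [← ofReal_intCast, sc_shift]; exact en hv
  · exact_mod_cast de hv p5 (by linarith) d1.2 (by linarith)
  · exact_mod_cast de hv (a := 3 * t ^ 5) (by linarith) (by linarith) d2.2 (by linarith)
  · have h := se (v := 0) (by simp; positivity) (a := b) (by linarith) (by linarith)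
    simp only [Int.cast_zero, zero_div, add_zero] at h
    have h2 : 200 * t ^ 20 * ‖DP (NT T) (ca φ T b) u‖ ≤ 1 :=
      le_of_pow_le_pow_left₀ (n := 2) (by norm_num) (by norm_num) (by rw [mul_pow]; linarith)
    calc _ ≤ L * (‖DP (NT T) (ca φ T b) u‖ + 1 / (200 * t ^ 20)) * (100 * t ^ 20) := by gcongr
      _ = L * ((200 * t ^ 20 * ‖DP (NT T) (ca φ T b) u‖ + 1) / 2) := by field_simp; ring
      _ ≤ _ := mul_le_of_le_one_right L0.le (by linarith only [h2])

end Pool.Agent.MP_f0209c_nt.Rg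

namespace Pool.Agent.MP_f0209c_nt.Rg
open Complex Set Filter Topology ArithmeticFunction Ch Pp

namespace GOODaux

lemma logb {t : ℝ} (h : 1 ≤ t) : (Real.log (t ^ 20) + 1) ^ 6 ≤ 41 ^ 6 * t ^ 3 := by
  have t0 : 0 ≤ t := by linarith
  have s1 : 1 ≤ √t := Real.one_le_sqrt.2 h
  have a : Real.log t ≤ 2 * √t := by
    have := Real.log_le_sub_one_of_pos (show 0 < √t by linarith)
    rw [Real.log_sqrt t0] at this
    linarith
  have l0 := Real.log_nonneg h
  rw [Real.log_pow]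
  calc _ ≤ (41 * √t) ^ 6 := pow_le_pow_left₀ (by positivity) (by push_cast; linarith) 6
    _ = 41 ^ 6 * ((√t) ^ 2) ^ 3 := by ring
    _ = _ := by rw [Real.sq_sqrt t0]

lemma split (T : ℝ) (c : ℕ → ℝ) (u w : ℝ) : DP (NT T) c (u + w) = DP (PT T) c u +
    ∑ p ∈ PT T, ((c p : ℂ) * (ee w p - 1)) * ee u p + DP (QT T) c (u + w) := by
  unfold DP PT QT
  rw [← Finset.sum_filter_add_sum_filter_not (NT T) Nat.Prime, ← Finset.sum_add_distrib]
  congr 1
  exact Finset.sum_congr rfl fun p _ => by rw [ee_add]; ring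

lemma card {X : ℝ} (h : 1 ≤ X) : ((Finset.Icc (-⌊X⌋) ⌊X⌋).card : ℝ) ≤ 3 * X := by
  have a : 0 ≤ ⌊X⌋ := Int.floor_nonneg.2 (by linarith)
  have b := Int.floor_le X
  have c : (((Finset.Icc (-⌊X⌋) ⌊X⌋).card : ℤ) : ℝ) = ((⌊X⌋ + 1 - -⌊X⌋ : ℤ) : ℝ) := by
    rw [Int.card_Icc_of_le _ _ (by omega)]
  push_cast at c
  linarith

lemma last {a b : ℂ} {t : ℝ} (h : 1 < t) (l : 252 * Real.log t ≤ Real.log ‖b / a‖) :
    ‖a / b‖ * (t ^ 21) ^ 12 ≤ 1 := by
  have l0 := Real.log_pos h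
  have p : 0 < ‖b / a‖ := by
    refine (norm_nonneg _).lt_of_ne' fun e => ?_
    rw [e, Real.log_zero] at l
    linarith
  have q : (t ^ 21) ^ 12 ≤ ‖b / a‖ := by
    rw [← Real.log_le_log_iff (by positivity) p, Real.log_pow, Real.log_pow]
    push_cast; linarith
  rw [← inv_div, norm_inv, inv_mul_le_iff₀ p, mul_one]
  exact q

end GOODaux

theorem GOOD (hGF : GF_s) (hV : VAR1_s) (hS : SML_s) : GOOD_s := by
  intro ρ hρ φ hφ θ η θ0 η0
  obtain ⟨C, C1, hC⟩ := hGF ρ hρ φ hφ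
  obtain ⟨D, D1, -, v2, v3, -⟩ := hV φ hφ
  obtain ⟨s1, s2, s3, s4, s5, -, s7, s8, s9⟩ := hS
  filter_upwards [eventually_gt_atTop 1, eventually_ge_atTop (4 * (22 * C + 253) / (3 * θ)),
    eventually_ge_atTop (2 * (3 * (4 / θ) ^ 12 * (48 * (6 ^ 6 * (D ^ 6 * 41 ^ 6)))) / η)]
    with t t1 t2 t3
  have t0 : 0 < t := by linarith
  have X1 : 1 ≤ t ^ 20 := one_le_pow₀ t1.le
  have b0 := (Real.exp_pos (t ^ 4)).le
  filter_upwards [hC _ b0, v2 _ _ b0 X1, v3 _ (η / (288 * t ^ 20)) b0 (by positivity), s7, s8, s9,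
    eventually_ge_atTop 3, eventually_ge_atTop (10 * t ^ 20)] with T g w2 w3 r7 r8 r9 T3 TX
  have L1 : 1 ≤ Real.log T := by
    rw [Real.le_log_iff_exp_le (by linarith)]
    linarith [Real.exp_one_lt_d9]
  set c := cb φ T (Real.exp (t ^ 4)) with hc
  have mem : ∀ v : ℤ, |(v : ℝ)| ≤ t ^ 20 ↔ v ∈ Finset.Icc (-⌊t ^ 20⌋) ⌊t ^ 20⌋ := fun v => by
    rw [Finset.mem_Icc, abs_le, neg_le, neg_le (a := ⌊t ^ 20⌋), Int.le_floor, Int.le_floor]
    push_cast; rfl
  refine ⟨fun u => ∑ v ∈ Finset.Icc (-⌊t ^ 20⌋) ⌊t ^ 20⌋, ((4 / (θ * t ^ 2)) ^ 12 *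
    ‖∑ p ∈ PT T, ((c p : ℂ) * (ee ((v : ℝ) / Real.log T) p - 1)) * ee u p‖ ^ (2 * 6) +
    ‖DP (QT T) c (u + (v : ℝ) / Real.log T)‖ ^ 2), ?_, ?_⟩
  · have hq := r7 (QT T) c fun n hn => r8 n (Finset.mem_of_mem_filter n hn)
    refine s4 T _ _ _ _ (by linarith) (s5 ℤ (Finset.Icc (-⌊t ^ 20⌋) ⌊t ^ 20⌋) T _ _ fun v _ =>
      s2 T _ _ _ _ (s3 T _ _ ((4 / (θ * t ^ 2)) ^ 12) (by positivity) (r9 (PT T)
        (fun p => (c p : ℂ) * (ee ((v : ℝ) / Real.log T) p - 1)) 6 subset_rfl le_rfl))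
        (s1 T _ _ ((v : ℝ) / Real.log T) hq))
      (fun u => ⟨Finset.sum_nonneg fun v _ => by positivity, le_rfl⟩) ?_
    refine (Finset.sum_le_card_nsmul _ _ ((4 / (θ * t ^ 2)) ^ 12 *
      (48 * (6 ^ 6 * (D ^ 6 * (41 ^ 6 * t ^ 3)))) + 48 * (η / (288 * t ^ 20))) fun v hv => ?_).trans ?_
    · have a := w2 v ((mem v).2 hv)
      have e : ∑ p ∈ PT T, ‖(c p : ℂ) * (ee ((v : ℝ) / Real.log T) p - 1)‖ ^ 2 =
          ∑ p ∈ PT T, c p ^ 2 * ‖ee ((v : ℝ) / Real.log T) p - 1‖ ^ 2 :=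
        Finset.sum_congr rfl fun p _ => by rw [norm_mul, mul_pow, norm_real, Real.norm_eq_abs, sq_abs]
      have b : (∑ p ∈ PT T, c p ^ 2 * ‖ee ((v : ℝ) / Real.log T) p - 1‖ ^ 2) ^ 6 ≤
          D ^ 6 * (41 ^ 6 * t ^ 3) := by
        refine (pow_le_pow_left₀ (Finset.sum_nonneg fun p _ => by positivity) a 6).trans ?_
        rw [mul_pow]
        exact mul_le_mul_of_nonneg_left (GOODaux.logb t1.le) (by positivity)
      rw [e]
      push_cast
      gcongr
    · rw [nsmul_eq_mul]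
      refine (mul_le_mul_of_nonneg_right (GOODaux.card X1) (by positivity)).trans ?_
      rw [div_le_iff₀ η0] at t3
      have e : 3 * t ^ 20 * ((4 / (θ * t ^ 2)) ^ 12 * (48 * (6 ^ 6 * (D ^ 6 * (41 ^ 6 * t ^ 3)))) +
          48 * (η / (288 * t ^ 20))) =
          3 * (4 / θ) ^ 12 * (48 * (6 ^ 6 * (D ^ 6 * 41 ^ 6))) / t + η / 2 := by
        field_simp; ring
      rw [e]
      have : 3 * (4 / θ) ^ 12 * (48 * (6 ^ 6 * (D ^ 6 * 41 ^ 6))) / t ≤ η / 2 := by
        rw [div_le_iff₀ t0]; linarith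
      linarith
  · intro u u1 u2 hΦ hθ v hv hZ
    have k := (Finset.single_le_sum (f := fun v : ℤ => (4 / (θ * t ^ 2)) ^ 12 *
      ‖∑ p ∈ PT T, ((c p : ℂ) * (ee ((v : ℝ) / Real.log T) p - 1)) * ee u p‖ ^ (2 * 6) +
      ‖DP (QT T) c (u + (v : ℝ) / Real.log T)‖ ^ 2) (fun v _ => by positivity)
      ((mem v).1 hv)).trans_lt hΦ
    have sp := GOODaux.split T c u ((v : ℝ) / Real.log T)
    set Δ := ∑ p ∈ PT T, ((c p : ℂ) * (ee ((v : ℝ) / Real.log T) p - 1)) * ee u p
    set Q := DP (QT T) c (u + (v : ℝ) / Real.log T)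
    have k1 : 4 / (θ * t ^ 2) * ‖Δ‖ < 1 := by
      refine lt_of_pow_lt_pow_left₀ 12 zero_le_one ?_
      rw [mul_pow, one_pow]
      have : 0 ≤ ‖Q‖ ^ 2 := by positivity
      norm_num at k ⊢
      linarith
    have k2 : ‖Q‖ < 1 := by
      refine lt_of_pow_lt_pow_left₀ 2 zero_le_one ?_
      have : 0 ≤ (4 / (θ * t ^ 2)) ^ 12 * ‖Δ‖ ^ (2 * 6) := by positivity
      linarith
    rw [div_mul_eq_mul_div, div_lt_one (by positivity)] at k1
    have w : |(v : ℝ) / Real.log T| ≤ T / 10 := by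
      rw [abs_div, abs_of_pos (show 0 < Real.log T by linarith)]
      exact (div_le_self (abs_nonneg _) L1).trans (by linarith)
    rw [abs_le] at w
    rw [← ofReal_intCast, sc_shift] at hZ
    have f := (abs_le.1 (g (u + (v : ℝ) / Real.log T) _ (by linarith) (by linarith) hZ)).1
    rw [← ofReal_intCast, add_right_comm, fz_shift, fz_shift]
    refine GOODaux.last t1 ?_
    rw [sp, add_re, add_re] at f
    have a1 := re_le_norm Δ
    have a2 := re_le_norm Q
    have l0 := Real.log_pos t1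
    have l1 := Real.log_le_sub_one_of_pos t0
    rw [div_le_iff₀ (by positivity)] at t2
    nlinarith [mul_le_mul_of_nonneg_right t2 t0.le, mul_le_mul_of_nonneg_left l1 (show 0 ≤ C by linarith),
      mul_le_mul_of_nonneg_left t1.le (show 0 ≤ C by linarith)]

end Pool.Agent.MP_f0209c_nt.Rg
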