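import Pool.Agent.MP_f0209c_nt.Rg.Cx
import Pool.Agent.MP_f0209c_nt.Rg.Det
import Pool.Agent.MP_f0209c_nt.Rg.Ze1
import Pool.Agent.MP_f0209c_nt.Rg.Ze2

/-! Assembly of the rigidity theorem. -/

/-! The assembly at one scale. -/

namespace Pool.Agent.MP_f0209c_nt.Rg
open Complex Set Filter Topology ArithmeticFunction Ch Pp

namespace PROPaux

lemma ev_y {ε : ℝ} (hε : 0 < ε) : ∃ y : ℝ, 10 ≤ y ∧ 400 * Real.exp (-(y / 2)) ≤ ε := by
  have a : Tendsto (fun y : ℝ => 400 * Real.exp (-(y / 2))) atTop (𝓝 (400 * 0)) :=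
    (Real.tendsto_exp_neg_atTop_nhds_zero.comp
      (tendsto_id.atTop_div_const (by norm_num))).const_mul 400
  rw [mul_zero] at a
  exact ((eventually_ge_atTop 10).and (a.eventually (ge_mem_nhds hε))).exists

lemma ev_t {ε : ℝ} (hε : 0 < ε) : ∀ᶠ t : ℝ in atTop, 3 * t ^ 5 * Real.exp (-t ^ 4) ≤ ε := by
  filter_upwards [eventually_ge_atTop 1, eventually_ge_atTop (6 / ε)] with t h1 h2
  have a : (t ^ 4) ^ 2 / 2 ≤ Real.exp (t ^ 4) := by
    have := Real.quadratic_le_exp_of_nonneg (show 0 ≤ t ^ 4 by positivity)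
    have : 0 ≤ t ^ 4 := by positivity
    linarith
  have b : 6 ≤ ε * t := by rw [div_le_iff₀ hε] at h2; linarith
  have c : t ^ 6 ≤ (t ^ 4) ^ 2 := by rw [← pow_mul]; exact pow_le_pow_right₀ h1 (by norm_num)
  have d : 0 < t ^ 5 := by positivity
  rw [Real.exp_neg, ← div_eq_mul_inv, div_le_iff₀ (Real.exp_pos _)]
  have e : 3 * t ^ 5 ≤ ε * (t ^ 6 / 2) := by
    have := mul_le_mul_of_nonneg_right b d.le
    calc 3 * t ^ 5 = 6 * t ^ 5 / 2 := by ring
      _ ≤ ε * t * t ^ 5 / 2 := by linarith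
      _ = _ := by ring
  exact e.trans (mul_le_mul_of_nonneg_left (by linarith) hε.le)

/-- from the phase to the half integers -/
lemma last (hLAT : LAT_s) {k g D e n ε : ℝ} (k1 : 3 ≤ k) (k2 : k ≤ Real.pi) (he : e ≤ 1)
    (he' : e ≤ ε) (hn : 100 ≤ n) (d1 : k ≤ D) (d2 : D ≤ 8 * n) (hk : 3 * n * (Real.pi - k) ≤ ε)
    (hp : ‖exp (2 * Real.pi / k * D * I) - 1‖ ≤ e) (hg : |g - D| ≤ 2 * ε) (hε : 0 < ε) :
    ∃ m : ℕ, 1 ≤ m ∧ |g / (2 * Real.pi) - m / 2| < ε := by
  obtain ⟨m, hm⟩ := hLAT.1 (2 * Real.pi / k * D) e (by simpa using hp)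
  have p3 := Real.pi_gt_three
  have k0 : 0 < k := by linarith
  have e0 : 0 ≤ e := (norm_nonneg _).trans hp
  have a : |D - k * m| ≤ e := by
    have : D - k * m = k / (2 * Real.pi) * (2 * Real.pi / k * D - 2 * Real.pi * m) := by
      field_simp
    rw [this, abs_mul, abs_of_pos (by positivity)]
    have q : k / (2 * Real.pi) ≤ 1 / 2 := by rw [div_le_iff₀ (by positivity)]; linarith
    calc _ ≤ 1 / 2 * (2 * e) := mul_le_mul q hm (abs_nonneg _) (by norm_num)
      _ = e := by ring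
  rw [abs_le] at a hg
  have m0 : (0 : ℝ) < m := by
    by_contra q
    linarith [mul_nonneg k0.le (neg_nonneg.2 (not_lt.1 q)), a.2]
  have m1 : (m : ℝ) ≤ 3 * n := by
    by_contra q
    linarith [mul_le_mul k1 (not_le.1 q).le (by linarith) k0.le, a.1]
  have m2 : 0 < m := by exact_mod_cast m0
  lift m to ℕ using m2.le
  refine ⟨m, by exact_mod_cast m2, ?_⟩
  have b : (m : ℝ) * (Real.pi - k) ≤ ε :=
    (mul_le_mul_of_nonneg_right (by exact_mod_cast m1) (by linarith)).trans hk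
  have b0 : 0 ≤ (m : ℝ) * (Real.pi - k) := mul_nonneg (by positivity) (by linarith)
  have c : g / (2 * Real.pi) - m / 2 = (g - Real.pi * m) / (2 * Real.pi) := by field_simp
  push_cast at a
  rw [c, abs_div, abs_of_pos (show 0 < 2 * Real.pi by positivity), div_lt_iff₀ (by positivity),
    abs_lt]
  have q := mul_lt_mul_of_pos_left p3 hε
  constructor <;> linarith [a.1, a.2, hg.1, hg.2]

end PROPaux
open PROPaux

theorem PROP (hDET : DET_s) (hWIN : WIN_s) (hDIAG : DIAG_s) (hEXC : EXC_s) (hCRU : CRU_s)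
    (hLOC : LOC_s) (hGOOD : GOOD_s) (hPAR : PAR_s) (hDAT : DAT_s) (hLAT : LAT_s) (hSML : SML_s) :
    PROP_s := by
  intro ρ hρ φ hφ ε θ η hε hθ hη
  obtain ⟨y, y1, y2⟩ := ev_y (lt_min hε one_pos)
  obtain ⟨C, C1, hC⟩ := hEXC
  obtain ⟨C', C2, hC'⟩ := hCRU ρ hρ
  have η3 : 0 < η / 3 := by positivity
  have A1 : 1 ≤ 100 * (y + 8) ^ 2 := by nlinarith
  filter_upwards [hPAR y y1, hLOC ρ hρ _ _ A1 η3, hGOOD ρ hρ φ hφ θ _ hθ η3, ev_t hε,
    eventually_ge_atTop 1, eventually_ge_atTop (2 * C / η),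
    eventually_ge_atTop (2700000000 * C' / η)] with t ⟨ok, cb1⟩ hL hG ht t1 t2 t3
  set p : Par := ⟨t ^ 5, t ^ 20, t ^ 15 / 30000, t ^ 21, 21 * Real.log t / (100 * (y + 8) ^ 2) - 1, y,
    Real.exp (t ^ 4), Real.pi - Real.exp (-t ^ 4), Real.exp (-(5 * (t ^ 15 / 30000))),
    1 / (1000 * t ^ 40), 2 * Real.exp (t ^ 4)⟩ with hp
  have t0 : 0 < t := by linarith
  have xb := ok.xb
  have bx := ok.bx
  have b3 : 3 ≤ p.b := by linarith
  have κ0 := ok.κ0
  have κ1 := ok.κ1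
  obtain ⟨δ, ψ, δ0, δ1, δ2, hψ, hD⟩ := hDIAG p.b p.c p.k (p.κ / 2) (by linarith) ok.c0 cb1 ok.k1
    ok.k2 (by
      show (Real.pi - (Real.pi - Real.exp (-t ^ 4))) * Real.exp (t ^ 4) ≤ 1
      rw [sub_sub_cancel, ← Real.exp_add, neg_add_cancel, Real.exp_zero]) (by positivity)
  obtain ⟨e, e0, hE⟩ := hC ρ hρ p.b p.c p.k δ p.P (2 * p.X) ψ (by linarith) ok.c0
    (by linarith [ok.c1, ok.τ1]) ok.k1 (ok.k2.trans Real.pi_le_four) δ0 (by linarith [ok.pb])
    (by linarith) hψ hD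
  have G20 : 20 ≤ p.G := by
    have a : (100 : ℝ) ^ 3 ≤ (t ^ 5) ^ 3 := pow_le_pow_left₀ (by norm_num) ok.n1 3
    rw [← pow_mul] at a
    show 20 ≤ t ^ 15 / 30000
    norm_num at a
    linarith
  refine ⟨p.k, e, sub_lt_self _ (Real.exp_pos _), e0, ?_⟩
  have n1 := ok.n1
  filter_upwards [hE, hC' p.b δ p.X p.G p.κ ψ b3 δ0 δ2 (by linarith) G20 (by linarith)
    (by linarith) hψ, hL, hG, hWIN ρ hρ p.r p.μ (by linarith [ok.r1])
      (by show 0 < 1 / (1000 * t ^ 40); positivity), eventually_ge_atTop (30 * p.n),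
    Real.tendsto_log_atTop.eventually_ge_atTop 1,
    Real.tendsto_log_atTop.eventually_ge_atTop (8 * p.n / ε)]
    with T hE ⟨Φ1, s1, c1⟩ ⟨Φ2, s2, c2⟩ ⟨Φ3, s3, c3⟩ hW T1 L1 L2 S hS hc
  obtain ⟨Z, Z1, Z2⟩ := hE S hS hc
  have L0 : 0 < Real.log T := by linarith
  have Li : 1 / Real.log T ≤ 1 := by rw [div_le_one L0]; exact L1
  have T0 : 3000 ≤ T := by linarith
  refine ⟨Z, fun u => Φ1 u + Φ2 u + Φ3 u, Z1.trans ?_, ?_, fun j hj j1 j2 => ⟨?_, ?_⟩⟩
  · refine mul_le_mul_of_nonneg_right (mul_le_mul_of_nonneg_right ?_ (by linarith)) L0.le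
    show C * (2 * t ^ 20) / t ^ 21 ≤ η
    rw [div_le_iff₀ hη] at t2
    rw [div_le_iff₀ (by positivity)]
    calc C * (2 * t ^ 20) = 2 * C * t ^ 20 := by ring
      _ ≤ t * η * t ^ 20 := mul_le_mul_of_nonneg_right t2 (by positivity)
      _ = _ := by ring
  · have s := hSML.2.1 _ _ _ _ _ (hSML.2.1 _ _ _ _ _ s1 s2) s3
    refine hSML.2.2.2.1 _ _ _ _ _ (by linarith) s (fun u => ⟨s.1 u, le_rfl⟩) ?_
    have a : C' * t ^ 20 * Real.log (Real.exp (t ^ 4)) ^ 2 / (t ^ 15 / 30000) ^ 2 ≤ η / 3 := by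
      rw [div_le_iff₀ hη] at t3
      rw [Real.log_exp, div_le_iff₀ (by positivity)]
      have q : t * η ≤ t ^ 2 * η := mul_le_mul_of_nonneg_right (le_self_pow₀ t1 two_ne_zero) hη.le
      calc C' * t ^ 20 * (t ^ 4) ^ 2 = 2700000000 * C' * (t ^ 28 / 2700000000) := by ring
        _ ≤ t ^ 2 * η * (t ^ 28 / 2700000000) :=
          mul_le_mul_of_nonneg_right (t3.trans q) (by positivity)
        _ = _ := by ring
    have a' : C' * p.X * Real.log p.b ^ 2 / p.G ^ 2 ≤ η / 3 := a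
    linarith
  · have a := (Z2 j hj j1 j2 _ le_rfl (le_add_of_nonneg_right (by positivity)) j
      (by simp only [xs, sub_self, mul_zero, abs_zero]; linarith)).1
    simp only [xs, sub_self, mul_zero, sub_zero] at a
    rw [div_le_iff₀ L0]
    linarith [ok.k1]
  · intro u u1 u2 hΦ hθu
    have v1 : 13 / 10 * T ≤ u := by linarith
    have v2 : u ≤ 18 / 10 * T := by linarith
    have f1 := s1.1 u
    have f2 := s2.1 u
    have f3 := s3.1 u
    have hΦ' : Φ1 u + Φ2 u + Φ3 u < 1 := hΦ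
    obtain ⟨J, A, l, A0, wi, w1, w2, w3⟩ := hW u (by linarith) (by linarith)
    obtain ⟨l1, l2⟩ := c2 u v1 v2 (by linarith)
    have lt0 := Real.log_nonneg t1
    have hd : Dat p A J (xs ρ T u) l (Rz ψ p.b δ T u) := by
      refine hDAT p A J _ l _ (fz T u) (fun z => ZZ (sc T u z)) (Real.log T) ok L0 A0 wi
        (diff_Rz _ _ _ _ _) (fun a b hab => mul_le_mul_of_nonneg_left
          (sub_le_sub_right (hρ.mono hab) u) L0.le) w1 w2 w3 (Z2 j hj j1 j2 u u1 u2)
        (fun v hv => ?_) l2 (c1 u v1 v2 (by linarith)) fun v hv => ?_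
      · simpa [hp] using l1 v hv
      · refine c3 u v1 v2 (by linarith) hθu v hv ((l1 v (hv.trans (by
          show p.X ≤ 2 * p.X; linarith))).1.trans (mul_le_mul_of_nonneg_left ?_ L0.le))
        have := div_le_self (show 0 ≤ 21 * Real.log t by positivity) A1
        linarith
    have xj : |xs ρ T u j| ≤ 1 := by
      rw [← sub_le_iff_le_add', le_div_iff₀ L0] at u2
      rw [xs, abs_mul, abs_of_pos L0, abs_sub_comm, abs_of_nonneg (sub_nonneg.2 u1), mul_comm]
      exact u2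
    obtain ⟨d1, d2⟩ := hDET p A J _ l _ hd j xj
    have d0 := hd.gap j (by linarith)
    have dx : xs ρ T u (j + 1) - xs ρ T u j = Real.log T * ((ρ (j + 1)).im - (ρ j).im) := by
      unfold xs; ring
    have g0 : (ρ j).im ≤ (ρ (j + 1)).im := hρ.mono j.le_succ
    have g1 : (ρ (j + 1)).im - (ρ j).im ≤ 8 * p.n := by
      rw [dx] at d1
      exact (le_mul_of_one_le_left (sub_nonneg.2 g0) L1).trans d1
    have g2 : (ρ (j + 1)).im - (ρ j).im ≤ ε := by
      rw [div_le_iff₀ hε] at L2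
      rw [dx] at d1
      exact le_of_mul_le_mul_left (d1.trans L2) L0
    have la := hLAT.2 T (ρ j).im (ρ (j + 1)).im (by linarith) (by linarith) g0 (by linarith)
    rw [← dx] at la
    have := last hLAT (e := 400 * Real.exp (-(p.y / 2))) ok.k1 ok.k2 (y2.trans (min_le_right _ _))
      (y2.trans (min_le_left _ _)) n1 d0 d1 (by
        show 3 * t ^ 5 * (Real.pi - (Real.pi - Real.exp (-t ^ 4))) ≤ ε
        rwa [sub_sub_cancel]) (by simpa using d2) (la.trans (by linarith)) hε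
    rwa [sub_div] at this

end Pool.Agent.MP_f0209c_nt.Rg

namespace Pool.Agent.MP_f0209c_nt.Rg
open Complex Set Filter Topology ArithmeticFunction Ch Pp

theorem SCA (hM : MULTI_s) (hV : VAR2_s) (hS : SML_s) : SCA_s := by
  intro φ hφ η hη
  obtain ⟨C, hC, hM⟩ := hM
  obtain ⟨K, hK, hV⟩ := hV φ hφ
  obtain ⟨-, sadd, smul, smono, ssum, -, s7, s8, -⟩ := hS
  obtain ⟨α, hα4, hα⟩ : ∃ α : ℝ, 4 ≤ α ∧ C / α ^ 2 ≤ η / 4 := by
    refine ⟨4 + 4 * C / η, by have : 0 ≤ 4 * C / η := by positivity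
                              linarith, ?_⟩
    have a : 0 ≤ 4 * C / η := by positivity
    rw [div_le_iff₀ (by positivity)]
    have b : η / 4 * (4 * C / η) = C := by field_simp
    have c : 4 * C / η ≤ (4 + 4 * C / η) ^ 2 := by nlinarith
    nlinarith
  have hα0 : 0 < α := by linarith
  obtain ⟨m, hm⟩ := exists_nat_gt (4 * (C * α ^ 2) / η)
  have hm0 : (0 : ℝ) < m := lt_trans (by positivity) hm
  have hm1 : 1 ≤ m := by exact_mod_cast hm0
  have hm2 : C * α ^ 2 / m ≤ η / 4 := by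
    rw [div_le_iff₀ hm0]; rw [div_lt_iff₀ hη] at hm; linarith
  obtain ⟨D, hD2, hD⟩ : ∃ D : ℝ, 2 ≤ D ∧ m * ((128 * α) ^ 2 * 144 / D ^ 4) ≤ η / 2 := by
    set q := 2 * (m * ((128 * α) ^ 2 * 144)) / η with hq
    have a : 0 ≤ q := by positivity
    refine ⟨2 + q, by linarith, ?_⟩
    rw [← mul_div_assoc, div_le_iff₀ (by positivity)]
    have b : η / 2 * q = m * ((128 * α) ^ 2 * 144) := by rw [hq]; field_simp
    have c : q ≤ (2 + q) ^ 4 := le_trans (by linarith) (le_self_pow₀ (by linarith) (by norm_num))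
    rw [← b]
    exact mul_le_mul_of_nonneg_left c (by positivity)
  have hD1 : 1 ≤ D := by linarith
  refine ⟨1 / (128 * α), m, D, by positivity, hm1, hD1, ?_⟩
  filter_upwards [eventually_ge_atTop (14 + 2 * K)] with t ht
  have t1 : 1 ≤ t := by linarith
  have mono : ∀ i j : ℕ, i ≤ j → (t * D ^ i) ^ 4 ≤ (t * D ^ j) ^ 4 := fun i j h =>
    pow_le_pow_left₀ (by positivity)
      (mul_le_mul_of_nonneg_left (pow_le_pow_right₀ hD1 h) (by linarith)) _
  have low : ∀ i : ℕ, 14 + 2 * K ≤ (t * D ^ i) ^ 4 := fun i => by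
    have a := mono 0 i (Nat.zero_le _)
    rw [pow_zero, mul_one] at a
    exact ht.trans ((le_self_pow₀ t1 (by norm_num)).trans a)
  have hv := (eventually_all_finset (Finset.range m)).2 (fun i _ =>
    hV (Real.exp ((t * D ^ (i + 1)) ^ 4)) (Real.exp ((t * D ^ i) ^ 4))
      (by linarith [Real.add_one_le_exp ((t * D ^ i) ^ 4), low i])
      (Real.exp_le_exp.2 (mono i (i + 1) (Nat.le_succ i))))
  filter_upwards [hv, hM α m hα4 hm1, s7, s8, eventually_ge_atTop (1 : ℝ)] with T hv hM s7 s8 T1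
  set s : ℕ → ℝ := fun i => t * D ^ (i + 1) with hs
  set B : ℕ → Finset ℕ := fun i =>
    BT T (Real.exp ((t * D ^ (i + 1)) ^ 4)) (Real.exp ((t * D ^ i) ^ 4)) with hB
  set c : ℕ → ℕ → ℝ := fun i => cb φ T (Real.exp ((t * D ^ (i + 1)) ^ 4)) with hc
  have hBP : ∀ i, B i ⊆ PT T := fun i => Finset.filter_subset _ _
  have s0 : ∀ i, 0 < s i := fun i => by simp only [hs]; positivity
  have key : ∀ i < m, s i ^ 4 / 4 ≤ ∑ p ∈ B i, c i p ^ 2 ∧
      ∑ p ∈ PT T \ B i, c i p ^ 2 ≤ 3 * (s i ^ 4 / D ^ 4) := by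
    intro i hi
    obtain ⟨a, b⟩ := hv i (Finset.mem_range.2 hi)
    rw [Real.log_exp] at a b
    rw [Real.log_exp] at a
    have e : s i ^ 4 = (t * D ^ i) ^ 4 * D ^ 4 := by simp only [hs]; ring
    have d : (2 : ℝ) ^ 4 ≤ D ^ 4 := pow_le_pow_left₀ (by norm_num) hD2 _
    have l := low i
    have f := mul_le_mul_of_nonneg_left d (show 0 ≤ (t * D ^ i) ^ 4 by positivity)
    constructor
    · refine le_trans ?_ a
      change s i ^ 4 / 4 ≤ s i ^ 4 - _ - _
      linarith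
    · refine b.trans ?_
      rw [e, mul_div_cancel_right₀ _ (by positivity)]
      linarith
  obtain ⟨Φ, hΦ, hΦ'⟩ := hM B (fun i p => c i p / √(∑ p ∈ B i, c i p ^ 2)) hBP
    (fun i j hij => Finset.disjoint_left.2 (fun p hi hj => by
      have a := (Finset.mem_filter.1 hi).2.1
      have b := (Finset.mem_filter.1 hj).2.2
      have d := one_div_le_one_div_of_le (Real.exp_pos _) (Real.exp_le_exp.2 (mono (i + 1) j hij))
      linarith))
    (fun i hi => by
      have a : 0 < ∑ p ∈ B i, c i p ^ 2 := lt_of_lt_of_le (by have := s0 i; positivity) (key i hi).1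
      simp only [div_pow]
      rw [← Finset.sum_div, Real.sq_sqrt a.le, div_self a.ne'])
  have hΨ := ssum ℕ (Finset.range m) T
    (fun i u => (128 * α) ^ 2 / s i ^ 4 * ‖DP (PT T \ B i) (c i) u‖ ^ 2)
    (fun i => (128 * α) ^ 2 / s i ^ 4 * (48 * ∑ p ∈ PT T \ B i, c i p ^ 2)) (fun i _ =>
      smul _ _ _ _ (by positivity) (s7 _ _ (fun n hn =>
        s8 n (Finset.filter_subset _ _ (Finset.sdiff_subset hn)))))
  have h2 := sadd _ _ _ _ _ hΦ hΨ
  refine ⟨_, smono _ _ _ _ _ T1 h2 (fun u => ⟨h2.1 u, le_rfl⟩) ?_, fun u hu => ?_⟩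
  · have a := Finset.sum_le_card_nsmul (Finset.range m)
      (fun i => (128 * α) ^ 2 / s i ^ 4 * (48 * ∑ p ∈ PT T \ B i, c i p ^ 2))
      ((128 * α) ^ 2 * 144 / D ^ 4) (fun i hi => by
        have b := (key i (Finset.mem_range.1 hi)).2
        have d := s0 i
        refine (mul_le_mul_of_nonneg_left (mul_le_mul_of_nonneg_left b (by norm_num))
          (by positivity)).trans (le_of_eq ?_)
        field_simp; ring)
    rw [Finset.card_range, nsmul_eq_mul] at a
    linarith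
  · have a1 := hΦ.1 u
    have a2 := hΨ.1 u
    obtain ⟨i, hi, a3⟩ := hΦ' u (by linarith)
    refine ⟨i, hi, ?_⟩
    have d := s0 i
    have a4 : (128 * α) ^ 2 / s i ^ 4 * ‖DP (PT T \ B i) (c i) u‖ ^ 2 < 1 :=
      lt_of_le_of_lt (Finset.single_le_sum
        (f := fun i => (128 * α) ^ 2 / s i ^ 4 * ‖DP (PT T \ B i) (c i) u‖ ^ 2)
        (fun j _ => by positivity) (Finset.mem_range.2 hi)) (by linarith)
    have a5 : ‖DP (PT T \ B i) (c i) u‖ ≤ 1 / (128 * α) * s i ^ 2 := by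
      refine (pow_le_pow_iff_left₀ (norm_nonneg _) (by positivity) two_ne_zero).1 ?_
      rw [div_mul_eq_mul_div, div_lt_one (by positivity)] at a4
      rw [show (1 / (128 * α) * s i ^ 2) ^ 2 = s i ^ 4 / (128 * α) ^ 2 by field_simp,
        le_div_iff₀ (by positivity)]
      linarith
    have a6 : s i ^ 2 / 2 ≤ √(∑ p ∈ B i, c i p ^ 2) :=
      Real.le_sqrt_of_sq_le (le_trans (le_of_eq (by ring)) (key i hi).1)
    have a7 : (DP (B i) (fun p => c i p / √(∑ p ∈ B i, c i p ^ 2)) u).re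
        = (DP (B i) (c i) u).re / √(∑ p ∈ B i, c i p ^ 2) := by
      rw [← div_ofReal_re]
      congr 1
      simp only [DP, Finset.sum_div, ofReal_div]
      exact Finset.sum_congr rfl (fun p _ => by ring)
    rw [a7, ← neg_div, lt_div_iff₀ (lt_of_lt_of_le (by positivity) a6)] at a3
    have a8 := mul_le_mul_of_nonneg_left a6 (show 0 ≤ 1 / (32 * α) by positivity)
    have a9 : DP (PT T) (c i) u = DP (PT T \ B i) (c i) u + DP (B i) (c i) u :=
      (Finset.sum_sdiff (hBP i)).symm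
    change 1 / (128 * α) * s i ^ 2 ≤ -(DP (PT T) (c i) u).re
    rw [a9, add_re]
    have b1 := re_le_norm (DP (PT T \ B i) (c i) u)
    have b2 : 1 / (32 * α) * (s i ^ 2 / 2) = 2 * (1 / (128 * α) * s i ^ 2) := by field_simp; ring
    linarith

end Pool.Agent.MP_f0209c_nt.Rg

namespace Pool.Agent.MP_f0209c_nt.Rg
open Complex Set Filter Topology ArithmeticFunction Ch Pp

theorem ONE (hP : PROP_s) (hA : SCA_s) (hC : CNT_s) (hM : SML_s) : ONE_s :=
    fun ρ hz ε η ε0 η0 => by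
  obtain ⟨φ, hφ⟩ := exists_cut
  obtain ⟨θ, m, D, θ0, m1, D1, hS⟩ := hA φ hφ (η / 200) (by positivity)
  have m0 : (0 : ℝ) < m := by exact_mod_cast m1
  have hp := hP ρ hz φ hφ ε θ (η / (200 * m)) ε0 θ0 (by positivity)
  obtain ⟨t, hS, hp⟩ := (hS.and ((eventually_all_finset (Finset.range m)).2 fun i _ =>
    (tendsto_id.atTop_mul_const (show 0 < D ^ (i + 1) by positivity)).eventually hp)).exists
  simp only [id] at hp
  choose! k e k1 e0 hp using hp
  have ne : (Finset.range m).Nonempty := ⟨0, Finset.mem_range.2 m1⟩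
  refine ⟨(Finset.range m).sup' ne k, (Finset.range m).inf' ne e,
    (Finset.sup'_lt_iff ne).2 k1, (Finset.lt_inf'_iff ne).2 e0, ?_⟩
  filter_upwards [hS, (eventually_all_finset _).2 hp, hC, eventually_ge_atTop 1,
    Real.tendsto_log_atTop.eventually_ge_atTop 1] with T ⟨Ψ, s1, hS⟩ hp hC T1 L1 S g hc J hJ
  set L := Real.log T
  have L0 : 0 < L := by linarith
  have := fun i hi => hp i hi S (fun j a b c => g j a b (c.trans_le
    (div_le_div_of_nonneg_right (Finset.le_sup' k hi) L0.le)))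
    (hc.trans (by gcongr; exact Finset.inf'_le e hi))
  choose! Z Φ z1 z2 z3 using this
  have s2 := hM.2.1 _ _ _ _ _ s1 (hM.2.2.2.2.1 _ _ _ _ _ z2)
  rw [Finset.sum_const, Finset.card_range, nsmul_eq_mul,
    show η / 200 + m * (η / (200 * m)) = η / 100 by field_simp; ring] at s2
  set U := (Finset.range m).biUnion Z
  have u1 : (U.card : ℝ) ≤ η / 200 * T * L := by
    have a : (U.card : ℝ) ≤ ∑ i ∈ Finset.range m, ((Z i).card : ℝ) := by
      exact_mod_cast Finset.card_biUnion_le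
    refine a.trans ((Finset.sum_le_sum z1).trans (le_of_eq ?_))
    rw [Finset.sum_const, Finset.card_range, nsmul_eq_mul]; field_simp
  have nz : ∀ j ∈ J \ U, ∀ i ∈ Finset.range m, j ∉ Z i := fun j hj i hi q =>
    (Finset.mem_sdiff.1 hj).2 (Finset.mem_biUnion.2 ⟨i, hi, q⟩)
  have jj := fun j (hj : j ∈ J \ U) => hJ j (Finset.mem_sdiff.1 hj).1
  have c := hC.2 (J \ U) (fun j => (ρ j).im) (1 / L) 1
    (fun τ y => Ψ (τ + y) + ∑ i ∈ Finset.range m, Φ i (τ + y)) (fun _ => η / 100 * HH T)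
    (by positivity) ((div_le_one L0).2 L1) zero_le_one
    (fun i hi j _ ij => by
      have a := (z3 0 (Finset.mem_range.2 m1) i (nz i hi 0 (Finset.mem_range.2 m1)) (jj i hi).1
        (jj i hi).2.1).1
      have b : (ρ (i + 1)).im ≤ (ρ j).im := hz.mono (show i + 1 ≤ j from ij)
      have : 1 / L ≤ 3 / L := by gcongr; norm_num
      linarith)
    (fun j hj => ⟨by linarith [(jj j hj).1], by linarith [(jj j hj).2.1]⟩)
    (fun τ y => s2.1 _) (fun τ _ _ => s2.2 τ) fun j hj τ u u1 u2 _ => by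
      by_contra q
      rw [not_le, add_sub_cancel] at q
      have p : ∀ i ∈ Finset.range m, 0 ≤ Φ i u := fun i hi => (z2 i hi).1 u
      obtain ⟨i, hi, b⟩ := hS u (by linarith [Finset.sum_nonneg p])
      have hi := Finset.mem_range.2 hi
      obtain ⟨n, n1, n2⟩ := (z3 i hi j (nz j hj i hi) (jj j hj).1 (jj j hj).2.1).2 u u1 u2
        (by linarith [Finset.single_le_sum p hi, s1.1 u]) b
      linarith [(jj j hj).2.2 n n1]
  rw [Finset.sum_const, Finset.card_range, nsmul_eq_mul, mul_one, mul_one_div,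
    div_le_iff₀ L0] at c
  have d : (J.card : ℝ) ≤ (J \ U).card + U.card := by
    exact_mod_cast Finset.card_le_card_sdiff_add_card
  have := mul_le_mul_of_nonneg_left hC.1 (show 0 ≤ η * L by positivity)
  have : 0 ≤ η * T * L := by positivity
  nlinarith

end Pool.Agent.MP_f0209c_nt.Rg

namespace Pool.Agent.MP_f0209c_nt.Rg
open Complex Set Filter Topology ArithmeticFunction Ch Pp

lemma fin_im {ρ : ℕ → ℂ} (hz : Zs ρ) (B : ℝ) : {j | (ρ j).im ≤ B}.Finite :=
  (hz.fin (isCompact_closedBall 0 (B + 1))).subset fun j hj => by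
    rw [mem_ofPred_eq, mem_closedBall_zero_iff]
    refine (norm_le_abs_re_add_abs_im _).trans ?_
    rw [hz.line (hz.pos j) (hz.zero j), abs_of_pos (hz.pos j), abs_of_pos one_half_pos]
    linarith [show (ρ j).im ≤ B from hj]

theorem FIN (hO : ONE_s) : FIN_s := fun ρ hz ε δ ε0 δ0 => by
  obtain ⟨k, e, k1, e0, h⟩ := hO ρ hz ε (δ / 8) ε0 (by positivity)
  have p0 := Real.pi_pos
  have η0 : 0 < (Real.pi - k) / (4 * Real.pi) := div_pos (by linarith) (by positivity)
  refine ⟨(Real.pi - k) / (4 * Real.pi), e / 3, η0, by positivity, ?_⟩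
  set η := (Real.pi - k) / (4 * Real.pi) with hη
  have mo : ∀ j, (ρ j).im ≤ (ρ (j + 1)).im := fun j => hz.mono j.le_succ
  have key : ∀ a : ℝ, 5 / 7 ≤ a → a ≤ 5 / 4 → ∀ᶠ T : ℝ in atTop, ∀ S : Finset ℕ,
      (∀ j, T / 2 ≤ (ρ j).im → (ρ (j + 1)).im ≤ 3 * T → dd ρ j ≤ 1 / 2 - η → j ∈ S) →
      S.card ≤ e / 3 * T * Real.log T → ∀ J : Finset ℕ,
      (∀ j ∈ J, 14 / 10 * (a * T) ≤ (ρ j).im ∧ (ρ j).im ≤ 17 / 10 * (a * T) ∧
        ∀ m : ℕ, 1 ≤ m → ε ≤ |dd ρ j - m / 2|) → J.card ≤ δ / 4 * T * Real.log T := by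
    intro a a1 a2
    have a0 : 0 < a := by linarith
    filter_upwards [(tendsto_id.const_mul_atTop a0).eventually h, eventually_ge_atTop 2,
      Real.tendsto_log_atTop.eventually_ge_atTop (2 / η + 4)] with T h T1 L1 S hS hc J hJ
    simp only [id] at h
    have l1 : Real.log (a * T) = Real.log a + Real.log T := Real.log_mul a0.ne' (by linarith)
    have l2 : Real.log a ≤ 1 := by linarith [Real.log_le_sub_one_of_pos a0]
    have l3 : -1 ≤ Real.log a := by
      have := Real.one_sub_inv_le_log_of_pos a0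
      have : a⁻¹ ≤ 2 := by rw [inv_le_comm₀ a0 two_pos]; linarith
      linarith
    have q : 0 < 2 / η := by positivity
    set L := Real.log T
    set L' := Real.log (a * T)
    have L0 : 0 < L' := by linarith
    have := h S (fun j j1 j2 j3 => hS j (by nlinarith) (by nlinarith) ?_) (hc.trans ?_) J hJ
    · refine this.trans ?_
      have : a * L' ≤ 2 * L := by nlinarith
      nlinarith [mul_le_mul_of_nonneg_left this (show 0 ≤ δ * T by positivity)]
    · unfold dd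
      rw [← sub_div, div_le_iff₀ (by positivity)]
      refine (xlog (by nlinarith) j1 (mo j) j2 j3.le).trans ?_
      have e1 : (1 / 2 - η) * (2 * Real.pi) = k + η * (2 * Real.pi) := by
        rw [hη]; field_simp; ring
      have e2 : 1 ≤ η * L' := by
        have : 2 / η ≤ L' := by linarith
        rw [div_le_iff₀ η0] at this; linarith
      rw [e1, div_mul_eq_mul_div, div_le_iff₀ L0]
      nlinarith
    · have : L / 3 ≤ a * L' := by nlinarith
      nlinarith [mul_le_mul_of_nonneg_left this (show 0 ≤ e * T by positivity)]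
  filter_upwards [key (5 / 7) (by norm_num) (by norm_num), key (6 / 7) (by norm_num) (by norm_num),
    key (36 / 35) (by norm_num) (by norm_num), key (216 / 175) (by norm_num) (by norm_num),
    eventually_ge_atTop 0] with T h0 h1 h2 h3 T0 hB
  by_contra hc
  have f1 : {j : ℕ | T / 2 ≤ (ρ j).im ∧ (ρ (j + 1)).im ≤ 3 * T ∧ dd ρ j ≤ 1 / 2 - η}.Finite :=
    (fin_im hz (3 * T)).subset fun j hj => (mo j).trans hj.2.1
  have f2 : {j : ℕ | T ≤ (ρ j).im ∧ (ρ j).im ≤ 2 * T ∧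
      ∀ m : ℕ, 1 ≤ m → ε ≤ |dd ρ j - m / 2|}.Finite :=
    (fin_im hz (2 * T)).subset fun j hj => hj.2.1
  rw [ncard_eq_toFinset_card _ f1, not_lt] at hc
  rw [ncard_eq_toFinset_card _ f2] at hB
  have hS : ∀ j, T / 2 ≤ (ρ j).im → (ρ (j + 1)).im ≤ 3 * T → dd ρ j ≤ 1 / 2 - η →
      j ∈ f1.toFinset := fun j a b c => (Finite.mem_toFinset _).2 ⟨a, b, c⟩
  set B := f2.toFinset
  classical
  have F : ∀ a : ℝ, ∀ j ∈ B.filter (fun j => 14 / 10 * (a * T) ≤ (ρ j).im ∧
      (ρ j).im ≤ 17 / 10 * (a * T)), 14 / 10 * (a * T) ≤ (ρ j).im ∧ (ρ j).im ≤ 17 / 10 * (a * T) ∧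
        ∀ m : ℕ, 1 ≤ m → ε ≤ |dd ρ j - m / 2| := fun a j hj => by
    rw [Finset.mem_filter, Finite.mem_toFinset] at hj
    exact ⟨hj.2.1, hj.2.2, hj.1.2.2⟩
  have c0 := h0 _ hS hc _ (F _)
  have c1 := h1 _ hS hc _ (F _)
  have c2 := h2 _ hS hc _ (F _)
  have c3 := h3 _ hS hc _ (F _)
  set C := fun a : ℝ => B.filter (fun j => 14 / 10 * (a * T) ≤ (ρ j).im ∧
      (ρ j).im ≤ 17 / 10 * (a * T))
  have sub : B ⊆ C (5 / 7) ∪ C (6 / 7) ∪ (C (36 / 35) ∪ C (216 / 175)) := fun j hj => by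
    have b := (Finite.mem_toFinset _).1 hj
    obtain ⟨b1, b2, -⟩ := b
    simp only [C, Finset.mem_union, Finset.mem_filter, hj, true_and]
    rcases le_total (ρ j).im (12 / 10 * T) with q | q
    · exact Or.inl (Or.inl ⟨by linarith, by linarith⟩)
    rcases le_total (ρ j).im (144 / 100 * T) with q' | q'
    · exact Or.inl (Or.inr ⟨by linarith, by linarith⟩)
    rcases le_total (ρ j).im (1728 / 1000 * T) with q'' | q''
    · exact Or.inr (Or.inl ⟨by linarith, by linarith⟩)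
    · exact Or.inr (Or.inr ⟨by linarith, by linarith⟩)
  have := (Finset.card_le_card sub).trans ((Finset.card_union_le _ _).trans
    (add_le_add (Finset.card_union_le _ _) (Finset.card_union_le _ _)))
  have : (B.card : ℝ) ≤ (C (5 / 7)).card + (C (6 / 7)).card +
      ((C (36 / 35)).card + (C (216 / 175)).card) := by exact_mod_cast this
  exact (hB.trans_le (this.trans (add_le_add (add_le_add c0 c1) (add_le_add c2 c3)))).ne (by ring)

end Pool.Agent.MP_f0209c_nt.Rg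

namespace Pool.Agent.MP_f0209c_nt.Rg

theorem fin : FIN_s :=
  have hBOX := BOX
  have hWM := WM hBOX
  have hRECT := RECT
  have hPER := PER hWM hRECT
  have hD0 := D0
  have hD7a := D7a hD0
  have hD1 := D1 hD0
  have hD2 := D2 hD0
  have hD4 := D4 hD0
  have hD5 := D5 hD1 hD2 hD4
  have hPACK := PACK
  have hRES := RES
  have hD8 := D8 hD1 hPACK hRES
  have hSAM := SAM hWM
  have hD6 := D6 hD2 hD4
  have hD7b := D7b hD0 hD7a
  have hD3 := D3
  have hD9 := D9 hBOX hD1 hD2 hD3 hD5 hD8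
  have hD10 := D10 hSAM hD5 hD6 hD7b hD8 hD9
  have hD11 := D11 hD1 hD2 hD5 hD8 hD10
  have hD12 := D12 hD1 hD2 hD3
  have hDET := DET hPER hD7a hD11 hD12
  have hWIN := WIN
  have hDIAG := DIAG
  have hMINT := MINT
  have hNULL := NULL hMINT
  have hCNT := CNT
  have hSUMZ := SUMZ
  have hGB := GB hSUMZ
  have hEXC := EXC hNULL hCNT hGB hPACK
  have hPL := PL hBOX hSUMZ
  have hFAR := FAR
  have hSEL := SEL
  have hGF := GF hSEL
  have hSML := SML
  have hSUP := SUP hSML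
  have hMASS := MASS
  have hMER := MER
  have hVAR1 := VAR1 hMER
  have hCELL := CELL hGF hSUP hMASS hVAR1 hSML
  have hCRU := CRU hPL hFAR hCELL hSUMZ hSML
  have hLOC := LOC hSEL hVAR1 hSML
  have hGOOD := GOOD hGF hVAR1 hSML
  have hPAR := PAR
  have hDAT := DAT
  have hLAT := LAT
  have hPROP := PROP hDET hWIN hDIAG hEXC hCRU hLOC hGOOD hPAR hDAT hLAT hSML
  have hGM := GM
  have hMULTI := MULTI hGM hSML
  have hVAR2 := VAR2 hMER
  have hSCA := SCA hMULTI hVAR2 hSML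
  have hONE := ONE hPROP hSCA hCNT hSML
  FIN hONE

end Pool.Agent.MP_f0209c_nt.Rg
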