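import Pool.Agent.MP_f0209c_nt.Pp.Fin

/-! Definitions for the rigidity theorem. -/

namespace Pool.Agent.MP_f0209c_nt.Rg
open Complex Set Filter Topology ArithmeticFunction Ch Pp

/-- local model of the zeta function -/
noncomputable def fJ (A : ℂ) (J : Finset ℕ) (x : ℕ → ℝ) (l : ℂ → ℂ) (z : ℂ) : ℂ :=
  A * (∏ j ∈ J, (z - x j * I)) * exp (l z)

/-- its logarithmic derivative -/
noncomputable def ld (J : Finset ℕ) (x : ℕ → ℝ) (l : ℂ → ℂ) (z : ℂ) : ℂ :=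
  ∑ j ∈ J, (z - x j * I)⁻¹ + deriv l z

/-- the exponent is almost `-z/2` -/
structure Win (r μ : ℝ) (l : ℂ → ℂ) : Prop where
  diff : DifferentiableOn ℂ l (Metric.ball 0 r)
  re : ∀ z ∈ Metric.ball (0 : ℂ) r, |(deriv l z).re + 1 / 2| ≤ μ
  dd : ∀ z ∈ Metric.ball (0 : ℂ) r, ‖deriv (deriv l) z‖ ≤ μ

/-- parameters of the local argument -/
structure Par where
  n : ℝ
  X : ℝ
  G : ℝ
  P : ℝ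
  E : ℝ
  y : ℝ
  b : ℝ
  k : ℝ
  τ : ℝ
  μ : ℝ
  r : ℝ

/-- the slope of the crude bounds -/
noncomputable def Par.κ (p : Par) : ℝ := 1 / (11200 * p.n)

/-- the distance from the line -/
noncomputable def Par.c (p : Par) : ℝ := p.τ ^ 4

/-- numerical side conditions -/
structure Par.Ok (p : Par) : Prop where
  n1 : 100 ≤ p.n
  x1 : 20000 * p.n ^ 2 ≤ p.X
  x2 : 30000 * p.n * p.G ≤ p.X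
  y1 : 10 ≤ p.y
  y2 : p.y ≤ p.n
  p1 : p.X ≤ p.P
  p2 : Real.exp p.y ≤ p.P
  p3 : Real.exp (100 * (p.y + 8) ^ 2 * (p.E + 1)) ≤ p.P
  p4 : p.P ≤ Real.exp p.G
  t0 : 0 < p.τ
  t1 : p.τ * Real.exp (5 * p.G) ≤ 1
  k1 : 3 ≤ p.k
  k2 : p.k ≤ Real.pi
  b1 : 1000 * p.X ^ 2 ≤ p.b
  r1 : 2 * p.b ≤ p.r
  m0 : 0 ≤ p.μ
  m1 : 1000 * p.X ^ 2 * p.μ ≤ 1
  e0 : 0 ≤ p.E

/-- the form of the shift `+k` -/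
noncomputable def qp (f R : ℂ → ℂ) (k : ℝ) (z : ℂ) : ℝ :=
  (exp (I * k / 2) * (f (z + k * I) / f z)).im * ‖R (z + k * I)‖ ^ 2

/-- the form of the shift `-k` -/
noncomputable def qm (f R : ℂ → ℂ) (k : ℝ) (z : ℂ) : ℝ :=
  -(exp (-(I * k / 2)) * (f z / f (z + k * I))).im * ‖R z‖ ^ 2

/-- the crude bounds -/
def Crude (f R : ℂ → ℂ) (X G κ b : ℝ) : Prop :=
  (∀ z : ℂ, 1 ≤ z.re → z.re ≤ X → |z.im| ≤ 2 * X →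
    ‖f (z + b) / f z‖ ≤ Real.exp (G + κ * z.re) ∧ ‖f z / f (z + b)‖ ≤ Real.exp (G + κ * z.re) ∧
    ‖f (z + b) / f z - R z‖ ≤ Real.exp (G - (1 - 2 * κ) * z.re)) ∧
  ∀ z : ℂ, -X ≤ z.re → z.re ≤ 1 → |z.im| ≤ 2 * X → ‖exp z * R z‖ ≤ Real.exp (G + κ * |z.re|)

/-- the data of the local argument -/
structure Dat (p : Par) (A : ℂ) (J : Finset ℕ) (x : ℕ → ℝ) (l R : ℂ → ℂ) : Prop where
  ok : p.Ok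
  a0 : A ≠ 0
  win : Win p.r p.μ l
  dR : Differentiable ℂ R
  mono : Monotone x
  gap : ∀ j, |x j| ≤ 2 * p.X → p.k ≤ x (j + 1) - x j
  mem : ∀ j, |x j| ≤ 2 * p.X → j ∈ J
  env : ∀ v : ℤ, |(v : ℝ)| ≤ 2 * p.X → ‖ld J x l (1 + v * I)‖ ≤ p.E
  den : ∀ v : ℤ, |(v : ℝ)| ≤ 2 * p.X →
    ‖ld J x l (p.n + v * I)‖ ≤ 1 / 50 ∧ ‖ld J x l (3 * p.n + v * I)‖ ≤ 1 / 50
  far : ‖ld J x l p.b‖ * (100 * p.X) ≤ 1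
  crude : Crude (fJ A J x l) R p.X p.G p.κ p.b
  nullp : ∀ j, |x j| ≤ 2 * p.X → ∃ t : ℝ, |t - x j| ≤ p.c ∧
    p.c * qp (fJ A J x l) R p.k (p.c + t * I) ≤ p.P
  nullm : ∀ j, |x j| ≤ 2 * p.X → ∃ t : ℝ, |t - (x j - p.k)| ≤ p.c ∧
    p.c * qm (fJ A J x l) R p.k (p.c + t * I) ≤ p.P
  good : ∀ v : ℤ, |(v : ℝ)| ≤ p.X →
    ‖fJ A J x l (1 + v * I) / fJ A J x l (1 + v * I + p.b)‖ * p.P ^ 12 ≤ 1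

/-- the numerator of `U` -/
noncomputable def NN (f R : ℂ → ℂ) (k b : ℝ) (z : ℂ) : ℂ :=
  exp z * (f (z + k * I) * (f (z + b) / f (z + k * I + b)) * R (z + k * I) - f z * R z)

/-- the residues of `U` -/
noncomputable def cc (A : ℂ) (J : Finset ℕ) (x : ℕ → ℝ) (l R : ℂ → ℂ) (k b : ℝ) (j : ℕ) : ℂ :=
  NN (fJ A J x l) R k b (x j * I) / fJ A (J.erase j) x l (x j * I)

/-- the zeros in the window -/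
noncomputable def WW (J : Finset ℕ) (x : ℕ → ℝ) (X : ℝ) : Finset ℕ :=
  J.filter fun j => |x j| < 3 / 2 * X

/-- `V` is `U` without its poles -/
def Reg (p : Par) (A : ℂ) (J : Finset ℕ) (x : ℕ → ℝ) (l R V : ℂ → ℂ) : Prop :=
  DifferentiableOn ℂ V {z | |z.re| < p.X / 2 ∧ |z.im| < 3 / 2 * p.X} ∧
  ∀ z : ℂ, |z.re| < p.X / 2 → |z.im| < 3 / 2 * p.X → fJ A J x l z * V z =
    NN (fJ A J x l) R p.k p.b z -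
      ∑ j ∈ WW J x p.X, cc A J x l R p.k p.b j * fJ A (J.erase j) x l z

/-- the almost periodic function -/
noncomputable def FF (f R : ℂ → ℂ) (b : ℝ) (z : ℂ) : ℂ := f z * R z / f (z + b)

/-- scaled coordinate -/
noncomputable def sc (T u : ℝ) (z : ℂ) : ℂ := 1 / 2 + u * I + z / (Real.log T : ℝ)

/-- scaled zeta function -/
noncomputable def fz (T u : ℝ) (z : ℂ) : ℂ := riemannZeta (sc T u z)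

/-- scaled ordinates -/
noncomputable def xs (ρ : ℕ → ℂ) (T u : ℝ) (j : ℕ) : ℝ := Real.log T * ((ρ j).im - u)

/-- scaled resonator -/
noncomputable def Rz (φ : ℝ → ℝ) (b δ T u : ℝ) (z : ℂ) : ℂ :=
  RP (rf φ (b / Real.log T) (Real.log T)) ⌊Real.exp ((1 - δ) * Real.log T)⌋₊ (sc T u z)

/-- cut-off functions -/
def Cut (φ : ℝ → ℝ) (r R : ℝ) : Prop :=
  Sm φ ∧ (∀ y, 0 ≤ φ y ∧ φ y ≤ 1) ∧ (∀ y, |y| ≤ r → φ y = 1) ∧ ∀ y, R ≤ |y| → φ y = 0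

/-- width of the Gaussian window -/
noncomputable def HH (T : ℝ) : ℝ := T / Real.log T ^ 2

/-- integers up to `T ^ (1/7)` -/
noncomputable def NT (T : ℝ) : Finset ℕ := Finset.Icc 1 ⌊Real.exp (Real.log T / 7)⌋₊

/-- primes up to `T ^ (1/7)` -/
noncomputable def PT (T : ℝ) : Finset ℕ := (NT T).filter Nat.Prime

/-- the other integers up to `T ^ (1/7)` -/
noncomputable def QT (T : ℝ) : Finset ℕ := (NT T).filter fun n => ¬ n.Prime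

/-- primes `p` with `1/b < log p / log T ≤ 1/b'` -/
noncomputable def BT (T b b' : ℝ) : Finset ℕ :=
  (PT T).filter fun p => 1 / b < Real.log p / Real.log T ∧ Real.log p / Real.log T ≤ 1 / b'

/-- coefficients for the logarithmic derivative -/
noncomputable def ca (φ : ℝ → ℝ) (T a : ℝ) (n : ℕ) : ℝ :=
  Λ n / Real.log T * ex (1 / 2 + a / Real.log T) n * φ (Real.log n / (Real.log T / 7))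

/-- coefficients for the logarithm -/
noncomputable def cb (φ : ℝ → ℝ) (T b : ℝ) (n : ℕ) : ℝ :=
  Λ n / Real.log n * ex (1 / 2 + 1 / Real.log T) n * (1 - ex (b / Real.log T) n) *
    φ (Real.log n / (Real.log T / 7))

/-- Dirichlet polynomial with real coefficients -/
noncomputable def DP (S : Finset ℕ) (c : ℕ → ℝ) (u : ℝ) : ℂ := ∑ n ∈ S, (c n : ℂ) * ee u n

/-- normalized spacing -/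
noncomputable def dd (ρ : ℕ → ℂ) (j : ℕ) : ℝ :=
  (ρ (j + 1)).im * Real.log (ρ (j + 1)).im / (2 * Real.pi) -
    (ρ j).im * Real.log (ρ j).im / (2 * Real.pi)

/-- `S` contains the indices of the small gaps -/
def Gaps (ρ : ℕ → ℂ) (T k : ℝ) (S : Finset ℕ) : Prop :=
  ∀ j, T ≤ (ρ j).im → (ρ (j + 1)).im ≤ 2 * T → (ρ (j + 1)).im - (ρ j).im < k / Real.log T → j ∈ S

/-- small mean on every window -/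
def Sml (T : ℝ) (Φ : ℝ → ℝ) (η : ℝ) : Prop :=
  (∀ u, 0 ≤ Φ u) ∧ ∀ τ, Mv (HH T) (fun y => Φ (τ + y)) (η * HH T)

/-- number of windows -/
noncomputable def NG (T : ℝ) : ℕ := ⌊2 / 5 * Real.log T ^ 2⌋₊ + 1

/-- centres of the windows -/
noncomputable def gr (T : ℝ) (i : ℕ) : ℝ := 135 / 100 * T + i * HH T

/-- the diagonal term is bounded -/
def Dia (φ : ℝ → ℝ) (b c k : ℝ) : Prop :=
  ∀ᶠ L : ℝ in atTop, ∀ X : ℕ, (∀ n : ℕ, X < n → φ (Real.log n / L) = 0) →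
    (exp (I * k / 2) * ∑ n ∈ Finset.Icc 1 X, (mm (-((k / L : ℝ) * I)) 0 * rf φ (b / L) L) n *
      rf φ (b / L) L n * ex (1 + 2 * c / L) n).im ≤ 20

/-- closed box -/
def Bx (a b c d : ℝ) : Set ℂ := {z | a ≤ z.re ∧ z.re ≤ b ∧ c ≤ z.im ∧ z.im ≤ d}

end Pool.Agent.MP_f0209c_nt.Rg

/-! Statements of the steps of the rigidity theorem. -/

namespace Pool.Agent.MP_f0209c_nt.Rg
open Complex Set Filter Topology ArithmeticFunction Ch Pp ComplexConjugate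

/-! ### complex analysis and counting -/

def BOX_s : Prop := ∀ (g : ℂ → ℂ) (a b c d m : ℝ), DifferentiableOn ℂ g (Bx a b c d) →
  (∀ z ∈ Bx a b c d, z.re = a ∨ z.re = b ∨ z.im = c ∨ z.im = d → ‖g z‖ ≤ m) →
  ∀ z ∈ Bx a b c d, ‖g z‖ ≤ m

def SUMZ_s : Prop := ∀ (s x : ℝ) (V : Finset ℤ), 1 ≤ s →
  ∑ v ∈ V, 1 / (1 + ((x - v) / s) ^ 2) ≤ 8 * s

def PL_s : Prop := ∀ (h : ℂ → ℂ) (N κ X Γ : ℝ) (a : ℤ → ℝ), 0 < κ → 1 ≤ X → 2 * X ≤ N →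
  2 * X ^ 2 * κ ≤ N → 0 < Γ → DifferentiableOn ℂ h (Bx 1 N (-N) N) → (∀ v, 0 ≤ a v) →
  (∀ x : ℝ, |x| ≤ N → ‖h (1 + x * I)‖ ≤ Real.exp (a (round x))) →
  (∀ z ∈ Bx 1 N (-N) N, ‖h z‖ ≤ Real.exp (κ * N / 2)) →
  ∑ v ∈ Finset.Icc (-⌈N⌉) ⌈N⌉, a v ^ 2 / (1 + (v / X) ^ 2) ≤ Γ ^ 2 →
  ∀ z ∈ Bx 1 (2 * X) (-(2 * X)) (2 * X), ‖h z‖ ≤ Real.exp (140 * Γ + 1 + κ * z.re)

def WM_s : Prop := ∀ (g : ℂ → ℂ) (Y s m : ℝ), 0 < Y → 0 < s → 1 ≤ m →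
  DifferentiableOn ℂ g (Bx 0 Y (-(2 * Y)) (2 * Y)) →
  (∀ x : ℝ, |x| ≤ 2 * Y → ‖g (x * I)‖ ≤ m * Real.exp (s / (4 * Y) * x ^ 2)) →
  (∀ z ∈ Bx 0 Y (-(2 * Y)) (2 * Y), ‖g z‖ ≤ Real.exp (s * Y / 2 + s * z.re / 4)) →
  ∀ z ∈ Bx 0 Y (-(2 * Y)) (2 * Y), ‖g z‖ ≤ m * Real.exp (s * z.re + s / (4 * Y) * z.im ^ 2)

def SAM_s : Prop := ∀ (g : ℂ → ℂ) (Y s Δ e : ℝ), 0 < s → 0 ≤ Δ → s * Δ ≤ 1 / 10 → 20 ≤ s * Y →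
  1 ≤ e → DifferentiableOn ℂ g (Bx (-Y) Y (-(2 * Y)) (2 * Y)) →
  (∀ z ∈ Bx (-Y) Y (-(2 * Y)) (2 * Y), ‖g z‖ ≤ Real.exp (s * Y / 2 + s * |z.re| / 4)) →
  (∀ x : ℝ, |x| ≤ 9 / 5 * Y → ∃ x' : ℝ, |x' - x| ≤ Δ ∧ ‖g (x' * I)‖ ≤ e) →
  ∀ y : ℝ, |y| ≤ Y → ‖g y‖ ≤ 2 * e * Real.exp (s * |y|)

/-- the rectangle identity -/
def RECT_s : Prop := ∀ (F : ℂ → ℂ) (k y x B e : ℝ), 3 ≤ k → k ≤ Real.pi → 10 ≤ y → 0 ≤ B → 0 ≤ e →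
  DifferentiableOn ℂ F (Bx (-y) y (x - k / 2) (x + k / 2)) → ‖F (x * I)‖ ≤ B → 1 ≤ B →
  (∀ t : ℝ, |t - x| ≤ k / 2 → ‖F (y + t * I) - 1‖ ≤ B * Real.exp (-(9 / 10 * y)) ∧
    ‖F (-y + t * I)‖ ≤ B * Real.exp (21 / 10 * y)) →
  (∀ s : ℝ, |s| ≤ y → ‖F (s + (x + k / 2 : ℝ) * I) - F (s + (x - k / 2 : ℝ) * I)‖ ≤ e) →
  ‖F (x * I) - 1 - exp (-(2 * Real.pi / k * x * I)) * ((∫ t in (x - k / 2)..(x + k / 2),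
    F (-y + t * I) * exp (2 * Real.pi / k * (-y + t * I))) / k)‖ ≤
    10 * B * Real.exp (-(9 / 10 * y)) + y * e

def PER_s : Prop := ∀ (F : ℂ → ℂ) (Y k y e a a' : ℝ), 3 ≤ k → k ≤ Real.pi → 10 ≤ y → y ≤ Y →
  100 ≤ Y → 0 ≤ e → e * Y ≤ Real.exp (-y) → a ^ 2 ≤ Y → a' ^ 2 ≤ Y →
  DifferentiableOn ℂ F (Bx (-Y) Y (-(2 * Y)) (2 * Y)) →
  (∀ z ∈ Bx 0 Y (-(2 * Y)) (2 * Y), ‖(F z - 1) * exp z‖ ≤ Real.exp (Y / 20 + z.re / 40) ∧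
    ‖F (-z) * exp (-(2 * z))‖ ≤ Real.exp (Y / 20 + z.re / 40)) →
  (∀ z ∈ Bx (-y) y (-(2 * Y)) (2 * Y), ‖F (z + k * I) - F z‖ ≤ e) →
  F (a * I) = 0 → F (a' * I) = 0 →
  ‖exp (2 * Real.pi / k * (a' - a) * I) - 1‖ ≤ 400 * Real.exp (-(y / 2))

def RES_s : Prop := ∀ (g : ℂ → ℂ) (O : Set ℂ) (W : Finset ℕ) (a : ℕ → ℂ), IsOpen O →
  InjOn a W → (∀ j ∈ W, a j ∈ O) → DifferentiableOn ℂ g O → (∀ j ∈ W, g (a j) = 0) →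
  ∃ V : ℂ → ℂ, DifferentiableOn ℂ V O ∧ ∀ z ∈ O, g z = (∏ j ∈ W, (z - a j)) * V z

def PACK_s : Prop := ∀ (J : Finset ℕ) (x : ℕ → ℝ) (a w s : ℝ), 0 < s → 0 ≤ w →
  (∀ i ∈ J, ∀ j ∈ J, i < j → s ≤ x j - x i) → (∀ j ∈ J, a ≤ x j ∧ x j ≤ a + w) →
  (J.card : ℝ) ≤ w / s + 1

def LAT_s : Prop := (∀ x e : ℝ, ‖exp (x * I) - 1‖ ≤ e → ∃ m : ℤ, |x - 2 * Real.pi * m| ≤ 2 * e) ∧
  ∀ T x y : ℝ, 1 ≤ T → T ≤ x → x ≤ y → y ≤ 2 * T →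
    |y * Real.log y - x * Real.log x - Real.log T * (y - x)| ≤ 2 * (y - x)

/-! ### the local argument -/

def D0_s : Prop := ∀ (r μ : ℝ) (l : ℂ → ℂ) (A : ℂ) (J : Finset ℕ) (x : ℕ → ℝ) (z w : ℂ), Win r μ l →
  z ∈ Metric.ball (0 : ℂ) r → w ∈ Metric.ball (0 : ℂ) r → 0 < w.re →
  |w.re * ∑ j ∈ J, ‖w - x j * I‖⁻¹ ^ 2 - 1 / 2| ≤ ‖ld J x l w‖ + μ ∧
  ‖fJ A J x l z‖ ≤ ‖fJ A J x l w‖ * Real.exp (‖z - w‖ * ‖ld J x l w‖ +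
    ‖z - w‖ ^ 2 * ((∑ j ∈ J, ‖w - x j * I‖⁻¹ ^ 2) / 2 + μ)) ∧
  ∀ θ : ℝ, 0 < θ → θ ≤ 1 → (∀ j ∈ J, θ * ‖w - x j * I‖ ≤ ‖z - x j * I‖) →
    ‖fJ A J x l w‖ ≤ ‖fJ A J x l z‖ * Real.exp (‖z - w‖ * ‖ld J x l w‖ +
      ‖z - w‖ ^ 2 * (2 * (∑ j ∈ J, ‖w - x j * I‖⁻¹ ^ 2) / θ ^ 2 + μ))

def SEP_s : Prop := ∀ p A J x l R, Dat p A J x l R → ∀ j, |x j| ≤ 19 / 10 * p.X →
  (∀ i, i < j → x i + p.k ≤ x j) ∧ ∀ i, j < i → x j + p.k ≤ x i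

def D1_s : Prop := ∀ p A J x l R, Dat p A J x l R → ∀ z : ℂ, ‖z‖ ≤ 4 * p.X →
  fJ A J x l (z + p.b) ≠ 0 ∧ ‖fJ A J x l (z + p.b)‖ ≤ 2 * ‖fJ A J x l p.b‖ ∧
    ‖fJ A J x l p.b‖ ≤ 2 * ‖fJ A J x l (z + p.b)‖

def D2_s : Prop := ∀ p A J x l R, Dat p A J x l R → ∀ (v : ℤ) (z : ℂ), |(v : ℝ)| ≤ 2 * p.X →
  (‖z - (1 + v * I)‖ ≤ p.y + 8 → ‖fJ A J x l z‖ ≤ p.P * ‖fJ A J x l (1 + v * I)‖ ∧
    ∀ j ∈ J, ‖fJ A (J.erase j) x l z‖ ≤ p.P * ‖fJ A J x l (1 + v * I)‖) ∧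
  (‖z - (1 + v * I)‖ ≤ 3 → (∀ j ∈ J, 1 / 10 ≤ ‖z - x j * I‖) →
    ‖fJ A J x l (1 + v * I)‖ ≤ p.P * ‖fJ A J x l z‖) ∧
  ∀ j ∈ J, ‖z - (1 + v * I)‖ ≤ 3 → |x j - v| ≤ 5 → (∀ i ∈ J, i ≠ j → 1 / 10 ≤ ‖z - x i * I‖) →
    ‖fJ A J x l (1 + v * I)‖ ≤ p.P * ‖fJ A (J.erase j) x l z‖

def D3_s : Prop := ∀ p A J x l R, Dat p A J x l R → ∀ s t : ℝ, 0 ≤ s → s ≤ p.X → |t| ≤ 3 * p.X →
  ‖fJ A J x l (-s + t * I)‖ ≤ 2 * Real.exp s * ‖fJ A J x l (s + t * I)‖ ∧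
    Real.exp s * ‖fJ A J x l (s + t * I)‖ ≤ 2 * ‖fJ A J x l (-s + t * I)‖

def D4_s : Prop := ∀ p A J x l R, Dat p A J x l R → ∀ (t : ℝ), ∀ j ∈ J, |t| ≤ 19 / 10 * p.X →
  (|t - x j| ≤ p.c ∨ |t + p.k - x j| ≤ p.c) →
  (∀ i ∈ J, i ≠ j → p.τ / 2 ≤ t - x i ∨ t - x i + p.k ≤ -(p.τ / 2)) →
  ‖fJ A J x l (p.c + t * I + p.k * I) / fJ A J x l (p.c + t * I)‖ / 2 ≤
    (exp (I * p.k / 2) * (fJ A J x l (p.c + t * I + p.k * I) / fJ A J x l (p.c + t * I))).im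

def D5_s : Prop := ∀ p A J x l R, Dat p A J x l R → ∀ j ∈ J, |x j| ≤ 3 / 2 * p.X →
  ‖cc A J x l R p.k p.b j‖ ≤ 2 * p.P ^ 2

def D6_s : Prop := ∀ p A J x l R, Dat p A J x l R → ∀ j ∈ J, |x j| ≤ 3 / 2 * p.X →
  (∀ i, i < j → x i ≤ x j - p.k - 3 / 20) → ‖R ((x j - p.k : ℝ) * I)‖ ≤ 2 * p.P ^ 2

def D7a_s : Prop := ∀ p A J x l R, Dat p A J x l R → ∀ t : ℝ, |t| ≤ 3 / 2 * p.X →
  ∃ j ∈ J, t ≤ x j ∧ x j ≤ t + 7 * p.n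

def D7b_s : Prop := ∀ p A J x l R, Dat p A J x l R → ∀ t : ℝ, |t| ≤ 6 / 5 * p.X →
  ∃ j ∈ J, |x j - p.k - t| ≤ 70 * p.n ∧ ∀ i, i < j → x i ≤ x j - p.k - 3 / 20

def D8_s : Prop := ∀ p A J x l R, Dat p A J x l R →
  ((WW J x p.X).card : ℝ) ≤ 2 * p.X ∧ ∃ V, Reg p A J x l R V

def D9_s : Prop := ∀ p A J x l R V, Dat p A J x l R → Reg p A J x l R V → ∀ z : ℂ,
  |z.re| ≤ p.X / 4 → |z.im| ≤ p.X → ‖V z‖ ≤ Real.exp (4 * p.G + 4 * p.κ * |z.re|)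

def D10_s : Prop := ∀ p A J x l R V, Dat p A J x l R → Reg p A J x l R V → ∀ z : ℂ,
  |z.re| ≤ p.y → |z.im| ≤ p.X / 2 → ‖V z‖ ≤ p.P ^ 4

def D11_s : Prop := ∀ p A J x l R, Dat p A J x l R → ∀ z : ℂ, |z.re| ≤ p.y → |z.im| ≤ p.X / 2 →
  ‖FF (fJ A J x l) R p.b (z + p.k * I) - FF (fJ A J x l) R p.b z‖ * p.P ^ 5 ≤ 1

def D12_s : Prop := ∀ p A J x l R, Dat p A J x l R →
  DifferentiableOn ℂ (FF (fJ A J x l) R p.b) (Metric.closedBall 0 p.X) ∧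
  ∀ z : ℂ, 0 ≤ z.re → z.re ≤ p.X / 20 → |z.im| ≤ p.X / 10 →
    ‖(FF (fJ A J x l) R p.b z - 1) * exp z‖ ≤ Real.exp (4 * p.G + 3 * p.κ * z.re) ∧
    ‖FF (fJ A J x l) R p.b (-z) * exp (-(2 * z))‖ ≤ Real.exp (4 * p.G + 3 * p.κ * z.re)

def DET_s : Prop := ∀ p A J x l R, Dat p A J x l R → ∀ j, |x j| ≤ 1 →
  x (j + 1) - x j ≤ 8 * p.n ∧
  ‖exp (2 * Real.pi / p.k * (x (j + 1) - x j) * I) - 1‖ ≤ 400 * Real.exp (-(p.y / 2))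

/-! ### inputs from the zeta function -/

def WIN_s : Prop := ∀ ρ, Zs ρ → ∀ r μ : ℝ, 0 < r → 0 < μ → ∀ᶠ T : ℝ in atTop, ∀ u,
  11 / 10 * T ≤ u → u ≤ 19 / 10 * T → ∃ (J : Finset ℕ) (A : ℂ) (l : ℂ → ℂ), A ≠ 0 ∧ Win r μ l ∧
    (∀ z ∈ Metric.ball (0 : ℂ) r, fz T u z = fJ A J (xs ρ T u) l z) ∧
    (∀ z ∈ Metric.ball (0 : ℂ) r, 0 < z.re →
      ZZ (sc T u z) = (Real.log T : ℝ) * ld J (xs ρ T u) l z) ∧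
    ∀ j, |xs ρ T u j| < r → ∃ i ∈ J, xs ρ T u i = xs ρ T u j

def SEL_s : Prop := ∀ ρ, Zs ρ → ∀ φ, Cut φ (1 / 2) 1 → ∃ C : ℝ, 1 ≤ C ∧ ∀ B : ℝ,
  ∀ᶠ T : ℝ in atTop, ∀ u a E : ℝ, 11 / 10 * T ≤ u → u ≤ 19 / 10 * T → 1 ≤ a → a ≤ B →
    ‖ZZ (sc T u 1)‖ ≤ Real.log T * E →
    ‖ZZ (sc T u a) / (Real.log T : ℝ) + DP (NT T) (ca φ T a) u‖ ≤
      C * Real.exp (-(a / 14)) * (E + 1) + C / Real.log T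

def GF_s : Prop := ∀ ρ, Zs ρ → ∀ φ, Cut φ (1 / 2) 1 → ∃ C : ℝ, 1 ≤ C ∧ ∀ b : ℝ, 0 ≤ b →
  ∀ᶠ T : ℝ in atTop, ∀ u E : ℝ, 11 / 10 * T ≤ u → u ≤ 19 / 10 * T →
    ‖ZZ (sc T u 1)‖ ≤ Real.log T * E →
    |Real.log ‖fz T u (1 + b) / fz T u 1‖ + (DP (NT T) (cb φ T b) u).re| ≤ C * (E + 1)

def MER_s : Prop := ∀ a a' : ℝ, 0 < a → a ≤ a' → ∀ᶠ L : ℝ in atTop,
  Summable (fun p : Nat.Primes => ex (1 + a / L) p - ex (1 + a' / L) p) ∧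
  |∑' p : Nat.Primes, (ex (1 + a / L) p - ex (1 + a' / L) p) - Real.log (a' / a)| ≤ 2

def VAR1_s : Prop := ∀ φ, Cut φ (1 / 2) 1 → ∃ C : ℝ, 1 ≤ C ∧
  (∀ b : ℝ, 3 ≤ b → ∀ᶠ T : ℝ in atTop, ∑ n ∈ NT T, cb φ T b n ^ 2 ≤ C * Real.log b) ∧
  (∀ b X : ℝ, 0 ≤ b → 1 ≤ X → ∀ᶠ T : ℝ in atTop, ∀ v : ℝ, |v| ≤ X →
    ∑ p ∈ PT T, cb φ T b p ^ 2 * ‖ee (v / Real.log T) p - 1‖ ^ 2 ≤ C * (Real.log X + 1)) ∧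
  (∀ b η : ℝ, 0 ≤ b → 0 < η → ∀ᶠ T : ℝ in atTop, ∑ n ∈ QT T, cb φ T b n ^ 2 ≤ η) ∧
  ∀ a : ℝ, 1 ≤ a → ∀ᶠ T : ℝ in atTop,
    ∑ n ∈ NT T, ca φ T a n ^ 2 ≤ C / a ^ 2 ∧ ∑ n ∈ QT T, |ca φ T a n| ≤ C / a

def VAR2_s : Prop := ∀ φ, Cut φ (1 / 2) 1 → ∃ C : ℝ, 1 ≤ C ∧ ∀ b b' : ℝ, 14 ≤ b' → b' ≤ b →
  ∀ᶠ T : ℝ in atTop, Real.log b - 2 * Real.log b' - C ≤ ∑ p ∈ BT T b b', cb φ T b p ^ 2 ∧
    ∑ p ∈ PT T \ BT T b b', cb φ T b p ^ 2 ≤ 2 * Real.log b' + C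

def SML_s : Prop :=
  (∀ T Φ η v, Sml T Φ η → Sml T (fun u => Φ (u + v)) η) ∧
  (∀ T Φ Ψ η η', Sml T Φ η → Sml T Ψ η' → Sml T (fun u => Φ u + Ψ u) (η + η')) ∧
  (∀ T Φ η c, 0 ≤ c → Sml T Φ η → Sml T (fun u => c * Φ u) (c * η)) ∧
  (∀ T Φ Ψ η η', 1 ≤ T → Sml T Φ η → (∀ u, 0 ≤ Ψ u ∧ Ψ u ≤ Φ u) → η ≤ η' → Sml T Ψ η') ∧
  (∀ (ι : Type) (s : Finset ι) T (Φ : ι → ℝ → ℝ) (η : ι → ℝ), (∀ i ∈ s, Sml T (Φ i) (η i)) →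
    Sml T (fun u => ∑ i ∈ s, Φ i u) (∑ i ∈ s, η i)) ∧
  (∀ᶠ T : ℝ in atTop, Sml T (fun _ => 1) 2) ∧
  (∀ᶠ T : ℝ in atTop, ∀ (S : Finset ℕ) (c : ℕ → ℝ), (∀ n ∈ S, 1 ≤ n ∧ (n : ℝ) ≤ HH T) →
    Sml T (fun u => ‖DP S c u‖ ^ 2) (48 * ∑ n ∈ S, c n ^ 2)) ∧
  (∀ᶠ T : ℝ in atTop, ∀ n ∈ NT T, 1 ≤ n ∧ (n : ℝ) ≤ HH T) ∧
  ∀ᶠ T : ℝ in atTop, ∀ (S : Finset ℕ) (c : ℕ → ℂ) (k : ℕ), S ⊆ PT T → k ≤ 6 →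
    Sml T (fun u => ‖∑ p ∈ S, c p * ee u p‖ ^ (2 * k)) (48 * (k ^ k * (∑ p ∈ S, ‖c p‖ ^ 2) ^ k))

def GM_s : Prop := ∀ (ι : Type) (s : Finset ι) (c : ι → ℂ) (n m : ι → ℕ) (N H r : ℝ), 0 < H →
  1 ≤ N → 0 ≤ r → (∀ i ∈ s, 1 ≤ n i ∧ 1 ≤ m i) → (∀ i ∈ s, ∀ j ∈ s, (n i * m j : ℝ) ≤ N) →
  (s.card : ℝ) ≤ Real.exp (H ^ 2 / (4 * N ^ 2)) →
  (∀ i ∈ s, ({j | j ∈ s ∧ n i * m j = n j * m i}.ncard : ℝ) ≤ r) →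
  Mv H (fun t => ‖∑ i ∈ s, c i * ee t (n i) * conj (ee t (m i))‖ ^ 2)
    (2 * H * (r + 1) * ∑ i ∈ s, ‖c i‖ ^ 2)

def MULTI_s : Prop := ∃ C : ℝ, 1 ≤ C ∧ ∀ (α : ℝ) (m : ℕ), 4 ≤ α → 1 ≤ m → ∀ᶠ T : ℝ in atTop,
  ∀ (B : ℕ → Finset ℕ) (c : ℕ → ℕ → ℝ), (∀ i, B i ⊆ PT T) →
    (∀ i j, i < j → Disjoint (B i) (B j)) → (∀ i < m, ∑ p ∈ B i, c i p ^ 2 = 1) →
    ∃ Φ, Sml T Φ (C / α ^ 2 + C * α ^ 2 / m) ∧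
      ∀ u, Φ u < 1 → ∃ i < m, 1 / (32 * α) < -(DP (B i) (c i) u).re

def SUP_s : Prop := ∃ C : ℝ, 1 ≤ C ∧ ∀ᶠ T : ℝ in atTop, ∀ (S : Finset ℕ) (c : ℕ → ℝ),
  (∀ n ∈ S, 1 ≤ n ∧ (n : ℝ) ≤ HH T) → ∃ Φ, Sml T Φ (C * ∑ n ∈ S, c n ^ 2) ∧
    ∀ u x : ℝ, |x| ≤ 1 / 2 → ‖DP S c (u + x / Real.log T)‖ ^ 2 ≤ Φ u

def MASS_s : Prop := ∀ (φ : ℝ → ℝ) (b δ : ℝ), 1 ≤ b → 0 < δ → (∀ y, 0 ≤ φ y ∧ φ y ≤ 1) →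
  ∀ᶠ T : ℝ in atTop, ∃ (S : Finset ℕ) (c : ℕ → ℝ), (∀ n ∈ S, 1 ≤ n ∧ (n : ℝ) ≤ HH T) ∧
    ∑ n ∈ S, c n ^ 2 ≤ 2 * b ∧ ∀ u x : ℝ, Rz φ b δ T u (1 + x * I) = DP S c (u + x / Real.log T)

def DIAG_s : Prop := ∀ b c k d : ℝ, 1 ≤ b → 0 < c → c * b ≤ 1 → 3 ≤ k → k ≤ Real.pi →
  (Real.pi - k) * b ≤ 1 → 0 < d → ∃ (δ : ℝ) (φ : ℝ → ℝ), 0 < δ ∧ δ ≤ d ∧ δ ≤ 1 / 4 ∧
    Cut φ (1 - 2 * δ) (1 - δ) ∧ Dia φ b c k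

def MINT_s : Prop := ∀ ρ, Zs ρ → ∀ c η k : ℝ, 0 < c → 0 < η →
  ∀ᶠ T : ℝ in atTop, ∀ (r : ArithmeticFunction ℂ) (X : ℕ) (s : ℂ), (∀ n, X < n → r n = 0) →
    (∀ n, ‖r n‖ ≤ 1) → (∀ n, conj (r n) = r n) → X ≤ Real.exp ((1 - η) * Real.log T) →
    s.re = 1 / 2 + c / Real.log T → 12 / 10 * T ≤ s.im → s.im ≤ 18 / 10 * T →
    ‖(∫ y in -(T / 20)..(T / 20), (gw (T / Real.log T ^ 2) y * ‖RP r X (s + y * I)‖ ^ 2 : ℝ) *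
      (riemannZeta (s + y * I) / riemannZeta (s + y * I + -((k / Real.log T : ℝ) * I)))) -
      (√Real.pi * (T / Real.log T ^ 2) : ℝ) * ∑ n ∈ Finset.Icc 1 X,
        (mm (-((k / Real.log T : ℝ) * I)) 0 * r) n * r n * ex (1 + 2 * c / Real.log T) n‖ ≤ 1

def NULL_s : Prop := ∀ ρ, Zs ρ → ∀ (b c k δ : ℝ) (φ : ℝ → ℝ), 0 ≤ b → 0 < c → 0 < k → 0 < δ →
  Cut φ (1 - 2 * δ) (1 - δ) → Dia φ b c k → ∃ Q : ℝ, 0 < Q ∧ ∀ᶠ T : ℝ in atTop,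
    ∀ S, Gaps ρ T k S → ∀ τ, 135 / 100 * T ≤ τ → τ ≤ 175 / 100 * T →
      Mv (HH T) (fun y => if |y| ≤ T / 20 then
        max 0 (qp (fz T (τ + y)) (Rz φ b δ T (τ + y)) k c) +
          max 0 (qm (fz T (τ + y)) (Rz φ b δ T (τ + y)) k c) else 0)
        (80 * HH T + Q * ∫ y in -(T / 20)..(T / 20), (∑ j ∈ S,
          aa (c / Real.log T) (k / Real.log T) (τ + y - (ρ j).im)) * gw (HH T) y)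

def CNT_s : Prop := ∀ᶠ T : ℝ in atTop, (NG T : ℝ) * HH T ≤ T ∧
  ∀ (J : Finset ℕ) (g : ℕ → ℝ) (w s : ℝ) (F : ℝ → ℝ → ℝ) (M : ℝ → ℝ), 0 < w → w ≤ 1 → 0 ≤ s →
    (∀ i ∈ J, ∀ j ∈ J, i < j → w ≤ g j - g i) →
    (∀ j ∈ J, 136 / 100 * T ≤ g j ∧ g j ≤ 174 / 100 * T) → (∀ τ y, 0 ≤ F τ y) →
    (∀ τ, 135 / 100 * T ≤ τ → τ ≤ 175 / 100 * T → Mv (HH T) (F τ) (M τ)) →
    (∀ j ∈ J, ∀ τ u, g j ≤ u → u ≤ g j + w → |u - τ| ≤ T / 20 → s ≤ F τ (u - τ)) →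
    J.card * s * w ≤ 60 * ∑ i ∈ Finset.range (NG T), M (gr T i)

def GB_s : Prop := ∀ᶠ T : ℝ in atTop, ∀ (S : Finset ℕ) (g : ℕ → ℝ) (α h : ℝ), 0 < α → 0 ≤ h →
  ∑ i ∈ Finset.range (NG T), ∫ y in -(T / 20)..(T / 20),
    (∑ j ∈ S, aa α h (gr T i + y - g j)) * gw (HH T) y ≤ 8 * Real.pi * h * S.card

def EXC_s : Prop := ∃ C : ℝ, 1 ≤ C ∧ ∀ ρ, Zs ρ → ∀ (b c k δ Γ W : ℝ) (φ : ℝ → ℝ), 0 ≤ b → 0 < c →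
  c ≤ 1 → 3 ≤ k → k ≤ 4 → 0 < δ → 1 ≤ Γ → 1 ≤ W → Cut φ (1 - 2 * δ) (1 - δ) → Dia φ b c k →
  ∃ e : ℝ, 0 < e ∧ ∀ᶠ T : ℝ in atTop, ∀ S, Gaps ρ T k S → S.card ≤ e * T * Real.log T →
    ∃ Z : Finset ℕ, Z.card ≤ C * W / Γ * T * Real.log T ∧ ∀ j ∉ Z, 14 / 10 * T ≤ (ρ j).im →
      (ρ j).im ≤ 17 / 10 * T → ∀ u, (ρ j).im ≤ u → u ≤ (ρ j).im + 1 / Real.log T →
      ∀ i, |xs ρ T u i| ≤ W → k ≤ xs ρ T u (i + 1) - xs ρ T u i ∧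
        (∃ t : ℝ, |t - xs ρ T u i| ≤ c ∧ c * qp (fz T u) (Rz φ b δ T u) k (c + t * I) ≤ Γ) ∧
        ∃ t : ℝ, |t - (xs ρ T u i - k)| ≤ c ∧ c * qm (fz T u) (Rz φ b δ T u) k (c + t * I) ≤ Γ

/-- bounds on the whole half plane -/
def FAR_s : Prop := ∀ ρ, Zs ρ → ∀ (b δ : ℝ) (φ : ℝ → ℝ), 0 ≤ b → 0 < δ → δ ≤ 1 / 4 →
  Cut φ (1 - 2 * δ) (1 - δ) → ∃ A : ℝ, 1 ≤ A ∧ ∀ V : ℝ, ∀ᶠ T : ℝ in atTop, ∀ (u : ℝ) (z : ℂ),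
    13 / 10 * T ≤ u → u ≤ 18 / 10 * T → 1 ≤ z.re → |z.im| ≤ V * Real.log T →
    DifferentiableAt ℂ (fz T u) z ∧ fz T u z ≠ 0 ∧
    ‖fz T u (z + b) / fz T u z‖ ≤ Real.exp (A * Real.log T) ∧
    ‖fz T u z / fz T u (z + b)‖ ≤ Real.exp (A * Real.log T) ∧
    ‖exp ((1 - 2 * δ : ℝ) * z) * (fz T u (z + b) / fz T u z - Rz φ b δ T u z)‖ ≤
      Real.exp (A * Real.log T) ∧
    ‖exp (2 - z) * Rz φ b δ T u (2 - z)‖ ≤ Real.exp (A * Real.log T)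

/-- bounds on the line -/
def CELL_s : Prop := ∀ ρ, Zs ρ → ∃ C : ℝ, 1 ≤ C ∧ ∀ (b δ : ℝ) (φ : ℝ → ℝ), 3 ≤ b → 0 < δ →
  (∀ y, 0 ≤ φ y ∧ φ y ≤ 1) → ∀ᶠ T : ℝ in atTop, ∃ a : ℝ → ℝ, (∀ u, 0 ≤ a u) ∧
    Sml T (fun u => a u ^ 2) (C * Real.log b ^ 2) ∧ ∀ u x : ℝ, 12 / 10 * T ≤ u → u ≤ 185 / 100 * T →
      |x| ≤ 1 / 2 → ‖fz T u (1 + x * I + b) / fz T u (1 + x * I)‖ ≤ Real.exp (a u - 2) ∧
        ‖fz T u (1 + x * I) / fz T u (1 + x * I + b)‖ ≤ Real.exp (a u - 2) ∧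
        ‖Rz φ b δ T u (1 + x * I)‖ ≤ Real.exp (a u - 2)

def CRU_s : Prop := ∀ ρ, Zs ρ → ∃ C : ℝ, 1 ≤ C ∧ ∀ (b δ X G κ : ℝ) (φ : ℝ → ℝ), 3 ≤ b → 0 < δ →
  δ ≤ 1 / 4 → 2 ≤ X → 20 ≤ G → 2 * δ ≤ κ → κ ≤ 1 → Cut φ (1 - 2 * δ) (1 - δ) →
  ∀ᶠ T : ℝ in atTop, ∃ Φ, Sml T Φ (C * X * Real.log b ^ 2 / G ^ 2) ∧ ∀ u, 13 / 10 * T ≤ u →
    u ≤ 18 / 10 * T → Φ u < 1 → Crude (fz T u) (Rz φ b δ T u) X G κ b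

/-- the envelope, the density and the distant point -/
def LOC_s : Prop := ∀ ρ, Zs ρ → ∀ A η : ℝ, 1 ≤ A → 0 < η → ∀ᶠ t : ℝ in atTop, ∀ᶠ T : ℝ in atTop,
  ∃ Φ, Sml T Φ η ∧ ∀ u, 13 / 10 * T ≤ u → u ≤ 18 / 10 * T → Φ u < 1 →
    (∀ v : ℤ, |(v : ℝ)| ≤ 2 * t ^ 20 →
      ‖ZZ (sc T u (1 + v * I))‖ ≤ Real.log T * (21 * Real.log t / A - 1) ∧
      ‖ZZ (sc T u (t ^ 5 + v * I))‖ ≤ Real.log T / 50 ∧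
      ‖ZZ (sc T u (3 * t ^ 5 + v * I))‖ ≤ Real.log T / 50) ∧
    ‖ZZ (sc T u (Real.exp (t ^ 4) : ℝ))‖ * (100 * t ^ 20) ≤ Real.log T

/-- the good event -/
def GOOD_s : Prop := ∀ ρ, Zs ρ → ∀ φ, Cut φ (1 / 2) 1 → ∀ θ η : ℝ, 0 < θ → 0 < η →
  ∀ᶠ t : ℝ in atTop, ∀ᶠ T : ℝ in atTop, ∃ Φ, Sml T Φ η ∧ ∀ u, 13 / 10 * T ≤ u → u ≤ 18 / 10 * T →
    Φ u < 1 → θ * t ^ 2 ≤ -(DP (PT T) (cb φ T (Real.exp (t ^ 4))) u).re →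
    ∀ v : ℤ, |(v : ℝ)| ≤ t ^ 20 →
      ‖ZZ (sc T u (1 + v * I))‖ ≤ Real.log T * (21 * Real.log t) →
      ‖fz T u (1 + v * I) / fz T u (1 + v * I + (Real.exp (t ^ 4) : ℝ))‖ * (t ^ 21) ^ 12 ≤ 1

/-- the numerical side conditions hold -/
def PAR_s : Prop := ∀ y : ℝ, 10 ≤ y → ∀ᶠ t : ℝ in atTop,
  Par.Ok ⟨t ^ 5, t ^ 20, t ^ 15 / 30000, t ^ 21, 21 * Real.log t / (100 * (y + 8) ^ 2) - 1, y,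
    Real.exp (t ^ 4), Real.pi - Real.exp (-t ^ 4), Real.exp (-(5 * (t ^ 15 / 30000))),
    1 / (1000 * t ^ 40), 2 * Real.exp (t ^ 4)⟩ ∧
  Real.exp (-(5 * (t ^ 15 / 30000))) ^ 4 * Real.exp (t ^ 4) ≤ 1

/-- from a function that agrees with the model on a disc to the data of the local argument -/
def DAT_s : Prop := ∀ (p : Par) (A : ℂ) (J : Finset ℕ) (x : ℕ → ℝ) (l R f Z : ℂ → ℂ) (L : ℝ), p.Ok →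
  0 < L → A ≠ 0 → Win p.r p.μ l → Differentiable ℂ R → Monotone x →
  (∀ z ∈ Metric.ball (0 : ℂ) p.r, f z = fJ A J x l z) →
  (∀ z ∈ Metric.ball (0 : ℂ) p.r, 0 < z.re → Z z = L * ld J x l z) →
  (∀ j, |x j| < p.r → ∃ i ∈ J, x i = x j) →
  (∀ i, |x i| ≤ 2 * p.X → p.k ≤ x (i + 1) - x i ∧
    (∃ t : ℝ, |t - x i| ≤ p.c ∧ p.c * qp f R p.k (p.c + t * I) ≤ p.P) ∧
    ∃ t : ℝ, |t - (x i - p.k)| ≤ p.c ∧ p.c * qm f R p.k (p.c + t * I) ≤ p.P) →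
  (∀ v : ℤ, |(v : ℝ)| ≤ 2 * p.X → ‖Z (1 + v * I)‖ ≤ L * p.E ∧ ‖Z (p.n + v * I)‖ ≤ L / 50 ∧
    ‖Z (3 * p.n + v * I)‖ ≤ L / 50) →
  ‖Z p.b‖ * (100 * p.X) ≤ L → Crude f R p.X p.G p.κ p.b →
  (∀ v : ℤ, |(v : ℝ)| ≤ p.X → ‖f (1 + v * I) / f (1 + v * I + p.b)‖ * p.P ^ 12 ≤ 1) →
  Dat p A J x l R

def PROP_s : Prop := ∀ ρ, Zs ρ → ∀ φ, Cut φ (1 / 2) 1 → ∀ ε θ η : ℝ, 0 < ε → 0 < θ → 0 < η →
  ∀ᶠ t : ℝ in atTop, ∃ k e : ℝ, k < Real.pi ∧ 0 < e ∧ ∀ᶠ T : ℝ in atTop,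
    ∀ S, Gaps ρ T k S → S.card ≤ e * T * Real.log T → ∃ (Z : Finset ℕ) (Φ : ℝ → ℝ),
      Z.card ≤ η * T * Real.log T ∧ Sml T Φ η ∧ ∀ j ∉ Z, 14 / 10 * T ≤ (ρ j).im →
        (ρ j).im ≤ 17 / 10 * T → 3 / Real.log T ≤ (ρ (j + 1)).im - (ρ j).im ∧
        ∀ u, (ρ j).im ≤ u → u ≤ (ρ j).im + 1 / Real.log T → Φ u < 1 →
          θ * t ^ 2 ≤ -(DP (PT T) (cb φ T (Real.exp (t ^ 4))) u).re →
          ∃ m : ℕ, 1 ≤ m ∧ |dd ρ j - m / 2| < ε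

/-- at almost every point one of the scales is good -/
def SCA_s : Prop := ∀ φ, Cut φ (1 / 2) 1 → ∀ η : ℝ, 0 < η → ∃ (θ : ℝ) (m : ℕ) (D : ℝ), 0 < θ ∧
  1 ≤ m ∧ 1 ≤ D ∧ ∀ᶠ t : ℝ in atTop, ∀ᶠ T : ℝ in atTop, ∃ Φ, Sml T Φ η ∧ ∀ u, Φ u < 1 → ∃ i < m,
    θ * (t * D ^ (i + 1)) ^ 2 ≤ -(DP (PT T) (cb φ T (Real.exp ((t * D ^ (i + 1)) ^ 4))) u).re

def ONE_s : Prop := ∀ ρ, Zs ρ → ∀ ε η : ℝ, 0 < ε → 0 < η → ∃ k e : ℝ, k < Real.pi ∧ 0 < e ∧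
  ∀ᶠ T : ℝ in atTop, ∀ S, Gaps ρ T k S → S.card ≤ e * T * Real.log T → ∀ J : Finset ℕ,
    (∀ j ∈ J, 14 / 10 * T ≤ (ρ j).im ∧ (ρ j).im ≤ 17 / 10 * T ∧
      ∀ m : ℕ, 1 ≤ m → ε ≤ |dd ρ j - m / 2|) → J.card ≤ η * T * Real.log T

def FIN_s : Prop := ∀ ρ, Zs ρ → ∀ ε δ : ℝ, 0 < ε → 0 < δ → ∃ η c : ℝ, 0 < η ∧ 0 < c ∧
  ∀ᶠ T : ℝ in atTop,
    δ * T * Real.log T < ({j : ℕ | T ≤ (ρ j).im ∧ (ρ j).im ≤ 2 * T ∧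
      ∀ m : ℕ, 1 ≤ m → ε ≤ |dd ρ j - m / 2|}.ncard : ℝ) →
    c * T * Real.log T < ({j : ℕ | T / 2 ≤ (ρ j).im ∧ (ρ (j + 1)).im ≤ 3 * T ∧
      dd ρ j ≤ 1 / 2 - η}.ncard : ℝ)

end Pool.Agent.MP_f0209c_nt.Rg

/-! Basic facts. -/

namespace Pool.Agent.MP_f0209c_nt.Rg
open Complex Set Filter Topology ArithmeticFunction Ch Pp

lemma sc_shift (T u x : ℝ) (z : ℂ) : sc T u (z + x * I) = sc T (u + x / Real.log T) z := by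
  unfold sc; push_cast; ring

lemma fz_shift (T u x : ℝ) (z : ℂ) : fz T u (z + x * I) = fz T (u + x / Real.log T) z := by
  unfold fz; rw [sc_shift]

lemma Rz_shift (φ : ℝ → ℝ) (b δ T u x : ℝ) (z : ℂ) :
    Rz φ b δ T u (z + x * I) = Rz φ b δ T (u + x / Real.log T) z := by
  unfold Rz; rw [sc_shift]

lemma sc_re (T u : ℝ) (z : ℂ) : (sc T u z).re = 1 / 2 + z.re / Real.log T := by
  simp [sc, -natCast_log, -ofReal_log, div_ofReal_re]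

lemma sc_im (T u : ℝ) (z : ℂ) : (sc T u z).im = u + z.im / Real.log T := by
  simp [sc, -natCast_log, -ofReal_log, div_ofReal_im]

lemma diff_Rz (φ : ℝ → ℝ) (b δ T u : ℝ) : Differentiable ℂ (Rz φ b δ T u) :=
  (diff_RP _ _).comp (by unfold sc; fun_prop)

lemma exists_cut : ∃ φ, Cut φ (1 / 2) 1 := by
  obtain ⟨φ, a, b, c, d⟩ := exists_bump (c := 0) (r := 1 / 2) (R := 1) (by norm_num) (by norm_num)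
    (by norm_num) (by norm_num)
  exact ⟨φ, a, b, fun y hy => c y (by rwa [sub_zero]), fun y hy => d y (by rwa [sub_zero])⟩

variable {A : ℂ} {J : Finset ℕ} {x : ℕ → ℝ} {l R : ℂ → ℂ} {p : Par}

lemma fJ_erase {j : ℕ} (hj : j ∈ J) (z : ℂ) :
    fJ A J x l z = (z - x j * I) * fJ A (J.erase j) x l z := by
  unfold fJ; rw [← Finset.mul_prod_erase J _ hj]; ring

lemma fJ_zero {j : ℕ} (hj : j ∈ J) : fJ A J x l (x j * I) = 0 := by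
  rw [fJ_erase hj, sub_self, zero_mul]

lemma fJ_ne (hA : A ≠ 0) {z : ℂ} (h : ∀ j ∈ J, z ≠ x j * I) : fJ A J x l z ≠ 0 :=
  mul_ne_zero (mul_ne_zero hA (Finset.prod_ne_zero_iff.2 fun j hj => sub_ne_zero.2 (h j hj)))
    (exp_ne_zero _)

lemma fJ_ne' (hA : A ≠ 0) {z : ℂ} (h : z.re ≠ 0) : fJ A J x l z ≠ 0 :=
  fJ_ne hA fun j _ e => h (by simp [e])

lemma ld_erase {j : ℕ} (hj : j ∈ J) (z : ℂ) :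
    ld J x l z = (z - x j * I)⁻¹ + ld (J.erase j) x l z := by
  unfold ld; rw [← Finset.add_sum_erase J _ hj]; ring

lemma Win.diffAt {r μ : ℝ} (h : Win r μ l) {z : ℂ} (hz : ‖z‖ < r) :
    DifferentiableAt ℂ (fJ A J x l) z := by
  have := h.diff.differentiableAt (Metric.isOpen_ball.mem_nhds (mem_ball_zero_iff.2 hz))
  unfold fJ; fun_prop

namespace Par.Ok
variable (h : p.Ok)
include h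

lemma n0 : 0 < p.n := by linarith [h.n1]

lemma xn : 2000000 * p.n ≤ p.X := by nlinarith [h.n1, h.x1]

lemma xb : 200000000 ≤ p.X := by nlinarith [h.n1, h.xn]

lemma pb : 200000000 ≤ p.P := h.xb.trans h.p1

lemma gb : 200000000 ≤ Real.exp p.G := h.pb.trans h.p4

lemma g1 : 1 ≤ p.G := by
  by_contra q
  linarith [Real.exp_le_exp.2 (not_le.1 q).le, Real.exp_one_lt_d9, h.gb]

lemma ep : p.E + 1 ≤ p.P := by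
  have := Real.add_one_le_exp (100 * (p.y + 8) ^ 2 * (p.E + 1))
  nlinarith [h.p3, h.y1, h.e0, mul_nonneg (show 0 ≤ 100 * (p.y + 8) ^ 2 - 1 by nlinarith [h.y1])
    (show 0 ≤ p.E + 1 by linarith [h.e0])]

lemma κ0 : 0 < p.κ := by have := h.n0; unfold Par.κ; positivity

lemma κ1 : p.κ ≤ 1 / 1000000 := by
  unfold Par.κ
  exact one_div_le_one_div_of_le (by norm_num) (by linarith [h.n1])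

lemma τ4 : p.τ * Real.exp (4 * p.G) * 200000000 ≤ 1 := by
  have a := h.t1
  rw [show 5 * p.G = 4 * p.G + p.G by ring, Real.exp_add, ← mul_assoc] at a
  exact (mul_le_mul_of_nonneg_left h.gb (by have := h.t0; positivity)).trans a

lemma τ1 : p.τ ≤ 1 / 200000000 := by
  have a := Real.one_le_exp (show 0 ≤ 4 * p.G by linarith [h.g1])
  have := h.τ4
  have := h.t0
  rw [le_div_iff₀ (by norm_num)]; nlinarith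

lemma c0 : 0 < p.c := pow_pos h.t0 4

lemma c1 : p.c ≤ p.τ / 200000000 := by
  have a := h.τ1
  have b := h.t0
  have : p.τ ^ 2 ≤ 1 := pow_le_one₀ b.le (by linarith)
  unfold Par.c
  nlinarith [mul_le_mul_of_nonneg_left this (sq_nonneg p.τ), mul_le_mul_of_nonneg_left a b.le]

lemma μ1 : p.μ * p.X ≤ 1 / 1000000 := by
  have := h.m1
  have := h.xb
  nlinarith [mul_nonneg h.m0 (show 0 ≤ p.X by linarith)]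

lemma μ2 : p.μ ≤ 1 / 1000000 := by nlinarith [h.μ1, h.xb, h.m0]

lemma bx : 1000000 * p.X ≤ p.b := by nlinarith [h.b1, h.xb]

/-- the disc contains every point we use -/
lemma ball {z : ℂ} (hz : ‖z‖ ≤ 100 * p.X) : ‖z‖ < p.r ∧ ‖z + p.b‖ < p.r := by
  have a := h.bx
  have b := h.xb
  have c := norm_add_le z p.b
  rw [norm_real, Real.norm_of_nonneg (by linarith)] at c
  constructor <;> linarith [h.r1]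

end Par.Ok

theorem SEP : SEP_s := fun p A J x l R h j hj => by
  have a := h.ok.xb
  have b := abs_le.1 hj
  refine ⟨fun i hi => ?_, fun i hi => ?_⟩
  · have m := h.mono hi.le
    by_cases q : |x i| ≤ 2 * p.X
    · linarith [h.gap i q, h.mono (show i + 1 ≤ j from hi)]
    · rw [abs_le, not_and_or, not_le, not_le] at q
      rcases q with q | q <;> linarith [h.ok.k2, Real.pi_le_four]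
  · linarith [h.gap j (hj.trans (by linarith)), h.mono (show j + 1 ≤ i from hi)]

end Pool.Agent.MP_f0209c_nt.Rg
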