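import Pool.Agent.MP_f0209c_nt.Rg.Bas

/-! Complex analysis and counting lemmas. -/

/-! The maximum principle on a box. -/

namespace Pool.Agent.MP_f0209c_nt.Rg
open Complex Set Filter Topology ArithmeticFunction Ch Pp

theorem BOX : BOX_s := fun g a b c d m hg h z hz => by
  by_cases e : z.re = a ∨ z.re = b ∨ z.im = c ∨ z.im = d
  · exact h z hz e
  simp only [not_or] at e
  obtain ⟨z1, z2, z3, z4⟩ := hz
  have ab : a < b := (lt_of_le_of_ne z1 (Ne.symm e.1)).trans_le z2
  have cd : c < d := (lt_of_le_of_ne z3 (Ne.symm e.2.2.1)).trans_le z4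
  have cl : closure (Ioo a b ×ℂ Ioo c d) = Bx a b c d := by
    rw [closure_reProdIm, closure_Ioo ab.ne, closure_Ioo cd.ne]
    ext w
    simp [Bx, mem_reProdIm, and_assoc]
  have op : IsOpen (Ioo a b ×ℂ Ioo c d) := isOpen_Ioo.reProdIm isOpen_Ioo
  refine norm_le_of_forall_mem_frontier_norm_le (U := Ioo a b ×ℂ Ioo c d)
    ((Metric.isBounded_Ioo a b).reProdIm (Metric.isBounded_Ioo c d))
    (DifferentiableOn.diffContOnCl (cl ▸ hg)) (fun w hw => ?_) (cl ▸ ⟨z1, z2, z3, z4⟩)
  rw [op.frontier_eq, cl] at hw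
  refine h w hw.1 ?_
  obtain ⟨⟨w1, w2, w3, w4⟩, w5⟩ := hw
  by_contra q
  simp only [not_or] at q
  exact w5 ⟨⟨lt_of_le_of_ne w1 (Ne.symm q.1), lt_of_le_of_ne w2 q.2.1⟩,
    lt_of_le_of_ne w3 (Ne.symm q.2.2.1), lt_of_le_of_ne w4 q.2.2.2⟩

end Pool.Agent.MP_f0209c_nt.Rg

/-! A sum over the integers. -/

namespace Pool.Agent.MP_f0209c_nt.Rg
open Complex Set Filter Topology ArithmeticFunction Ch Pp

namespace SUMZaux

lemma tel {s : ℝ} (hs : 1 ≤ s) (N : ℕ) :
    ∑ m ∈ Finset.range (N + 1), 1 / (1 + ((m : ℝ) / s) ^ 2) ≤ 1 + 2 * s - 2 * s ^ 2 / (s + N) := by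
  induction N with
  | zero =>
    have : 2 * s ^ 2 / s = 2 * s := by field_simp
    simp [this]
  | succ N ih =>
    rw [Finset.sum_range_succ]
    have N0 : (0 : ℝ) ≤ N := N.cast_nonneg
    have : 1 / (1 + (((N : ℝ) + 1) / s) ^ 2) ≤ 2 * s ^ 2 / (s + N) - 2 * s ^ 2 / (s + (N + 1)) := by
      have e1 : 1 / (1 + (((N : ℝ) + 1) / s) ^ 2) = s ^ 2 / (s ^ 2 + (N + 1) ^ 2) := by field_simp
      have e2 : 2 * s ^ 2 / (s + N) - 2 * s ^ 2 / (s + (N + 1)) =
          s ^ 2 / ((s + N) * (s + (N + 1)) / 2) := by field_simp; ring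
      rw [e1, e2]
      refine div_le_div_of_nonneg_left (by positivity) (by positivity) ?_
      nlinarith [sq_nonneg (s - (N + 1))]
    push_cast
    linarith

lemma side {s : ℝ} (hs : 1 ≤ s) (V : Finset ℤ) (d : ℤ → ℝ) (f : ℤ → ℕ) (hf : InjOn f V)
    (h : ∀ v ∈ V, (f v : ℝ) ≤ |d v|) : ∑ v ∈ V, 1 / (1 + (d v / s) ^ 2) ≤ 4 * s := by
  have a : ∑ v ∈ V, 1 / (1 + (d v / s) ^ 2) ≤ ∑ v ∈ V, 1 / (1 + ((f v : ℝ) / s) ^ 2) :=
    Finset.sum_le_sum fun v hv => one_div_le_one_div_of_le (by positivity) (by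
      rw [div_pow, div_pow, ← sq_abs (d v)]
      have := h v hv
      gcongr)
  rw [← Finset.sum_image (f := fun m : ℕ => 1 / (1 + ((m : ℝ) / s) ^ 2)) hf] at a
  obtain ⟨N, hN⟩ := (V.image f).bddAbove
  refine a.trans ((Finset.sum_le_sum_of_subset_of_nonneg
    (fun m hm => Finset.mem_range.2 (Nat.lt_succ_of_le (hN hm))) fun _ _ _ => by positivity).trans
    ((tel hs N).trans ?_))
  have : 0 ≤ 2 * s ^ 2 / (s + N) := by positivity
  linarith

end SUMZaux

theorem SUMZ : SUMZ_s := fun s x V hs => by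
  rw [← Finset.sum_filter_add_sum_filter_not V fun v => v ≤ ⌊x⌋]
  have a := SUMZaux.side hs (V.filter fun v => v ≤ ⌊x⌋) (fun v => x - v) (fun v => (⌊x⌋ - v).toNat)
    (fun v hv w hw e => by
      have := (Finset.mem_filter.1 hv).2
      have := (Finset.mem_filter.1 hw).2
      simp only at e
      omega) fun v hv => by
      have h := (Finset.mem_filter.1 hv).2
      refine le_trans ?_ (le_abs_self _)
      rw [← Int.cast_natCast, Int.toNat_of_nonneg (by omega)]
      push_cast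
      linarith [Int.floor_le x]
  have b := SUMZaux.side hs (V.filter fun v => ¬ v ≤ ⌊x⌋) (fun v => x - v)
    (fun v => (v - ⌊x⌋ - 1).toNat) (fun v hv w hw e => by
      have := (Finset.mem_filter.1 hv).2
      have := (Finset.mem_filter.1 hw).2
      simp only at e
      omega) fun v hv => by
      have h := (Finset.mem_filter.1 hv).2
      refine le_trans ?_ (neg_le_abs _)
      rw [← Int.cast_natCast, Int.toNat_of_nonneg (by omega)]
      push_cast
      linarith [Int.lt_floor_add_one x]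
  linarith

end Pool.Agent.MP_f0209c_nt.Rg

/-! A Phragmen-Lindelof bound from bounds on the cells of a line. -/

namespace Pool.Agent.MP_f0209c_nt.Rg
open Complex Set Filter Topology ArithmeticFunction Ch Pp

namespace PLaux

lemma term {A Γ X a x v : ℝ} (hΓ : 0 < Γ) (hX : 1 ≤ X) (ha : 1 ≤ a) (hx : x ^ 2 ≤ 4 * X ^ 2) :
    2 * A * (a / (a ^ 2 + (x - v) ^ 2)) ≤ Γ⁻¹ * (A ^ 2 / (1 + (v / X) ^ 2)) +
      Γ * (9 / a ^ 2 + 2 / X ^ 2) * (1 / (1 + ((x - v) / a) ^ 2)) := by
  obtain ⟨W, hW⟩ : ∃ W, W = 1 + (v / X) ^ 2 := ⟨_, rfl⟩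
  obtain ⟨D, hD⟩ : ∃ D, D = a ^ 2 + (x - v) ^ 2 := ⟨_, rfl⟩
  have W0 : 0 < W := by rw [hW]; positivity
  have D0 : 0 < D := by rw [hD]; positivity
  have e : 1 / (1 + ((x - v) / a) ^ 2) = a ^ 2 / D := by rw [hD]; field_simp
  have w : W ≤ 9 + 2 / X ^ 2 * (x - v) ^ 2 := by
    have : W = 9 + (v ^ 2 - 8 * X ^ 2) / X ^ 2 := by rw [hW]; field_simp; ring
    rw [this, div_mul_eq_mul_div]
    gcongr
    nlinarith [sq_nonneg (2 * x - v)]
  have w2 : W ≤ (9 / a ^ 2 + 2 / X ^ 2) * D := by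
    have e1 : 9 / a ^ 2 * a ^ 2 = 9 := by field_simp
    have p1 : 0 ≤ 9 / a ^ 2 * (x - v) ^ 2 := by positivity
    have p2 : 0 ≤ 2 / X ^ 2 * a ^ 2 := by positivity
    rw [hD]; nlinarith
  rw [← hW, ← hD, e]
  have am : 2 * A * (a / D) ≤ Γ⁻¹ * (A ^ 2 / W) + Γ * W * (a / D) ^ 2 := by
    have : Γ⁻¹ * (A ^ 2 / W) + Γ * W * (a / D) ^ 2 - 2 * A * (a / D) =
        (A - Γ * W * (a / D)) ^ 2 / (Γ * W) := by field_simp; ring
    rw [← sub_nonneg, this]; positivity
  refine am.trans (add_le_add le_rfl ((mul_le_mul_of_nonneg_right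
    (mul_le_mul_of_nonneg_left w2 hΓ.le) (sq_nonneg _)).trans_eq ?_))
  field_simp

end PLaux

theorem PL (hB : BOX_s) (hS : SUMZ_s) : PL_s := fun h N κ X Γ a hκ hX hN hN' hΓ hd a0 h1 h2 h3 z hz => by
  obtain ⟨V, hV⟩ : ∃ V, V = Finset.Icc (-⌈N⌉) ⌈N⌉ := ⟨_, rfl⟩
  rw [← hV] at h3
  obtain ⟨q, hq⟩ : ∃ q, q = κ / (2 * N) := ⟨_, rfl⟩
  have N0 : 0 < N := by linarith
  have q0 : 0 < q := by rw [hq]; positivity
  have q1 : q * N = κ / 2 := by rw [hq]; field_simp
  let P : ℂ → ℝ := fun w => ∑ v ∈ V, 2 * a v * (w.re / (w.re ^ 2 + (w.im - v) ^ 2))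
  have P0 : ∀ w : ℂ, 1 ≤ w.re → ∀ v ∈ V, 0 ≤ 2 * a v * (w.re / (w.re ^ 2 + (w.im - v) ^ 2)) :=
    fun w hw v _ => by have := a0 v; positivity
  have n : ∀ w : ℂ, ‖h w * exp (q * w ^ 2 - κ * w - ∑ v ∈ V, (2 * a v : ℝ) * (w - v * I)⁻¹)‖ =
      ‖h w‖ * Real.exp (q * (w.re ^ 2 - w.im ^ 2) - κ * w.re - P w) := fun w => by
    rw [norm_mul, norm_exp, sub_re, re_sum]
    congr 3
    · simp [sq]
    · refine Finset.sum_congr rfl fun v _ => ?_
      rw [re_ofReal_mul, inv_re, normSq_apply]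
      simp [sq]
  obtain ⟨z1, z2, z3, z4⟩ := hz
  have x2 : z.im ^ 2 ≤ 4 * X ^ 2 := by nlinarith
  have k := hB (fun w => h w * exp (q * w ^ 2 - κ * w - ∑ v ∈ V, (2 * a v : ℝ) * (w - v * I)⁻¹))
    1 N (-N) N 1 (hd.mul (DifferentiableOn.cexp (DifferentiableOn.sub
      (Differentiable.differentiableOn (by fun_prop)) (DifferentiableOn.fun_sum fun v _ =>
        (DifferentiableOn.inv (Differentiable.differentiableOn (by fun_prop)) fun w hw e => by
          have := congrArg re e
          simp at this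
          linarith [hw.1]).const_mul _)))) (fun w hw e => ?_) z
    ⟨z1, by linarith, by linarith, by linarith⟩
  · rw [n] at k
    have e : ‖h z‖ = ‖h z‖ * Real.exp (q * (z.re ^ 2 - z.im ^ 2) - κ * z.re - P z) *
        Real.exp (-(q * (z.re ^ 2 - z.im ^ 2) - κ * z.re - P z)) := by
      rw [mul_assoc, ← Real.exp_add, add_neg_cancel, Real.exp_zero, mul_one]
    rw [e]
    refine (mul_le_of_le_one_left (Real.exp_pos _).le k).trans (Real.exp_le_exp.2 ?_)
    have p : P z ≤ Γ⁻¹ * Γ ^ 2 + Γ * (9 / z.re ^ 2 + 2 / X ^ 2) * (8 * z.re) := by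
      refine (Finset.sum_le_sum fun v _ => PLaux.term hΓ hX z1 x2).trans ?_
      rw [Finset.sum_add_distrib, ← Finset.mul_sum, ← Finset.mul_sum]
      exact add_le_add (mul_le_mul_of_nonneg_left h3 (by positivity))
        (mul_le_mul_of_nonneg_left (hS z.re z.im V z1) (by positivity))
    have p1 : Γ⁻¹ * Γ ^ 2 = Γ := by field_simp
    have p2 : (9 / z.re ^ 2 + 2 / X ^ 2) * (8 * z.re) ≤ 104 := by
      have e1 : (9 / z.re ^ 2 + 2 / X ^ 2) * (8 * z.re) = 72 / z.re + 16 * z.re / X ^ 2 := by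
        field_simp; ring
      have e2 : 72 / z.re ≤ 72 := div_le_self (by norm_num) z1
      have e3 : 16 * z.re / X ^ 2 ≤ 32 := by rw [div_le_iff₀ (by positivity)]; nlinarith
      linarith
    have p3 := mul_le_mul_of_nonneg_left p2 hΓ.le
    have p4 : q * (4 * X ^ 2) ≤ 1 := by
      rw [hq, div_mul_eq_mul_div, div_le_one (by positivity)]; linarith
    have p5 := mul_le_mul_of_nonneg_left x2 q0.le
    have p6 := mul_nonneg q0.le (sq_nonneg z.re)
    rw [mul_assoc] at p
    linarith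
  · rw [n]
    obtain ⟨w1, w2, w3, w4⟩ := hw
    have pw : 0 ≤ P w := Finset.sum_nonneg (P0 w w1)
    have fin : ∀ t, ‖h w‖ ≤ Real.exp t → t + (q * (w.re ^ 2 - w.im ^ 2) - κ * w.re - P w) ≤ 0 →
        ‖h w‖ * Real.exp (q * (w.re ^ 2 - w.im ^ 2) - κ * w.re - P w) ≤ 1 := fun t b c => by
      refine (mul_le_mul_of_nonneg_right b (Real.exp_pos _).le).trans ?_
      rw [← Real.exp_add]
      exact Real.exp_le_one_iff.2 c
    have c : q * N ^ 2 = κ * N / 2 := by linear_combination N * q1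
    have b : q * w.re ^ 2 ≤ κ / 2 * w.re := by
      rw [← q1]; nlinarith [mul_nonneg (mul_nonneg q0.le (zero_le_one.trans w1)) (sub_nonneg.2 w2)]
    have side : w.im ^ 2 = N ^ 2 →
        ‖h w‖ * Real.exp (q * (w.re ^ 2 - w.im ^ 2) - κ * w.re - P w) ≤ 1 := fun e =>
      fin _ (h2 w ⟨w1, w2, w3, w4⟩) (by
        rw [e, mul_sub, c]
        nlinarith [mul_nonneg hκ.le (zero_le_one.trans w1)])
    rcases e with e | e | e | e
    · have t := h1 w.im (abs_le.2 ⟨w3, w4⟩)
      rw [show 1 + (w.im : ℂ) * I = w from by apply Complex.ext <;> simp [e]] at t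
      refine fin _ t ?_
      have r := abs_le.1 (abs_sub_round w.im)
      have m : round w.im ∈ V := by
        have := Int.le_ceil N
        rw [hV, Finset.mem_Icc]
        constructor
        · have : ((-⌈N⌉ - 1 : ℤ) : ℝ) < round w.im := by push_cast; linarith
          have := Int.cast_lt.1 this
          omega
        · have : (round w.im : ℝ) < ((⌈N⌉ + 1 : ℤ) : ℝ) := by push_cast; linarith
          have := Int.cast_lt.1 this
          omega
      have s1 : a (round w.im) ≤ P w := by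
        refine le_trans ?_ (Finset.single_le_sum (P0 w w1) m)
        rw [e, mul_comm 2, mul_assoc]
        refine le_mul_of_one_le_right (a0 _) ?_
        rw [mul_one_div, one_le_div (by positivity)]
        nlinarith
      nlinarith [mul_nonneg q0.le (sq_nonneg w.im), mul_nonneg hκ.le (zero_le_one.trans w1)]
    · refine fin _ (h2 w ⟨w1, w2, w3, w4⟩) ?_
      rw [e, mul_sub, c]
      nlinarith [mul_nonneg q0.le (sq_nonneg w.im)]
    · exact side (by rw [e]; ring)
    · exact side (by rw [e])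

end Pool.Agent.MP_f0209c_nt.Rg

namespace Pool.Agent.MP_f0209c_nt.Rg
open Complex Set Filter Topology ArithmeticFunction Ch Pp

theorem WM (hB : BOX_s) : WM_s := by
  intro g Y s m hY hs hm hd h0 hb z hz
  obtain ⟨σ, hσ⟩ : ∃ σ : ℝ, σ = s / (4 * Y) := ⟨_, rfl⟩
  have e1 : σ * (4 * Y) = s := by rw [hσ]; field_simp
  have σ0 : 0 < σ := by rw [hσ]; positivity
  rw [← hσ] at h0 ⊢
  have key : ∀ w : ℂ, ‖g w * exp (σ * w ^ 2 - s * w)‖ =
      ‖g w‖ * Real.exp (σ * (w.re ^ 2 - w.im ^ 2) - s * w.re) := fun w => by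
    rw [norm_mul, norm_exp]; congr 2; simp [sq]
  have one : ∀ w ∈ Bx 0 Y (-(2 * Y)) (2 * Y),
      s * Y / 2 + s * w.re / 4 + (σ * (w.re ^ 2 - w.im ^ 2) - s * w.re) ≤ 0 →
      ‖g w * exp (σ * w ^ 2 - s * w)‖ ≤ m := fun w hw h => by
    rw [key]
    refine (mul_le_mul_of_nonneg_right (hb w hw) (Real.exp_pos _).le).trans ?_
    rw [← Real.exp_add]
    exact (Real.exp_le_one_iff.2 h).trans hm
  have h := hB (fun w => g w * exp (σ * w ^ 2 - s * w)) 0 Y (-(2 * Y)) (2 * Y) m
    (hd.mul (by fun_prop)) (fun w hw he => ?_) z hz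
  · rw [key] at h
    have a := mul_le_mul_of_nonneg_right h
      (Real.exp_pos (-(σ * (z.re ^ 2 - z.im ^ 2) - s * z.re))).le
    rw [mul_assoc, ← Real.exp_add, add_neg_cancel, Real.exp_zero, mul_one] at a
    refine a.trans (mul_le_mul_of_nonneg_left (Real.exp_le_exp.2 ?_) (by linarith))
    nlinarith [mul_nonneg σ0.le (sq_nonneg z.re)]
  obtain ⟨a0, a1, b0, b1⟩ := id hw
  have side : w.im ^ 2 = (2 * Y) ^ 2 → ‖g w * exp (σ * w ^ 2 - s * w)‖ ≤ m := fun q =>
    one w hw (by
      rw [q, ← e1]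
      nlinarith [mul_nonneg σ0.le (mul_nonneg a0 (sub_nonneg.2 a1)),
        mul_nonneg σ0.le (mul_nonneg a0 hY.le), mul_pos σ0 (mul_pos hY hY)])
  rcases he with q | q | q | q
  · have e : w = w.im * I := by apply Complex.ext <;> simp [q]
    have a := h0 w.im (abs_le.2 ⟨b0, b1⟩)
    rw [← e] at a
    show ‖g w * exp (σ * w ^ 2 - s * w)‖ ≤ m
    rw [key]
    refine (mul_le_mul_of_nonneg_right a (Real.exp_pos _).le).trans ?_
    rw [mul_assoc, ← Real.exp_add, q]
    simp
  · refine one w hw ?_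
    rw [q, ← e1]
    nlinarith [mul_nonneg σ0.le (sq_nonneg w.im)]
  · exact side (by rw [q]; ring)
  · exact side (by rw [q])

end Pool.Agent.MP_f0209c_nt.Rg

namespace Pool.Agent.MP_f0209c_nt.Rg
open Complex Set Filter Topology ArithmeticFunction Ch Pp

theorem SAM (hW : WM_s) : SAM_s := by
  intro g Y s Δ e hs hΔ hsΔ hsY he hd hb hx y hy
  have hY : 0 < Y := by
    by_contra q
    nlinarith [mul_nonneg hs.le (neg_nonneg.2 (not_lt.1 q))]
  obtain ⟨σ, hσ⟩ : ∃ σ : ℝ, σ = s / (4 * Y) := ⟨_, rfl⟩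
  have e1 : σ * (4 * Y) = s := by rw [hσ]; field_simp
  have σ0 : 0 < σ := by rw [hσ]; positivity
  obtain ⟨G, hG⟩ : ∃ G : ℂ → ℂ, G = fun w => g w * exp (σ * w ^ 2) := ⟨_, rfl⟩
  have key : ∀ w : ℂ, ‖G w‖ = ‖g w‖ * Real.exp (σ * (w.re ^ 2 - w.im ^ 2)) := fun w => by
    rw [hG, norm_mul, norm_exp]; congr 2; simp [sq]
  have kx : ∀ x : ℝ, ‖G (x * I)‖ = ‖g (x * I)‖ * Real.exp (-(σ * x ^ 2)) := fun x => by
    rw [key]; simp
  have dG : DifferentiableOn ℂ G (Bx (-Y) Y (-(2 * Y)) (2 * Y)) := by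
    rw [hG]; exact hd.mul (by fun_prop)
  have ax : ∀ x : ℝ, |x| ≤ 2 * Y → (x * I : ℂ) ∈ Bx (-Y) Y (-(2 * Y)) (2 * Y) := fun x h => by
    simpa [Bx, hY.le] using abs_le.1 h
  obtain ⟨u, hu, hmax⟩ := (isCompact_Icc (a := -(2 * Y)) (b := 2 * Y)).exists_isMaxOn
    (f := fun x : ℝ => ‖G (x * I)‖) ⟨0, by constructor <;> linarith⟩
    (dG.continuousOn.comp (f := fun x : ℝ => (x * I : ℂ)) (by fun_prop)
      fun x h => ax x (abs_le.2 h)).norm
  obtain ⟨m, hm⟩ : ∃ m, m = max 1 ‖G (u * I)‖ := ⟨_, rfl⟩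
  have m1 : 1 ≤ m := hm ▸ le_max_left _ _
  have h0 : ∀ x : ℝ, |x| ≤ 2 * Y → ‖g (x * I)‖ ≤ m * Real.exp (σ * x ^ 2) := fun x h => by
    have a : ‖G (x * I)‖ ≤ m := (hmax (abs_le.1 h)).trans (hm ▸ le_max_right _ _)
    have b := mul_le_mul_of_nonneg_right a (Real.exp_pos (σ * x ^ 2)).le
    rwa [kx, mul_assoc, ← Real.exp_add, neg_add_cancel, Real.exp_zero, mul_one] at b
  have all : ∀ z ∈ Bx (-Y) Y (-(2 * Y)) (2 * Y),
      ‖g z‖ ≤ m * Real.exp (s * |z.re| + σ * z.im ^ 2) := fun z ⟨a0, a1, b0, b1⟩ => by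
    rcases le_total 0 z.re with q | q
    · have := hW g Y s m hY hs m1 (hd.mono fun w ⟨c0, c1⟩ => ⟨by linarith, c1⟩) (hσ ▸ h0)
        (fun w ⟨c0, c1⟩ => by
          have := hb w ⟨by linarith, c1⟩
          rwa [abs_of_nonneg c0] at this) z ⟨q, a1, b0, b1⟩
      rwa [← hσ, ← abs_of_nonneg q] at this
    · have ng : ∀ w ∈ Bx 0 Y (-(2 * Y)) (2 * Y), -w ∈ Bx (-Y) Y (-(2 * Y)) (2 * Y) :=
        fun w ⟨c0, c1, c2, c3⟩ => by
          simp only [Bx, mem_ofPred_eq, neg_re, neg_im]
          refine ⟨?_, ?_, ?_, ?_⟩ <;> linarith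
      have := hW (fun w => g (-w)) Y s m hY hs m1 (hd.comp (by fun_prop) ng)
        (fun x h => by
          have := h0 (-x) (by rwa [abs_neg])
          rwa [hσ, neg_sq, ofReal_neg, neg_mul] at this)
        (fun w hw => by
          have := hb _ (ng w hw)
          rwa [neg_re, abs_neg, abs_of_nonneg hw.1] at this) (-z) (by
          simp only [Bx, mem_ofPred_eq, neg_re, neg_im]
          refine ⟨?_, ?_, ?_, ?_⟩ <;> linarith)
      rwa [← hσ, neg_neg, neg_re, neg_im, neg_sq, ← abs_of_nonpos q] at this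
  have m2 : m ≤ 2 * e := by
    rcases le_total ‖G (u * I)‖ 1 with q | q
    · rw [hm, max_eq_left q]; linarith
    have mu : m = ‖G (u * I)‖ := by rw [hm, max_eq_right q]
    by_cases c : |u| ≤ 9 / 5 * Y
    swap
    · have a := mul_le_mul_of_nonneg_right (hb _ (ax u (abs_le.2 hu)))
        (Real.exp_pos (-(σ * u ^ 2))).le
      rw [← kx, ← mu, ← Real.exp_add] at a
      refine a.trans ((Real.exp_le_one_iff.2 ?_).trans (by linarith))
      have b : (9 / 5 * Y) ^ 2 ≤ u ^ 2 := by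
        rw [← sq_abs u]; exact pow_le_pow_left₀ (by positivity) (not_le.1 c).le 2
      have b' := mul_le_mul_of_nonneg_left b σ0.le
      have : (u * I : ℂ).re = 0 := by simp
      rw [this, abs_zero, ← e1]
      nlinarith [mul_pos σ0 (mul_pos hY hY)]
    obtain ⟨x, hx1, hx2⟩ := hx u c
    have r1 : 1 / s ≤ Y / 20 := by rw [div_le_iff₀ hs]; linarith
    have bl : ∀ w ∈ Metric.ball (u * I : ℂ) (1 / s), |w.re| ≤ 1 / s ∧
        w ∈ Bx (-Y) Y (-(2 * Y)) (2 * Y) := fun w hw => by
      rw [mem_ball_iff_norm] at hw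
      have a := (abs_re_le_norm _).trans hw.le
      have b := (abs_im_le_norm _).trans hw.le
      simp only [sub_re, sub_im, mul_re, mul_im, ofReal_re, ofReal_im, I_re, I_im, mul_zero,
        mul_one, sub_zero, add_zero] at a b
      refine ⟨a, ?_⟩
      rw [abs_le] at a b c
      refine ⟨?_, ?_, ?_, ?_⟩ <;> linarith [a.1, a.2, b.1, b.2, c.1, c.2]
    have e4 : Real.exp (1 + 1 / 80) ≤ 4 := by
      have a := Real.add_one_le_exp (-(1 / 80))
      have b : Real.exp (1 / 80) * Real.exp (-(1 / 80)) = 1 := by rw [← Real.exp_add]; simp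
      rw [Real.exp_add]
      nlinarith [Real.exp_one_lt_d9, Real.exp_pos (1 / 80 : ℝ), Real.exp_pos (1 : ℝ)]
    have sch := dist_le_div_mul_dist_of_mapsTo_ball (f := G) (c := u * I) (R₁ := 1 / s)
      (R₂ := 5 * m) (z := x * I) (dG.mono fun w hw => (bl w hw).2) (fun w hw => by
        obtain ⟨a, b⟩ := bl w hw
        rw [mem_closedBall_iff_norm]
        refine (norm_sub_le _ _).trans ?_
        have d := mul_le_mul_of_nonneg_right (all w b)
          (Real.exp_pos (σ * (w.re ^ 2 - w.im ^ 2))).le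
        rw [← key, mul_assoc, ← Real.exp_add] at d
        have f1 : s * |w.re| ≤ 1 := by rwa [le_div_iff₀' hs] at a
        have f2 : σ * w.re ^ 2 ≤ 1 / 80 := by
          have f3 : |w.re| ≤ Y / 20 := a.trans r1
          have f4 : σ * |w.re| ≤ s / 80 := by rw [← e1]; nlinarith
          rw [← sq_abs]
          nlinarith [abs_nonneg w.re]
        have f5 := mul_le_mul_of_nonneg_left ((Real.exp_le_exp.2 (show s * |w.re| +
          σ * w.im ^ 2 + σ * (w.re ^ 2 - w.im ^ 2) ≤ 1 + 1 / 80 by linarith)).trans e4)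
          (show 0 ≤ m by linarith)
        linarith) (by
        rw [mem_ball_iff_norm, ← sub_mul, ← ofReal_sub, norm_mul, norm_I, mul_one, norm_real,
          Real.norm_eq_abs, lt_div_iff₀' hs]
        nlinarith)
    rw [dist_eq_norm, dist_eq_norm, ← sub_mul, ← ofReal_sub, norm_mul, norm_I, mul_one, norm_real,
      Real.norm_eq_abs, div_div_eq_mul_div, div_one] at sch
    have t1 : ‖G (x * I)‖ ≤ e := by
      rw [kx]
      exact (mul_le_of_le_one_right (norm_nonneg _)
        (Real.exp_le_one_iff.2 (by nlinarith [sq_nonneg x]))).trans hx2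
    have t2 := norm_sub_norm_le (G (u * I)) (G (x * I))
    rw [norm_sub_rev, ← mu] at t2
    have t3 : s * |x - u| ≤ 1 / 10 := by nlinarith
    nlinarith
  have a := all y (by simpa [Bx, hY.le] using abs_le.1 hy)
  simp only [ofReal_re, ofReal_im, ne_eq, OfNat.ofNat_ne_zero, not_false_eq_true, zero_pow,
    mul_zero, add_zero] at a
  exact a.trans (mul_le_mul_of_nonneg_right m2 (Real.exp_pos _).le)

end Pool.Agent.MP_f0209c_nt.Rg

namespace Pool.Agent.MP_f0209c_nt.Rg
open Complex Set Filter Topology ArithmeticFunction Ch Pp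

namespace RECTaux

lemma vert {g : ℂ → ℂ} {a b c d s : ℝ} (hg : ContinuousOn g (Bx a b c d)) (h1 : a ≤ s) (h2 : s ≤ b)
    (h : c ≤ d) : IntervalIntegrable (fun t : ℝ => g (s + t * I)) MeasureTheory.volume c d := by
  refine ContinuousOn.intervalIntegrable_of_Icc h (hg.comp (by fun_prop) fun t ht => ?_)
  simpa [Bx, h1, h2] using ht

lemma hori {g : ℂ → ℂ} {a b c d t : ℝ} (hg : ContinuousOn g (Bx a b c d)) (h1 : c ≤ t) (h2 : t ≤ d)
    (h : a ≤ b) : IntervalIntegrable (fun s : ℝ => g (s + t * I)) MeasureTheory.volume a b := by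
  refine ContinuousOn.intervalIntegrable_of_Icc h (hg.comp (by fun_prop) fun s hs => ?_)
  simpa [Bx, h1, h2] using hs

lemma inv_le {q : ℂ} (h : ‖q‖ ≤ 1 / 2) : 1 - q ≠ 0 ∧ ‖(1 - q)⁻¹‖ ≤ 2 := by
  have a : 1 / 2 ≤ ‖1 - q‖ := by
    have := norm_sub_norm_le (1 : ℂ) q
    rw [norm_one] at this; linarith
  refine ⟨fun e => by rw [e, norm_zero] at a; norm_num at a, ?_⟩
  rw [norm_inv]; exact inv_le_of_inv_le₀ (by norm_num) (by linarith)

/-- the kernel times `F - F c` is holomorphic on the box -/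
lemma holo {F : ℂ → ℂ} {k y x : ℝ} (hk : 0 < k) (hy : 0 < y)
    (hF : DifferentiableOn ℂ F (Bx (-y) y (x - k / 2) (x + k / 2))) :
    ∃ H : ℂ → ℂ, DifferentiableOn ℂ H (Bx (-y) y (x - k / 2) (x + k / 2)) ∧
      ∀ z : ℂ, z ≠ x * I →
        H z = (F z - F (x * I)) * (1 - exp (-((2 * Real.pi / k : ℝ) * (z - x * I))))⁻¹ := by
  set ν : ℝ := 2 * Real.pi / k with hν
  have ν0 : 0 < ν := by have := Real.pi_pos; positivity
  set D : ℂ → ℂ := fun z => 1 - exp (-(ν * (z - x * I))) with hD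
  have nb : Bx (-y) y (x - k / 2) (x + k / 2) ∈ 𝓝 (x * I : ℂ) := by
    have o : IsOpen {z : ℂ | -y < z.re ∧ z.re < y ∧ x - k / 2 < z.im ∧ z.im < x + k / 2} := by
      exact (isOpen_lt continuous_const continuous_re).inter
        ((isOpen_lt continuous_re continuous_const).inter
        ((isOpen_lt continuous_const continuous_im).inter (isOpen_lt continuous_im continuous_const)))
    refine mem_of_superset (o.mem_nhds ?_) fun z hz => ⟨hz.1.le, hz.2.1.le, hz.2.2.1.le, hz.2.2.2.le⟩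
    simp [hy, hk]
  have dD : Differentiable ℂ D := by rw [hD]; fun_prop
  have D0 : D (x * I) = 0 := by simp [hD]
  refine ⟨fun z => dslope F (x * I) z / dslope D (x * I) z,
    ((differentiableOn_dslope nb).2 hF).div ((differentiableOn_dslope nb).2 dD.differentiableOn)
      fun z hz => ?_, fun z hz => ?_⟩
  · by_cases e : z = x * I
    · have : HasDerivAt D (ν : ℂ) (x * I) := by
        have := ((((hasDerivAt_id (x * I : ℂ)).sub_const (x * I)).const_mul (ν : ℂ)).neg.cexp).const_sub 1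
        simpa using this
      rw [e, dslope_same, this.deriv]; exact ofReal_ne_zero.2 ν0.ne'
    · rw [dslope_of_ne _ e, slope_def_field, D0, sub_zero]
      refine div_ne_zero (fun h => e ?_) (sub_ne_zero.2 e)
      obtain ⟨n, hn⟩ := exp_eq_one_iff.1 (sub_eq_zero.1 h).symm
      have h1 := congrArg re hn
      have h2 := congrArg im hn
      simp at h1 h2
      have h3 : z.im - x = -n * k := by
        have : ν * (z.im - x + n * k) = 0 := by
          have : ν * k = 2 * Real.pi := by rw [hν]; field_simp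
          linear_combination -h2 + n * this
        linarith [(mul_eq_zero.1 this).resolve_left ν0.ne']
      have h4 : n = 0 := by
        have a : (n : ℝ) < 1 := by nlinarith [hz.2.2.1]
        have b : (-1 : ℝ) < n := by nlinarith [hz.2.2.2]
        have a' : n < 1 := by exact_mod_cast a
        have b' : -1 < n := by exact_mod_cast b
        omega
      rw [h4] at h3
      apply Complex.ext
      · simpa using h1.resolve_left ν0.ne'
      · simp at h3 ⊢; linarith
  · have := sub_ne_zero.2 hz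
    show dslope F (x * I) z / dslope D (x * I) z = _
    rw [dslope_of_ne _ hz, dslope_of_ne _ hz, slope_def_field, slope_def_field, D0, sub_zero,
      div_div_div_cancel_right₀ this, div_eq_mul_inv]

end RECTaux
open RECTaux

theorem RECT : RECT_s := by
  intro F k y x B e k3 kπ hy _ he hF h0 hB hv hh
  have k0 : 0 < k := by linarith
  have y0 : 0 < y := by linarith
  obtain ⟨H, dH, eH⟩ := holo k0 y0 hF
  set ν : ℝ := 2 * Real.pi / k with hν
  have ν2 : 2 ≤ ν := by rw [hν, le_div_iff₀ k0]; linarith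
  have νk : ν * k = 2 * Real.pi := by rw [hν]; field_simp
  have ab : x - k / 2 ≤ x + k / 2 := by linarith
  have yy : -y ≤ y := by linarith
  have cg := integral_boundary_rect_eq_zero_of_differentiableOn H ⟨-y, x - k / 2⟩ ⟨y, x + k / 2⟩
    (dH.mono fun z hz => by
      rw [mem_reProdIm, uIcc_of_le yy, uIcc_of_le ab] at hz
      exact ⟨hz.1.1, hz.1.2, hz.2.1, hz.2.2⟩)
  dsimp only at cg
  set u := Real.exp (-(9 / 10 * y)) with hu
  set v := Real.exp (-y) with hvv
  have u0 : 0 < u := Real.exp_pos _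
  have v0 : 0 < v := Real.exp_pos _
  have u1 : u ≤ 1 := Real.exp_le_one_iff.2 (by linarith)
  have v1 : v ≤ 1 / 11 := by
    rw [hvv, Real.exp_neg, one_div]
    exact inv_anti₀ (by norm_num) (by linarith [Real.add_one_le_exp y])
  have vu : v ≤ u := Real.exp_le_exp.2 (by linarith)
  have pn : Real.exp (-(ν * y)) ≤ v * v := by
    rw [hvv, ← Real.exp_add]; exact Real.exp_le_exp.2 (by nlinarith)
  have vv : v * v ≤ 1 / 2 := by nlinarith
  -- horizontal sides
  have hz : ‖(∫ s in (-y)..y, H (s + (x - k / 2 : ℝ) * I)) - ∫ s in (-y)..y, H (s + (x + k / 2 : ℝ) * I)‖ ≤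
      e * |y - -y| := by
    rw [← intervalIntegral.integral_sub (hori dH.continuousOn le_rfl ab yy) (hori dH.continuousOn ab le_rfl yy)]
    refine intervalIntegral.norm_integral_le_of_norm_le_const fun s hs => ?_
    rw [uIoc_of_le yy] at hs
    have n1 : (s + (x - k / 2 : ℝ) * I : ℂ) ≠ x * I := fun h => by
      have := congrArg im h; simp at this; linarith
    have n2 : (s + (x + k / 2 : ℝ) * I : ℂ) ≠ x * I := fun h => by
      have := congrArg im h; simp at this; linarith
    have νc : (ν : ℂ) * k = 2 * Real.pi := by exact_mod_cast νk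
    have e1 : exp (-(ν * (s + (x - k / 2 : ℝ) * I - x * I))) = -(Real.exp (-(ν * s)) : ℝ) := by
      rw [show (-(ν * (s + (x - k / 2 : ℝ) * I - x * I)) : ℂ) = (-(ν * s) : ℝ) + Real.pi * I by
        push_cast; linear_combination I / 2 * νc, exp_add_pi_mul_I, ofReal_exp]
    have e2 : exp (-(ν * (s + (x + k / 2 : ℝ) * I - x * I))) = -(Real.exp (-(ν * s)) : ℝ) := by
      rw [show (-(ν * (s + (x + k / 2 : ℝ) * I - x * I)) : ℂ) = (-(ν * s) : ℝ) - Real.pi * I by
        push_cast; linear_combination -I / 2 * νc, exp_sub_pi_mul_I, ofReal_exp]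
    rw [eH _ n1, eH _ n2, e1, e2, ← sub_mul, sub_sub_sub_cancel_right, norm_mul, norm_sub_rev, norm_inv]
    have : 1 ≤ ‖(1 : ℂ) - -(Real.exp (-(ν * s)) : ℝ)‖ := by
      refine le_trans ?_ (re_le_norm _)
      rw [sub_neg_eq_add, add_re, one_re, ofReal_re]; linarith [Real.exp_pos (-(ν * s))]
    exact (mul_le_of_le_one_right (norm_nonneg _) (inv_le_one_of_one_le₀ this)).trans
      (hh s (abs_le.2 ⟨hs.1.le, hs.2⟩))
  have tt : ∀ t ∈ uIoc (x - k / 2) (x + k / 2), |t - x| ≤ k / 2 := fun t ht => by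
    rw [uIoc_of_le ab] at ht; exact abs_le.2 ⟨by linarith [ht.1], by linarith [ht.2]⟩
  -- right side
  have hr : ‖(∫ t in (x - k / 2)..(x + k / 2), H (y + t * I)) - k * (1 - F (x * I))‖ ≤
      2 * B * u * |x + k / 2 - (x - k / 2)| := by
    have : (k : ℂ) * (1 - F (x * I)) = ∫ _ in (x - k / 2)..(x + k / 2), (1 - F (x * I)) := by
      rw [intervalIntegral.integral_const, real_smul]; push_cast; ring
    rw [this, ← intervalIntegral.integral_sub (vert dH.continuousOn yy le_rfl ab) intervalIntegrable_const]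
    refine intervalIntegral.norm_integral_le_of_norm_le_const fun t ht => ?_
    have n1 : (y + t * I : ℂ) ≠ x * I := fun h => by
      have := congrArg re h; simp at this; linarith
    rw [eH _ n1]
    set q := exp (-(ν * (y + t * I - x * I))) with hq
    have nq : ‖q‖ ≤ v * v := by rw [hq, norm_exp]; simpa using pn
    obtain ⟨i0, i1⟩ := inv_le (nq.trans vv)
    have f1 := (hv t (tt t ht)).1
    have f2 : ‖F (y + t * I) - F (x * I)‖ ≤ 3 * B := by
      have := norm_add_le (F (y + t * I) - 1) (1 - F (x * I))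
      have := norm_sub_le 1 (F (x * I))
      rw [sub_add_sub_cancel, norm_one] at *
      nlinarith
    rw [show (F (y + t * I) - F (x * I)) * (1 - q)⁻¹ - (1 - F (x * I)) =
      (F (y + t * I) - 1) + (F (y + t * I) - F (x * I)) * q * (1 - q)⁻¹ by field_simp; ring]
    refine (norm_add_le _ _).trans ?_
    rw [norm_mul, norm_mul]
    have : ‖F (y + t * I) - F (x * I)‖ * ‖q‖ * ‖(1 - q)⁻¹‖ ≤ 3 * B * (v * v) * 2 := by gcongr
    have : B * (v * v) * 6 ≤ B * u := by
      rw [mul_assoc]; exact mul_le_mul_of_nonneg_left (by nlinarith) (by linarith)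
    linarith
  -- left side
  have cP : ContinuousOn (fun z => F z * exp (ν * (z - x * I))) (Bx (-y) y (x - k / 2) (x + k / 2)) :=
    hF.continuousOn.mul (by fun_prop)
  have hl : ‖(∫ t in (x - k / 2)..(x + k / 2), H ((-y : ℝ) + t * I)) +
      ∫ t in (x - k / 2)..(x + k / 2), F ((-y : ℝ) + t * I) * exp (ν * ((-y : ℝ) + t * I - x * I))‖ ≤
      2 * B * u * |x + k / 2 - (x - k / 2)| := by
    rw [← intervalIntegral.integral_add (vert dH.continuousOn le_rfl yy ab) (vert cP le_rfl yy ab)]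
    refine intervalIntegral.norm_integral_le_of_norm_le_const fun t ht => ?_
    have n1 : ((-y : ℝ) + t * I : ℂ) ≠ x * I := fun h => by
      have := congrArg re h; simp at this; linarith
    rw [eH _ n1, exp_neg]
    set q := exp (ν * ((-y : ℝ) + t * I - x * I)) with hq
    have q0 : q ≠ 0 := exp_ne_zero _
    have nq : ‖q‖ ≤ v * v := by rw [hq, norm_exp]; simpa using pn
    obtain ⟨i0, i1⟩ := inv_le (nq.trans vv)
    have f1 := (hv t (tt t ht)).2
    rw [← ofReal_neg] at f1
    set w := Real.exp (21 / 10 * y) with hw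
    have w1 : 1 ≤ w := Real.one_le_exp (by linarith)
    have wv : w * (v * v) * (v * v) = u * v := by
      simp only [hw, hvv, hu, ← Real.exp_add]; congr 1; ring
    have f2 : ‖F ((-y : ℝ) + t * I) - F (x * I)‖ ≤ 2 * B * w := by
      have := norm_sub_le (F ((-y : ℝ) + t * I)) (F (x * I))
      nlinarith
    have i2 : q - 1 ≠ 0 := fun h => i0 (by linear_combination -h)
    rw [show (F ((-y : ℝ) + t * I) - F (x * I)) * (1 - q⁻¹)⁻¹ + F ((-y : ℝ) + t * I) * q =
      F (x * I) * q - (F ((-y : ℝ) + t * I) - F (x * I)) * q * q * (1 - q)⁻¹ by field_simp; ring]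
    refine (norm_sub_le _ _).trans ?_
    rw [norm_mul, norm_mul, norm_mul, norm_mul]
    have a1 : ‖F ((-y : ℝ) + t * I) - F (x * I)‖ * ‖q‖ * ‖q‖ * ‖(1 - q)⁻¹‖ ≤
      2 * B * w * (v * v) * (v * v) * 2 := by gcongr
    have a2 : ‖F (x * I)‖ * ‖q‖ ≤ B * (v * v) := by gcongr
    have a3 : B * (v * v + 4 * (u * v)) ≤ B * u := mul_le_mul_of_nonneg_left (by nlinarith) (by linarith)
    have a4 : 2 * B * w * (v * v) * (v * v) * 2 = 4 * B * (u * v) := by rw [← wv]; ring
    nlinarith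
  have fin : (∫ t in (x - k / 2)..(x + k / 2),
      F ((-y : ℝ) + t * I) * exp (ν * ((-y : ℝ) + t * I - x * I))) =
      exp (-(2 * Real.pi / k * x * I)) * ∫ t in (x - k / 2)..(x + k / 2),
        F (-y + t * I) * exp (2 * Real.pi / k * (-y + t * I)) := by
    rw [← intervalIntegral.integral_const_mul]
    refine intervalIntegral.integral_congr fun t _ => ?_
    show _ = _ * (_ * _)
    rw [mul_left_comm, ← exp_add, hν]; push_cast; congr 2; ring
  rw [fin] at hl
  rw [show x + k / 2 - (x - k / 2) = k by ring, abs_of_pos k0] at hl hr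
  rw [show y - -y = 2 * y by ring, abs_of_pos (by linarith)] at hz
  generalize (∫ t in (x - k / 2)..(x + k / 2),
    F (-y + t * I) * exp (2 * Real.pi / k * (-y + t * I))) = J at hl ⊢
  generalize (∫ s in (-y)..y, H (s + (x - k / 2 : ℝ) * I)) = a1 at *
  generalize (∫ s in (-y)..y, H (s + (x + k / 2 : ℝ) * I)) = a2 at *
  generalize (∫ t in (x - k / 2)..(x + k / 2), H (y + t * I)) = a3 at *
  generalize (∫ t in (x - k / 2)..(x + k / 2), H ((-y : ℝ) + t * I)) = a4 at *
  have kc : (k : ℂ) ≠ 0 := ofReal_ne_zero.2 k0.ne'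
  simp only [smul_eq_mul] at cg
  have id : F (x * I) - 1 - exp (-(2 * Real.pi / k * x * I)) * (J / k) =
      ((a3 - k * (1 - F (x * I))) - (a4 + exp (-(2 * Real.pi / k * x * I)) * J) - I * (a1 - a2)) / k := by
    generalize exp (-(2 * Real.pi / k * x * I)) = E
    field_simp
    linear_combination I * cg - (a3 - a4) * I_mul_I
  rw [id, norm_div, norm_real, Real.norm_of_nonneg k0.le, div_le_iff₀ k0]
  have b1 := norm_sub_le ((a3 - k * (1 - F (x * I))) - (a4 + exp (-(2 * Real.pi / k * x * I)) * J))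
    (I * (a1 - a2))
  have b2 := norm_sub_le (a3 - k * (1 - F (x * I))) (a4 + exp (-(2 * Real.pi / k * x * I)) * J)
  rw [norm_mul, norm_I, one_mul] at b1
  have : 0 ≤ B * u * k := by positivity
  have : 0 ≤ y * e * (k - 2) := mul_nonneg (by positivity) (by linarith)
  nlinarith

end Pool.Agent.MP_f0209c_nt.Rg

namespace Pool.Agent.MP_f0209c_nt.Rg
open Complex Set Filter Topology ArithmeticFunction Ch Pp

namespace PERaux

lemma shift {Φ : ℝ → ℂ} {W k e p q : ℝ} (hc : ContinuousOn Φ (Icc (-W) W)) (k0 : 0 ≤ k)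
    (hp : |p| ≤ W - k / 2) (hq : |q| ≤ W - k / 2)
    (h : ∀ t, -W ≤ t → t + k ≤ W → ‖Φ (t + k) - Φ t‖ ≤ e) :
    ‖(∫ t in (p - k / 2)..(p + k / 2), Φ t) - ∫ t in (q - k / 2)..(q + k / 2), Φ t‖ ≤ e * |q - p| := by
  obtain ⟨p1, p2⟩ := abs_le.1 hp
  obtain ⟨q1, q2⟩ := abs_le.1 hq
  have ii : ∀ a b, -W ≤ a → a ≤ W → -W ≤ b → b ≤ W → IntervalIntegrable Φ MeasureTheory.volume a b :=
    fun a b a1 a2 b1 b2 => (hc.mono (uIcc_subset_Icc ⟨a1, a2⟩ ⟨b1, b2⟩)).intervalIntegrable
  have i1 := ii (p - k / 2) (q - k / 2) (by linarith) (by linarith) (by linarith) (by linarith)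
  have i2 := (ii (p - k / 2 + k) (q - k / 2 + k) (by linarith) (by linarith) (by linarith)
    (by linarith)).comp_add_right k
  rw [add_sub_cancel_right, add_sub_cancel_right] at i2
  rw [intervalIntegral.integral_interval_sub_interval_comm
    (ii _ _ (by linarith) (by linarith) (by linarith) (by linarith))
    (ii _ _ (by linarith) (by linarith) (by linarith) (by linarith)) i1,
    show p + k / 2 = p - k / 2 + k by ring, show q + k / 2 = q - k / 2 + k by ring,
    ← intervalIntegral.integral_comp_add_right, ← intervalIntegral.integral_sub i1 i2,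
    show q - p = q - k / 2 - (p - k / 2) by ring]
  refine intervalIntegral.norm_integral_le_of_norm_le_const fun t ht => ?_
  have := uIcc_subset_Icc (a₂ := -W) (b₂ := W - k) ⟨by linarith, by linarith⟩ ⟨by linarith, by linarith⟩
    (uIoc_subset_uIcc ht)
  rw [norm_sub_rev]; exact h t this.1 (by linarith [this.2])

end PERaux
open PERaux

theorem PER (hWM : WM_s) (hRECT : RECT_s) : PER_s := by
  intro F Y k y e a a' k3 kπ hy yY hY he eY ha ha' hF hb hp za za'
  have k4 : k ≤ 4 := kπ.trans Real.pi_le_four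
  have k0 : 0 < k := by linarith
  have Y0 : 0 < Y := by linarith
  set σ : ℝ := 1 / 10 / (4 * Y) with hσ
  have σ0 : 0 < σ := by positivity
  have σY : σ * Y = 1 / 40 := by rw [hσ]; field_simp; norm_num
  set u := Real.exp (-(9 / 10 * y)) with hu
  set v := Real.exp (-y) with hv
  have u0 : 0 < u := Real.exp_pos _
  have v0 : 0 < v := Real.exp_pos _
  have vu : v ≤ u := Real.exp_le_exp.2 (by linarith)
  have u1 : u ≤ 1 / 1000 := by
    have h1 : (1000 : ℝ) ≤ Real.exp 9 := by
      have := pow_le_pow_left₀ (by norm_num) Real.exp_one_gt_d9.le 9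
      rw [← Real.exp_nat_mul] at this; norm_num at this; linarith
    rw [hu, Real.exp_neg, one_div]
    exact inv_anti₀ (by norm_num) (h1.trans (Real.exp_le_exp.2 (by linarith)))
  have ye : y * e ≤ v := by nlinarith
  have cF : ∀ s : ℝ, |s| ≤ Y → ContinuousOn (fun t : ℝ => F (s + t * I)) (Icc (-(2 * Y)) (2 * Y)) :=
    fun s hs => hF.continuousOn.comp (by fun_prop) fun t ht => by
      simpa [Bx, (abs_le.1 hs).1, (abs_le.1 hs).2] using ht
  have c0 := cF 0 (by simp [Y0.le])
  simp only [ofReal_zero, zero_add] at c0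
  obtain ⟨x0, hx0, mx⟩ := isCompact_Icc.exists_isMaxOn (nonempty_Icc.2 (by linarith))
    (f := fun t : ℝ => ‖F (t * I) - 1‖ * Real.exp (-(σ * t ^ 2)))
    ((c0.sub continuousOn_const).norm.mul (by fun_prop))
  set M := ‖F (x0 * I) - 1‖ * Real.exp (-(σ * x0 ^ 2)) with hM
  have M0 : 0 ≤ M := by positivity
  have E1 : ∀ x : ℝ, 1 ≤ Real.exp (σ * x ^ 2) := fun x => Real.one_le_exp (by positivity)
  have m1 : ∀ x : ℝ, |x| ≤ 2 * Y → ‖F (x * I) - 1‖ ≤ M * Real.exp (σ * x ^ 2) := fun x hx => by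
    have : ‖F (x * I) - 1‖ * Real.exp (-(σ * x ^ 2)) ≤ M := mx (abs_le.1 hx)
    rwa [Real.exp_neg, ← div_eq_mul_inv, div_le_iff₀ (Real.exp_pos _)] at this
  have m2 : ∀ x : ℝ, |x| ≤ 2 * Y → ‖F (x * I)‖ ≤ (M + 1) * Real.exp (σ * x ^ 2) := fun x hx => by
    have := norm_add_le (F (x * I) - 1) 1
    rw [sub_add_cancel, norm_one] at this
    linarith [m1 x hx, E1 x]
  have sub : Bx 0 Y (-(2 * Y)) (2 * Y) ⊆ Bx (-Y) Y (-(2 * Y)) (2 * Y) :=
    fun z hz => ⟨by linarith [hz.1], hz.2⟩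
  have w1 := hWM (fun z => (F z - 1) * exp z) Y (1 / 10) (M + 1) Y0 (by norm_num) (by linarith)
    (((hF.mono sub).sub_const 1).mul (by fun_prop))
    (fun x hx => by
      rw [norm_mul, norm_exp_ofReal_mul_I, mul_one]; linarith [m1 x hx, E1 x])
    (fun z hz => (hb z hz).1.trans_eq (by congr 1; ring))
  have w2 := hWM (fun z => F (-z) * exp (-(2 * z))) Y (1 / 10) (M + 1) Y0 (by norm_num) (by linarith)
    ((hF.comp (by fun_prop) fun z hz => by
      obtain ⟨a1, a2, a3, a4⟩ := hz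
      refine ⟨?_, ?_, ?_, ?_⟩ <;> simp only [neg_re, neg_im] <;> linarith).mul (by fun_prop))
    (fun x hx => by
      have := m2 (-x) (by rwa [abs_neg])
      rw [norm_mul, show (-(2 * (x * I)) : ℂ) = (-(2 * x) : ℝ) * I by push_cast; ring,
        norm_exp_ofReal_mul_I, mul_one]
      rwa [neg_sq, ofReal_neg, neg_mul] at this)
    (fun z hz => (hb z hz).2.trans_eq (by congr 1; ring))
  rw [← hσ] at w1 w2
  set Φ : ℝ → ℂ := fun t => F (-y + t * I) * exp (2 * Real.pi / k * (-y + t * I)) with hΦ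
  set J : ℝ → ℂ := fun x => ∫ t in (x - k / 2)..(x + k / 2), Φ t with hJ
  have key : ∀ x : ℝ, |x| ≤ 2 * Y - k / 2 →
      ‖F (x * I) - 1 - exp (-(2 * Real.pi / k * x * I)) * (J x / k)‖ ≤
        30 * (M + 1) * Real.exp (σ * x ^ 2) * u + v := fun x hx => by
    obtain ⟨x1, x2⟩ := abs_le.1 hx
    have hB : ∀ t : ℝ, |t - x| ≤ k / 2 →
        (M + 1) * Real.exp (σ * t ^ 2) ≤ 3 * (M + 1) * Real.exp (σ * x ^ 2) := fun t ht => by
      obtain ⟨t1, t2⟩ := abs_le.1 ht
      have a1 : t ^ 2 - x ^ 2 ≤ 40 * Y := by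
        have : |t ^ 2 - x ^ 2| ≤ 2 * (4 * Y) := by
          rw [sq_sub_sq, mul_comm, abs_mul]
          exact mul_le_mul (by linarith) (abs_le.2 ⟨by linarith, by linarith⟩) (abs_nonneg _) (by norm_num)
        linarith [le_abs_self (t ^ 2 - x ^ 2)]
      have a2 : Real.exp (σ * t ^ 2) ≤ Real.exp 1 * Real.exp (σ * x ^ 2) := by
        rw [← Real.exp_add]; exact Real.exp_le_exp.2 (by nlinarith)
      have a3 : Real.exp 1 * Real.exp (σ * x ^ 2) ≤ 3 * Real.exp (σ * x ^ 2) :=
        mul_le_mul_of_nonneg_right (by linarith [Real.exp_one_lt_d9]) (Real.exp_pos _).le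
      nlinarith
    have b1 : 1 ≤ 3 * (M + 1) * Real.exp (σ * x ^ 2) := by nlinarith [E1 x]
    have := hRECT F k y x (3 * (M + 1) * Real.exp (σ * x ^ 2)) e k3 kπ hy (by linarith) he
      (hF.mono fun z hz => ⟨by linarith [hz.1], by linarith [hz.2.1], by linarith [hz.2.2.1],
        by linarith [hz.2.2.2]⟩)
      ((m2 x (by linarith)).trans (hB x (by simp; linarith))) b1 (fun t ht => ?_) (fun s hs => ?_)
    · refine this.trans ?_
      rw [← hu]; linarith
    · obtain ⟨t1, t2⟩ := abs_le.1 ht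
      have a1 := w1 (y + t * I) (by simp [Bx]; refine ⟨?_, ?_, ?_, ?_⟩ <;> linarith)
      have a2 := w2 (y - t * I) (by simp [Bx]; refine ⟨?_, ?_, ?_, ?_⟩ <;> linarith)
      rw [norm_mul, norm_exp] at a1 a2
      simp only [add_re, ofReal_re, mul_re, I_re, mul_zero, ofReal_im, I_im, mul_one, sub_self, add_zero,
        add_im, mul_im, zero_add, sub_re, sub_zero, sub_im, zero_sub, neg_sq, neg_re, re_ofNat, im_ofNat,
        zero_mul] at a1 a2
      rw [show (-(y - t * I) : ℂ) = -y + t * I by ring] at a2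
      rw [← le_div_iff₀ (Real.exp_pos _), mul_div_assoc, ← Real.exp_sub] at a1 a2
      constructor
      · refine a1.trans (le_trans (le_of_eq ?_) (mul_le_mul_of_nonneg_right (hB t ht) u0.le))
        rw [mul_assoc, ← Real.exp_add]; congr 2; ring
      · refine a2.trans (le_trans (le_of_eq ?_)
          (mul_le_mul_of_nonneg_right (hB t ht) (Real.exp_pos _).le))
        rw [mul_assoc, ← Real.exp_add]; congr 2; ring
    · have := hp (s + (x - k / 2 : ℝ) * I) (by
        simp [Bx]; refine ⟨?_, ?_, ?_, ?_⟩ <;> linarith [(abs_le.1 hs).1, (abs_le.1 hs).2])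
      rwa [show (s + (x - k / 2 : ℝ) * I + k * I : ℂ) = s + (x + k / 2 : ℝ) * I by push_cast; ring] at this
  have kc : (k : ℂ) ≠ 0 := ofReal_ne_zero.2 k0.ne'
  have sh : ∀ p q : ℝ, |p| ≤ 2 * Y - k / 2 → |q| ≤ Y → ‖J p / k - J q / k‖ ≤ v := fun p q h1 h2 => by
    have c1 := cF (-y) (by rw [abs_neg, abs_of_pos (by linarith)]; exact yY)
    rw [ofReal_neg] at c1
    have := shift (Φ := Φ) (e := e) (c1.mul (by fun_prop)) k0.le h1 (h2.trans (by linarith)) fun t t1 t2 => by
      have a1 := hp (-y + t * I) (by simp [Bx]; refine ⟨?_, ?_, ?_⟩ <;> linarith)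
      have a2 : exp (2 * Real.pi / k * (-y + (t + k : ℝ) * I)) = exp (2 * Real.pi / k * (-y + t * I)) := by
        rw [← exp_periodic (2 * Real.pi / k * (-y + t * I))]; congr 1; push_cast; field_simp; ring
      have a3 : ‖exp (2 * Real.pi / k * (-y + t * I))‖ ≤ 1 := by
        rw [norm_exp, show (2 * Real.pi / k : ℂ) = (2 * Real.pi / k : ℝ) by push_cast; ring, re_ofReal_mul]
        refine Real.exp_le_one_iff.2 (mul_nonpos_of_nonneg_of_nonpos (by have := Real.pi_pos; positivity) ?_)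
        simp; linarith
      simp only [hΦ]
      rw [a2, ← sub_mul, norm_mul, show (-y + (t + k : ℝ) * I : ℂ) = -y + t * I + k * I by push_cast; ring]
      exact (mul_le_of_le_one_right (norm_nonneg _) a3).trans a1
    rw [← sub_div, norm_div, norm_real, Real.norm_of_nonneg k0.le, div_le_iff₀ k0]
    have a4 : |q - p| ≤ 3 * Y := (abs_sub _ _).trans (by linarith)
    exact this.trans (by nlinarith [mul_le_mul_of_nonneg_left a4 he])
  have un : ∀ x : ℝ, ‖exp (-(2 * Real.pi / k * x * I))‖ = 1 := fun x => by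
    rw [show (-(2 * Real.pi / k * x * I) : ℂ) = (-(2 * Real.pi / k * x) : ℝ) * I by push_cast; ring,
      norm_exp_ofReal_mul_I]
  have zer : ∀ x : ℝ, x ^ 2 ≤ Y → F (x * I) = 0 → |x| ≤ Y ∧ |x| ≤ 2 * Y - k / 2 ∧
      ‖exp (2 * Real.pi / k * x * I) + J x / k‖ ≤ 90 * (M + 1) * u + v := fun x hx h0 => by
    have a1 : |x| ≤ Y := abs_le_of_sq_le_sq (by nlinarith) Y0.le
    have a2 : |x| ≤ 2 * Y - k / 2 := by linarith
    refine ⟨a1, a2, ?_⟩
    have a3 := key x a2
    have a4 : Real.exp (σ * x ^ 2) ≤ 3 :=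
      (Real.exp_le_exp.2 (by nlinarith)).trans (Real.exp_one_lt_d9.le.trans (by norm_num))
    rw [h0, show (0 : ℂ) - 1 - exp (-(2 * Real.pi / k * x * I)) * (J x / k) =
      -exp (-(2 * Real.pi / k * x * I)) * (exp (2 * Real.pi / k * x * I) + J x / k) by
        rw [mul_add, neg_mul, ← exp_add, neg_add_cancel, exp_zero]; ring, norm_mul, norm_neg, un, one_mul] at a3
    have : (M + 1) * u * Real.exp (σ * x ^ 2) ≤ (M + 1) * u * 3 := by gcongr
    linarith
  have un' : ∀ x : ℝ, ‖exp (2 * Real.pi / k * x * I)‖ = 1 := fun x => by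
    have := un (-x); rwa [ofReal_neg, mul_neg, neg_mul, neg_neg] at this
  obtain ⟨a1, a2, a3⟩ := zer a ha za
  obtain ⟨b1, b2, b3⟩ := zer a' ha' za'
  have M2 : M ≤ 2 := by
    have hx := abs_le.2 hx0
    have eM : ‖F (x0 * I) - 1‖ = M * Real.exp (σ * x0 ^ 2) := by
      rw [hM, mul_assoc, ← Real.exp_add, neg_add_cancel, Real.exp_zero, mul_one]
    have := E1 x0
    by_cases q : |x0| ≤ 2 * Y - k / 2
    · have c1 := key x0 q
      have c2 := sh x0 a q a1
      have c3 := norm_add_le (F (x0 * I) - 1 - exp (-(2 * Real.pi / k * x0 * I)) * (J x0 / k))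
        (exp (-(2 * Real.pi / k * x0 * I)) * (J x0 / k))
      have c4 := norm_add_le (J x0 / k - J a / k) (J a / k)
      have c5 := norm_sub_le (exp (2 * Real.pi / k * a * I) + J a / k) (exp (2 * Real.pi / k * a * I))
      rw [sub_add_cancel, norm_mul, un, one_mul, eM] at c3
      rw [sub_add_cancel] at c4
      rw [add_sub_cancel_left, un'] at c5
      generalize Real.exp (σ * x0 ^ 2) = E at c1 c3 this
      have c6 : (M + 1) * E * u ≤ (M + 1) * E * (1 / 1000) := by gcongr
      have c7 : (M + 1) * u ≤ (M + 1) * (1 / 1000) := by gcongr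
      have c8 : (M + 1) * 1 ≤ (M + 1) * E := by gcongr
      by_contra hc
      linarith [mul_le_mul_of_nonneg_right (not_le.1 hc).le (show 0 ≤ E by linarith)]
    · have c1 := (hb (x0 * I) (by simp [Bx, Y0.le]; exact hx0)).1
      rw [norm_mul, norm_exp_ofReal_mul_I, mul_one, eM] at c1
      have c2 : Real.exp (Y / 20 + (x0 * I : ℂ).re / 40) ≤ Real.exp (σ * x0 ^ 2) := by
        refine Real.exp_le_exp.2 ?_
        have d1 : (2 * Y - 2) ^ 2 ≤ x0 ^ 2 := by
          rw [← sq_abs x0]; exact pow_le_pow_left₀ (by linarith) (by linarith [not_le.1 q]) 2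
        have d2 : 2 * Y * Y ≤ x0 ^ 2 := by nlinarith
        have d3 : σ * (2 * Y * Y) = Y / 20 := by linear_combination 2 * Y * σY
        simp; linarith [mul_le_mul_of_nonneg_left d2 σ0.le]
      have := le_of_mul_le_mul_right ((c1.trans c2).trans_eq (one_mul _).symm) (Real.exp_pos _)
      linarith
  have c1 := sh a a' a2 b1
  have c2 : exp (2 * Real.pi / k * (a' - a) * I) - 1 = exp (-(2 * Real.pi / k * a * I)) *
      ((exp (2 * Real.pi / k * a' * I) + J a' / k) - (exp (2 * Real.pi / k * a * I) + J a / k) +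
        (J a / k - J a' / k)) := by
    rw [show (exp (2 * Real.pi / k * a' * I) + J a' / k) - (exp (2 * Real.pi / k * a * I) + J a / k) +
      (J a / k - J a' / k) = exp (2 * Real.pi / k * a' * I) - exp (2 * Real.pi / k * a * I) by ring,
      mul_sub (exp _), ← exp_add, ← exp_add, neg_add_cancel, exp_zero]
    congr 2; ring
  have c3 : 5 * u ≤ Real.exp (-(y / 2)) := by
    rw [hu, show -(y / 2) = 2 / 5 * y + -(9 / 10 * y) by ring, Real.exp_add]
    exact mul_le_mul_of_nonneg_right (by linarith [Real.add_one_le_exp (2 / 5 * y)]) u0.le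
  rw [c2, norm_mul, un, one_mul]
  refine (norm_add_le _ _).trans ((add_le_add (norm_sub_le _ _) c1).trans ?_)
  have : (M + 1) * u ≤ 3 * u := by gcongr; linarith
  linarith

end Pool.Agent.MP_f0209c_nt.Rg

namespace Pool.Agent.MP_f0209c_nt.Rg
open Complex Set Filter Topology ArithmeticFunction Ch Pp

theorem RES : RES_s := by
  classical
  intro g O W a hO
  induction W using Finset.induction_on generalizing g with
  | empty => exact fun _ _ hg _ => ⟨g, hg, fun z _ => by simp⟩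
  | insert j W hj ih =>
    intro hi hm hg h0
    have hj' : a j ∈ O := hm j (Finset.mem_insert_self _ _)
    have e : ∀ z, g z = (z - a j) * dslope g (a j) z := fun z => by
      have := sub_smul_dslope g (a j) z
      rw [h0 j (Finset.mem_insert_self _ _), sub_zero, smul_eq_mul] at this
      exact this.symm
    obtain ⟨V, hV, hz⟩ := ih (dslope g (a j))
      (hi.mono (by simp only [Finset.coe_insert]; exact subset_insert _ _))
      (fun i hi => hm i (Finset.mem_insert_of_mem hi))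
      ((differentiableOn_dslope (hO.mem_nhds hj')).2 hg) fun i hiW => by
        have h := e (a i)
        rw [h0 i (Finset.mem_insert_of_mem hiW)] at h
        refine (mul_eq_zero.1 h.symm).resolve_left fun q => hj ?_
        have : i = j := hi (by simp [hiW]) (by simp) (sub_eq_zero.1 q)
        exact this ▸ hiW
    exact ⟨V, hV, fun z hz' => by rw [Finset.prod_insert hj, e z, hz z hz', mul_assoc]⟩

end Pool.Agent.MP_f0209c_nt.Rg

namespace Pool.Agent.MP_f0209c_nt.Rg
open Complex Set Filter Topology ArithmeticFunction Ch Pp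

theorem PACK : PACK_s := by
  intro J x a w s hs hw hg hm
  have lt : ∀ i ∈ J, ∀ j ∈ J, i < j → ⌊(x i - a) / s⌋₊ < ⌊(x j - a) / s⌋₊ := fun i hi j hj h => by
    have h0 : 0 ≤ (x i - a) / s := div_nonneg (by linarith [(hm i hi).1]) hs.le
    have h1 : (x i - a) / s + 1 ≤ (x j - a) / s := by
      rw [div_add_one hs.ne']
      exact div_le_div_of_nonneg_right (by linarith [hg i hi j hj h]) hs.le
    have := Nat.floor_le_floor h1
    rw [Nat.floor_add_one h0] at this
    exact this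
  have c : J.card ≤ (Finset.range (⌊w / s⌋₊ + 1)).card :=
    Finset.card_le_card_of_injOn (fun j => ⌊(x j - a) / s⌋₊)
      (fun j hj => by
        have : (x j - a) / s ≤ w / s :=
          div_le_div_of_nonneg_right (by linarith [(hm j hj).2]) hs.le
        simpa [Nat.lt_succ_iff] using Nat.floor_le_floor this)
      fun i hi j hj e => by
        rcases lt_trichotomy i j with h | h | h
        · exact absurd e (lt i hi j hj h).ne
        · exact h
        · exact absurd e (lt j hj i hi h).ne'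
  rw [Finset.card_range] at c
  have := Nat.floor_le (div_nonneg hw hs.le)
  have c' : (J.card : ℝ) ≤ ⌊w / s⌋₊ + 1 := by exact_mod_cast c
  linarith

end Pool.Agent.MP_f0209c_nt.Rg

namespace Pool.Agent.MP_f0209c_nt.Rg
open Complex Set Filter Topology ArithmeticFunction Ch Pp

theorem LAT : LAT_s := by
  refine ⟨fun x e h => ?_, fun T x y h1 hx hy h2 => ?_⟩
  · have p0 := Real.pi_pos
    refine ⟨round (x / (2 * Real.pi)), ?_⟩
    set m := round (x / (2 * Real.pi))
    have hr : |x / (2 * Real.pi) - m| ≤ 1 / 2 := abs_sub_round _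
    set t := x - 2 * Real.pi * m with ht
    have e1 : t / 2 = Real.pi * (x / (2 * Real.pi) - m) := by rw [ht]; field_simp
    have h2 : |t / 2| ≤ Real.pi / 2 := by
      rw [e1, abs_mul, abs_of_pos p0]; nlinarith
    have e2 : exp (x * I) = exp (I * t) := by
      rw [ht, ← mul_one (exp (I * _)), ← exp_int_mul_two_pi_mul_I m, ← exp_add]
      congr 1; push_cast; ring
    rw [e2, norm_exp_I_mul_ofReal_sub_one, Real.norm_eq_abs, abs_mul, abs_two] at h
    have h3 := Real.mul_abs_le_abs_sin h2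
    rw [abs_div, abs_two, div_mul_eq_mul_div, div_le_iff₀ p0] at h3
    nlinarith [Real.pi_le_four, abs_nonneg (Real.sin (t / 2))]
  · have x0 : 0 < x := by linarith
    have y0 : 0 < y := by linarith
    have T0 : 0 < T := by linarith
    have a1 : Real.log T ≤ Real.log x := Real.log_le_log T0 hx
    have a2 : Real.log x ≤ Real.log y := Real.log_le_log x0 hy
    have a3 : Real.log y - Real.log T ≤ 1 := by
      rw [← Real.log_div y0.ne' T0.ne']
      have := Real.log_le_sub_one_of_pos (div_pos y0 T0)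
      have : y / T ≤ 2 := by rw [div_le_iff₀ T0]; linarith
      linarith
    have a4 : x * (Real.log y - Real.log x) ≤ y - x := by
      rw [← Real.log_div y0.ne' x0.ne']
      have := mul_le_mul_of_nonneg_left (Real.log_le_sub_one_of_pos (div_pos y0 x0)) x0.le
      rwa [mul_sub, mul_one, mul_div_cancel₀ _ x0.ne'] at this
    rw [abs_le]
    constructor <;> nlinarith [mul_nonneg x0.le (sub_nonneg.2 a2),
      mul_nonneg (sub_nonneg.2 hy) (sub_nonneg.2 (a1.trans a2)),
      mul_nonneg (sub_nonneg.2 hy) (sub_nonneg.2 a3)]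

end Pool.Agent.MP_f0209c_nt.Rg
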